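import Pool.Agent.Work.MP_611b97_al.K.Defs

/-!
# The groups `Γ''` and `Q''` (helper57)
-/

set_option autoImplicit false

namespace K611

open Subgroup

open scoped commutatorElement
section Engel

universe u v

variable {G : Type u} [Group G] {G' : Type v} [Group G']

private theorem asm_map (f : G →* G') (a b : G) (n : ℕ) :
    f ((fun z => z⁻¹ * b⁻¹ * z * b)^[n] a) =
      (fun z => z⁻¹ * (f b)⁻¹ * z * f b)^[n] (f a) := by
  induction n with
  | zero => rfl
  | succ n ih =>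
    rw [Function.iterate_succ_apply', Function.iterate_succ_apply', ← ih]
    simp only [map_mul, map_inv]

private theorem asm_one (b : G) (n : ℕ) : (fun z => z⁻¹ * b⁻¹ * z * b)^[n] (1 : G) = 1 := by
  induction n with
  | zero => rfl
  | succ n ih =>
    rw [Function.iterate_succ_apply', ih]
    group

private theorem asm_le {a b : G} {n m : ℕ} (h : (fun z => z⁻¹ * b⁻¹ * z * b)^[n] a = 1)
    (hnm : n ≤ m) : (fun z => z⁻¹ * b⁻¹ * z * b)^[m] a = 1 := by
  obtain ⟨k, rfl⟩ := Nat.exists_eq_add_of_le hnm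
  rw [Nat.add_comm, Function.iterate_add_apply, h, asm_one]

private theorem asm_lcs (a b : G) (n : ℕ) :
    (fun z => z⁻¹ * b⁻¹ * z * b)^[n] a ∈ Subgroup.lowerCentralSeries (⊤ : Subgroup G) n := by
  induction n with
  | zero => exact mem_top _
  | succ n ih =>
    rw [Function.iterate_succ_apply']
    set z := (fun z => z⁻¹ * b⁻¹ * z * b)^[n] a with hz
    show z⁻¹ * b⁻¹ * z * b ∈ Subgroup.lowerCentralSeries (⊤ : Subgroup G) (n + 1)
    have h1 : z⁻¹ * b⁻¹ * z * b = ⁅z⁻¹, b⁻¹⁆ := by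
      rw [commutatorElement_def, inv_inv, inv_inv]
    rw [h1, Subgroup.mem_lowerCentralSeries_succ_iff]
    exact subset_closure ⟨z⁻¹, inv_mem ih, b⁻¹, mem_top _, rfl⟩

private theorem asm_nilp [Finite G] (hG : IsPGroup 3 G) (a b : G) :
    ∃ n : ℕ, (fun z => z⁻¹ * b⁻¹ * z * b)^[n] a = 1 := by
  have : Fact (Nat.Prime 3) := ⟨by norm_num⟩
  have hnil := hG.isNilpotent
  obtain ⟨n, hn⟩ := (Subgroup.nilpotent_iff_lowerCentralSeries (G := G)).1 hnil
  refine ⟨n, ?_⟩
  have h := asm_lcs a b n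
  rw [hn, mem_bot] at h
  exact h

end Engel

section

variable (P : ℕ → Marked)

/-- evaluation of words in the marked group `P j` -/
private def asmPhi (j : ℕ) : FreeGroup (Fin 4) →* (P j).H := FreeGroup.lift (P j).h

private theorem asmPhi_of (j : ℕ) (i : Fin 4) : asmPhi P j (FreeGroup.of i) = (P j).h i :=
  FreeGroup.lift_apply_of

private theorem asm_rho (j : ℕ) (w : FreeGroup (Fin 4)) :
    (P j).rho (Pres3.mk relD w) = QuotientGroup.mk' (P j).Z (asmPhi P j w) := by
  have h : (P j).rho.comp (Pres3.mk relD) =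
      (QuotientGroup.mk' (P j).Z).comp (asmPhi P j) := by
    ext i
    show (P j).rho (Dx i) = QuotientGroup.mk' (P j).Z (asmPhi P j (FreeGroup.of i))
    rw [Marked.rho_x, asmPhi_of]
  exact DFunLike.congr_fun h w

private theorem asm_mem_Z {j : ℕ} {w : FreeGroup (Fin 4)}
    (h : (P j).rho (Pres3.mk relD w) = 1) : asmPhi P j w ∈ (P j).Z := by
  rw [asm_rho] at h
  exact (QuotientGroup.eq_one_iff _).1 h

private theorem asm_comm {j : ℕ} {x : (P j).H} (hx : x ∈ (P j).Z) (g : (P j).H) :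
    Commute x g := by
  obtain ⟨k, rfl⟩ := hx
  exact ((P j).commute g).zpow_left k

/-- the words which are central in all marked groups -/
private def asmK2 : Subgroup (FreeGroup (Fin 4)) where
  carrier := {w | ∀ j, asmPhi P j w ∈ (P j).Z}
  one_mem' := fun j => by rw [map_one]; exact one_mem _
  mul_mem' := fun {a b} ha hb j => by rw [map_mul]; exact mul_mem (ha j) (hb j)
  inv_mem' := fun {a} ha j => by rw [map_inv]; exact inv_mem (ha j)

private theorem asm_mem_K2 {w : FreeGroup (Fin 4)} :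
    w ∈ asmK2 P ↔ ∀ j, asmPhi P j w ∈ (P j).Z := Iff.rfl

private instance asmK2_normal : (asmK2 P).Normal := by
  constructor
  intro n hn g j
  rw [map_mul, map_mul, map_inv]
  exact (inferInstance : (P j).Z.Normal).conj_mem _ (hn j) _

/-- the words in `asmK2` of finite order in the product -/
private def asmK3 : Subgroup (FreeGroup (Fin 4)) where
  carrier := {w | w ∈ asmK2 P ∧ ∃ n : ℕ, 0 < n ∧ ∀ j, asmPhi P j w ^ n = 1}
  one_mem' := ⟨one_mem _, 1, one_pos, fun j => by rw [map_one, one_pow]⟩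
  mul_mem' := by
    rintro a b ⟨ha, n, hn, h1⟩ ⟨hb, m, hm, h2⟩
    refine ⟨mul_mem ha hb, n * m, Nat.mul_pos hn hm, fun j => ?_⟩
    rw [map_mul, (asm_comm P (ha j) _).mul_pow, pow_mul, h1 j, one_pow, mul_comm n m, pow_mul,
      h2 j, one_pow, one_mul]
  inv_mem' := by
    rintro a ⟨ha, n, hn, h1⟩
    refine ⟨inv_mem ha, n, hn, fun j => ?_⟩
    rw [map_inv, inv_pow, h1 j, inv_one]

private theorem asm_mem_K3 {w : FreeGroup (Fin 4)} :
    w ∈ asmK3 P ↔ w ∈ asmK2 P ∧ ∃ n : ℕ, 0 < n ∧ ∀ j, asmPhi P j w ^ n = 1 := Iff.rfl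

private theorem asm_K3_le : asmK3 P ≤ asmK2 P := fun _ h => h.1

private instance asmK3_normal : (asmK3 P).Normal := by
  constructor
  rintro w ⟨hw, n, hn, h1⟩ g
  refine ⟨(asmK2_normal P).conj_mem _ hw g, n, hn, fun j => ?_⟩
  have h2 : asmPhi P j (g * w * g⁻¹) = asmPhi P j w := by
    rw [map_mul, map_mul, map_inv, ← (asm_comm P (hw j) _).eq, mul_inv_cancel_right]
  rw [h2, h1 j]

/-- the projection `Γ'' → Q''` -/
private def asmPi : FreeGroup (Fin 4) ⧸ asmK3 P →* FreeGroup (Fin 4) ⧸ asmK2 P :=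
  QuotientGroup.lift (asmK3 P) (QuotientGroup.mk' (asmK2 P)) (fun w hw => by
    rw [QuotientGroup.ker_mk']
    exact asm_K3_le P hw)

private theorem asmPi_mk (w : FreeGroup (Fin 4)) :
    asmPi P (QuotientGroup.mk' (asmK3 P) w) = QuotientGroup.mk' (asmK2 P) w := rfl

private theorem asm_ker {w : FreeGroup (Fin 4)}
    (h : QuotientGroup.mk' (asmK3 P) w ∈ (asmPi P).ker) : w ∈ asmK2 P := by
  rw [MonoidHom.mem_ker, asmPi_mk, QuotientGroup.mk'_apply, QuotientGroup.eq_one_iff] at h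
  exact h

end

/-- MODULE Assembly: the groups `Γ''` and `Q''`. -/
theorem assembly (P : ℕ → Marked) (hP : ∀ j, 3 ^ j ≤ orderOf (P j).z)
    (h : ∀ a b : D, ∃ j₀ m N : ℕ, 0 < m ∧ ∀ j, j₀ ≤ j → (P j).rho (a ^ m) = 1 ∧
        (P j).rho ((fun z => z⁻¹ * b⁻¹ * z * b)^[N] a) = 1) :
    ∃ (Q : Type) (_ : Group Q), (∀ q : Q, IsOfFinOrder q) ∧
      (∀ a b : Q, ∃ n : ℕ, (fun z => z⁻¹ * b⁻¹ * z * b)^[n] a = 1) ∧ Res3 Q ∧
      ∃ (Γ : Type) (_ : Group Γ) (π : Γ →* Q), π.ker ≤ center Γ ∧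
        (∀ a ∈ π.ker, ∀ n : ℕ, 0 < n → a ^ n = 1 → a = 1) ∧
        ∃ x y : Γ, IsOfFinOrder x ∧ IsOfFinOrder y ∧ ¬ IsOfFinOrder (x * y) := by
  classical
  refine ⟨FreeGroup (Fin 4) ⧸ asmK2 P, inferInstance, ?_, ?_, ?_,
    FreeGroup (Fin 4) ⧸ asmK3 P, inferInstance, asmPi P, ?_, ?_, ?_⟩
  · -- periodic
    intro q
    obtain ⟨w, rfl⟩ := QuotientGroup.mk'_surjective (asmK2 P) q
    obtain ⟨j₀, m, _, hm, hj⟩ := h (Pres3.mk relD w) 1
    rw [isOfFinOrder_iff_pow_eq_one]
    refine ⟨m * ∏ j ∈ Finset.range j₀, Nat.card (P j).H,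
      Nat.mul_pos hm (Finset.prod_pos fun j _ => Nat.card_pos), ?_⟩
    rw [← map_pow, QuotientGroup.mk'_apply, QuotientGroup.eq_one_iff]
    intro j
    rw [map_pow]
    rcases Nat.lt_or_ge j j₀ with hlt | hge
    · obtain ⟨k, hk⟩ := Finset.dvd_prod_of_mem (fun j => Nat.card (P j).H)
        (Finset.mem_range.2 hlt)
      rw [hk, Nat.mul_left_comm, pow_mul, pow_card_eq_one', one_pow]
      exact one_mem _
    · rw [pow_mul]
      have h1 := (hj j hge).1
      rw [← map_pow] at h1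
      have h2 := asm_mem_Z P h1
      rw [map_pow] at h2
      exact pow_mem h2 _
  · -- Engel
    intro q r
    obtain ⟨w, rfl⟩ := QuotientGroup.mk'_surjective (asmK2 P) q
    obtain ⟨v, rfl⟩ := QuotientGroup.mk'_surjective (asmK2 P) r
    obtain ⟨j₀, _, N, _, hj⟩ := h (Pres3.mk relD w) (Pres3.mk relD v)
    have hnil : ∀ j, ∃ n : ℕ, (fun z => z⁻¹ * (asmPhi P j v)⁻¹ * z * asmPhi P j v)^[n]
        (asmPhi P j w) = 1 := fun j => asm_nilp (P j).p3 _ _
    choose n hn using hnil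
    refine ⟨N + ∑ j ∈ Finset.range j₀, n j, ?_⟩
    rw [← asm_map, QuotientGroup.mk'_apply, QuotientGroup.eq_one_iff]
    intro j
    rcases Nat.lt_or_ge j j₀ with hlt | hge
    · rw [asm_map, asm_le (hn j) ((Finset.single_le_sum (f := n) (fun i _ => Nat.zero_le _)
        (Finset.mem_range.2 hlt)).trans (Nat.le_add_left _ _))]
      exact one_mem _
    · apply asm_mem_Z
      have h1 := (hj j hge).2
      rw [asm_map] at h1
      rw [asm_map, asm_map]
      exact asm_le h1 (Nat.le_add_right _ _)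
  · -- residually finite-3
    let f : FreeGroup (Fin 4) ⧸ asmK2 P →* ∀ j, (P j).H ⧸ (P j).Z :=
      QuotientGroup.lift (asmK2 P)
        (MonoidHom.pi fun j => (QuotientGroup.mk' (P j).Z).comp (asmPhi P j)) (fun w hw => by
          funext j
          exact (QuotientGroup.eq_one_iff _).2 (hw j))
    refine Res3.of_injective (Res3.pi fun j => Res3.of_finite ((P j).p3.to_quotient (P j).Z)) f ?_
    rw [injective_iff_map_eq_one]
    intro q hq
    obtain ⟨w, rfl⟩ := QuotientGroup.mk'_surjective (asmK2 P) q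
    rw [QuotientGroup.mk'_apply, QuotientGroup.eq_one_iff]
    intro j
    exact (QuotientGroup.eq_one_iff _).1 (congrFun hq j)
  · -- central kernel
    intro q hq
    obtain ⟨w, rfl⟩ := QuotientGroup.mk'_surjective (asmK3 P) q
    have hw := asm_ker P hq
    rw [mem_center_iff]
    intro r
    obtain ⟨v, rfl⟩ := QuotientGroup.mk'_surjective (asmK3 P) r
    rw [← map_mul, ← map_mul, QuotientGroup.mk'_apply, QuotientGroup.mk'_apply,
      QuotientGroup.eq]
    have h1 : ∀ j, asmPhi P j ((v * w)⁻¹ * (w * v)) = 1 := by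
      intro j
      rw [map_mul, map_inv, map_mul, map_mul, (asm_comm P (hw j) _).eq, inv_mul_cancel]
    refine ⟨fun j => by rw [h1 j]; exact one_mem _, 1, one_pos, fun j => by rw [h1 j, one_pow]⟩
  · -- torsion-free kernel
    intro q hq n hn hqn
    obtain ⟨w, rfl⟩ := QuotientGroup.mk'_surjective (asmK3 P) q
    have hw := asm_ker P hq
    rw [← map_pow, QuotientGroup.mk'_apply, QuotientGroup.eq_one_iff] at hqn
    obtain ⟨-, m, hm, h1⟩ := hqn
    rw [QuotientGroup.mk'_apply, QuotientGroup.eq_one_iff]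
    refine ⟨hw, n * m, Nat.mul_pos hn hm, fun j => ?_⟩
    rw [pow_mul, ← map_pow, h1 j]
  · -- the generators
    set X : Fin 4 → FreeGroup (Fin 4) ⧸ asmK3 P :=
      fun i => QuotientGroup.mk' (asmK3 P) (FreeGroup.of i) with hX
    have hX3 : ∀ i, IsOfFinOrder (X i) := by
      intro i
      rw [isOfFinOrder_iff_pow_eq_one]
      refine ⟨3, by norm_num, ?_⟩
      rw [hX]
      show QuotientGroup.mk' (asmK3 P) (FreeGroup.of i) ^ 3 = 1
      rw [← map_pow, QuotientGroup.mk'_apply, QuotientGroup.eq_one_iff]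
      have h1 : ∀ j, asmPhi P j (FreeGroup.of i ^ 3) = 1 := by
        intro j
        rw [map_pow, asmPhi_of, (P j).h3]
      exact ⟨fun j => by rw [h1 j]; exact one_mem _, 1, one_pos, fun j => by rw [h1 j, one_pow]⟩
    have hprod : ¬ IsOfFinOrder (X 0 * X 1 * X 2 * X 3) := by
      rw [isOfFinOrder_iff_pow_eq_one]
      rintro ⟨n, hn, h1⟩
      have h2 : X 0 * X 1 * X 2 * X 3 = QuotientGroup.mk' (asmK3 P)
          (FreeGroup.of 0 * FreeGroup.of 1 * FreeGroup.of 2 * FreeGroup.of 3) := rfl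
      rw [h2, ← map_pow, QuotientGroup.mk'_apply, QuotientGroup.eq_one_iff] at h1
      obtain ⟨-, m, hm, h3⟩ := h1
      have h4 : (P (n * m)).z ^ (n * m) = 1 := by
        have h5 := h3 (n * m)
        rw [map_pow, map_mul, map_mul, map_mul, asmPhi_of, asmPhi_of, asmPhi_of, asmPhi_of,
          ← pow_mul] at h5
        exact h5
      have h6 := Nat.le_of_dvd (Nat.mul_pos hn hm) (orderOf_dvd_of_pow_eq_one h4)
      have h7 := hP (n * m)
      have h8 := Nat.lt_pow_self (n := n * m) (a := 3) (by norm_num)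
      omega
    by_cases h01 : IsOfFinOrder (X 0 * X 1)
    · by_cases h012 : IsOfFinOrder (X 0 * X 1 * X 2)
      · exact ⟨X 0 * X 1 * X 2, X 3, h012, hX3 3, hprod⟩
      · exact ⟨X 0 * X 1, X 2, h01, hX3 2, h012⟩
    · exact ⟨X 0, X 1, hX3 0, hX3 1, h01⟩

end K611
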