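import Pool.Agent.Work.MP_611b97_al.K.Defs
import Pool.Agent.Work.MP_611b97_al.Crit
import Pool.Agent.Work.MP_611b97_al.Res

/-!
# The frozen statement from the groups of the assembly
-/

set_option autoImplicit false

namespace K611

open Subgroup

/-- iterated commutators under a homomorphism -/
private theorem frozen_iter {A B : Type} [Group A] [Group B] (f : A →* B) (y : A) (n : ℕ) :
    ∀ x : A, f ((fun z => z⁻¹ * y⁻¹ * z * y)^[n] x) =
      (fun z => z⁻¹ * (f y)⁻¹ * z * f y)^[n] (f x) := by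
  induction n with
  | zero => intro x; rfl
  | succ n ih =>
    intro x
    rw [Function.iterate_succ_apply, Function.iterate_succ_apply, ih]
    simp only [map_mul, map_inv]

/-- residually finite-3 groups are residually finite-soluble -/
private theorem frozen_res {G : Type} [Group G] (h : Res3 G) (q : G) (hq : q ≠ 1) :
    ∃ (F : Type) (_ : Group F), Finite F ∧ Group.IsSolvable F ∧ ∃ f : G →* F, f q ≠ 1 := by
  obtain ⟨N, hN, hqN⟩ := h q hq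
  have := hN.normal
  have h1 := hN.finite
  have h2 : IsPGroup 3 (G ⧸ N) := hN.isPGroup
  have : Fact (Nat.Prime 3) := ⟨Nat.prime_three⟩
  have h3 : Group.IsNilpotent (G ⧸ N) := h2.isNilpotent
  refine ⟨G ⧸ N, inferInstance, h1, inferInstance, QuotientGroup.mk' N, ?_⟩
  intro h4
  exact hqN ((QuotientGroup.eq_one_iff q).1 h4)

/-- MODULE Frozen: the frozen statement from the groups of Assembly. -/
theorem not_main_of (hQ : ∃ (Q : Type) (_ : Group Q), (∀ q : Q, IsOfFinOrder q) ∧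
      (∀ a b : Q, ∃ n : ℕ, (fun z => z⁻¹ * b⁻¹ * z * b)^[n] a = 1) ∧ Res3 Q ∧
      ∃ (Γ : Type) (_ : Group Γ) (π : Γ →* Q), π.ker ≤ center Γ ∧
        (∀ a ∈ π.ker, ∀ n : ℕ, 0 < n → a ^ n = 1 → a = 1) ∧
        ∃ x y : Γ, IsOfFinOrder x ∧ IsOfFinOrder y ∧ ¬ IsOfFinOrder (x * y)) :
    ¬ (∀ (G : Type) [Group G] (H : Subgroup G) [H.Normal],
      (∀ g : G, g ≠ 1 → ¬ IsOfFinOrder g) →
      IsSolvable H →
      (∀ x : G ⧸ H, IsOfFinOrder x) →
      (∀ x y : G ⧸ H, ∃ n : ℕ, (fun z : G ⧸ H => z⁻¹ * y⁻¹ * z * y)^[n] x = 1) →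
      ∀ P : Set G, P ⊆ (H : Set G) →
        (∀ a ∈ P, ∀ b ∈ P, a * b ∈ P) →
        (1 : G) ∉ P →
        (∀ h ∈ H, h ≠ 1 → h ∈ P ∨ h⁻¹ ∈ P) →
        (∀ g : G, ∀ a ∈ P, g * a * g⁻¹ ∈ P) →
        ∃ Q : Set G,
          (∀ a ∈ Q, ∀ b ∈ Q, a * b ∈ Q) ∧
          (1 : G) ∉ Q ∧
          (∀ g : G, g ≠ 1 → g ∈ Q ∨ g⁻¹ ∈ Q) ∧
          (∀ g : G, ∀ a ∈ Q, g * a * g⁻¹ ∈ Q) ∧
          (∀ h ∈ H, (h ∈ Q ↔ h ∈ P))) := by
  obtain ⟨Q, _, hper, heng, hres, Γ₀, _, π₀, hcen₀, htf₀, x₀, y₀, hx₀, hy₀, hxy₀⟩ := hQ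
  intro hmeta
  -- restrict to the subgroup generated by the two images
  set E : Subgroup Q := Subgroup.closure {π₀ x₀, π₀ y₀} with hE
  set Γ : Subgroup Γ₀ := E.comap π₀ with hΓ
  set π : Γ →* E := (π₀.comp Γ.subtype).codRestrict E (fun g => g.2) with hπ
  have hπk : ∀ g : Γ, g ∈ π.ker → (g : Γ₀) ∈ π₀.ker := by
    intro g hg
    exact congrArg Subtype.val (show π g = 1 from hg)
  have hcen : π.ker ≤ Subgroup.center Γ := by
    intro g hg
    rw [Subgroup.mem_center_iff]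
    intro h
    apply Subtype.ext
    exact Subgroup.mem_center_iff.1 (hcen₀ (hπk g hg)) (h : Γ₀)
  have htf : ∀ a ∈ π.ker, ∀ n : ℕ, 0 < n → a ^ n = 1 → a = 1 := by
    intro a ha n hn han
    apply Subtype.ext
    apply htf₀ _ (hπk a ha) n hn
    have := congrArg Subtype.val han
    simpa using this
  have hx₁ : x₀ ∈ Γ := Subgroup.mem_comap.2 (Subgroup.subset_closure (by simp))
  have hy₁ : y₀ ∈ Γ := Subgroup.mem_comap.2 (Subgroup.subset_closure (by simp))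
  set x : Γ := ⟨x₀, hx₁⟩ with hxd
  set y : Γ := ⟨y₀, hy₁⟩ with hyd
  obtain ⟨a, ha, hxa₀⟩ := isOfFinOrder_iff_pow_eq_one.1 hx₀
  obtain ⟨b, hb, hyb₀⟩ := isOfFinOrder_iff_pow_eq_one.1 hy₀
  obtain ⟨c, hc, hzc₀⟩ := isOfFinOrder_iff_pow_eq_one.1 (hper (π₀ (x₀ * y₀)))
  have hxa : x ^ a = 1 := Subtype.ext hxa₀
  have hyb : y ^ b = 1 := Subtype.ext hyb₀
  have hzc : π (x * y) ^ c = 1 := Subtype.ext hzc₀
  set n := a * b * c with hn
  have hn0 : 0 < n := Nat.mul_pos (Nat.mul_pos ha hb) hc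
  have hxn : x ^ n = 1 := by rw [hn, mul_assoc, pow_mul, hxa, one_pow]
  have hyn : y ^ n = 1 := by rw [hn, mul_comm a b, mul_assoc, pow_mul, hyb, one_pow]
  have hzn : π ((x * y) ^ n) = 1 := by
    rw [map_pow, hn, mul_comm, pow_mul, hzc, one_pow]
  have hd1 : (x * y) ^ n ≠ 1 := by
    intro h
    apply hxy₀
    refine isOfFinOrder_iff_pow_eq_one.2 ⟨n, hn0, ?_⟩
    have := congrArg Subtype.val h
    simpa [hxd, hyd] using this
  obtain ⟨PA, a0, a1, a2, a3, a4⟩ :=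
    MP611b97.exists_cone_central hcen htf (show (x * y) ^ n ∈ π.ker from hzn) hd1
  obtain ⟨L, F, _, _, Φ, Ψ, hΦ, hΨ, hL, hmet⟩ := MP611b97.res_cover (Q := E) (by
    intro q hq
    obtain ⟨F, _, h1, h2, f, h3⟩ := frozen_res hres (q : Q) (fun h => hq (Subtype.ext h))
    exact ⟨F, inferInstance, h1, h2.solvable, f.comp E.subtype, h3⟩)
  obtain ⟨PL, l1, l2, l3, l4⟩ := id hL
  obtain ⟨s0, s1, s2, s3, s4⟩ := MP611b97.lexP_spec (Φ := Φ) (Ψ := Ψ) hcen a1 a2 a3 a0 l1 l2 l3 l4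
  set fq : MP611b97.fib π Φ Ψ ⧸ (MP611b97.fpr π Φ Ψ).ker →* Q :=
    E.subtype.comp (QuotientGroup.kerLift (MP611b97.fpr π Φ Ψ)) with hfq
  have hfi : Function.Injective fq :=
    E.subtype_injective.comp (QuotientGroup.kerLift_injective (MP611b97.fpr π Φ Ψ))
  obtain ⟨R, r1, r2, r3, r4, r5⟩ := hmeta (MP611b97.fib π Φ Ψ) (MP611b97.fpr π Φ Ψ).ker
    (by
      intro g hg hfin
      obtain ⟨k, hk, hgk⟩ := isOfFinOrder_iff_pow_eq_one.1 hfin
      exact hg (MP611b97.fib_tf hΨ hL htf g k hk hgk))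
    ⟨⟨2, MP611b97.fib_metab hcen hmet⟩⟩
    (by
      intro g
      obtain ⟨m, hm, h⟩ := isOfFinOrder_iff_pow_eq_one.1 (hper (fq g))
      refine isOfFinOrder_iff_pow_eq_one.2 ⟨m, hm, hfi ?_⟩
      rw [map_pow, h, map_one])
    (by
      intro g h
      obtain ⟨m, hm⟩ := heng (fq g) (fq h)
      refine ⟨m, hfi ?_⟩
      rw [map_one, ← hm]
      exact frozen_iter fq h m g)
    (MP611b97.lexP π Φ Ψ PA PL) s0 s1 s2 s3 s4
  exact MP611b97.no_extension hΦ hxn hyn a4 hzn R r1 r2 r3 r4 r5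

end K611
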