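import Mathlib

/-!
# Finite 3-groups over the Eisenstein integers

`Hs N` is the Heisenberg type group over `(ℤ/N)[w]`, `w² + w + 1 = 0`, extended by the
multiplication by `w`. For `N` a power of three it is a finite 3-group. It contains marked
generators with central product of large order and separates the powers of `x * y`.
-/

set_option autoImplicit false

namespace MP611b97.K

/-- `a + b w` is the translation part, `s` the central part, `e` the exponent of `w`. -/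
@[ext] structure Hs (N : ℕ) where
  a : ZMod N
  b : ZMod N
  s : ZMod N
  e : Fin 3

namespace Hs

variable {N : ℕ}

/-- First coordinate of `w ^ e * (a + b w)`. -/
def ra (e : Fin 3) (a b : ZMod N) : ZMod N :=
  match e with
  | 0 => a
  | 1 => -b
  | 2 => b - a

/-- Second coordinate of `w ^ e * (a + b w)`. -/
def rb (e : Fin 3) (a b : ZMod N) : ZMod N :=
  match e with
  | 0 => b
  | 1 => a - b
  | 2 => -a

instance : Mul (Hs N) :=
  ⟨fun x y => ⟨x.a + ra x.e y.a y.b, x.b + rb x.e y.a y.b,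
    x.s + y.s + (x.a * rb x.e y.a y.b - x.b * ra x.e y.a y.b), x.e + y.e⟩⟩

instance : One (Hs N) := ⟨⟨0, 0, 0, 0⟩⟩

instance : Inv (Hs N) :=
  ⟨fun x => ⟨-ra (-x.e) x.a x.b, -rb (-x.e) x.a x.b, -x.s, -x.e⟩⟩

theorem mul_def (x y : Hs N) : x * y = ⟨x.a + ra x.e y.a y.b, x.b + rb x.e y.a y.b,
    x.s + y.s + (x.a * rb x.e y.a y.b - x.b * ra x.e y.a y.b), x.e + y.e⟩ := rfl

theorem one_def : (1 : Hs N) = ⟨0, 0, 0, 0⟩ := rfl

theorem inv_def (x : Hs N) : x⁻¹ = ⟨-ra (-x.e) x.a x.b, -rb (-x.e) x.a x.b, -x.s, -x.e⟩ := rfl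

@[simp] theorem ra_zero (a b : ZMod N) : ra 0 a b = a := rfl
@[simp] theorem ra_one (a b : ZMod N) : ra 1 a b = -b := rfl
@[simp] theorem ra_two (a b : ZMod N) : ra 2 a b = b - a := rfl
@[simp] theorem rb_zero (a b : ZMod N) : rb 0 a b = b := rfl
@[simp] theorem rb_one (a b : ZMod N) : rb 1 a b = a - b := rfl
@[simp] theorem rb_two (a b : ZMod N) : rb 2 a b = -a := rfl

theorem e11 : (1 : Fin 3) + 1 = 2 := rfl
theorem e12 : (1 : Fin 3) + 2 = 0 := rfl
theorem e21 : (2 : Fin 3) + 1 = 0 := rfl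
theorem e22 : (2 : Fin 3) + 2 = 1 := rfl
theorem n1 : -(1 : Fin 3) = 2 := rfl
theorem n2 : -(2 : Fin 3) = 1 := rfl

theorem fin3 (e : Fin 3) : e = 0 ∨ e = 1 ∨ e = 2 := by
  fin_cases e <;> simp

instance : Group (Hs N) where
  mul_assoc x y z := by
    obtain ⟨a1, b1, s1, e1⟩ := x
    obtain ⟨a2, b2, s2, e2⟩ := y
    obtain ⟨a3, b3, s3, e3⟩ := z
    simp only [mul_def]
    refine Hs.ext ?_ ?_ ?_ (add_assoc _ _ _) <;>
      rcases fin3 e1 with rfl | rfl | rfl <;> rcases fin3 e2 with rfl | rfl | rfl <;>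
      simp [e11, e12, e21, e22] <;> ring
  one_mul x := by
    obtain ⟨a1, b1, s1, e1⟩ := x
    simp only [mul_def, one_def]
    ext <;> simp
  mul_one x := by
    obtain ⟨a1, b1, s1, e1⟩ := x
    simp only [mul_def, one_def]
    rcases fin3 e1 with rfl | rfl | rfl <;> ext <;> simp
  inv_mul_cancel x := by
    obtain ⟨a1, b1, s1, e1⟩ := x
    simp only [mul_def, one_def, inv_def]
    rcases fin3 e1 with rfl | rfl | rfl <;> ext <;>
      simp [e12, e21, n1, n2] <;> ring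

/-- The underlying set. -/
def equivProd (N : ℕ) : Hs N ≃ ZMod N × ZMod N × ZMod N × Fin 3 where
  toFun x := (x.a, x.b, x.s, x.e)
  invFun p := ⟨p.1, p.2.1, p.2.2.1, p.2.2.2⟩
  left_inv _ := rfl
  right_inv _ := rfl

instance [NeZero N] : Finite (Hs N) := Finite.of_equiv _ (equivProd N).symm

theorem card_eq [NeZero N] : Nat.card (Hs N) = N ^ 3 * 3 := by
  rw [Nat.card_congr (equivProd N), Nat.card_prod, Nat.card_prod, Nat.card_prod, Nat.card_zmod,
    Nat.card_eq_fintype_card (α := Fin 3), Fintype.card_fin]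
  ring

theorem isPGroup (k : ℕ) : IsPGroup 3 (Hs (3 ^ k)) := by
  have : NeZero (3 ^ k) := ⟨pow_ne_zero _ (by norm_num)⟩
  apply IsPGroup.of_card (n := 3 * k + 1)
  rw [card_eq, ← pow_mul, ← pow_succ, mul_comm]

/-- The rotation by `w` around `v = a + b w`. -/
def xi (a b : ZMod N) : Hs N := ⟨a + b, 2 * b - a, -(a ^ 2 - a * b + b ^ 2), 1⟩

theorem xi_pow (a b : ZMod N) : (xi a b) ^ 3 = 1 := by
  rw [pow_succ, pow_succ, pow_one]
  simp only [xi, mul_def, one_def]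
  ext <;> simp [e11, e12, e21, e22] <;> ring

theorem central (t : ZMod N) : (⟨0, 0, t, 0⟩ : Hs N) ∈ Subgroup.center (Hs N) := by
  rw [Subgroup.mem_center_iff]
  intro g
  obtain ⟨a1, b1, s1, e1⟩ := g
  simp only [mul_def]
  rcases fin3 e1 with rfl | rfl | rfl <;> ext <;> simp <;> ring

theorem central_pow (t : ZMod N) (n : ℕ) : (⟨0, 0, t, 0⟩ : Hs N) ^ n = ⟨0, 0, n * t, 0⟩ := by
  induction n with
  | zero => rw [pow_zero]; ext <;> simp [one_def]
  | succ n ih =>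
    rw [pow_succ, ih]
    simp only [mul_def]
    ext <;> simp <;> ring

theorem prod_eq : (xi 0 0 : Hs N) * xi 1 0 * xi 1 1 = ⟨0, 0, -2, 0⟩ := by
  simp only [xi, mul_def]
  ext <;> simp [e11, e12, e21, e22] <;> ring

theorem tr_pow (n : ℕ) : (⟨-1, 1, 1, 0⟩ : Hs N) ^ n = ⟨-n, n, n, 0⟩ := by
  induction n with
  | zero => rw [pow_zero]; ext <;> simp [one_def]
  | succ n ih =>
    rw [pow_succ, ih]
    simp only [mul_def]
    ext <;> simp
    ring

theorem tr_zpow (n : ℤ) : (⟨-1, 1, 1, 0⟩ : Hs N) ^ n = ⟨-n, n, n, 0⟩ := by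
  obtain ⟨m, rfl | rfl⟩ := n.eq_nat_or_neg
  · rw [zpow_natCast, tr_pow]
    ext <;> simp
  · rw [zpow_neg, zpow_natCast, tr_pow, inv_def]
    ext <;> simp

theorem xi_inv : (xi 1 0 : Hs N)⁻¹ = ⟨2, 1, 1, 2⟩ := by
  rw [inv_def]
  simp only [xi]
  ext <;> simp [n1]
  ring

theorem xy_eq : (xi 0 0 : Hs N) * (xi 1 0)⁻¹ = ⟨-1, 1, 1, 0⟩ := by
  rw [xi_inv]
  simp only [xi, mul_def]
  ext <;> simp [e12]
  ring

end Hs

open Hs

/-- Marked finite 3-groups with central product of large order. -/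
theorem exists_marked (k : ℕ) : ∃ (H : Type) (_ : Group H), Finite H ∧ IsPGroup 3 H ∧
    ∃ h : Fin 4 → H, (∀ i, h i ^ 3 = 1) ∧ h 0 * h 1 * h 2 * h 3 ∈ Subgroup.center H ∧
      3 ^ k ≤ orderOf (h 0 * h 1 * h 2 * h 3) := by
  have : NeZero (3 ^ k) := ⟨pow_ne_zero _ (by norm_num)⟩
  refine ⟨Hs (3 ^ k), inferInstance, inferInstance, isPGroup k,
    ![xi 0 0, xi 1 0, xi 1 1, 1], ?_, ?_, ?_⟩
  · intro i
    fin_cases i
    · exact xi_pow _ _
    · exact xi_pow _ _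
    · exact xi_pow _ _
    · exact one_pow 3
  · change xi 0 0 * xi 1 0 * xi 1 1 * 1 ∈ Subgroup.center (Hs (3 ^ k))
    rw [mul_one, prod_eq]
    exact central _
  · change 3 ^ k ≤ orderOf (xi 0 0 * xi 1 0 * xi 1 1 * (1 : Hs (3 ^ k)))
    rw [mul_one, prod_eq]
    have hfin : Finite (Hs (3 ^ k)) := inferInstance
    have hpos : 0 < orderOf (⟨0, 0, -2, 0⟩ : Hs (3 ^ k)) := orderOf_pos _
    apply Nat.le_of_dvd hpos
    have h1 := pow_orderOf_eq_one (⟨0, 0, -2, 0⟩ : Hs (3 ^ k))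
    rw [central_pow] at h1
    have h2 : ((orderOf (⟨0, 0, -2, 0⟩ : Hs (3 ^ k)) : ℕ) : ZMod (3 ^ k)) * (-2) = 0 :=
      congrArg Hs.s h1
    have h3 : (((orderOf (⟨0, 0, -2, 0⟩ : Hs (3 ^ k)) * 2 : ℕ)) : ZMod (3 ^ k)) = 0 := by
      push_cast
      linear_combination (-1 : ZMod (3 ^ k)) * h2
    rw [ZMod.natCast_eq_zero_iff] at h3
    exact Nat.Coprime.dvd_of_dvd_mul_right (Nat.Coprime.pow_left k (by norm_num)) h3

/-- Finite 3-groups generated by two elements of order three in which `x * y` has large order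
and `y⁻¹ (x y)^j` avoids the elements `(x y)^i y^e`. -/
theorem exists_sep (k : ℕ) : ∃ (H : Type) (_ : Group H), Finite H ∧ IsPGroup 3 H ∧
    ∃ x y : H, x ^ 3 = 1 ∧ y ^ 3 = 1 ∧
      ∀ i j e : ℤ, y⁻¹ * (x * y) ^ j = (x * y) ^ i * y ^ e → ((3 ^ k : ℕ) : ℤ) ∣ j := by
  have : NeZero (3 ^ (k + 1)) := ⟨pow_ne_zero _ (by norm_num)⟩
  refine ⟨Hs (3 ^ (k + 1)), inferInstance, inferInstance, isPGroup (k + 1),
    xi 0 0, (xi 1 0)⁻¹, xi_pow _ _, ?_, ?_⟩
  · rw [inv_pow, xi_pow, inv_one]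
  intro i j e h
  rw [xy_eq, tr_zpow, tr_zpow, inv_inv] at h
  have hy3 : ((xi 1 0 : Hs (3 ^ (k + 1)))⁻¹) ^ (3 : ℤ) = 1 := by
    rw [inv_zpow]
    have := xi_pow (1 : ZMod (3 ^ (k + 1))) 0
    rw [show (xi 1 0 : Hs (3 ^ (k + 1))) ^ (3 : ℤ) = (xi 1 0) ^ 3 from by norm_cast, this, inv_one]
  have hmod : ((xi 1 0 : Hs (3 ^ (k + 1)))⁻¹) ^ e = ((xi 1 0)⁻¹) ^ (e % 3) := by
    conv_lhs => rw [← Int.mul_ediv_add_emod e 3, zpow_add, zpow_mul, hy3, one_zpow, one_mul]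
  have hcase : e % 3 = 0 ∨ e % 3 = 1 ∨ e % 3 = 2 := by omega
  rw [hmod] at h
  have key : (1 : ZMod (3 ^ (k + 1))) - j = 1 - i ∧ (-1 : ZMod (3 ^ (k + 1))) - 2 * j = i - 1 := by
    rcases hcase with h0 | h0 | h0
    · rw [h0, zpow_zero, mul_one] at h
      have h1 := congrArg Hs.e h
      simp only [xi, mul_def] at h1
      simp at h1
    · rw [h0, zpow_one, xi_inv] at h
      have h1 := congrArg Hs.e h
      simp only [xi, mul_def] at h1
      simp at h1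
    · have h2 : ((xi 1 0 : Hs (3 ^ (k + 1)))⁻¹) ^ (2 : ℤ) = xi 1 0 := by
        have h3 : ((xi 1 0 : Hs (3 ^ (k + 1)))⁻¹) ^ (2 : ℤ) * (xi 1 0)⁻¹ = 1 := by
          rw [← hy3, show (3 : ℤ) = 2 + 1 by norm_num, zpow_add, zpow_one]
        exact eq_of_mul_inv_eq_one h3
      rw [h0, h2] at h
      have ha := congrArg Hs.a h
      have hb := congrArg Hs.b h
      simp only [xi, mul_def] at ha hb
      simp at ha hb
      constructor
      · linear_combination ha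
      · linear_combination hb
  have h3 : ((3 * j : ℤ) : ZMod (3 ^ (k + 1))) = 0 := by
    push_cast
    linear_combination -key.1 - key.2
  rw [ZMod.intCast_zmod_eq_zero_iff_dvd] at h3
  rw [pow_succ, Nat.cast_mul, mul_comm] at h3
  exact Int.dvd_of_mul_dvd_mul_left (by norm_num) h3

end MP611b97.K
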