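import Pool.Agent.Work.MP_611b97_al.K.Defs
import Pool.Agent.Work.MP_611b97_al.K.Heis

set_option autoImplicit false

namespace K611

open MP611b97.K in
/-- MODULE HeisK (blueprint H_k). -/
theorem exists_marked (k : ℕ) : ∃ M : Marked, orderOf M.z = 3 ^ k := by
  have : NeZero (3 ^ k) := ⟨pow_ne_zero _ (by norm_num)⟩
  have hz : (Hs.xi 0 0 : Hs (3 ^ k)) * Hs.xi 1 0 * Hs.xi 1 1 * 1 = ⟨0, 0, -2, 0⟩ := by
    rw [mul_one, Hs.prod_eq]
  let M : Marked :=
    { H := Hs (3 ^ k)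
      p3 := Hs.isPGroup k
      h := ![Hs.xi 0 0, Hs.xi 1 0, Hs.xi 1 1, 1]
      h3 := by
        intro i
        fin_cases i
        · exact Hs.xi_pow _ _
        · exact Hs.xi_pow _ _
        · exact Hs.xi_pow _ _
        · exact one_pow 3
      cen := by
        intro g
        show Commute ((Hs.xi 0 0 : Hs (3 ^ k)) * Hs.xi 1 0 * Hs.xi 1 1 * 1) g
        rw [hz]
        exact (Subgroup.mem_center_iff.1 (Hs.central _) g).symm }
  refine ⟨M, ?_⟩
  have hMz : M.z = (⟨0, 0, -2, 0⟩ : Hs (3 ^ k)) := hz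
  rw [hMz]
  have h1 : ∀ n : ℕ, (⟨0, 0, -2, 0⟩ : Hs (3 ^ k)) ^ n = 1 ↔ 3 ^ k ∣ n := by
    intro n
    rw [Hs.central_pow, Hs.one_def, Hs.ext_iff]
    simp only [true_and, and_true]
    rw [show (n : ZMod (3 ^ k)) * -2 = -((2 * n : ℕ) : ZMod (3 ^ k)) by push_cast; ring, neg_eq_zero,
      ZMod.natCast_eq_zero_iff]
    constructor
    · intro h
      exact Nat.Coprime.dvd_of_dvd_mul_left (Nat.Coprime.pow_left k (by norm_num)) h
    · intro h
      exact h.mul_left 2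
  refine Nat.dvd_antisymm (orderOf_dvd_of_pow_eq_one ((h1 _).2 dvd_rfl)) ?_
  exact (h1 _).1 (pow_orderOf_eq_one _)

end K611
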