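import Pool.Agent.Work.MP_611b97_al.K.Defs

/-!
# The sequence of marked groups
-/

set_option autoImplicit false

namespace K611

open Subgroup

theorem SeqM.countable_D : Countable D := by
  have h : Countable (FreeGroup (Fin 4)) := by
    have : Function.Surjective (FreeGroup.mk : List (Fin 4 × Bool) → FreeGroup (Fin 4)) :=
      Quot.mk_surjective
    exact this.countable
  exact (Pres3.mk_surjective relD).countable

/-- MODULE SeqM: the sequence of marked groups. -/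
theorem exists_seq (hone : ∃ R : Rec, Function.Injective R.Ψ)
    (hmark : ∀ k : ℕ, ∃ M : Marked, orderOf M.z = 3 ^ k)
    (hstep : ∀ (R : Rec) (a b : D), ∃ R' : Rec, R.Ψ.ker ≤ R'.Ψ.ker ∧
      (∃ m, 0 < m ∧ a ^ m ∈ R'.Ψ.ker) ∧
      ∃ N : ℕ, (fun z => z⁻¹ * b⁻¹ * z * b)^[N] a ∈ R'.Ψ.ker) :
    ∃ P : ℕ → Marked, (∀ j, 3 ^ j ≤ orderOf (P j).z) ∧
      ∀ a b : D, ∃ j₀ m N : ℕ, 0 < m ∧ ∀ j, j₀ ≤ j → (P j).rho (a ^ m) = 1 ∧
        (P j).rho ((fun z => z⁻¹ * b⁻¹ * z * b)^[N] a) = 1 := by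
  have hc := SeqM.countable_D
  obtain ⟨e, he⟩ := exists_surjective_nat (D × D)
  obtain ⟨R₀, -⟩ := hone
  choose G hG1 hG2 hG3 using hstep
  let R : ℕ → Rec := fun j => Nat.rec R₀ (fun i S => G S (e i).1 (e i).2) j
  have hR : ∀ j, R (j + 1) = G (R j) (e j).1 (e j).2 := fun j => rfl
  have hmono : ∀ i j, i ≤ j → (R i).Ψ.ker ≤ (R j).Ψ.ker := by
    intro i j hij
    induction j, hij using Nat.le_induction with
    | base => exact le_rfl
    | succ j _ ih => exact ih.trans (hG1 (R j) (e j).1 (e j).2)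
  choose M hM using hmark
  have hdeg : ∀ j, ∃ M' : Marked, 3 ^ j ≤ orderOf M'.z ∧ ∀ d ∈ (R j).Ψ.ker, M'.rho d = 1 := by
    intro j
    obtain ⟨M', h1, h2⟩ := (R j).deg (M j)
    refine ⟨M', (hM j).symm.le.trans h1, fun d hd => h2 d ?_⟩
    rw [MonoidHom.mem_ker.1 hd, map_one]
  choose P hP1 hP2 using hdeg
  refine ⟨P, hP1, ?_⟩
  intro a b
  obtain ⟨i, hi⟩ := he (a, b)
  obtain ⟨m, hm, hm2⟩ := hG2 (R i) (e i).1 (e i).2
  obtain ⟨N, hN⟩ := hG3 (R i) (e i).1 (e i).2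
  rw [← hR i] at hm2 hN
  rw [hi] at hm2 hN
  exact ⟨i + 1, m, N, hm, fun j hj => ⟨hP2 j _ (hmono _ _ hj hm2), hP2 j _ (hmono _ _ hj hN)⟩⟩

end K611
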