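import Pool.Agent.Work.MP_611b97_al.K.RecComp

/-!
# The Engel step

If `R.Ψ b` has finite order, then a further recursion kills a left-normed commutator
`[a, b, …, b]`.
-/

set_option autoImplicit false

namespace K611

open Subgroup

universe u v

/-- in a nilpotent group the iterated commutators `[u, v, …, v]` are trivial -/
theorem stepE_nilpotent {P : Type u} [Group P] [Group.IsNilpotent P] (u v : P) :
    ∃ m : ℕ, (fun z => z⁻¹ * v⁻¹ * z * v)^[m] u = 1 := by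
  obtain ⟨m, hm⟩ := Subgroup.nilpotent_iff_lowerCentralSeries.1 ‹Group.IsNilpotent P›
  have h : ∀ n, (fun z => z⁻¹ * v⁻¹ * z * v)^[n] u ∈ Subgroup.lowerCentralSeries (⊤ : Subgroup P) n := by
    intro n
    induction n with
    | zero => exact mem_top _
    | succ n ih =>
      rw [Function.iterate_succ_apply', Subgroup.mem_lowerCentralSeries_succ_iff]
      apply Subgroup.subset_closure
      refine ⟨((fun z => z⁻¹ * v⁻¹ * z * v)^[n] u)⁻¹, inv_mem ih, v⁻¹, mem_top _, ?_⟩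
      rw [commutatorElement_def, inv_inv, inv_inv]
  refine ⟨m, ?_⟩
  have := h m
  rw [hm] at this
  exact mem_bot.1 this

/-- iterated commutators commute with homomorphisms -/
theorem stepE_map {G : Type u} {H : Type v} [Group G] [Group H] (f : G →* H) (a b : G) (n : ℕ) :
    f ((fun z => z⁻¹ * b⁻¹ * z * b)^[n] a) = (fun z => z⁻¹ * (f b)⁻¹ * z * f b)^[n] (f a) := by
  induction n with
  | zero => rfl
  | succ n ih =>
    rw [Function.iterate_succ_apply', Function.iterate_succ_apply', ← ih]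
    simp

/-- a killed tuple becomes trivial -/
theorem stepE_kills {R : Rec} {r : ℕ} {c : ZMod (3 ^ r) → D} (h : R.Kills c) :
    ∃ n₀ : ℕ, ∀ n, n₀ ≤ n → ∀ k, R.Ψ (T^[n] c k) = 1 := by
  obtain ⟨m, hm⟩ := h
  set U : Subgroup (Wr D R.Λ) := gen (fun k => R.Ψ (T^[m] c k)) with hU
  have : Finite U := hm.to_subtype
  have hmem : ∀ k, R.Ψ (T^[m] c k) ∈ U := fun k => subset_closure ⟨k, rfl⟩
  have hres : Res3 U := by
    refine Wr.res3_of_le D_res3 R.pgrp ?_
    intro a ha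
    have hle : U ≤ R.Ψ.range := by
      rw [hU, gen, closure_le]
      rintro _ ⟨k, rfl⟩
      exact ⟨_, rfl⟩
    obtain ⟨d, rfl⟩ := hle ha
    exact ⟨d, rfl⟩
  obtain ⟨n₀, hn₀⟩ := T_eventually_one hres.isPGroup_of_finite
    (fun k : ZMod (3 ^ r) => (⟨R.Ψ (T^[m] c k), hmem k⟩ : U))
  refine ⟨n₀ + m, fun n hn k => ?_⟩
  obtain ⟨j, rfl⟩ : ∃ j, n = j + m := ⟨n - m, by omega⟩
  have h1 := hn₀ j (by omega) k
  have h2 := congrFun (T_iter_comp U.subtype
    (fun k : ZMod (3 ^ r) => (⟨R.Ψ (T^[m] c k), hmem k⟩ : U)) j) k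
  have h3 := congrFun (T_iter_comp R.Ψ (T^[m] c) j) k
  rw [Function.iterate_add_apply]
  rw [h1, map_one] at h2
  rw [← h3]
  exact h2

/-- the tuple of conjugates of an element by the powers of an element of finite order -/
theorem stepE_conj {G : Type u} [Group G] {r : ℕ} {v : G} (hv : v ^ 3 ^ r = 1) (c : G) (n : ℕ) :
    T^[n] (fun k : ZMod (3 ^ r) => (v ^ k.val)⁻¹ * c * v ^ k.val) =
      fun k : ZMod (3 ^ r) => (v ^ k.val)⁻¹ * (fun z => z⁻¹ * v⁻¹ * z * v)^[n] c * v ^ k.val := by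
  have : NeZero (3 ^ r) := ⟨by positivity⟩
  have hval : ∀ k : ZMod (3 ^ r), v ^ (k + 1).val = v ^ k.val * v := by
    intro k
    rw [ZMod.val_add, ← pow_succ, pow_eq_pow_mod (k.val + 1) hv]
    rw [ZMod.val_one_eq_one_mod, Nat.add_mod_mod]
  have hstep : ∀ d : G, T (fun k : ZMod (3 ^ r) => (v ^ k.val)⁻¹ * d * v ^ k.val) =
      fun k : ZMod (3 ^ r) => (v ^ k.val)⁻¹ * (d⁻¹ * v⁻¹ * d * v) * v ^ k.val := by
    intro d
    funext k
    have hcomm : v ^ k.val * v = v * v ^ k.val := (Commute.pow_self v k.val).eq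
    show ((v ^ k.val)⁻¹ * d * v ^ k.val)⁻¹ * ((v ^ (k + 1).val)⁻¹ * d * v ^ (k + 1).val) = _
    rw [hval]
    have h1 : (v ^ k.val * v)⁻¹ = v⁻¹ * (v ^ k.val)⁻¹ := mul_inv_rev _ _
    have h2 : v⁻¹ * (v ^ k.val)⁻¹ = (v ^ k.val)⁻¹ * v⁻¹ := by
      rw [← mul_inv_rev, ← mul_inv_rev, hcomm]
    rw [h1, h2, hcomm]
    group
  induction n with
  | zero => rfl
  | succ n ih =>
    rw [Function.iterate_succ_apply', ih, hstep]
    funext k
    rw [Function.iterate_succ_apply']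

/-- labels of the iterated differences of a tuple in the base group -/
theorem stepE_lab {G : Type u} [Group G] {Λ : Type v} {n : ℕ} (C : ZMod n → Wr G Λ)
    (hC : ∀ k, (C k).perm = 1) (m : ℕ) :
    (∀ k, (T^[m] C k).perm = 1) ∧ ∀ l, (fun k => (T^[m] C k).lab l) =
      T^[m] (fun k => (C k).lab l) := by
  induction m with
  | zero => exact ⟨hC, fun _ => rfl⟩
  | succ m ih =>
    obtain ⟨h1, h2⟩ := ih
    refine ⟨fun k => ?_, fun l => ?_⟩
    · rw [Function.iterate_succ_apply']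
      show (T^[m] C k).perm⁻¹ * (T^[m] C (k + 1)).perm = 1
      rw [h1, h1, inv_one, one_mul]
    · rw [Function.iterate_succ_apply' T m (fun k => (C k).lab l), ← h2 l]
      funext k
      rw [Function.iterate_succ_apply']
      show (T^[m] C k)⁻¹.lab l * (T^[m] C (k + 1)).lab ((T^[m] C k)⁻¹.perm⁻¹ l) = _
      rw [Wr.inv_lab, Wr.inv_perm, h1 k]
      rfl

/-- MODULE StepE: Engel, when `v` has finite order. -/
theorem step_engel (hkill : ∀ (r : ℕ) (S : Finset (ZMod (3 ^ r) → D)), ∃ R : Rec, ∀ c ∈ S, R.Kills c)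
    (R : Rec) (a b : D) (hb : IsOfFinOrder (R.Ψ b)) :
    ∃ R' : Rec, ∃ N : ℕ, (R.comp R').Ψ ((fun z => z⁻¹ * b⁻¹ * z * b)^[N] a) = 1 := by
  classical
  have := Fintype.ofFinite R.Λ
  set v : Wr D R.Λ := R.Ψ b with hv
  -- the order of `v` is a power of three
  have hres : Res3 R.Ψ.range := by
    refine Wr.res3_of_le D_res3 R.pgrp ?_
    rintro _ ⟨d, rfl⟩
    exact ⟨d, rfl⟩
  obtain ⟨r, hr⟩ : ∃ r : ℕ, v ^ 3 ^ r = 1 := by
    have hfin : IsOfFinOrder (⟨v, b, rfl⟩ : R.Ψ.range) := by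
      obtain ⟨n, hn, hn2⟩ := isOfFinOrder_iff_pow_eq_one.1 hb
      exact isOfFinOrder_iff_pow_eq_one.2 ⟨n, hn, Subtype.ext hn2⟩
    obtain ⟨r, hr⟩ := hres.pow_eq_one hfin
    exact ⟨r, congrArg Subtype.val hr⟩
  -- the permutations form a nilpotent group
  obtain ⟨m, hm⟩ : ∃ m : ℕ, (R.Ψ ((fun z => z⁻¹ * b⁻¹ * z * b)^[m] a)).perm = 1 := by
    have : Finite (Wr.permHom.comp R.Ψ).range := inferInstance
    have : Group.IsNilpotent (Wr.permHom.comp R.Ψ).range := R.pgrp.isNilpotent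
    obtain ⟨m, hm⟩ := stepE_nilpotent ((Wr.permHom.comp R.Ψ).rangeRestrict a)
      ((Wr.permHom.comp R.Ψ).rangeRestrict b)
    refine ⟨m, ?_⟩
    rw [← stepE_map] at hm
    exact congrArg Subtype.val hm
  set c : Wr D R.Λ := R.Ψ ((fun z => z⁻¹ * b⁻¹ * z * b)^[m] a) with hc
  set C : ZMod (3 ^ r) → Wr D R.Λ := fun k => (v ^ k.val)⁻¹ * c * v ^ k.val with hCdef
  have hCperm : ∀ k, (C k).perm = 1 := by
    intro k
    show ((v ^ k.val)⁻¹ * c * v ^ k.val).perm = 1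
    rw [Wr.mul_perm, Wr.mul_perm, hm, mul_one, Wr.inv_perm, inv_mul_cancel]
  obtain ⟨R', hR'⟩ := hkill r (Finset.univ.image (fun l : R.Λ => fun k => (C k).lab l))
  have hk : ∀ l : R.Λ, ∃ n₀ : ℕ, ∀ n, n₀ ≤ n → ∀ k,
      R'.Ψ (T^[n] (fun k => (C k).lab l) k) = 1 := fun l =>
    stepE_kills (hR' _ (Finset.mem_image_of_mem _ (Finset.mem_univ l)))
  choose n₀ hn₀ using hk
  refine ⟨R', (Finset.univ.sup n₀) + m, ?_⟩
  have hN : ∀ l k, R'.Ψ (T^[Finset.univ.sup n₀] (fun k => (C k).lab l) k) = 1 := fun l k =>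
    hn₀ l _ (Finset.le_sup (Finset.mem_univ l)) k
  set N := Finset.univ.sup n₀ with hNdef
  obtain ⟨h1, h2⟩ := stepE_lab C hCperm N
  have h3 : T^[N] C 0 = (fun z => z⁻¹ * v⁻¹ * z * v)^[N] c := by
    rw [hCdef, stepE_conj hr]
    have : NeZero (3 ^ r) := ⟨by positivity⟩
    simp
  have h4 : R.Ψ ((fun z => z⁻¹ * b⁻¹ * z * b)^[N + m] a) = T^[N] C 0 := by
    rw [h3, Function.iterate_add_apply, stepE_map]
  rw [Rec.comp_apply, h4]
  have h5 : Wr.map R'.Ψ (T^[N] C 0) = 1 := by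
    rw [Wr.map_eq_one]
    refine ⟨h1 0, fun l => ?_⟩
    have h6 := congrFun (h2 l) 0
    rw [h6]
    exact hN l 0
  rw [h5]
  exact map_one Wr.assoc

end K611
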