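import Pool.Agent.Work.MP_611b97_al.K.StepT
import Pool.Agent.Work.MP_611b97_al.K.StepE

set_option autoImplicit false

namespace K611

open Subgroup

/-- MODULE StepRec. -/
theorem step (hkill : ∀ (r : ℕ) (S : Finset (ZMod (3 ^ r) → D)), ∃ R : Rec, ∀ c ∈ S, R.Kills c)
    (R : Rec) (a b : D) : ∃ R' : Rec, R.Ψ.ker ≤ R'.Ψ.ker ∧ (∃ m, 0 < m ∧ a ^ m ∈ R'.Ψ.ker) ∧
      ∃ N : ℕ, (fun z => z⁻¹ * b⁻¹ * z * b)^[N] a ∈ R'.Ψ.ker := by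
  obtain ⟨R₁, h₁⟩ := step_torsion hkill R a
  obtain ⟨R₂, h₂⟩ := step_torsion hkill (R.comp R₁) b
  obtain ⟨R₃, N, h₃⟩ := step_engel hkill ((R.comp R₁).comp R₂) a b h₂
  refine ⟨((R.comp R₁).comp R₂).comp R₃, ?_, ?_, N, MonoidHom.mem_ker.2 h₃⟩
  · exact (R.ker_le_comp R₁).trans (((R.comp R₁).ker_le_comp R₂).trans
      (((R.comp R₁).comp R₂).ker_le_comp R₃))
  · obtain ⟨m, hm, hm2⟩ := isOfFinOrder_iff_pow_eq_one.1 h₁
    refine ⟨m, hm, ?_⟩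
    refine (((R.comp R₁).ker_le_comp R₂).trans
      (((R.comp R₁).comp R₂).ker_le_comp R₃)) (MonoidHom.mem_ker.2 ?_)
    rw [map_pow]
    exact hm2

end K611
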