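import Pool.Agent.Work.MP_611b97_al.K.Kill
import Pool.Agent.Work.MP_611b97_al.K.StepRec
import Pool.Agent.Work.MP_611b97_al.K.SeqM
import Pool.Agent.Work.MP_611b97_al.K.Assembly
import Pool.Agent.Work.MP_611b97_al.K.HeisK
import Pool.Agent.Work.MP_611b97_al.K.Frozen

set_option autoImplicit false

namespace K611

open Subgroup

theorem exists_group : ∃ (Q : Type) (_ : Group Q), (∀ q : Q, IsOfFinOrder q) ∧
      (∀ a b : Q, ∃ n : ℕ, (fun z => z⁻¹ * b⁻¹ * z * b)^[n] a = 1) ∧ Res3 Q ∧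
      ∃ (Γ : Type) (_ : Group Γ) (π : Γ →* Q), π.ker ≤ center Γ ∧
        (∀ a ∈ π.ker, ∀ n : ℕ, 0 < n → a ^ n = 1 → a = 1) ∧
        ∃ x y : Γ, IsOfFinOrder x ∧ IsOfFinOrder y ∧ ¬ IsOfFinOrder (x * y) := by
  obtain ⟨P, h1, h2⟩ := exists_seq Rec.exists_one exists_marked
    (step (fun _ S => kill S))
  exact assembly P h1 h2

end K611
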