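import Pool.Agent.Work.MP_611b97_al.K.Defs
import Pool.Agent.Work.MP_611b97_al.K.Heis

set_option autoImplicit false

namespace K611

/-- MODULE AffK (blueprint E_k, with `k + 1` in place of `k`). -/
theorem exists_aff (k : ℕ) : ∃ N : Subgroup F, N3 N ∧ Fx ∉ N ∧ Fy ∉ N ∧
    (∀ m : ℤ, Fa ^ m ∈ N → ((3 ^ (k + 1) : ℕ) : ℤ) ∣ m) ∧
    ∀ j i e : ℤ, (Fa ^ i * Fy ^ e)⁻¹ * (Fy⁻¹ * Fa ^ j) ∈ N → ((3 ^ k : ℕ) : ℤ) ∣ j := by
  obtain ⟨H, _, _, hP, x, y, hx, hy, h⟩ := MP611b97.K.exists_sep (k + 2)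
  let f : F →* H := Flift x y hx hy ((Res3.of_finite hP).subgroup _)
  have fx : f Fx = x := Flift_x _ _ _ _ _
  have fy : f Fy = y := Flift_y _ _ _ _ _
  have fa : f Fa = x * y := by rw [Fa, map_mul, fx, fy]
  have hm : ∀ m : ℤ, (x * y) ^ m = 1 → ((3 ^ (k + 2) : ℕ) : ℤ) ∣ m := by
    intro m hm
    refine h 0 m (-1) ?_
    rw [hm, mul_one, zpow_zero, one_mul, zpow_neg_one]
  have hcop : ∀ j : ℕ, j ≤ k + 2 → ∀ m : ℤ, ((3 ^ (k + 2) : ℕ) : ℤ) ∣ m → ((3 ^ j : ℕ) : ℤ) ∣ m :=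
    fun j hj m hm => (Int.natCast_dvd_natCast.2 (pow_dvd_pow 3 hj)).trans hm
  have h9 : ¬ ((3 ^ (k + 2) : ℕ) : ℤ) ∣ 3 := by
    intro h3
    have h4 := hcop 2 (by omega) 3 h3
    norm_num at h4
  refine ⟨f.ker, N3.ker hP f, ?_, ?_, ?_, ?_⟩
  · intro hF
    rw [MonoidHom.mem_ker, fx] at hF
    refine h9 (hm 3 ?_)
    rw [hF, one_mul]
    exact_mod_cast hy
  · intro hF
    rw [MonoidHom.mem_ker, fy] at hF
    refine h9 (hm 3 ?_)
    rw [hF, mul_one]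
    exact_mod_cast hx
  · intro m hF
    rw [MonoidHom.mem_ker, map_zpow, fa] at hF
    exact hcop _ (by omega) m (hm m hF)
  · intro j i e hF
    rw [MonoidHom.mem_ker, map_mul, map_inv, inv_mul_eq_one, map_mul, map_mul, map_inv, map_zpow,
      map_zpow, map_zpow, fa, fy] at hF
    exact hcop _ (by omega) j (h i j e hF.symm)

end K611
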