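import Mathlib

/-!
# Residually finite-3 groups, presentations, the groups `F` and `D`
-/

set_option autoImplicit false

namespace K611

open Subgroup

universe u v

/-- normal subgroups whose index is a power of 3 -/
def N3 {G : Type u} [Group G] (N : Subgroup G) : Prop :=
  N.Normal ∧ ∃ k : ℕ, N.index = 3 ^ k

/-- residually finite-3 -/
def Res3 (G : Type u) [Group G] : Prop :=
  ∀ g : G, g ≠ 1 → ∃ N : Subgroup G, N3 N ∧ g ∉ N

section N3

variable {G : Type u} [Group G]

theorem N3.normal {N : Subgroup G} (h : N3 N) : N.Normal := h.1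

theorem N3.finiteIndex {N : Subgroup G} (h : N3 N) : N.FiniteIndex := by
  obtain ⟨k, hk⟩ := h.2
  exact ⟨by rw [hk]; positivity⟩

theorem N3.finite {N : Subgroup G} (h : N3 N) : Finite (G ⧸ N) := by
  have := h.finiteIndex
  exact Subgroup.finite_quotient_of_finiteIndex

theorem N3.isPGroup {N : Subgroup G} (h : N3 N) : letI := h.1; IsPGroup 3 (G ⧸ N) := by
  letI := h.1
  obtain ⟨k, hk⟩ := h.2
  exact IsPGroup.of_card (n := k) (by rw [← hk, Subgroup.index])

theorem N3.ker {P : Type v} [Group P] [Finite P] (hP : IsPGroup 3 P) (f : G →* P) :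
    N3 f.ker := by
  refine ⟨inferInstance, ?_⟩
  have h1 : IsPGroup 3 f.range := hP.of_injective f.range.subtype Subtype.val_injective
  obtain ⟨k, hk⟩ := IsPGroup.iff_card.1 h1
  exact ⟨k, by rw [Subgroup.index_ker, hk]⟩

/-- kernel criterion with a possibly infinite target -/
theorem N3.ker' {P : Type v} [Group P] (f : G →* P) (hf : Finite f.range)
    (hP : IsPGroup 3 f.range) : N3 f.ker := by
  have := N3.ker hP f.rangeRestrict
  rwa [MonoidHom.ker_rangeRestrict] at this

theorem N3.comap {H : Type v} [Group H] {N : Subgroup H} (h : N3 N) (f : G →* H) :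
    N3 (N.comap f) := by
  letI := h.1
  haveI := h.finite
  have h1 := N3.ker h.isPGroup ((QuotientGroup.mk' N).comp f)
  have h2 : ((QuotientGroup.mk' N).comp f).ker = N.comap f := by
    ext g
    simp [MonoidHom.mem_ker, Subgroup.mem_comap]
  rwa [h2] at h1

theorem N3.top : N3 (⊤ : Subgroup G) := ⟨inferInstance, 0, by simp⟩

theorem N3.inf {N M : Subgroup G} (hN : N3 N) (hM : N3 M) : N3 (N ⊓ M) := by
  letI := hN.1
  letI := hM.1
  haveI := hN.finite
  haveI := hM.finite
  have h0 : IsPGroup 3 ((G ⧸ N) × (G ⧸ M)) := by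
    intro x
    obtain ⟨a, ha⟩ := hN.isPGroup x.1
    obtain ⟨b, hb⟩ := hM.isPGroup x.2
    refine ⟨a + b, Prod.ext ?_ ?_⟩
    · rw [Prod.pow_fst, pow_add, pow_mul, ha, one_pow, Prod.fst_one]
    · rw [Prod.pow_snd, pow_add, mul_comm, pow_mul, hb, one_pow, Prod.snd_one]
  have h1 := N3.ker h0 ((QuotientGroup.mk' N).prod (QuotientGroup.mk' M))
  have h2 : ((QuotientGroup.mk' N).prod (QuotientGroup.mk' M)).ker = N ⊓ M := by
    ext g
    simp [MonoidHom.mem_ker, Subgroup.mem_inf, Prod.ext_iff]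
  rwa [h2] at h1

theorem N3.finset_inf {ι : Type*} (s : Finset ι) (N : ι → Subgroup G)
    (h : ∀ i ∈ s, N3 (N i)) : ∃ M : Subgroup G, N3 M ∧ ∀ i ∈ s, M ≤ N i := by
  classical
  induction s using Finset.induction_on with
  | empty => exact ⟨⊤, N3.top, by simp⟩
  | insert a s ha ih =>
    obtain ⟨M, hM, hM2⟩ := ih (fun i hi => h i (Finset.mem_insert_of_mem hi))
    refine ⟨N a ⊓ M, (h a (Finset.mem_insert_self a s)).inf hM, ?_⟩
    intro i hi
    rcases Finset.mem_insert.1 hi with rfl | hi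
    · exact inf_le_left
    · exact inf_le_right.trans (hM2 i hi)

theorem N3.fintype_inf {ι : Type*} [Finite ι] (N : ι → Subgroup G)
    (h : ∀ i, N3 (N i)) : ∃ M : Subgroup G, N3 M ∧ ∀ i, M ≤ N i := by
  classical
  haveI := Fintype.ofFinite ι
  obtain ⟨M, h1, h2⟩ := N3.finset_inf Finset.univ N (fun i _ => h i)
  exact ⟨M, h1, fun i => h2 i (Finset.mem_univ i)⟩

/-- the exponent of `G ⧸ N` -/
theorem N3.exists_pow_mem {N : Subgroup G} (h : N3 N) : ∃ k : ℕ, ∀ g : G, g ^ 3 ^ k ∈ N := by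
  letI := h.1
  obtain ⟨k, hk⟩ := h.2
  refine ⟨k, fun g => ?_⟩
  rw [← QuotientGroup.eq_one_iff, QuotientGroup.mk_pow, ← hk, Subgroup.index]
  exact pow_card_eq_one'

end N3

section Res3

variable {G : Type u} [Group G]

theorem Res3.of_injective {H : Type v} [Group H] (hH : Res3 H) (f : G →* H)
    (hf : Function.Injective f) : Res3 G := by
  intro g hg
  obtain ⟨N, hN, hgN⟩ := hH (f g) (by
    intro h
    exact hg (hf (by rw [h, map_one])))
  exact ⟨N.comap f, hN.comap f, hgN⟩

theorem Res3.subgroup (hG : Res3 G) (H : Subgroup G) : Res3 H :=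
  hG.of_injective H.subtype Subtype.val_injective

theorem Res3.of_finite [Finite G] (h : IsPGroup 3 G) : Res3 G := by
  intro g hg
  refine ⟨⊥, ?_, by simpa using hg⟩
  have := N3.ker h (MonoidHom.id G)
  rwa [show (MonoidHom.id G).ker = ⊥ from (MonoidHom.ker_eq_bot_iff _).2 fun _ _ h => h] at this

theorem Res3.pi {ι : Type v} {H : ι → Type u} [∀ i, Group (H i)] (h : ∀ i, Res3 (H i)) :
    Res3 (∀ i, H i) := by
  intro g hg
  obtain ⟨i, hi⟩ : ∃ i, g i ≠ 1 := by
    by_contra hcon
    push Not at hcon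
    exact hg (funext hcon)
  obtain ⟨N, hN, hgN⟩ := h i (g i) hi
  exact ⟨N.comap (Pi.evalMonoidHom H i), hN.comap _, hgN⟩

theorem Res3.exists_sep (hG : Res3 G) (s : Finset G) :
    ∃ N : Subgroup G, N3 N ∧ ∀ g ∈ s, g ∈ N → g = 1 := by
  classical
  have : ∀ g : G, ∃ N : Subgroup G, N3 N ∧ (g ∈ N → g = 1) := by
    intro g
    by_cases hg : g = 1
    · exact ⟨⊤, N3.top, fun _ => hg⟩
    · obtain ⟨N, hN, hgN⟩ := hG g hg
      exact ⟨N, hN, fun h => absurd h hgN⟩
  choose N hN hN2 using this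
  obtain ⟨M, hM, hM2⟩ := N3.finset_inf s N (fun i _ => hN i)
  exact ⟨M, hM, fun g hg hgM => hN2 g (hM2 g hg hgM)⟩

/-- a finite residually finite-3 group is a 3-group -/
theorem Res3.isPGroup_of_finite [Finite G] (hG : Res3 G) : IsPGroup 3 G := by
  classical
  haveI := Fintype.ofFinite G
  obtain ⟨N, hN, hN2⟩ := hG.exists_sep Finset.univ
  letI := hN.1
  refine hN.isPGroup.of_injective (QuotientGroup.mk' N) ?_
  rw [← MonoidHom.ker_eq_bot_iff, QuotientGroup.ker_mk', eq_bot_iff]
  intro g hg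
  exact hN2 g (Finset.mem_univ g) hg

theorem Res3.isPGroup_subgroup (hG : Res3 G) (H : Subgroup G) [Finite H] : IsPGroup 3 H :=
  (hG.subgroup H).isPGroup_of_finite

theorem Res3.int : Res3 (Multiplicative ℤ) := by
  intro g hg
  have hg' : (Multiplicative.toAdd g) ≠ 0 := fun h => hg (by
    rw [← ofAdd_toAdd g, h, ofAdd_zero])
  obtain ⟨k, hk⟩ : ∃ k : ℕ, ¬ ((3 ^ k : ℕ) : ℤ) ∣ Multiplicative.toAdd g := by
    refine ⟨(Multiplicative.toAdd g).natAbs, fun h => ?_⟩
    have h1 := Int.natAbs_dvd_natAbs.2 h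
    rw [Int.natAbs_natCast] at h1
    have h2 := Nat.le_of_dvd (Int.natAbs_pos.2 hg') h1
    have h3 := Nat.lt_pow_self (n := (Multiplicative.toAdd g).natAbs) (a := 3) (by norm_num)
    omega
  haveI : NeZero (3 ^ k) := ⟨by positivity⟩
  have hP : IsPGroup 3 (Multiplicative (ZMod (3 ^ k))) := by
    apply IsPGroup.of_card (n := k)
    rw [Nat.card_eq_fintype_card, Fintype.card_multiplicative, ZMod.card]
  refine ⟨(AddMonoidHom.toMultiplicative (Int.castAddHom (ZMod (3 ^ k)))).ker, N3.ker hP _, ?_⟩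
  intro h
  rw [MonoidHom.mem_ker] at h
  have h2 : ((Multiplicative.toAdd g : ℤ) : ZMod (3 ^ k)) = 0 := by
    have := congrArg Multiplicative.toAdd h
    simpa using this
  rw [ZMod.intCast_zmod_eq_zero_iff_dvd] at h2
  exact hk h2

/-- an element of finite order in a residually finite-3 group has order a power of 3 -/
theorem Res3.pow_eq_one (hG : Res3 G) {g : G} (hg : IsOfFinOrder g) : ∃ k : ℕ, g ^ 3 ^ k = 1 := by
  haveI : Finite (zpowers g) := (finite_zpowers.2 hg).to_subtype
  obtain ⟨k, hk⟩ := hG.isPGroup_subgroup (zpowers g) ⟨g, mem_zpowers g⟩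
  refine ⟨k, ?_⟩
  have := congrArg Subtype.val hk
  simpa using this

end Res3

/-! ### presentations made residually finite-3 -/

section Pres

variable {ι : Type} (rels : Set (FreeGroup ι))

/-- the kernel of the residually finite-3 presentation -/
def presKer : Subgroup (FreeGroup ι) := sInf {N | N3 N ∧ rels ⊆ N}

theorem mem_presKer {w : FreeGroup ι} :
    w ∈ presKer rels ↔ ∀ N : Subgroup (FreeGroup ι), N3 N → rels ⊆ N → w ∈ N := by
  unfold presKer
  rw [Subgroup.mem_sInf]
  exact ⟨fun h N h1 h2 => h N ⟨h1, h2⟩, fun h N hN => h N hN.1 hN.2⟩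

instance presKer_normal : (presKer rels).Normal := by
  constructor
  intro n hn g
  rw [mem_presKer] at hn ⊢
  intro N hN hr
  exact hN.1.conj_mem n (hn N hN hr) g

/-- the residually finite-3 group with generators `ι` and relators `rels` -/
def Pres3 : Type := FreeGroup ι ⧸ presKer rels

instance : Group (Pres3 rels) := inferInstanceAs (Group (FreeGroup ι ⧸ presKer rels))

/-- the quotient map -/
def Pres3.mk : FreeGroup ι →* Pres3 rels := QuotientGroup.mk' (presKer rels)

/-- generators -/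
def Pres3.of (i : ι) : Pres3 rels := Pres3.mk rels (FreeGroup.of i)

theorem Pres3.mk_surjective : Function.Surjective (Pres3.mk rels) :=
  QuotientGroup.mk'_surjective (presKer rels)

theorem Pres3.ker_mk : (Pres3.mk rels).ker = presKer rels := QuotientGroup.ker_mk' _

theorem Pres3.mk_eq_one {w : FreeGroup ι} (hw : w ∈ rels) : Pres3.mk rels w = 1 := by
  rw [← MonoidHom.mem_ker, Pres3.ker_mk, mem_presKer]
  intro N _ h
  exact h hw

theorem Pres3.closure_range_of : closure (Set.range (Pres3.of rels)) = ⊤ := by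
  have h : Set.range (Pres3.of rels) = (Pres3.mk rels) '' Set.range (FreeGroup.of) := by
    rw [← Set.range_comp]
    rfl
  rw [h, ← MonoidHom.map_closure, FreeGroup.closure_range_of, ← MonoidHom.range_eq_map,
    MonoidHom.range_eq_top]
  exact Pres3.mk_surjective rels

theorem Pres3.res3 : Res3 (Pres3 rels) := by
  intro g hg
  obtain ⟨w, rfl⟩ := Pres3.mk_surjective rels g
  have hw : w ∉ presKer rels := by
    intro h
    rw [← Pres3.ker_mk] at h
    exact hg h
  rw [mem_presKer] at hw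
  push Not at hw
  obtain ⟨N, hN, hr, hwN⟩ := hw
  letI := hN.1
  haveI := hN.finite
  have hle : presKer rels ≤ (QuotientGroup.mk' N).ker := by
    intro v hv
    rw [QuotientGroup.ker_mk']
    exact (mem_presKer rels).1 hv N hN hr
  let f : Pres3 rels →* FreeGroup ι ⧸ N := QuotientGroup.lift (presKer rels) (QuotientGroup.mk' N)
    (fun v hv => hle hv)
  have hf : f (Pres3.mk rels w) = QuotientGroup.mk' N w := rfl
  refine ⟨f.ker, N3.ker hN.isPGroup f, ?_⟩
  rw [MonoidHom.mem_ker, hf]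
  intro h
  exact hwN ((QuotientGroup.eq_one_iff w).1 h)

variable {rels}

theorem Pres3.le_ker {P : Type u} [Group P] (f : ι → P)
    (hP : Res3 (closure (Set.range f))) (h : ∀ w ∈ rels, FreeGroup.lift f w = 1) :
    presKer rels ≤ (FreeGroup.lift f).ker := by
  intro w hw
  by_contra hne
  have hmem : ∀ v : FreeGroup ι, FreeGroup.lift f v ∈ closure (Set.range f) := by
    intro v
    rw [← FreeGroup.range_lift_eq_closure]
    exact ⟨v, rfl⟩
  let g : FreeGroup ι →* closure (Set.range f) := (FreeGroup.lift f).codRestrict _ hmem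
  have hg : g w ≠ 1 := by
    intro h1
    exact hne (congrArg Subtype.val h1)
  obtain ⟨N, hN, hgN⟩ := hP (g w) hg
  rw [mem_presKer] at hw
  refine hgN (hw (N.comap g) (hN.comap g) ?_)
  intro v hv
  have : g v = 1 := Subtype.ext (h v hv)
  rw [SetLike.mem_coe, Subgroup.mem_comap, this]
  exact N.one_mem

/-- universal property -/
def Pres3.lift {P : Type u} [Group P] (f : ι → P)
    (hP : Res3 (closure (Set.range f))) (h : ∀ w ∈ rels, FreeGroup.lift f w = 1) :
    Pres3 rels →* P :=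
  QuotientGroup.lift (presKer rels) (FreeGroup.lift f) (fun w hw => Pres3.le_ker f hP h hw)

theorem Pres3.lift_mk {P : Type u} [Group P] (f : ι → P)
    (hP : Res3 (closure (Set.range f))) (h : ∀ w ∈ rels, FreeGroup.lift f w = 1)
    (w : FreeGroup ι) : Pres3.lift f hP h (Pres3.mk rels w) = FreeGroup.lift f w := rfl

theorem Pres3.lift_of {P : Type u} [Group P] (f : ι → P)
    (hP : Res3 (closure (Set.range f))) (h : ∀ w ∈ rels, FreeGroup.lift f w = 1)
    (i : ι) : Pres3.lift f hP h (Pres3.of rels i) = f i := by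
  rw [Pres3.of, Pres3.lift_mk, FreeGroup.lift_apply_of]

theorem Pres3.hom_ext {P : Type u} [Group P] {f g : Pres3 rels →* P}
    (h : ∀ i, f (Pres3.of rels i) = g (Pres3.of rels i)) : f = g := by
  apply MonoidHom.eq_of_eqOn_top
  rw [← Pres3.closure_range_of rels]
  intro x hx
  induction hx using closure_induction with
  | mem x hx =>
    obtain ⟨i, rfl⟩ := hx
    exact h i
  | one => rw [map_one, map_one]
  | mul x y _ _ hx hy => rw [map_mul, map_mul, hx, hy]
  | inv x _ hx => rw [map_inv, map_inv, hx]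

end Pres

/-! ### the group `F` (two generators of order 3) -/

/-- relators `x^3`, `y^3` -/
def relF : Set (FreeGroup (Fin 2)) := {w | ∃ i, w = FreeGroup.of i ^ 3}

/-- the residually finite-3 version of `ℤ/3 * ℤ/3` -/
abbrev F : Type := Pres3 relF

/-- first generator -/
def Fx : F := Pres3.of relF 0

/-- second generator -/
def Fy : F := Pres3.of relF 1

/-- the product of the generators -/
def Fa : F := Fx * Fy

theorem Fx_pow : Fx ^ 3 = 1 := by
  have h := Pres3.mk_eq_one relF (w := FreeGroup.of 0 ^ 3) ⟨0, rfl⟩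
  rwa [map_pow] at h

theorem Fy_pow : Fy ^ 3 = 1 := by
  have h := Pres3.mk_eq_one relF (w := FreeGroup.of 1 ^ 3) ⟨1, rfl⟩
  rwa [map_pow] at h

theorem F_closure : closure ({Fx, Fy} : Set F) = ⊤ := by
  rw [← Pres3.closure_range_of relF]
  congr 1
  ext z
  constructor
  · rintro (rfl | rfl)
    · exact ⟨0, rfl⟩
    · exact ⟨1, rfl⟩
  · rintro ⟨i, rfl⟩
    fin_cases i
    · exact Or.inl rfl
    · exact Or.inr rfl

theorem F_res3 : Res3 F := Pres3.res3 relF

/-- universal property of `F` -/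
def Flift {P : Type u} [Group P] (s t : P) (hs : s ^ 3 = 1) (ht : t ^ 3 = 1)
    (hP : Res3 (closure ({s, t} : Set P))) : F →* P :=
  Pres3.lift ![s, t] (by
    have : Set.range ![s, t] = {s, t} := by simp [Set.pair_comm]
    rw [this]
    exact hP) (by
    rintro w ⟨i, rfl⟩
    rw [map_pow, FreeGroup.lift_apply_of]
    fin_cases i
    · exact hs
    · exact ht)

theorem Flift_x {P : Type u} [Group P] (s t : P) (hs : s ^ 3 = 1) (ht : t ^ 3 = 1)
    (hP : Res3 (closure ({s, t} : Set P))) : Flift s t hs ht hP Fx = s :=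
  Pres3.lift_of _ _ _ _

theorem Flift_y {P : Type u} [Group P] (s t : P) (hs : s ^ 3 = 1) (ht : t ^ 3 = 1)
    (hP : Res3 (closure ({s, t} : Set P))) : Flift s t hs ht hP Fy = t :=
  Pres3.lift_of _ _ _ _

theorem F_hom_ext {P : Type u} [Group P] {f g : F →* P} (hx : f Fx = g Fx) (hy : f Fy = g Fy) :
    f = g := by
  apply Pres3.hom_ext
  intro i
  fin_cases i
  · exact hx
  · exact hy

/-- induction principle for `F` -/
theorem F_induction {p : F → Prop} (h1 : p 1) (hx : p Fx) (hy : p Fy)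
    (hm : ∀ g h, p g → p h → p (g * h)) (hi : ∀ g, p g → p g⁻¹) (g : F) : p g := by
  have hg : g ∈ closure ({Fx, Fy} : Set F) := by
    rw [F_closure]
    exact mem_top g
  induction hg using closure_induction with
  | mem x hx' =>
    rcases hx' with rfl | rfl
    · exact hx
    · exact hy
  | one => exact h1
  | mul x y _ _ hx hy => exact hm x y hx hy
  | inv x _ hx => exact hi x hx

/-! ### the group `D` (four generators of order 3 with product 1) -/

/-- relators `x_i^3` and `x_0 x_1 x_2 x_3` -/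
def relD : Set (FreeGroup (Fin 4)) :=
  {w | (∃ i, w = FreeGroup.of i ^ 3) ∨
    w = FreeGroup.of 0 * FreeGroup.of 1 * FreeGroup.of 2 * FreeGroup.of 3}

/-- the residually finite-3 version of `⟨x_i | x_i^3, x_0x_1x_2x_3⟩` -/
abbrev D : Type := Pres3 relD

/-- generators of `D` -/
def Dx (i : Fin 4) : D := Pres3.of relD i

theorem Dx_pow (i : Fin 4) : Dx i ^ 3 = 1 := by
  have h := Pres3.mk_eq_one relD (w := FreeGroup.of i ^ 3) (Or.inl ⟨i, rfl⟩)
  rwa [map_pow] at h

theorem Dx_prod : Dx 0 * Dx 1 * Dx 2 * Dx 3 = 1 := by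
  have h := Pres3.mk_eq_one relD
    (w := FreeGroup.of 0 * FreeGroup.of 1 * FreeGroup.of 2 * FreeGroup.of 3) (Or.inr rfl)
  rwa [map_mul, map_mul, map_mul] at h

theorem D_closure : closure (Set.range Dx) = ⊤ := Pres3.closure_range_of relD

theorem D_res3 : Res3 D := Pres3.res3 relD

/-- universal property of `D` -/
def Dlift {P : Type u} [Group P] (g : Fin 4 → P) (h3 : ∀ i, g i ^ 3 = 1)
    (hp : g 0 * g 1 * g 2 * g 3 = 1) (hP : Res3 (closure (Set.range g))) : D →* P :=
  Pres3.lift g hP (by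
    rintro w (⟨i, rfl⟩ | rfl)
    · rw [map_pow, FreeGroup.lift_apply_of]
      exact h3 i
    · rw [map_mul, map_mul, map_mul, FreeGroup.lift_apply_of, FreeGroup.lift_apply_of,
        FreeGroup.lift_apply_of, FreeGroup.lift_apply_of]
      exact hp)

theorem Dlift_x {P : Type u} [Group P] (g : Fin 4 → P) (h3 : ∀ i, g i ^ 3 = 1)
    (hp : g 0 * g 1 * g 2 * g 3 = 1) (hP : Res3 (closure (Set.range g))) (i : Fin 4) :
    Dlift g h3 hp hP (Dx i) = g i :=
  Pres3.lift_of _ _ _ _

theorem D_hom_ext {P : Type u} [Group P] {f g : D →* P} (h : ∀ i, f (Dx i) = g (Dx i)) :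
    f = g := Pres3.hom_ext h

/-- induction principle for `D` -/
theorem D_induction {p : D → Prop} (h1 : p 1) (hx : ∀ i, p (Dx i))
    (hm : ∀ g h, p g → p h → p (g * h)) (hi : ∀ g, p g → p g⁻¹) (g : D) : p g := by
  have hg : g ∈ closure (Set.range Dx) := by
    rw [D_closure]
    exact mem_top g
  induction hg using closure_induction with
  | mem x hx' =>
    obtain ⟨i, rfl⟩ := hx'
    exact hx i
  | one => exact h1
  | mul x y _ _ hx hy => exact hm x y hx hy
  | inv x _ hx => exact hi x hx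

/-- the quotient map `D → F`: `x_0 ↦ x`, `x_1 ↦ y`, `x_2 ↦ y⁻¹`, `x_3 ↦ x⁻¹` -/
def piF : D →* F :=
  Dlift ![Fx, Fy, Fy⁻¹, Fx⁻¹] (by
    intro i
    fin_cases i
    · exact Fx_pow
    · exact Fy_pow
    · show (Fy⁻¹) ^ 3 = 1
      rw [inv_pow, Fy_pow, inv_one]
    · show (Fx⁻¹) ^ 3 = 1
      rw [inv_pow, Fx_pow, inv_one])
    (by
      show Fx * Fy * Fy⁻¹ * Fx⁻¹ = 1
      group)
    (F_res3.subgroup _)

@[simp] theorem piF_x0 : piF (Dx 0) = Fx := Dlift_x _ _ _ _ _
@[simp] theorem piF_x1 : piF (Dx 1) = Fy := Dlift_x _ _ _ _ _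
@[simp] theorem piF_x2 : piF (Dx 2) = Fy⁻¹ := Dlift_x _ _ _ _ _
@[simp] theorem piF_x3 : piF (Dx 3) = Fx⁻¹ := Dlift_x _ _ _ _ _

/-- the section `F → D`: `x ↦ x_3⁻¹`, `y ↦ x_2⁻¹` -/
def iotaF : F →* D :=
  Flift (Dx 3)⁻¹ (Dx 2)⁻¹ (by rw [inv_pow, Dx_pow, inv_one]) (by rw [inv_pow, Dx_pow, inv_one])
    (D_res3.subgroup _)

@[simp] theorem iotaF_x : iotaF Fx = (Dx 3)⁻¹ := Flift_x _ _ _ _ _
@[simp] theorem iotaF_y : iotaF Fy = (Dx 2)⁻¹ := Flift_y _ _ _ _ _

@[simp] theorem piF_iotaF (g : F) : piF (iotaF g) = g := by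
  have h : piF.comp iotaF = MonoidHom.id F := by
    apply F_hom_ext
    · rw [MonoidHom.comp_apply, iotaF_x, map_inv, piF_x3, inv_inv, MonoidHom.id_apply]
    · rw [MonoidHom.comp_apply, iotaF_y, map_inv, piF_x2, inv_inv, MonoidHom.id_apply]
  exact DFunLike.congr_fun h g

/-- `x_0 x_1` -/
def Da : D := Dx 0 * Dx 1

theorem Da_mul : Da * (Dx 2 * Dx 3) = 1 := by
  rw [Da, ← Dx_prod]
  group

theorem iotaF_a : iotaF Fa = Da := by
  rw [Fa, map_mul, iotaF_x, iotaF_y, eq_inv_of_mul_eq_one_left Da_mul, mul_inv_rev]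

@[simp] theorem piF_a : piF Da = Fa := by rw [← iotaF_a, piF_iotaF]

/-- `⟨x_0, x_1⟩` -/
def Fminus : Subgroup D := closure {Dx 0, Dx 1}

/-- `⟨x_2, x_3⟩` -/
def Fplus : Subgroup D := closure {Dx 2, Dx 3}

theorem Fplus_eq_range : Fplus = iotaF.range := by
  apply le_antisymm
  · rw [Fplus, closure_le]
    rintro z (rfl | rfl)
    · exact ⟨Fy⁻¹, by rw [map_inv, iotaF_y, inv_inv]⟩
    · exact ⟨Fx⁻¹, by rw [map_inv, iotaF_x, inv_inv]⟩
  · rintro z ⟨g, rfl⟩
    induction g using F_induction with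
    | h1 => rw [map_one]; exact one_mem _
    | hx => rw [iotaF_x]; exact inv_mem (subset_closure (by simp))
    | hy => rw [iotaF_y]; exact inv_mem (subset_closure (by simp))
    | hm g h hg hh => rw [map_mul]; exact mul_mem hg hh
    | hi g hg => rw [map_inv]; exact inv_mem hg

theorem Da_mem_minus : Da ∈ Fminus :=
  mul_mem (subset_closure (by simp)) (subset_closure (by simp))

theorem Da_mem_plus : Da ∈ Fplus := by
  rw [Fplus_eq_range]
  exact ⟨Fa, iotaF_a⟩

theorem mem_Fplus_iff (d : D) : d ∈ Fplus ↔ iotaF (piF d) = d := by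
  rw [Fplus_eq_range]
  constructor
  · rintro ⟨g, rfl⟩
    rw [piF_iotaF]
  · intro h
    exact ⟨_, h⟩

end K611
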