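import Mathlib

/-!
# Counting labels with values in `ℤ/3`
-/

set_option autoImplicit false

namespace K611

/-- For a permutation `x` with `x ^ 3 = 1` the functions `l ↦ g l + g (x⁻¹ l) + g (x⁻¹ (x⁻¹ l))`
are determined by their values on a set of at most a third of the points. -/
theorem exists_reps {Λ : Type*} [Fintype Λ] [DecidableEq Λ] (x : Equiv.Perm Λ) (hx : x ^ 3 = 1) :
    ∃ A : Finset Λ, 3 * A.card ≤ Fintype.card Λ ∧
      ∀ g : Λ → ZMod 3, (∀ a ∈ A, g a + g (x⁻¹ a) + g (x⁻¹ (x⁻¹ a)) = 0) →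
        ∀ l, g l + g (x⁻¹ l) + g (x⁻¹ (x⁻¹ l)) = 0 := by
  classical
  obtain ⟨e⟩ : Nonempty (Λ ≃ Fin (Fintype.card Λ)) := ⟨Fintype.equivFin Λ⟩
  have hx3 : ∀ l, x⁻¹ (x⁻¹ (x⁻¹ l)) = l := by
    intro l
    have h : (x⁻¹) ^ 3 = 1 := by rw [inv_pow, hx, inv_one]
    have := congrArg (fun p : Equiv.Perm Λ => p l) h
    simpa [pow_succ, Equiv.Perm.mul_apply] using this
  let A : Finset Λ := Finset.univ.filter (fun l => e l < e (x⁻¹ l) ∧ e l < e (x⁻¹ (x⁻¹ l)))
  have hA : ∀ l, l ∈ A ↔ e l < e (x⁻¹ l) ∧ e l < e (x⁻¹ (x⁻¹ l)) := by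
    intro l
    simp [A]
  refine ⟨A, ?_, ?_⟩
  · have h1 : Disjoint A (A.map x⁻¹.toEmbedding) := by
      rw [Finset.disjoint_left]
      intro l hl hl2
      obtain ⟨m, hm, hml⟩ := Finset.mem_map.1 hl2
      have hml' : x⁻¹ m = l := hml
      rw [hA] at hl hm
      rw [← hml', hx3] at hl
      rw [hml'] at hm
      rw [hml'] at hl
      exact absurd (hl.2.trans hm.1) (lt_irrefl _)
    have h2 : Disjoint A (A.map (x⁻¹ * x⁻¹).toEmbedding) := by
      rw [Finset.disjoint_left]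
      intro l hl hl2
      obtain ⟨m, hm, hml⟩ := Finset.mem_map.1 hl2
      have hml' : x⁻¹ (x⁻¹ m) = l := hml
      rw [hA] at hl hm
      rw [← hml', hx3] at hl
      rw [hml'] at hm
      rw [hml'] at hl
      exact absurd (hl.1.trans hm.2) (lt_irrefl _)
    have h3 : Disjoint (A.map x⁻¹.toEmbedding) (A.map (x⁻¹ * x⁻¹).toEmbedding) := by
      rw [Finset.disjoint_left]
      intro l hl hl2
      obtain ⟨m, hm, hml⟩ := Finset.mem_map.1 hl
      obtain ⟨k, hk, hkl⟩ := Finset.mem_map.1 hl2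
      have hml' : x⁻¹ m = l := hml
      have hkl' : x⁻¹ (x⁻¹ k) = l := hkl
      have hmk : m = x⁻¹ k := x⁻¹.injective (hml'.trans hkl'.symm)
      exact (Finset.disjoint_left.1 h1) hm (Finset.mem_map.2 ⟨k, hk, hmk.symm⟩)
    have hc : (A ∪ (A.map x⁻¹.toEmbedding ∪ A.map (x⁻¹ * x⁻¹).toEmbedding)).card = 3 * A.card := by
      rw [Finset.card_union_of_disjoint (Finset.disjoint_union_right.2 ⟨h1, h2⟩),
        Finset.card_union_of_disjoint h3, Finset.card_map, Finset.card_map]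
      ring
    rw [← hc]
    exact Finset.card_le_univ _
  · intro g hg l
    have h3g : ∀ t : ZMod 3, t + t + t = 0 := by decide
    by_cases hf : x⁻¹ l = l
    · rw [hf, hf]
      exact h3g _
    have hf2 : x⁻¹ (x⁻¹ l) ≠ l := by
      intro h
      apply hf
      have := hx3 l
      rwa [h] at this
    have hf3 : x⁻¹ (x⁻¹ l) ≠ x⁻¹ l := fun h => hf (x⁻¹.injective h)
    have n1 : e (x⁻¹ l) ≠ e l := fun h => hf (e.injective h)
    have n2 : e (x⁻¹ (x⁻¹ l)) ≠ e l := fun h => hf2 (e.injective h)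
    have n3 : e (x⁻¹ (x⁻¹ l)) ≠ e (x⁻¹ l) := fun h => hf3 (e.injective h)
    rcases lt_or_gt_of_ne n1 with c1 | c1
    · rcases lt_or_gt_of_ne n3 with c3 | c3
      · -- the minimum is `x⁻¹ (x⁻¹ l)`
        have hm : x⁻¹ (x⁻¹ l) ∈ A := by
          rw [hA, hx3]
          exact ⟨c3.trans c1, c3⟩
        have := hg _ hm
        rw [hx3] at this
        rw [← this]
        ring
      · have hm : x⁻¹ l ∈ A := by
          rw [hA, hx3]
          exact ⟨c3, c1⟩
        have := hg _ hm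
        rw [hx3] at this
        rw [← this]
        ring
    · rcases lt_or_gt_of_ne n2 with c2 | c2
      · have hm : x⁻¹ (x⁻¹ l) ∈ A := by
          rw [hA, hx3]
          exact ⟨c2, c2.trans c1⟩
        have := hg _ hm
        rw [hx3] at this
        rw [← this]
        ring
      · exact hg l ((hA l).2 ⟨c1, c2⟩)

/-- **Counting lemma.** Labels for two permutations of order three, with vanishing orbit sums,
zero on `U`, in the kernel of a given linear map, and not a coboundary. -/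
theorem exists_labels {Λ : Type*} [Fintype Λ] [DecidableEq Λ] (x y : Equiv.Perm Λ)
    (hx : x ^ 3 = 1) (hy : y ^ 3 = 1) (U : Finset Λ) {ι : Type*} [Fintype ι]
    (φ : ((Λ → ZMod 3) × (Λ → ZMod 3)) →ₗ[ZMod 3] (ι → ZMod 3))
    (h : 3 * (Fintype.card ι + 2 * U.card) < Fintype.card Λ) :
    ∃ g : (Λ → ZMod 3) × (Λ → ZMod 3),
      (∀ l, g.1 l + g.1 (x⁻¹ l) + g.1 (x⁻¹ (x⁻¹ l)) = 0) ∧
      (∀ l, g.2 l + g.2 (y⁻¹ l) + g.2 (y⁻¹ (y⁻¹ l)) = 0) ∧
      (∀ l ∈ U, g.1 l = 0 ∧ g.2 l = 0) ∧ φ g = 0 ∧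
      ¬ ∃ b : Λ → ZMod 3, (∀ l, g.1 l = b l - b (x⁻¹ l)) ∧ (∀ l, g.2 l = b l - b (y⁻¹ l)) := by
  classical
  have : Fact (Nat.Prime 3) := ⟨by norm_num⟩
  obtain ⟨A, hAc, hA⟩ := exists_reps x hx
  obtain ⟨B, hBc, hB⟩ := exists_reps y hy
  let Φ : ((Λ → ZMod 3) × (Λ → ZMod 3)) →ₗ[ZMod 3]
      ((A → ZMod 3) × (B → ZMod 3)) × ((U → ZMod 3) × (U → ZMod 3)) × (ι → ZMod 3) :=
    { toFun := fun g =>
        ((fun a => g.1 a + g.1 (x⁻¹ a) + g.1 (x⁻¹ (x⁻¹ a)),
          fun b => g.2 b + g.2 (y⁻¹ b) + g.2 (y⁻¹ (y⁻¹ b))),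
          (fun u => g.1 u, fun u => g.2 u), φ g)
      map_add' := by
        intro g k
        refine Prod.ext (Prod.ext ?_ ?_) (Prod.ext (Prod.ext ?_ ?_) ?_)
        · funext a
          simp only [Prod.fst_add, Pi.add_apply]
          ring
        · funext a
          simp only [Prod.fst_add, Prod.snd_add, Pi.add_apply]
          ring
        · rfl
        · rfl
        · exact map_add φ g k
      map_smul' := by
        intro c g
        refine Prod.ext (Prod.ext ?_ ?_) (Prod.ext (Prod.ext ?_ ?_) ?_)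
        · funext a
          simp only [Prod.smul_fst, Pi.smul_apply, smul_eq_mul, RingHom.id_apply]
          ring
        · funext a
          simp only [Prod.smul_snd, Prod.smul_fst, Pi.smul_apply, smul_eq_mul, RingHom.id_apply]
          ring
        · rfl
        · rfl
        · exact map_smul φ c g }
  let δ : (Λ → ZMod 3) →ₗ[ZMod 3] ((Λ → ZMod 3) × (Λ → ZMod 3)) :=
    { toFun := fun b => (fun l => b l - b (x⁻¹ l), fun l => b l - b (y⁻¹ l))
      map_add' := by
        intro b c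
        refine Prod.ext ?_ ?_
        · funext l
          simp only [Prod.fst_add, Pi.add_apply]
          ring
        · funext l
          simp only [Prod.snd_add, Pi.add_apply]
          ring
      map_smul' := by
        intro c b
        refine Prod.ext ?_ ?_
        · funext l
          simp only [Prod.smul_fst, Pi.smul_apply, smul_eq_mul, RingHom.id_apply]
          ring
        · funext l
          simp only [Prod.smul_snd, Pi.smul_apply, smul_eq_mul, RingHom.id_apply]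
          ring }
  by_contra hcon
  push Not at hcon
  have hle : LinearMap.ker Φ ≤ LinearMap.range δ := by
    intro g hg
    rw [LinearMap.mem_ker] at hg
    have g1 : ∀ a ∈ A, g.1 a + g.1 (x⁻¹ a) + g.1 (x⁻¹ (x⁻¹ a)) = 0 := fun a ha =>
      congrFun (congrArg (fun t => t.1.1) hg) ⟨a, ha⟩
    have g2 : ∀ a ∈ B, g.2 a + g.2 (y⁻¹ a) + g.2 (y⁻¹ (y⁻¹ a)) = 0 := fun a ha =>
      congrFun (congrArg (fun t => t.1.2) hg) ⟨a, ha⟩
    have g3 : ∀ u ∈ U, g.1 u = 0 := fun a ha =>
      congrFun (congrArg (fun t => t.2.1.1) hg) ⟨a, ha⟩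
    have g4 : ∀ u ∈ U, g.2 u = 0 := fun a ha =>
      congrFun (congrArg (fun t => t.2.1.2) hg) ⟨a, ha⟩
    have g5 : φ g = 0 := congrArg (fun t => t.2.2) hg
    obtain ⟨b, hb1, hb2⟩ := hcon g (hA g.1 g1) (hB g.2 g2) (fun u hu => ⟨g3 u hu, g4 u hu⟩) g5
    exact ⟨b, Prod.ext (funext fun l => (hb1 l).symm) (funext fun l => (hb2 l).symm)⟩
  have h1 := Submodule.finrank_mono hle
  have h2 := LinearMap.finrank_range_add_finrank_ker Φ
  have h3 := LinearMap.finrank_range_add_finrank_ker δ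
  have h4 : Module.finrank (ZMod 3) (LinearMap.range Φ) ≤
      Module.finrank (ZMod 3) (((A → ZMod 3) × (B → ZMod 3)) ×
        ((U → ZMod 3) × (U → ZMod 3)) × (ι → ZMod 3)) := Submodule.finrank_le _
  simp only [Module.finrank_prod, Module.finrank_fintype_fun_eq_card, Fintype.card_coe] at h2 h3 h4
  omega

end K611
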