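import Pool.Agent.Work.MP_611b97_al.K.LabelHom
import Pool.Agent.Work.MP_611b97_al.K.Count

/-!
# Characters with labels off a given set
-/

set_option autoImplicit false

namespace K611

open Subgroup

/-- If the labels of all elements of `S` at the base point are trivial, then the labels are a
coboundary. -/
private theorem charOff_cob {S : Subgroup F} {A : Type} [CommGroup A]
    (ρ : F →* Wr A (F ⧸ S)) (hρ : ∀ g, (ρ g).perm = MulAction.toPerm g)
    (h : ∀ s ∈ S, (ρ s).lab ((1 : F) : F ⧸ S) = 1) :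
    ∃ b : F ⧸ S → A, ∀ g l, (ρ g).lab l = b l * (b (g⁻¹ • l))⁻¹ := by
  have hinv : ∀ (g : F) (l : F ⧸ S), (ρ g).perm⁻¹ l = g⁻¹ • l := by
    intro g l
    rw [hρ]
    rfl
  have hmul : ∀ (g k : F) (l : F ⧸ S),
      (ρ (g * k)).lab l = (ρ g).lab l * (ρ k).lab (g⁻¹ • l) := by
    intro g k l
    rw [map_mul, Wr.mul_lab, hinv]
  -- independence of the representative
  have hind : ∀ t t' : F, ((t : F) : F ⧸ S) = ((t' : F) : F ⧸ S) →
      (ρ t).lab ((t : F) : F ⧸ S) = (ρ t').lab ((t' : F) : F ⧸ S) := by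
    intro t t' htt
    have h1 : t⁻¹ * t' ∈ S := QuotientGroup.eq.1 htt
    have h2 : t' = t * (t⁻¹ * t') := by group
    have h3 : t⁻¹ • ((t : F) : F ⧸ S) = ((1 : F) : F ⧸ S) := by
      show ((t⁻¹ * t : F) : F ⧸ S) = _
      rw [inv_mul_cancel]
    have h4 := hmul t (t⁻¹ * t') ((t : F) : F ⧸ S)
    rw [h3, h _ h1, mul_one, ← h2] at h4
    rw [← htt, h4]
  refine ⟨fun l => (ρ (Quotient.out l)).lab l, ?_⟩
  have hb : ∀ t : F, (ρ (Quotient.out ((t : F) : F ⧸ S))).lab ((t : F) : F ⧸ S) =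
      (ρ t).lab ((t : F) : F ⧸ S) := by
    intro t
    have h1 : ((Quotient.out ((t : F) : F ⧸ S) : F) : F ⧸ S) = ((t : F) : F ⧸ S) :=
      QuotientGroup.out_eq' _
    have h2 := hind _ _ h1
    rwa [h1] at h2
  intro g l
  induction l using QuotientGroup.induction_on with
  | H t =>
    show (ρ g).lab ((t : F) : F ⧸ S) = (ρ (Quotient.out ((t : F) : F ⧸ S))).lab _ *
      ((ρ (Quotient.out (((g⁻¹ * t : F)) : F ⧸ S))).lab ((g⁻¹ * t : F) : F ⧸ S))⁻¹
    rw [hb, hb]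
    have h1 := hmul g (g⁻¹ * t) ((t : F) : F ⧸ S)
    have h2 : g * (g⁻¹ * t) = t := by group
    have h3 : g⁻¹ • ((t : F) : F ⧸ S) = ((g⁻¹ * t : F) : F ⧸ S) := rfl
    rw [h2, h3] at h1
    rw [h1, mul_inv_cancel_right]

/-- the evaluation at a pair of labels -/
private def charOffEv {V : Type} [AddCommGroup V] [Module (ZMod 3) V] (g : V) :
    Multiplicative (V →ₗ[ZMod 3] ZMod 3) →* Multiplicative (ZMod 3) where
  toFun f := Multiplicative.ofAdd ((Multiplicative.toAdd f) g)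
  map_one' := rfl
  map_mul' _ _ := rfl

/-- MODULE CharOff (blueprint COUNT). Admissible labels `(g_x, g_y)` in `ℤ/3` supported off the `x`-
and `y`-orbits meeting `U`: dimension at least `(4/3) |Λ| - 4 |U|`; those with trivial label at the
base point on all of `S` are coboundaries, dimension at most `|Λ|`; killing the `g k` costs
`card κ`. -/
theorem exists_char {S : Subgroup F} (hS : ∃ N, N3 N ∧ N ≤ S) (U : Finset (F ⧸ S)) {κ : Type}
    [Fintype κ] (g : κ → F) (hg : ∀ k, g k ∈ S)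
    (hcard : 3 * Fintype.card κ + 12 * U.card < S.index) :
    ∃ ρ : F →* Wr (Multiplicative (ZMod 3)) (F ⧸ S),
      (∀ g, (ρ g).perm = MulAction.toPerm g) ∧
      (∀ l ∈ U, (ρ Fx).lab l = 1 ∧ (ρ Fx⁻¹).lab l = 1 ∧ (ρ Fy).lab l = 1 ∧
        (ρ Fy⁻¹).lab l = 1) ∧
      (∀ k, (ρ (g k)).lab ((1 : F) : F ⧸ S) = 1) ∧
      ∃ s ∈ S, (ρ s).lab ((1 : F) : F ⧸ S) ≠ 1 := by
  classical
  have hfin : Finite (F ⧸ S) := finite_quot hS
  have hft : Fintype (F ⧸ S) := Fintype.ofFinite _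
  let x : Equiv.Perm (F ⧸ S) := MulAction.toPermHom F (F ⧸ S) Fx
  let y : Equiv.Perm (F ⧸ S) := MulAction.toPermHom F (F ⧸ S) Fy
  have hx3 : x ^ 3 = 1 := by
    show (MulAction.toPermHom F (F ⧸ S) Fx) ^ 3 = 1
    rw [← map_pow, Fx_pow, map_one]
  have hy3 : y ^ 3 = 1 := by
    show (MulAction.toPermHom F (F ⧸ S) Fy) ^ 3 = 1
    rw [← map_pow, Fy_pow, map_one]
  have hxi : ∀ l, x⁻¹ l = Fx⁻¹ • l := by
    intro l
    show (MulAction.toPermHom F (F ⧸ S) Fx)⁻¹ l = _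
    rw [← map_inv]
    rfl
  have hyi : ∀ l, y⁻¹ l = Fy⁻¹ • l := by
    intro l
    show (MulAction.toPermHom F (F ⧸ S) Fy)⁻¹ l = _
    rw [← map_inv]
    rfl
  -- universal labels
  let V : Type := (F ⧸ S → ZMod 3) × (F ⧸ S → ZMod 3)
  let p1 : F ⧸ S → (V →ₗ[ZMod 3] ZMod 3) := fun l =>
    (LinearMap.proj l).comp (LinearMap.fst (ZMod 3) (F ⧸ S → ZMod 3) (F ⧸ S → ZMod 3))
  let p2 : F ⧸ S → (V →ₗ[ZMod 3] ZMod 3) := fun l =>
    (LinearMap.proj l).comp (LinearMap.snd (ZMod 3) (F ⧸ S → ZMod 3) (F ⧸ S → ZMod 3))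
  let Φ : FreeGroup (Fin 2) →* Wr (Multiplicative (V →ₗ[ZMod 3] ZMod 3)) (F ⧸ S) :=
    FreeGroup.lift ![⟨fun l => Multiplicative.ofAdd (p1 l), x⟩,
      ⟨fun l => Multiplicative.ofAdd (p2 l), y⟩]
  choose w hw using fun k => Pres3.mk_surjective relF (g k)
  let φ : V →ₗ[ZMod 3] ((κ ⊕ (U × Fin 4)) → ZMod 3) := LinearMap.pi
    (Sum.elim (fun k => Multiplicative.toAdd ((Φ (w k)).lab ((1 : F) : F ⧸ S)))
      (fun p => ![p1 p.1, p1 (x p.1), p2 p.1, p2 (y p.1)] p.2))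
  have hc : 3 * (Fintype.card (κ ⊕ (U × Fin 4)) + 2 * (∅ : Finset (F ⧸ S)).card) <
      Fintype.card (F ⧸ S) := by
    rw [Fintype.card_sum, Fintype.card_prod, Fintype.card_fin, Fintype.card_coe,
      Finset.card_empty, ← Nat.card_eq_fintype_card (α := F ⧸ S)]
    have h1 : S.index = Nat.card (F ⧸ S) := rfl
    omega
  obtain ⟨f, hf1, hf2, _, hφ, hcob⟩ := exists_labels x y hx3 hy3 ∅ φ hc
  have hφk : ∀ k, (Multiplicative.toAdd ((Φ (w k)).lab ((1 : F) : F ⧸ S))) f = 0 :=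
    fun k => congrFun hφ (Sum.inl k)
  have hφ0 : ∀ l ∈ U, f.1 l = 0 := fun l hl => congrFun hφ (Sum.inr (⟨l, hl⟩, 0))
  have hφ1 : ∀ l ∈ U, f.1 (x l) = 0 := fun l hl => congrFun hφ (Sum.inr (⟨l, hl⟩, 1))
  have hφ2 : ∀ l ∈ U, f.2 l = 0 := fun l hl => congrFun hφ (Sum.inr (⟨l, hl⟩, 2))
  have hφ3 : ∀ l ∈ U, f.2 (y l) = 0 := fun l hl => congrFun hφ (Sum.inr (⟨l, hl⟩, 3))
  have hP : IsPGroup 3 (Multiplicative (ZMod 3)) := by
    apply IsPGroup.of_card (n := 1)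
    rw [Nat.card_eq_fintype_card, Fintype.card_multiplicative, ZMod.card, pow_one]
  obtain ⟨ρ, hρ, hρx, hρy⟩ := exists_label_hom (isPGroup_toPermHom hS) (Res3.of_finite hP)
    (fun l => Multiplicative.ofAdd (f.1 l)) (fun l => Multiplicative.ofAdd (f.2 l))
    (by
      intro l
      have h1 := hf1 l
      rw [hxi, hxi] at h1
      show Multiplicative.ofAdd (f.1 l + f.1 (Fx⁻¹ • l) + f.1 (Fx⁻¹ • Fx⁻¹ • l)) = 1
      rw [h1]
      rfl)
    (by
      intro l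
      have h1 := hf2 l
      rw [hyi, hyi] at h1
      show Multiplicative.ofAdd (f.2 l + f.2 (Fy⁻¹ • l) + f.2 (Fy⁻¹ • Fy⁻¹ • l)) = 1
      rw [h1]
      rfl)
  -- comparison of `ρ` with the universal labels
  have hcomp : ρ.comp (Pres3.mk relF) = (Wr.map (charOffEv f)).comp Φ := by
    apply FreeGroup.ext_hom
    intro i
    fin_cases i
    · refine Wr.ext ?_ ?_
      · funext l
        show (ρ Fx).lab l = charOffEv f ((Φ (FreeGroup.of 0)).lab l)
        rw [hρx, FreeGroup.lift_apply_of]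
        rfl
      · show (ρ Fx).perm = (Φ (FreeGroup.of 0)).perm
        rw [hρ, FreeGroup.lift_apply_of]
        rfl
    · refine Wr.ext ?_ ?_
      · funext l
        show (ρ Fy).lab l = charOffEv f ((Φ (FreeGroup.of 1)).lab l)
        rw [hρy, FreeGroup.lift_apply_of]
        rfl
      · show (ρ Fy).perm = (Φ (FreeGroup.of 1)).perm
        rw [hρ, FreeGroup.lift_apply_of]
        rfl
  have hmk : ∀ v : FreeGroup (Fin 2), ρ (Pres3.mk relF v) = Wr.map (charOffEv f) (Φ v) :=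
    fun v => DFunLike.congr_fun hcomp v
  refine ⟨ρ, hρ, ?_, ?_, ?_⟩
  · intro l hl
    refine ⟨?_, ?_, ?_, ?_⟩
    · rw [hρx, hφ0 l hl]
      rfl
    · rw [map_inv, Wr.inv_lab, hρ]
      show ((ρ Fx).lab (x l))⁻¹ = 1
      rw [hρx, hφ1 l hl]
      rfl
    · rw [hρy, hφ2 l hl]
      rfl
    · rw [map_inv, Wr.inv_lab, hρ]
      show ((ρ Fy).lab (y l))⁻¹ = 1
      rw [hρy, hφ3 l hl]
      rfl
  · intro k
    rw [← hw k, hmk, Wr.map_lab]
    show Multiplicative.ofAdd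
      ((Multiplicative.toAdd ((Φ (w k)).lab ((1 : F) : F ⧸ S))) f) = 1
    rw [hφk k]
    rfl
  · by_contra hcon
    push Not at hcon
    obtain ⟨b, hb⟩ := charOff_cob ρ hρ hcon
    apply hcob
    refine ⟨fun l => Multiplicative.toAdd (b l), fun l => ?_, fun l => ?_⟩
    · have h1 := hb Fx l
      rw [hρx] at h1
      rw [hxi]
      have h2 := congrArg Multiplicative.toAdd h1
      rw [toAdd_ofAdd, toAdd_mul, toAdd_inv] at h2
      rw [h2, sub_eq_add_neg]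
    · have h1 := hb Fy l
      rw [hρy] at h1
      rw [hyi]
      have h2 := congrArg Multiplicative.toAdd h1
      rw [toAdd_ofAdd, toAdd_mul, toAdd_inv] at h2
      rw [h2, sub_eq_add_neg]

end K611
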