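import Pool.Agent.Work.MP_611b97_al.K.Defs

/-!
# Closures and continuous homomorphisms for the pro-3 topology
-/

set_option autoImplicit false

namespace K611

open Subgroup

universe u v

variable {G : Type u} [Group G]

/-! MODULE Cont: closures and continuous homomorphisms -/

theorem le_cl (U : Subgroup G) : U ≤ cl U := by
  intro g hg
  rw [mem_cl]
  intro N hN
  exact ⟨g, hg, by rw [inv_mul_cancel]; exact N.one_mem⟩

theorem cl_mono {U V : Subgroup G} (h : U ≤ V) : cl U ≤ cl V := by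
  intro g hg
  rw [mem_cl] at hg ⊢
  intro N hN
  obtain ⟨r, hr, hrN⟩ := hg N hN
  exact ⟨r, h hr, hrN⟩

theorem cl_cl (U : Subgroup G) : cl (cl U) = cl U := by
  apply le_antisymm _ (le_cl _)
  intro g hg
  rw [mem_cl] at hg ⊢
  intro N hN
  obtain ⟨r, hr, hrN⟩ := hg N hN
  rw [mem_cl] at hr
  obtain ⟨s, hs, hsN⟩ := hr N hN
  refine ⟨s, hs, ?_⟩
  have h : s⁻¹ * g = (s⁻¹ * r) * (r⁻¹ * g) := by group
  rw [h]
  exact N.mul_mem hsN hrN

/-- open subgroups are closed -/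
theorem cl_eq_of_le {N V : Subgroup G} (hN : N3 N) (h : N ≤ V) : cl V = V := by
  apply le_antisymm _ (le_cl _)
  intro g hg
  rw [mem_cl] at hg
  obtain ⟨r, hr, hrN⟩ := hg N hN
  have h1 : g = r * (r⁻¹ * g) := by group
  rw [h1]
  exact V.mul_mem hr (h hrN)

theorem cl_le_of_le {N U : Subgroup G} (hN : N3 N) (h : U ≤ N) : cl U ≤ N := by
  have h1 := cl_mono h
  rwa [cl_eq_of_le hN le_rfl] at h1

/-- an element outside a closed subgroup is separated from it by a deep `N` -/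
theorem exists_not_mem {U V : Subgroup G} (hV : N3 V) {g : G} (h : g ∉ cl U) :
    ∃ N : Subgroup G, N3 N ∧ N ≤ V ∧ g ∉ U ⊔ N := by
  rw [mem_cl] at h
  push Not at h
  obtain ⟨N, hN, h2⟩ := h
  refine ⟨N ⊓ V, hN.inf hV, inf_le_right, ?_⟩
  intro hg
  haveI := (hN.inf hV).normal
  obtain ⟨r, hr, n, hn, rfl⟩ := Subgroup.mem_sup_of_normal_right.1 hg
  apply h2 r hr
  rw [inv_mul_cancel_left]
  exact hn.1

/-- a power `g^m`, `m ≠ 0`, in a closed subgroup gives `g^(3^k)` in it -/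
theorem pow_three_mem_cl {U : Subgroup G} {g : G} {m : ℤ} (hm : m ≠ 0) (h : g ^ m ∈ cl U) :
    ∃ k : ℕ, g ^ 3 ^ k ∈ cl U := by
  obtain ⟨k, m', hm', hmk⟩ : ∃ (k : ℕ) (m' : ℤ), ¬ (3 : ℤ) ∣ m' ∧ m = 3 ^ k * m' := by
    have hfin : FiniteMultiplicity (3 : ℤ) m :=
      Int.finiteMultiplicity_iff.2 ⟨by norm_num, hm⟩
    obtain ⟨c, hc, hc2⟩ := hfin.exists_eq_pow_mul_and_not_dvd
    exact ⟨_, c, hc2, hc⟩
  refine ⟨k, ?_⟩
  rw [mem_cl]
  intro N hN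
  obtain ⟨j, hj⟩ := hN.exists_pow_mem
  -- Bezout for `m'` and `3 ^ j`
  have hcop : IsCoprime m' ((3 : ℤ) ^ j) := by
    apply IsCoprime.pow_right
    rw [isCoprime_comm]
    exact (Prime.coprime_iff_not_dvd Int.prime_three).2 hm'
  obtain ⟨a, b, hab⟩ := hcop
  have h1 : (g ^ m) ^ a ∈ cl U := (cl U).zpow_mem h a
  rw [mem_cl] at h1
  obtain ⟨r, hr, hrN⟩ := h1 N hN
  refine ⟨r, hr, ?_⟩
  have h2 : g ^ 3 ^ k = (g ^ m) ^ a * (g ^ 3 ^ j) ^ ((3 : ℤ) ^ k * b) := by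
    have e1 : g ^ 3 ^ k = g ^ (((3 ^ k : ℕ)) : ℤ) := (zpow_natCast g (3 ^ k)).symm
    have e2 : g ^ 3 ^ j = g ^ (((3 ^ j : ℕ)) : ℤ) := (zpow_natCast g (3 ^ j)).symm
    rw [e1, e2, ← zpow_mul, ← zpow_mul, ← zpow_add]
    congr 1
    push_cast
    calc (3 : ℤ) ^ k = 3 ^ k * (a * m' + b * 3 ^ j) := by rw [hab, mul_one]
      _ = _ := by rw [hmk]; ring
  rw [h2, ← mul_assoc]
  exact N.mul_mem hrN (N.zpow_mem (hj g) _)

variable {m : ℕ}

theorem CHom.mul {U : Subgroup G} {φ : G → ZMod m} (h : CHom U φ) {r s : G} (hr : r ∈ U)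
    (hs : s ∈ U) : φ (r * s) = φ r + φ s := h.1 r hr s hs

theorem CHom.one {U : Subgroup G} {φ : G → ZMod m} (h : CHom U φ) : φ 1 = 0 := by
  have h1 := h.1 1 U.one_mem 1 U.one_mem
  rw [mul_one] at h1
  exact left_eq_add.1 h1

theorem CHom.inv {U : Subgroup G} {φ : G → ZMod m} (h : CHom U φ) {r : G} (hr : r ∈ U) :
    φ r⁻¹ = -φ r := by
  have h1 := h.1 r⁻¹ (U.inv_mem hr) r hr
  rw [inv_mul_cancel, h.one] at h1
  exact eq_neg_of_add_eq_zero_left h1.symm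

theorem CHom.pow {U : Subgroup G} {φ : G → ZMod m} (h : CHom U φ) {r : G} (hr : r ∈ U) (n : ℕ) :
    φ (r ^ n) = n * φ r := by
  induction n with
  | zero => rw [pow_zero, h.one, Nat.cast_zero, zero_mul]
  | succ n ih =>
    rw [pow_succ, h.mul (U.pow_mem hr n) hr, ih]
    push_cast
    ring

theorem CHom.mono {U V : Subgroup G} {φ : G → ZMod m} (h : CHom V φ) (hUV : U ≤ V) :
    CHom U φ := by
  obtain ⟨h1, N, hN, h2⟩ := h
  exact ⟨fun r hr s hs => h1 r (hUV hr) s (hUV hs), N, hN, fun r hr hrN => h2 r (hUV hr) hrN⟩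

theorem CHom.congr {U : Subgroup G} {φ ψ : G → ZMod m} (h : CHom U φ)
    (h' : ∀ r ∈ U, ψ r = φ r) : CHom U ψ := by
  obtain ⟨h1, N, hN, h2⟩ := h
  refine ⟨fun r hr s hs => ?_, N, hN, fun r hr hrN => ?_⟩
  · rw [h' _ (U.mul_mem hr hs), h' r hr, h' s hs, h1 r hr s hs]
  · rw [h' r hr, h2 r hr hrN]

theorem CHom.add {U : Subgroup G} {φ ψ : G → ZMod m} (h : CHom U φ) (h' : CHom U ψ) :
    CHom U (fun g => φ g + ψ g) := by
  obtain ⟨h1, N, hN, h2⟩ := h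
  obtain ⟨h3, M, hM, h4⟩ := h'
  refine ⟨fun r hr s hs => ?_, N ⊓ M, hN.inf hM, fun r hr hrN => ?_⟩
  · show φ (r * s) + ψ (r * s) = (φ r + ψ r) + (φ s + ψ s)
    rw [h1 r hr s hs, h3 r hr s hs]
    ring
  · show φ r + ψ r = 0
    rw [h2 r hr hrN.1, h4 r hr hrN.2, add_zero]

theorem CHom.sub {U : Subgroup G} {φ ψ : G → ZMod m} (h : CHom U φ) (h' : CHom U ψ) :
    CHom U (fun g => φ g - ψ g) := by
  obtain ⟨h1, N, hN, h2⟩ := h
  obtain ⟨h3, M, hM, h4⟩ := h'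
  refine ⟨fun r hr s hs => ?_, N ⊓ M, hN.inf hM, fun r hr hrN => ?_⟩
  · show φ (r * s) - ψ (r * s) = (φ r - ψ r) + (φ s - ψ s)
    rw [h1 r hr s hs, h3 r hr s hs]
    ring
  · show φ r - ψ r = 0
    rw [h2 r hr hrN.1, h4 r hr hrN.2, sub_zero]

/-- composition with an additive map of the coefficients -/
theorem CHom.map {U : Subgroup G} {φ : G → ZMod m} (h : CHom U φ) {m' : ℕ}
    (f : ZMod m →+ ZMod m') : CHom U (fun g => f (φ g)) := by
  obtain ⟨h1, N, hN, h2⟩ := h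
  refine ⟨fun r hr s hs => ?_, N, hN, fun r hr hrN => ?_⟩
  · show f (φ (r * s)) = f (φ r) + f (φ s)
    rw [h1 r hr s hs, f.map_add]
  · show f (φ r) = 0
    rw [h2 r hr hrN, f.map_zero]

/-- composition with a group homomorphism -/
theorem CHom.comp {H : Type v} [Group H] (f : G →* H) {U : Subgroup G} {φ : H → ZMod m}
    (h : CHom (U.map f) φ) : CHom U (fun g => φ (f g)) := by
  obtain ⟨h1, N, hN, h2⟩ := h
  refine ⟨fun r hr s hs => ?_, N.comap f, hN.comap f, fun r hr hrN => ?_⟩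
  · show φ (f (r * s)) = φ (f r) + φ (f s)
    rw [f.map_mul]
    exact h1 _ (Subgroup.mem_map_of_mem f hr) _ (Subgroup.mem_map_of_mem f hs)
  · exact h2 _ (Subgroup.mem_map_of_mem f hr) hrN

/-- two continuous homomorphisms on `gen c` which agree on the generators agree -/
theorem CHom.eq_of_gen {n : ℕ} {c : ZMod n → G} {φ ψ : G → ZMod m} (h : CHom (gen c) φ)
    (h' : CHom (gen c) ψ) (he : ∀ k, φ (c k) = ψ (c k)) : ∀ r ∈ gen c, φ r = ψ r := by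
  intro r hr
  have key : ∀ r (hr : r ∈ closure (Set.range c)), φ r = ψ r := by
    intro r hr
    induction hr using closure_induction with
    | mem x hx =>
      obtain ⟨k, rfl⟩ := hx
      exact he k
    | one => rw [h.one, h'.one]
    | mul x y hx hy ihx ihy =>
      rw [h.mul (show x ∈ gen c from hx) (show y ∈ gen c from hy),
        h'.mul (show x ∈ gen c from hx) (show y ∈ gen c from hy), ihx, ihy]
    | inv x hx ihx =>
      rw [h.inv (show x ∈ gen c from hx), h'.inv (show x ∈ gen c from hx), ihx]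
  exact key r hr

/-- continuous homomorphisms on a closure are determined by the dense subgroup -/
theorem CHom.eq_on_cl {U : Subgroup G} {φ ψ : G → ZMod m} (h : CHom (cl U) φ)
    (h' : CHom (cl U) ψ) (he : ∀ r ∈ U, φ r = ψ r) : ∀ r ∈ cl U, φ r = ψ r := by
  intro r hr
  obtain ⟨N, hN, h2⟩ := h.2
  obtain ⟨M, hM, h4⟩ := h'.2
  have hr' := hr
  rw [mem_cl] at hr'
  obtain ⟨s, hs, hsN⟩ := hr' (N ⊓ M) (hN.inf hM)
  have hs1 : s ∈ cl U := le_cl U hs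
  have hs2 : s⁻¹ * r ∈ cl U := (cl U).mul_mem ((cl U).inv_mem hs1) hr
  have e : r = s * (s⁻¹ * r) := by group
  rw [e, h.mul hs1 hs2, h'.mul hs1 hs2, he s hs, h2 _ hs2 hsN.1, h4 _ hs2 hsN.2]

/-- extension to an open subgroup -/
theorem CHom.extend_open {U : Subgroup G} {φ : G → ZMod m} (h : CHom U φ) {V : Subgroup G}
    (hV : N3 V) : ∃ N : Subgroup G, N3 N ∧ N ≤ V ∧ ∃ ψ : G → ZMod m, CHom (U ⊔ N) ψ ∧
      (∀ r ∈ U, ψ r = φ r) ∧ ∀ r ∈ N, ψ r = 0 := by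
  classical
  obtain ⟨N₀, hN₀, h2⟩ := h.2
  have hN : N3 (N₀ ⊓ V) := hN₀.inf hV
  haveI := hN.normal
  -- well-definedness
  have hwd : ∀ r ∈ U, ∀ s ∈ U, r⁻¹ * s ∈ N₀ ⊓ V → φ r = φ s := by
    intro r hr s hs hrs
    have h3 := h2 _ (U.mul_mem (U.inv_mem hr) hs) hrs.1
    rw [h.mul (U.inv_mem hr) hs, h.inv hr] at h3
    have h4 : φ s - φ r = 0 := by rw [← h3]; ring
    exact (sub_eq_zero.1 h4).symm
  let ψ : G → ZMod m := fun g =>
    if hg : ∃ r ∈ U, r⁻¹ * g ∈ N₀ ⊓ V then φ hg.choose else 0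
  have hψ : ∀ r ∈ U, ∀ g, r⁻¹ * g ∈ N₀ ⊓ V → ψ g = φ r := by
    intro r hr g hrg
    have hg : ∃ r ∈ U, r⁻¹ * g ∈ N₀ ⊓ V := ⟨r, hr, hrg⟩
    have e : ψ g = φ hg.choose := dif_pos hg
    rw [e]
    apply hwd _ hg.choose_spec.1 _ hr
    have e2 : hg.choose⁻¹ * r = (hg.choose⁻¹ * g) * (r⁻¹ * g)⁻¹ := by group
    rw [e2]
    exact (N₀ ⊓ V).mul_mem hg.choose_spec.2 ((N₀ ⊓ V).inv_mem hrg)
  have hsup : ∀ g ∈ U ⊔ (N₀ ⊓ V), ∃ r ∈ U, r⁻¹ * g ∈ N₀ ⊓ V := by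
    intro g hg
    obtain ⟨r, hr, n, hn, rfl⟩ := Subgroup.mem_sup_of_normal_right.1 hg
    exact ⟨r, hr, by rw [inv_mul_cancel_left]; exact hn⟩
  have hψU : ∀ r ∈ U, ψ r = φ r := by
    intro r hr
    exact hψ r hr r (by rw [inv_mul_cancel]; exact (N₀ ⊓ V).one_mem)
  have hψN : ∀ r ∈ N₀ ⊓ V, ψ r = 0 := by
    intro r hr
    rw [hψ 1 U.one_mem r (by rw [inv_one, one_mul]; exact hr), h.one]
  refine ⟨N₀ ⊓ V, hN, inf_le_right, ψ, ⟨?_, N₀ ⊓ V, hN, fun r _ hrN => hψN r hrN⟩, hψU, hψN⟩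
  intro a ha b hb
  obtain ⟨r, hr, hra⟩ := hsup a ha
  obtain ⟨s, hs, hsb⟩ := hsup b hb
  rw [hψ r hr a hra, hψ s hs b hsb, ← h.mul hr hs]
  apply hψ (r * s) (U.mul_mem hr hs)
  have h1 := hN.1.conj_mem _ hra s⁻¹
  have h3 : (r * s)⁻¹ * (a * b) = (s⁻¹ * (r⁻¹ * a) * s⁻¹⁻¹) * (s⁻¹ * b) := by group
  rw [h3]
  exact (N₀ ⊓ V).mul_mem h1 hsb

/-- extension to the closure -/
theorem CHom.extend_cl {U : Subgroup G} {φ : G → ZMod m} (h : CHom U φ) :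
    ∃ ψ : G → ZMod m, CHom (cl U) ψ ∧ ∀ r ∈ U, ψ r = φ r := by
  obtain ⟨N, hN, -, ψ, hψ, hψU, -⟩ := h.extend_open N3.top
  refine ⟨ψ, hψ.mono ?_, hψU⟩
  have h1 : cl U ≤ cl (U ⊔ N) := cl_mono le_sup_left
  rwa [cl_eq_of_le hN le_sup_right] at h1

/-- a continuous homomorphism as a bundled homomorphism, and conversely -/
theorem CHom.of_hom {U : Subgroup G} (f : U →* Multiplicative (ZMod m))
    (hf : ∃ N : Subgroup G, N3 N ∧ ∀ r : U, (r : G) ∈ N → f r = 1) :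
    ∃ φ : G → ZMod m, CHom U φ ∧ ∀ r : U, φ r = Multiplicative.toAdd (f r) := by
  classical
  obtain ⟨N, hN, h2⟩ := hf
  let φ : G → ZMod m := fun g => if hg : g ∈ U then Multiplicative.toAdd (f ⟨g, hg⟩) else 0
  have hφ : ∀ g (hg : g ∈ U), φ g = Multiplicative.toAdd (f ⟨g, hg⟩) := fun g hg => dif_pos hg
  refine ⟨φ, ⟨fun r hr s hs => ?_, N, hN, fun r hr hrN => ?_⟩, fun r => hφ r r.2⟩
  · rw [hφ _ (U.mul_mem hr hs), hφ r hr, hφ s hs, ← toAdd_mul, ← f.map_mul]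
    rfl
  · rw [hφ r hr, h2 ⟨r, hr⟩ hrN, toAdd_one]

end K611
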