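import Pool.Agent.Work.MP_611b97_al.K.Wr

/-!
# Tuples, continuous homomorphisms, recursions: definitions
-/

set_option autoImplicit false

namespace K611

open Subgroup

universe u v w

/-! ### tuples -/

/-- the difference operator on cyclic tuples -/
def T {G : Type u} [Group G] {n : ℕ} (c : ZMod n → G) : ZMod n → G := fun k => (c k)⁻¹ * c (k + 1)

/-- the group generated by a tuple -/
def gen {G : Type u} [Group G] {n : ℕ} (c : ZMod n → G) : Subgroup G := closure (Set.range c)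

/-! ### closures and continuous homomorphisms for the topology given by `N3` -/

/-- closure of a subgroup in the pro-3 topology -/
def cl {G : Type u} [Group G] (U : Subgroup G) : Subgroup G where
  carrier := {g | ∀ N : Subgroup G, N3 N → ∃ r ∈ U, r⁻¹ * g ∈ N}
  one_mem' := fun N _ => ⟨1, one_mem _, by simp⟩
  mul_mem' := by
    intro a b ha hb N hN
    obtain ⟨r, hr, hra⟩ := ha N hN
    obtain ⟨s, hs, hsb⟩ := hb N hN
    refine ⟨r * s, mul_mem hr hs, ?_⟩
    have h1 := hN.1.conj_mem _ hra s⁻¹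
    have h2 : (r * s)⁻¹ * (a * b) = (s⁻¹ * (r⁻¹ * a) * s⁻¹⁻¹) * (s⁻¹ * b) := by group
    rw [h2]
    exact mul_mem h1 hsb
  inv_mem' := by
    intro a ha N hN
    obtain ⟨r, hr, hra⟩ := ha N hN
    refine ⟨r⁻¹, inv_mem hr, ?_⟩
    have h1 := hN.1.conj_mem _ (inv_mem hra) r
    have h2 : r * (r⁻¹ * a)⁻¹ * r⁻¹ = r⁻¹⁻¹ * a⁻¹ := by group
    rwa [← h2]

theorem mem_cl {G : Type u} [Group G] {U : Subgroup G} {g : G} :
    g ∈ cl U ↔ ∀ N : Subgroup G, N3 N → ∃ r ∈ U, r⁻¹ * g ∈ N := Iff.rfl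

/-- The function `φ` restricts to a continuous homomorphism `U → ℤ/m` (its values outside `U` do
not matter). -/
def CHom {G : Type u} [Group G] {m : ℕ} (U : Subgroup G) (φ : G → ZMod m) : Prop :=
  (∀ r ∈ U, ∀ s ∈ U, φ (r * s) = φ r + φ s) ∧
    ∃ N : Subgroup G, N3 N ∧ ∀ r ∈ U, r ∈ N → φ r = 0

/-- The values on the generators of the continuous homomorphisms `gen c → ℤ/3`. -/
def DD {G : Type u} [Group G] {n : ℕ} (c : ZMod n → G) : Submodule (ZMod 3) (ZMod n → ZMod 3) where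
  carrier := {v | ∃ φ : G → ZMod 3, CHom (gen c) φ ∧ ∀ k, φ (c k) = v k}
  zero_mem' := ⟨fun _ => 0, ⟨fun _ _ _ _ => by simp, ⊤, N3.top, fun _ _ _ => rfl⟩, fun _ => rfl⟩
  add_mem' := by
    rintro a b ⟨φ, ⟨h1, N, hN, h2⟩, h3⟩ ⟨ψ, ⟨h4, M, hM, h5⟩, h6⟩
    refine ⟨fun g => φ g + ψ g, ⟨fun r hr s hs => ?_, N ⊓ M, hN.inf hM, fun r hr hrN => ?_⟩,
      fun k => ?_⟩
    · show φ (r * s) + ψ (r * s) = _
      rw [h1 r hr s hs, h4 r hr s hs]
      ring
    · show φ r + ψ r = 0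
      rw [h2 r hr hrN.1, h5 r hr hrN.2, add_zero]
    · show φ (c k) + ψ (c k) = _
      rw [h3, h6]
      rfl
  smul_mem' := by
    rintro a b ⟨φ, ⟨h1, N, hN, h2⟩, h3⟩
    refine ⟨fun g => a * φ g, ⟨fun r hr s hs => ?_, N, hN, fun r hr hrN => ?_⟩,
      fun k => ?_⟩
    · show a * φ (r * s) = _
      rw [h1 r hr s hs]
      ring
    · show a * φ r = 0
      rw [h2 r hr hrN, mul_zero]
    · show a * φ (c k) = _
      rw [h3]
      rfl

theorem mem_DD {G : Type u} [Group G] {n : ℕ} {c : ZMod n → G} {v : ZMod n → ZMod 3} :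
    v ∈ DD c ↔ ∃ φ : G → ZMod 3, CHom (gen c) φ ∧ ∀ k, φ (c k) = v k := Iff.rfl

/-- the dimension of `DD (T^n c)` is at most `d` for arbitrarily large `n` -/
def Low {G : Type u} [Group G] {n : ℕ} (d : ℕ) (c : ZMod n → G) : Prop :=
  ∀ n₀ : ℕ, ∃ m, n₀ ≤ m ∧ Module.finrank (ZMod 3) (DD (T^[m] c)) ≤ d

/-! ### marked groups and recursions -/

/-- a finite 3-group with four marked elements of order three whose product is central -/
structure Marked where
  /-- the group -/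
  H : Type
  [grp : Group H]
  [fin : Finite H]
  p3 : IsPGroup 3 H
  /-- the marked elements -/
  h : Fin 4 → H
  h3 : ∀ i, h i ^ 3 = 1
  cen : ∀ g : H, Commute (h 0 * h 1 * h 2 * h 3) g

attribute [instance] Marked.grp Marked.fin

namespace Marked

/-- the central element -/
def z (M : Marked) : M.H := M.h 0 * M.h 1 * M.h 2 * M.h 3

theorem commute (M : Marked) (g : M.H) : Commute M.z g := M.cen g

/-- the central subgroup -/
def Z (M : Marked) : Subgroup M.H := zpowers M.z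

instance (M : Marked) : M.Z.Normal := by
  constructor
  rintro n ⟨k, rfl⟩ g
  refine ⟨k, ?_⟩
  have h := (M.commute g).zpow_left k
  show M.z ^ k = g * M.z ^ k * g⁻¹
  rw [← h.eq, mul_inv_cancel_right]

/-- the homomorphism `D → H / ⟨z⟩` -/
def rho (M : Marked) : D →* M.H ⧸ M.Z :=
  Dlift (fun i => QuotientGroup.mk' M.Z (M.h i))
    (fun i => by rw [← map_pow, M.h3, map_one])
    (by
      rw [← map_mul, ← map_mul, ← map_mul]
      exact (QuotientGroup.eq_one_iff _).2 (mem_zpowers _))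
    (Res3.subgroup (Res3.of_finite (M.p3.to_quotient M.Z)) _)

@[simp] theorem rho_x (M : Marked) (i : Fin 4) : M.rho (Dx i) = QuotientGroup.mk' M.Z (M.h i) :=
  Dlift_x _ _ _ _ _

end Marked

/-- A recursion. -/
structure Rec where
  /-- the index set -/
  Λ : Type
  [fin : Finite Λ]
  [ne : Nonempty Λ]
  /-- the homomorphism -/
  Ψ : D →* Wr D Λ
  pgrp : IsPGroup 3 (Wr.permHom.comp Ψ).range
  deg : ∀ M : Marked, ∃ M' : Marked, orderOf M.z ≤ orderOf M'.z ∧
    ∀ d : D, Wr.map M.rho (Ψ d) = 1 → M'.rho d = 1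

attribute [instance] Rec.fin Rec.ne

/-- `R` kills the tuple `c` -/
def Rec.Kills (R : Rec) {n : ℕ} (c : ZMod n → D) : Prop :=
  ∃ m : ℕ, (gen (fun k => R.Ψ (T^[m] c k)) : Set (Wr D R.Λ)).Finite

/-- the leaf tuple at the point `l` -/
def Rec.leaf (R : Rec) {n : ℕ} (c : ZMod n → D) (l : R.Λ) : ZMod n → D :=
  fun k => (R.Ψ (c k)).lab l

/-- Labels for a degree-one recursion. -/
structure Scheme where
  /-- the index set -/
  Λ : Type
  [fin : Finite Λ]
  [dec : DecidableEq Λ]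
  /-- the special point -/
  pt : Λ
  /-- the four elements, with labels in the free group -/
  X : Fin 4 → Wr (FreeGroup (Fin 4)) Λ
  pgrp : IsPGroup 3 (closure (Set.range fun i => (X i).perm))
  cube : ∀ (H : Type) [Group H] (h : Fin 4 → H), (∀ i, h i ^ 3 = 1) →
    (∀ g, Commute (h 0 * h 1 * h 2 * h 3) g) → ∀ i, Wr.map (FreeGroup.lift h) (X i) ^ 3 = 1
  prod : ∀ (H : Type) [Group H] (h : Fin 4 → H), (∀ i, h i ^ 3 = 1) →
    (∀ g, Commute (h 0 * h 1 * h 2 * h 3) g) →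
    Wr.map (FreeGroup.lift h) (X 0 * X 1 * X 2 * X 3) =
      Wr.base (Pi.mulSingle pt (h 0 * h 1 * h 2 * h 3))

attribute [instance] Scheme.fin Scheme.dec

end K611
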