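import Pool.Agent.Work.MP_611b97_al.K.Cont
import Pool.Agent.Work.MP_611b97_al.K.AffK

/-!
# The choice of the exponent `j`
-/

set_option autoImplicit false

namespace K611

open Subgroup

/-- For fixed data at most one exponent `j` is bad. -/
private theorem expo_unique {H : Subgroup F}
    (hA : ∀ (u : F) (k : ℕ), u * Fa ^ 3 ^ k * u⁻¹ ∉ cl H) (t q b c : F) {j j' : ℕ}
    (h1 : t * (b * Fa ^ j * c) * q⁻¹ ∈ cl H) (h2 : t * (b * Fa ^ j' * c) * q⁻¹ ∈ cl H) :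
    j = j' := by
  by_contra hne
  have hm : ((j : ℤ) - (j' : ℤ)) ≠ 0 := by
    intro h
    apply hne
    omega
  have h3 : ((t * b) * Fa * (t * b)⁻¹) ^ ((j : ℤ) - (j' : ℤ)) ∈ cl H := by
    have h4 := mul_mem h1 (inv_mem h2)
    have h5 : t * (b * Fa ^ j * c) * q⁻¹ * (t * (b * Fa ^ j' * c) * q⁻¹)⁻¹ =
        (t * b) * (Fa ^ j * (Fa ^ j')⁻¹) * (t * b)⁻¹ := by group
    rw [h5] at h4
    rw [conj_zpow, zpow_sub, zpow_natCast, zpow_natCast]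
    exact h4
  obtain ⟨k, hk⟩ := pow_three_mem_cl hm h3
  rw [conj_pow] at hk
  exact hA _ k hk

/-- MODULE Expo: choice of `j`. -/
theorem exists_exponent {ι : Type} [Finite ι] (H : ι → Subgroup F)
    (hA : ∀ i (u : F) (k : ℕ), u * Fa ^ 3 ^ k * u⁻¹ ∉ cl (H i)) (Q : Finset F) :
    ∃ (j : ℕ) (V : Subgroup F), 0 < j ∧ N3 V ∧ Fy ∉ V ∧
      (∀ i e : ℤ, (Fa ^ i * Fy ^ e)⁻¹ * (Fy⁻¹ * Fa ^ j) ∉ V) ∧
      ∀ i, ∀ h ∈ H i, ∀ t ∈ Q, ∀ q ∈ Q, ∀ e f : ℤ,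
        (t⁻¹ * h * q)⁻¹ * (Fy ^ f * Fa ^ j * Fy ^ e) ∉ V := by
  classical
  have hfin : Finite (zpowers Fy) :=
    (finite_zpowers.2 (isOfFinOrder_iff_pow_eq_one.2 ⟨3, by norm_num, Fy_pow⟩)).to_subtype
  -- the finite index type of data
  let Idx : Type := ι × Q × Q × zpowers Fy × zpowers Fy
  let el : Idx → ℕ → F := fun d j =>
    (d.2.1 : F) * ((d.2.2.2.1 : F) * Fa ^ j * (d.2.2.2.2 : F)) * (d.2.2.1 : F)⁻¹
  let bad : Set ℕ := ⋃ d : Idx, {j | el d j ∈ cl (H d.1)}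
  have hbad : bad.Finite := by
    apply Set.finite_iUnion
    intro d
    apply Set.Subsingleton.finite
    intro j hj j' hj'
    exact expo_unique (hA d.1) _ _ _ _ hj hj'
  obtain ⟨j, hj⟩ : ∃ j, j ∉ bad ∪ {0} :=
    (hbad.union (Set.finite_singleton 0)).infinite_compl.nonempty
  have hj0 : 0 < j := by
    rcases Nat.eq_zero_or_pos j with h | h
    · exact absurd (Or.inr h) hj
    · exact h
  have hjb : ∀ d : Idx, el d j ∉ cl (H d.1) := by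
    intro d hd
    exact hj (Or.inl (Set.mem_iUnion.2 ⟨d, hd⟩))
  -- the subgroups separating
  have hsep : ∀ d : Idx, ∃ N : Subgroup F, N3 N ∧ ∀ h ∈ H d.1, h⁻¹ * el d j ∉ N := by
    intro d
    have h1 := hjb d
    rw [mem_cl] at h1
    push Not at h1
    exact h1
  choose N hN hN2 using hsep
  obtain ⟨M, hM, hM2⟩ := N3.fintype_inf N hN
  obtain ⟨A, hA3, _, hAy, _, hAj⟩ := exists_aff j
  refine ⟨j, M ⊓ A, hj0, hM.inf hA3, fun h => hAy h.2, ?_, ?_⟩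
  · intro i e h
    have h1 := hAj j i e (by rw [zpow_natCast]; exact h.2)
    have h2 := Int.natCast_dvd_natCast.1 h1
    have h3 := Nat.le_of_dvd hj0 h2
    have h4 := Nat.lt_pow_self (n := j) (a := 3) (by norm_num)
    omega
  · intro i h hh t ht q hq e f hmem
    have h1 := hN2 (i, ⟨t, ht⟩, ⟨q, hq⟩, ⟨Fy ^ f, f, rfl⟩, ⟨Fy ^ e, e, rfl⟩) h hh
    apply h1
    have h2 := hM2 (i, ⟨t, ht⟩, ⟨q, hq⟩, ⟨Fy ^ f, f, rfl⟩, ⟨Fy ^ e, e, rfl⟩) hmem.1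
    have h3 := (hN (i, ⟨t, ht⟩, ⟨q, hq⟩, ⟨Fy ^ f, f, rfl⟩, ⟨Fy ^ e, e, rfl⟩)).1.conj_mem _ h2 q
    have h4 : q * ((t⁻¹ * h * q)⁻¹ * (Fy ^ f * Fa ^ j * Fy ^ e)) * q⁻¹ =
        h⁻¹ * (t * (Fy ^ f * Fa ^ j * Fy ^ e) * q⁻¹) := by group
    rw [h4] at h3
    exact h3

end K611
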