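import Pool.Agent.Work.MP_611b97_al.K.Defs

/-!
# Cyclic tuples and the difference operator
-/

set_option autoImplicit false

namespace K611

open Subgroup
open scoped commutatorElement

universe u v

/-! MODULE Tuples -/

theorem T_comp {G : Type u} {H : Type v} [Group G] [Group H] (f : G →* H) {n : ℕ}
    (c : ZMod n → G) : T (fun k => f (c k)) = fun k => f (T c k) := by
  funext k
  simp [T]

theorem T_iter_comp {G : Type u} {H : Type v} [Group G] [Group H] (f : G →* H) {n : ℕ}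
    (c : ZMod n → G) (m : ℕ) : T^[m] (fun k => f (c k)) = fun k => f (T^[m] c k) := by
  induction m generalizing c with
  | zero => rfl
  | succ m ih => rw [Function.iterate_succ_apply, T_comp, ih, Function.iterate_succ_apply]

theorem gen_T_le {G : Type u} [Group G] {n : ℕ} (c : ZMod n → G) : gen (T c) ≤ gen c := by
  unfold gen
  rw [closure_le]
  rintro _ ⟨k, rfl⟩
  exact mul_mem (inv_mem (subset_closure ⟨k, rfl⟩)) (subset_closure ⟨k + 1, rfl⟩)

theorem gen_iter_anti {G : Type u} [Group G] {n : ℕ} (c : ZMod n → G) {m m' : ℕ} (h : m ≤ m') :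
    gen (T^[m'] c) ≤ gen (T^[m] c) := by
  induction m', h using Nat.le_induction with
  | base => exact le_rfl
  | succ k _ ih =>
    rw [Function.iterate_succ_apply']
    exact (gen_T_le _).trans ih

/-- the cyclic shift -/
private def shift (n : ℕ) : Equiv.Perm (ZMod n) := Equiv.addRight 1

private theorem shift_pow (n m : ℕ) (l : ZMod n) : (shift n ^ m) l = l + (m : ZMod n) := by
  induction m with
  | zero => simp
  | succ m ih =>
    rw [pow_succ', Equiv.Perm.mul_apply, ih, Nat.cast_succ]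
    show l + (m : ZMod n) + 1 = _
    ring

private theorem shift_pgroup (r : ℕ) : IsPGroup 3 (zpowers (shift (3 ^ r))) := by
  have h : shift (3 ^ r) ^ 3 ^ r = 1 := by
    ext l
    rw [shift_pow]
    simp
  rintro ⟨g, i, rfl⟩
  refine ⟨r, ?_⟩
  apply Subtype.ext
  show (shift (3 ^ r) ^ i) ^ 3 ^ r = 1
  rw [← zpow_natCast, ← zpow_mul, mul_comm, zpow_mul, zpow_natCast, h, one_zpow]

/-- `T^n(c) → 1` in finite 3-groups (nilpotency of `P wr ℤ/3^r`). -/
theorem T_eventually_one {P : Type u} [Group P] [Finite P] (hP : IsPGroup 3 P) {r : ℕ}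
    (c : ZMod (3 ^ r) → P) : ∃ n₀, ∀ n, n₀ ≤ n → ∀ k, T^[n] c k = 1 := by
  haveI : NeZero (3 ^ r) := ⟨by positivity⟩
  haveI : Fact (Nat.Prime 3) := ⟨Nat.prime_three⟩
  set Q : Subgroup (Equiv.Perm (ZMod (3 ^ r))) := zpowers (shift (3 ^ r)) with hQ
  have hpg : IsPGroup 3 (Wr.overP (G := P) Q) := Wr.isPGroup_over hP (shift_pgroup r)
  haveI hnil : Group.IsNilpotent (Wr.overP (G := P) Q) := hpg.isNilpotent
  obtain ⟨n₀, hn₀⟩ := Subgroup.nilpotent_iff_lowerCentralSeries.1 hnil
  let b : (ZMod (3 ^ r) → P) → Wr.overP (G := P) Q := fun f => ⟨Wr.base f, one_mem Q⟩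
  let s : Wr.overP (G := P) Q := ⟨Wr.ofPerm (shift (3 ^ r)), mem_zpowers _⟩
  have hT : ∀ f : ZMod (3 ^ r) → P, b (T f) = (b f)⁻¹ * s⁻¹ * b f * s := by
    intro f
    apply Subtype.ext
    show Wr.base (T f) = (Wr.base f)⁻¹ * (Wr.ofPerm (shift (3 ^ r)))⁻¹ * Wr.base f *
      Wr.ofPerm (shift (3 ^ r))
    ext l
    · simp [T, shift]
    · simp
  have hmem : ∀ n, b (T^[n] c) ∈
      Subgroup.lowerCentralSeries (⊤ : Subgroup (Wr.overP (G := P) Q)) n := by
    intro n
    induction n with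
    | zero => exact mem_top _
    | succ n ih =>
      rw [Function.iterate_succ_apply', hT]
      have h1 : ⁅(b (T^[n] c))⁻¹, s⁻¹⁆ ∈
          Subgroup.lowerCentralSeries (⊤ : Subgroup (Wr.overP (G := P) Q)) (n + 1) :=
        commutator_mem_commutator (inv_mem ih) (mem_top _)
      rwa [commutatorElement_def, inv_inv, inv_inv] at h1
  refine ⟨n₀, fun n hn k => ?_⟩
  have h1 := Subgroup.lowerCentralSeries_antitone _ hn (hmem n)
  rw [hn₀, mem_bot] at h1
  have h2 := congrFun (congrArg Wr.lab (congrArg Subtype.val h1)) k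
  exact h2

theorem T_eventually_mem {G : Type u} [Group G] {r : ℕ} (c : ZMod (3 ^ r) → G)
    {N : Subgroup G} (hN : N3 N) : ∃ n₀, ∀ n, n₀ ≤ n → ∀ k, T^[n] c k ∈ N := by
  letI := hN.1
  haveI := hN.finite
  obtain ⟨n₀, h⟩ := T_eventually_one hN.isPGroup (fun k => QuotientGroup.mk' N (c k))
  refine ⟨n₀, fun n hn k => ?_⟩
  have h1 := h n hn k
  rw [T_iter_comp] at h1
  exact (QuotientGroup.eq_one_iff _).1 h1

/-- telescoping: `(c 0)⁻¹ * c j` is a product of values of `T c` -/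
theorem telescope {G : Type u} [Group G] {n : ℕ} (c : ZMod n → G) (j : ℕ) :
    (c 0)⁻¹ * c (j : ZMod n) ∈ gen (T c) := by
  induction j with
  | zero =>
    rw [Nat.cast_zero, inv_mul_cancel]
    exact one_mem _
  | succ j ih =>
    have h1 : (c 0)⁻¹ * c ((j + 1 : ℕ) : ZMod n) = (c 0)⁻¹ * c (j : ZMod n) * T c (j : ZMod n) := by
      rw [Nat.cast_succ]
      simp only [T]
      group
    rw [h1]
    exact mul_mem ih (subset_closure ⟨_, rfl⟩)

theorem finrank_DD_le {G : Type u} [Group G] {r : ℕ} (c : ZMod (3 ^ r) → G) :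
    Module.finrank (ZMod 3) (DD c) ≤ 3 ^ r := by
  haveI : NeZero (3 ^ r) := ⟨by positivity⟩
  refine (Submodule.finrank_le _).trans ?_
  rw [Module.finrank_fintype_fun_eq_card, ZMod.card]

theorem low_top {G : Type u} [Group G] {r : ℕ} (c : ZMod (3 ^ r) → G) : Low (3 ^ r) c :=
  fun n₀ => ⟨n₀, le_rfl, finrank_DD_le _⟩

/-- a nontrivial finite 3-group maps onto `ℤ/3` -/
private theorem exists_hom_zmod {P : Type u} [Group P] [Finite P] [Nontrivial P]
    (hP : IsPGroup 3 P) : ∃ θ : P →* Multiplicative (ZMod 3), Function.Surjective θ := by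
  haveI : Fact (Nat.Prime 3) := ⟨Nat.prime_three⟩
  obtain ⟨k, hk⟩ := IsPGroup.iff_card.1 hP
  have hk0 : k ≠ 0 := by
    rintro rfl
    rw [pow_zero] at hk
    have := Finite.one_lt_card_iff_nontrivial.2 ‹Nontrivial P›
    omega
  obtain ⟨j, rfl⟩ := Nat.exists_eq_succ_of_ne_zero hk0
  obtain ⟨K, hK⟩ := Sylow.exists_subgroup_card_pow_prime (G := P) 3 (n := j)
    (by rw [hk]; exact pow_dvd_pow 3 (Nat.le_succ j))
  have hidx : K.index = 3 := by
    have h1 := K.card_mul_index
    rw [hK, hk, pow_succ] at h1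
    exact Nat.eq_of_mul_eq_mul_left (by positivity) h1
  have hmin : (Nat.card P).minFac = 3 := by
    rw [hk, Nat.pow_minFac (Nat.succ_ne_zero j)]
    exact Nat.prime_three.minFac_eq
  haveI : K.Normal := Subgroup.normal_of_index_eq_minFac_card (by rw [hidx, hmin])
  have h1 : Nat.card (P ⧸ K) = 3 := hidx
  have h2 : Nat.card (Multiplicative (ZMod 3)) = 3 := by
    rw [Nat.card_eq_fintype_card, Fintype.card_multiplicative, ZMod.card]
  refine ⟨(mulEquivOfPrimeCardEq h1 h2).toMonoidHom.comp (QuotientGroup.mk' K), ?_⟩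
  exact (mulEquivOfPrimeCardEq h1 h2).surjective.comp (QuotientGroup.mk'_surjective K)

/-- a nontrivial subgroup of a residually finite-3 group has a nonzero continuous homomorphism -/
theorem eq_one_of_DD_eq_bot {G : Type u} [Group G] (hG : Res3 G) {n : ℕ} (c : ZMod n → G)
    (h : DD c = ⊥) : ∀ k, c k = 1 := by
  classical
  by_contra hcon
  push Not at hcon
  obtain ⟨k, hk⟩ := hcon
  obtain ⟨N, hN, hkN⟩ := hG _ hk
  letI := hN.1
  haveI := hN.finite
  set A : Subgroup (G ⧸ N) := (gen c).map (QuotientGroup.mk' N) with hA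
  have hAp : IsPGroup 3 A := hN.isPGroup.to_subgroup A
  have hmemA : ∀ g ∈ gen c, QuotientGroup.mk' N g ∈ A := fun g hg => ⟨g, hg, rfl⟩
  have hkA : c k ∈ gen c := subset_closure ⟨k, rfl⟩
  haveI : Nontrivial A := by
    refine ⟨⟨⟨QuotientGroup.mk' N (c k), hmemA _ hkA⟩, 1, ?_⟩⟩
    intro h1
    have h2 := congrArg Subtype.val h1
    exact hkN ((QuotientGroup.eq_one_iff _).1 h2)
  obtain ⟨θ, hθ⟩ := exists_hom_zmod hAp
  let φ : G → ZMod 3 := fun g =>
    if hg : QuotientGroup.mk' N g ∈ A then Multiplicative.toAdd (θ ⟨_, hg⟩) else 0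
  have hφ : ∀ g (hg : g ∈ gen c), φ g = Multiplicative.toAdd (θ ⟨_, hmemA g hg⟩) := fun g hg =>
    dif_pos (hmemA g hg)
  have hch : CHom (gen c) φ := by
    refine ⟨fun r hr s hs => ?_, N, hN, fun r hr hrN => ?_⟩
    · rw [hφ r hr, hφ s hs, hφ _ (mul_mem hr hs), ← toAdd_mul, ← map_mul]
      rfl
    · rw [hφ r hr]
      have h1 : (⟨QuotientGroup.mk' N r, hmemA r hr⟩ : A) = 1 := by
        apply Subtype.ext
        exact (QuotientGroup.eq_one_iff r).2 hrN
      rw [h1, map_one, toAdd_one]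
  have hzero : ∀ j, φ (c j) = 0 := by
    intro j
    have h1 : (fun j => φ (c j)) ∈ DD c := mem_DD.2 ⟨φ, hch, fun _ => rfl⟩
    rw [h, Submodule.mem_bot] at h1
    exact congrFun h1 j
  have hall : ∀ g ∈ gen c, φ g = 0 := by
    intro g hg
    have hone : φ 1 = 0 := by
      have h1 := hch.1 1 (one_mem _) 1 (one_mem _)
      rw [mul_one] at h1
      exact left_eq_add.1 h1
    induction hg using closure_induction with
    | mem x hx =>
      obtain ⟨j, rfl⟩ := hx
      exact hzero j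
    | one => exact hone
    | mul x y hx hy h1 h2 => rw [hch.1 x hx y hy, h1, h2, add_zero]
    | inv x hx h1 =>
      have h2 := hch.1 x hx x⁻¹ (inv_mem hx)
      rw [mul_inv_cancel, hone, h1, zero_add] at h2
      exact h2.symm
  obtain ⟨⟨a, g, hg, rfl⟩, ha⟩ := hθ (Multiplicative.ofAdd 1)
  have h1 := hall g hg
  rw [hφ g hg, ha, toAdd_ofAdd] at h1
  exact absurd h1 (by decide)

theorem low_zero {G : Type u} [Group G] (hG : Res3 G) {r : ℕ} (c : ZMod (3 ^ r) → G)
    (h : Low 0 c) : ∃ n, ∀ k, T^[n] c k = 1 := by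
  haveI : Fact (Nat.Prime 3) := ⟨Nat.prime_three⟩
  haveI : NeZero (3 ^ r) := ⟨by positivity⟩
  obtain ⟨m, -, hm⟩ := h 0
  refine ⟨m, eq_one_of_DD_eq_bot hG _ ?_⟩
  exact Submodule.finrank_eq_zero.1 (Nat.le_zero.1 hm)

theorem DD_comp_le {G : Type u} {H : Type v} [Group G] [Group H] (f : G →* H) {n : ℕ}
    (c : ZMod n → G) : DD (fun k => f (c k)) ≤ DD c := by
  intro v hv
  rw [mem_DD] at hv ⊢
  obtain ⟨φ, ⟨h1, N, hN, h2⟩, h3⟩ := hv
  have hmem : ∀ r ∈ gen c, f r ∈ gen (fun k => f (c k)) := by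
    intro r hr
    have h4 : gen (fun k => f (c k)) = (gen c).map f := by
      unfold gen
      rw [MonoidHom.map_closure, ← Set.range_comp]
      rfl
    rw [h4]
    exact ⟨r, hr, rfl⟩
  refine ⟨fun g => φ (f g), ⟨fun r hr s hs => ?_, N.comap f, hN.comap f, fun r hr hrN => ?_⟩, h3⟩
  · show φ (f (r * s)) = _
    rw [map_mul]
    exact h1 _ (hmem r hr) _ (hmem s hs)
  · exact h2 _ (hmem r hr) hrN

/-- on `F+` the two topologies agree -/
theorem DD_iotaF {n : ℕ} (c : ZMod n → F) : DD (fun k => iotaF (c k)) = DD c := by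
  apply le_antisymm (DD_comp_le iotaF c)
  have h := DD_comp_le piF (fun k => iotaF (c k))
  simpa only [piF_iotaF] using h

end K611
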