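import Pool.Agent.Work.MP_611b97_al.K.Iso
import Pool.Agent.Work.MP_611b97_al.K.Tuples

/-!
# A uniform bound for the exponents of powers lying in the closure of a finitely generated group
-/

set_option autoImplicit false

namespace K611

open Subgroup

/-- There is one open subgroup `M` such that all the continuous homomorphisms of `cl (gen c)` to
`ℤ/3` extend to `gen c ⊔ M`. -/
theorem FinBound.exists_common {G : Type} [Group G] {V : Subgroup G} (hV : N3 V) {n : ℕ}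
    [NeZero n] (c : ZMod n → G) :
    ∃ M : Subgroup G, N3 M ∧ M ≤ V ∧ ∀ φ : G → ZMod 3, CHom (cl (gen c)) φ →
      ∃ ψ : G → ZMod 3, CHom (gen c ⊔ M) ψ ∧ ∀ r ∈ cl (gen c), ψ r = φ r := by
  classical
  have key : ∀ v : ZMod n → ZMod 3, ∃ N : Subgroup G, N3 N ∧ N ≤ V ∧
      ∀ φ : G → ZMod 3, CHom (cl (gen c)) φ → (∀ k, φ (c k) = v k) →
        ∃ ψ : G → ZMod 3, CHom (gen c ⊔ N) ψ ∧ ∀ r ∈ cl (gen c), ψ r = φ r := by
    intro v
    by_cases hv : v ∈ DD c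
    · obtain ⟨φ₀, h0, h0v⟩ := mem_DD.1 hv
      obtain ⟨N, hN, hNV, ψ, hψ, hψU, -⟩ := h0.extend_open hV
      refine ⟨N, hN, hNV, fun φ hφ hφv => ⟨ψ, hψ, ?_⟩⟩
      have hle : cl (gen c) ≤ gen c ⊔ N := by
        have h1 : cl (gen c) ≤ cl (gen c ⊔ N) := cl_mono le_sup_left
        rwa [cl_eq_of_le hN le_sup_right] at h1
      apply CHom.eq_on_cl (hψ.mono hle) hφ
      intro r hr
      rw [hψU r hr]
      exact CHom.eq_of_gen h0 (hφ.mono (le_cl _)) (fun k => by rw [h0v k, hφv k]) r hr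
    · refine ⟨V, hV, le_rfl, fun φ hφ hφv => absurd ?_ hv⟩
      exact mem_DD.2 ⟨φ, hφ.mono (le_cl _), hφv⟩
  choose N hN hNV hN2 using key
  obtain ⟨M, hM, hM2⟩ := N3.fintype_inf N hN
  refine ⟨M, hM, (hM2 0).trans (hNV 0), fun φ hφ => ?_⟩
  obtain ⟨ψ, h1, h2⟩ := hN2 (fun k => φ (c k)) φ hφ (fun _ => rfl)
  exact ⟨ψ, h1.mono (sup_le_sup_left (hM2 _) _), h2⟩

/-- MODULE FinBound. -/
theorem fin_bound {V : Subgroup F} (hV : N3 V) (hx : Fx ∉ V) (hy : Fy ∉ V) {r : ℕ}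
    (c : ZMod (3 ^ r) → F) (hc : ∀ k, c k ∈ V) :
    ∃ k₀ : ℕ, ∀ (g : F) (k : ℕ), g ^ 3 ^ k ∈ cl (gen c) → g ^ 3 ^ k₀ ∈ cl (gen c) := by
  obtain ⟨M, hM, hMV, hext⟩ := FinBound.exists_common hV c
  obtain ⟨k₀, hk₀⟩ := hM.exists_pow_mem
  have hgV : gen c ≤ V := by
    unfold gen
    rw [closure_le]
    rintro _ ⟨k, rfl⟩
    exact hc k
  refine ⟨k₀, fun g k hg => ?_⟩
  have hAK : cl (gen c) ≤ gen c ⊔ M := by
    have h1 : cl (gen c) ≤ cl (gen c ⊔ M) := cl_mono le_sup_left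
    rwa [cl_eq_of_le hM le_sup_right] at h1
  refine iso hV hx hy hAK (sup_le hgV hMV) (cl_cl _) hext
    ((le_sup_right : M ≤ gen c ⊔ M) (hk₀ g)) (t := k) ?_
  rw [← pow_mul, mul_comm, pow_mul]
  exact (cl (gen c)).pow_mem hg _

end K611
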