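import Pool.Agent.Work.MP_611b97_al.K.CharOff
import Pool.Agent.Work.MP_611b97_al.K.Cont

set_option autoImplicit false

namespace K611

open Subgroup

private theorem idx_le_of_index {G : Type*} [Group G] {K L : Subgroup G} (hKL : K ≤ L)
    (hK : K.index ≠ 0) (h : K.index ≤ L.index) : L ≤ K := by
  have h1 := Subgroup.relIndex_mul_index hKL
  rw [← Subgroup.relIndex_eq_one]
  have hL : L.index ≠ 0 := by
    intro h0
    rw [h0, mul_zero] at h1
    exact hK h1.symm
  have hr : K.relIndex L ≠ 0 := by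
    intro h0
    rw [h0, zero_mul] at h1
    exact hK h1.symm
  rcases Nat.lt_or_ge (K.relIndex L) 2 with h2 | h2
  · omega
  · exfalso
    have h3 : 2 * L.index ≤ K.relIndex L * L.index := Nat.mul_le_mul_right _ h2
    omega

private theorem idx_index_ne_zero {G : Type*} [Group G] {N K : Subgroup G} (hN : N3 N)
    (h : N ≤ K) : K.index ≠ 0 := by
  have h1 : N.index ≠ 0 := hN.finiteIndex.index_ne_zero
  intro h0
  have h2 := Subgroup.index_dvd_of_le h
  rw [h0, zero_dvd_iff] at h2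
  exact h1 h2

/-- MODULE Idx (blueprint IDX). -/
theorem idx {V₁ : Subgroup F} (hV : N3 V₁) {κ : Type} [Fintype κ] (g : κ → F)
    (hg : ∀ k, g k ∈ V₁) (hcard : 3 * Fintype.card κ < V₁.index) (B : ℕ) :
    ∃ V : Subgroup F, N3 V ∧ B ≤ (closure (Set.range g) ⊔ V).index := by
  classical
  by_contra hcon
  push Not at hcon
  set H : Subgroup F := closure (Set.range g) with hH
  have hHV : H ≤ V₁ := by
    rw [hH, closure_le]
    rintro z ⟨k, rfl⟩
    exact hg k
  -- a subgroup `V` with maximal index of `H ⊔ V`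
  obtain ⟨V, hVN, hVle, hmax⟩ : ∃ V : Subgroup F, N3 V ∧ V ≤ V₁ ∧
      ∀ V' : Subgroup F, N3 V' → (H ⊔ V').index ≤ (H ⊔ V).index := by
    let s : Set ℕ := {n | ∃ V : Subgroup F, N3 V ∧ (H ⊔ V).index = n}
    have hs : s.Nonempty := ⟨_, ⊤, N3.top, rfl⟩
    have hb : BddAbove s := by
      refine ⟨B, ?_⟩
      rintro n ⟨V, hV, rfl⟩
      exact (hcon V hV).le
    obtain ⟨V, hV2, hVs⟩ := Nat.sSup_mem hs hb
    refine ⟨V ⊓ V₁, hV2.inf hV, inf_le_right, ?_⟩
    intro V' hV'
    have h1 : (H ⊔ V').index ≤ sSup s := le_csSup hb ⟨V', hV', rfl⟩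
    rw [← hVs] at h1
    refine h1.trans ?_
    apply Nat.le_of_dvd (Nat.pos_of_ne_zero (idx_index_ne_zero (hV2.inf hV) le_sup_right))
    exact Subgroup.index_dvd_of_le (sup_le_sup le_rfl inf_le_left)
  set W : Subgroup F := H ⊔ V with hW
  have hWV : W ≤ V₁ := sup_le hHV hVle
  have hdense : ∀ N : Subgroup F, N3 N → W ≤ H ⊔ N := by
    intro N hN
    have h1 : H ⊔ (N ⊓ V) ≤ W := sup_le_sup le_rfl inf_le_right
    have h2 : (H ⊔ (N ⊓ V)).index ≤ W.index := hmax _ (hN.inf hVN)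
    have h3 : (H ⊔ (N ⊓ V)).index ≠ 0 := idx_index_ne_zero (hN.inf hVN) le_sup_right
    exact (idx_le_of_index h1 h3 h2).trans (sup_le_sup le_rfl inf_le_left)
  have hWS : ∃ N, N3 N ∧ N ≤ W := ⟨V, hVN, le_sup_right⟩
  have hWcard : 3 * Fintype.card κ + 12 * (∅ : Finset (F ⧸ W)).card < W.index := by
    rw [Finset.card_empty, mul_zero, add_zero]
    refine lt_of_lt_of_le hcard ?_
    exact Nat.le_of_dvd (Nat.pos_of_ne_zero (idx_index_ne_zero hVN le_sup_right))
      (Subgroup.index_dvd_of_le hWV)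
  have hgW : ∀ k, g k ∈ W := fun k => (le_sup_left : H ≤ W) (subset_closure ⟨k, rfl⟩)
  obtain ⟨ρ, hρ, -, hρg, s, hs, hs1⟩ := exists_char hWS ∅ g hgW hWcard
  have : Finite (F ⧸ W) := finite_quot hWS
  have hP : IsPGroup 3 (Multiplicative (ZMod 3)) := by
    apply IsPGroup.of_card (n := 1)
    rw [Nat.card_eq_fintype_card, Fintype.card_multiplicative, ZMod.card, pow_one]
  have hker : N3 ρ.ker := N3_ker_label (isPGroup_toPermHom hWS) hP ρ hρ
  have hone : ∀ h ∈ H, (ρ h).lab ((1 : F) : F ⧸ W) = 1 := by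
    let K : Subgroup F :=
      { carrier := {h | h ∈ W ∧ (ρ h).lab ((1 : F) : F ⧸ W) = 1}
        one_mem' := ⟨one_mem _, by rw [map_one]; rfl⟩
        mul_mem' := by
          rintro a b ⟨ha, ha1⟩ ⟨hb, hb1⟩
          refine ⟨mul_mem ha hb, ?_⟩
          rw [lab_base_mul ρ hρ ha, ha1, hb1, one_mul]
        inv_mem' := by
          rintro a ⟨ha, ha1⟩
          refine ⟨inv_mem ha, ?_⟩
          have h1 := lab_base_mul ρ hρ (t := a) (inv_mem ha)
          rw [inv_mul_cancel, map_one, ha1, mul_one] at h1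
          exact h1.symm }
    have hle : H ≤ K := by
      rw [hH, closure_le]
      rintro z ⟨k, rfl⟩
      exact ⟨hgW k, hρg k⟩
    intro h hh
    exact (hle hh).2
  have := hker.1
  obtain ⟨h, hh, v, hv, hhv⟩ := Subgroup.mem_sup_of_normal_right.1 (hdense ρ.ker hker hs)
  apply hs1
  rw [← hhv, map_mul, show ρ v = 1 from hv, mul_one]
  exact hone h hh

end K611
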