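import Pool.Agent.Work.MP_611b97_al.K.LP

/-!
# Homomorphisms of finite 3-groups, division in `ℤ/3^m`, isolated closed subgroups
-/

set_option autoImplicit false

namespace K611

open Subgroup

universe u v w

/-- A proper subgroup of a finite 3-group lies in the kernel of a nonzero homomorphism onto a
group of order three. -/
theorem exists_hom_of_lt_top {P : Type u} [Group P] [Finite P] (hP : IsPGroup 3 P)
    {A : Subgroup P} (hA : A ≠ ⊤) {C : Type v} [Group C] (hC : Nat.card C = 3) :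
    ∃ φ : P →* C, A ≤ φ.ker ∧ φ ≠ 1 := by
  classical
  have : Fact (Nat.Prime 3) := ⟨by norm_num⟩
  have : Finite C := Nat.finite_of_card_ne_zero (by rw [hC]; norm_num)
  obtain ⟨M, hM, hAM⟩ := (eq_top_or_exists_le_coatom A).resolve_left hA
  have hnil : Group.IsNilpotent P := hP.isNilpotent
  have hMn : M.Normal := (Group.normalizerCondition_of_isNilpotent).normal_of_coatom M hM
  -- the quotient has order three
  have hcard : Nat.card (P ⧸ M) = 3 := by
    have hQ : IsPGroup 3 (P ⧸ M) := hP.to_quotient M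
    have hnt : Nontrivial (P ⧸ M) := QuotientGroup.nontrivial_iff.2 hM.1
    obtain ⟨k, hk⟩ := IsPGroup.iff_card.1 hQ
    have hk1 : k ≠ 0 := by
      rintro rfl
      rw [pow_zero] at hk
      have := Finite.one_lt_card (α := P ⧸ M)
      omega
    have hdvd : 3 ^ 1 ∣ Nat.card (P ⧸ M) := by
      rw [hk]
      exact pow_dvd_pow 3 (Nat.one_le_iff_ne_zero.2 hk1)
    obtain ⟨K, hK⟩ := Sylow.exists_subgroup_card_pow_prime 3 hdvd
    have hlt : M < K.comap (QuotientGroup.mk' M) := by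
      refine lt_of_le_of_ne ?_ ?_
      · intro g hg
        rw [Subgroup.mem_comap, QuotientGroup.mk'_apply, (QuotientGroup.eq_one_iff g).2 hg]
        exact K.one_mem
      · intro h
        have hbot : K = ⊥ := by
          rw [eq_bot_iff]
          intro q hq
          obtain ⟨g, rfl⟩ := QuotientGroup.mk'_surjective M q
          have : g ∈ M := by
            rw [h]
            exact hq
          exact (QuotientGroup.eq_one_iff g).2 this
        rw [hbot, Subgroup.card_bot] at hK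
        norm_num at hK
    have htop : K.comap (QuotientGroup.mk' M) = ⊤ := hM.2 _ hlt
    have hKtop : K = ⊤ := by
      rw [eq_top_iff]
      intro q _
      obtain ⟨g, rfl⟩ := QuotientGroup.mk'_surjective M q
      have : g ∈ K.comap (QuotientGroup.mk' M) := by
        rw [htop]
        exact mem_top g
      exact this
    rw [hKtop, Subgroup.card_top, pow_one] at hK
    exact hK
  let e : P ⧸ M ≃* C := mulEquivOfPrimeCardEq (p := 3) hcard hC
  refine ⟨e.toMonoidHom.comp (QuotientGroup.mk' M), ?_, ?_⟩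
  · intro g hg
    rw [MonoidHom.mem_ker, MonoidHom.comp_apply, QuotientGroup.mk'_apply,
      (QuotientGroup.eq_one_iff g).2 (hAM hg), map_one]
  · intro h
    apply hM.1
    rw [eq_top_iff]
    intro g _
    have h1 : e (QuotientGroup.mk' M g) = 1 := DFunLike.congr_fun h g
    have h2 : QuotientGroup.mk' M g = 1 := e.injective (by rw [h1, map_one])
    exact (QuotientGroup.eq_one_iff g).1 h2

/-- the embedding `ℤ/3 → ℤ/3n` -/
def isoEmb (n : ℕ) : ZMod 3 →+ ZMod (3 * n) :=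
  ZMod.lift 3 ⟨zmultiplesHom _ (n : ZMod (3 * n)), by
    rw [zmultiplesHom_apply]
    have h : ((3 * n : ℕ) : ZMod (3 * n)) = 0 := ZMod.natCast_self _
    push_cast at h
    rw [zsmul_eq_mul]
    push_cast
    exact h⟩

theorem isoEmb_int (n : ℕ) (k : ℤ) : isoEmb n (k : ZMod 3) = k * (n : ZMod (3 * n)) := by
  unfold isoEmb
  rw [ZMod.lift_coe, zmultiplesHom_apply, zsmul_eq_mul]

theorem isoEmb_injective {n : ℕ} (hn : n ≠ 0) : Function.Injective (isoEmb n) := by
  rw [injective_iff_map_eq_zero]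
  intro a ha
  obtain ⟨k, rfl⟩ := ZMod.intCast_surjective a
  rw [isoEmb_int] at ha
  have h1 : ((k * n : ℤ) : ZMod (3 * n)) = 0 := by
    push_cast
    exact ha
  rw [ZMod.intCast_zmod_eq_zero_iff_dvd] at h1
  rw [ZMod.intCast_zmod_eq_zero_iff_dvd]
  have h2 : (n : ℤ) * 3 ∣ n * k := by
    rw [mul_comm (n : ℤ) k, mul_comm (n : ℤ) 3]
    exact_mod_cast h1
  have h4 := Int.dvd_of_mul_dvd_mul_left (by exact_mod_cast hn) h2
  exact_mod_cast h4

theorem lpRed_eq_zero_iff {n : ℕ} {a : ZMod (3 * n)} :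
    lpRed n a = 0 ↔ ∃ s : ZMod 3, isoEmb n s = a := by
  constructor
  · intro h
    obtain ⟨k, rfl⟩ := ZMod.intCast_surjective a
    rw [map_intCast, ZMod.intCast_zmod_eq_zero_iff_dvd] at h
    obtain ⟨t, rfl⟩ := h
    refine ⟨(t : ZMod 3), ?_⟩
    rw [isoEmb_int]
    push_cast
    ring
  · rintro ⟨s, rfl⟩
    obtain ⟨k, rfl⟩ := ZMod.intCast_surjective s
    rw [isoEmb_int, map_mul, map_intCast, map_natCast, ZMod.natCast_self, mul_zero]

/-- `3 a = 0` implies that the reduction of `a` vanishes -/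
theorem lpRed_eq_zero_of_three_mul {n : ℕ} {a : ZMod (3 * n)} (h : 3 * a = 0) :
    lpRed n a = 0 := by
  obtain ⟨k, rfl⟩ := ZMod.intCast_surjective a
  have h1 : ((3 * k : ℤ) : ZMod (3 * n)) = 0 := by
    push_cast
    exact h
  rw [ZMod.intCast_zmod_eq_zero_iff_dvd] at h1
  rw [map_intCast, ZMod.intCast_zmod_eq_zero_iff_dvd]
  rw [Nat.cast_mul] at h1
  exact Int.dvd_of_mul_dvd_mul_left (by norm_num) h1

open Classical in
/-- division by `n` on the kernel of the reduction `ℤ/3n → ℤ/n` -/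
noncomputable def isoDiv (n : ℕ) (a : ZMod (3 * n)) : ZMod 3 :=
  if h : ∃ s : ZMod 3, isoEmb n s = a then h.choose else 0

theorem isoDiv_emb {n : ℕ} (hn : n ≠ 0) (s : ZMod 3) : isoDiv n (isoEmb n s) = s := by
  have h : ∃ t : ZMod 3, isoEmb n t = isoEmb n s := ⟨s, rfl⟩
  rw [isoDiv, dif_pos h]
  exact isoEmb_injective hn h.choose_spec

theorem isoEmb_div {n : ℕ} {a : ZMod (3 * n)} (h : lpRed n a = 0) :
    isoEmb n (isoDiv n a) = a := by
  obtain ⟨s, hs⟩ := lpRed_eq_zero_iff.1 h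
  have h' : ∃ s : ZMod 3, isoEmb n s = a := ⟨s, hs⟩
  rw [isoDiv, dif_pos h']
  exact h'.choose_spec

theorem isoDiv_add {n : ℕ} (hn : n ≠ 0) {a b : ZMod (3 * n)} (ha : lpRed n a = 0)
    (hb : lpRed n b = 0) : isoDiv n (a + b) = isoDiv n a + isoDiv n b := by
  obtain ⟨s, rfl⟩ := lpRed_eq_zero_iff.1 ha
  obtain ⟨t, rfl⟩ := lpRed_eq_zero_iff.1 hb
  rw [← map_add, isoDiv_emb hn, isoDiv_emb hn, isoDiv_emb hn]

theorem isoDiv_zero {n : ℕ} (hn : n ≠ 0) : isoDiv n 0 = 0 := by
  have h := isoDiv_emb hn 0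
  rwa [map_zero] at h

theorem eq_zero_of_isoDiv {n : ℕ} {a : ZMod (3 * n)} (ha : lpRed n a = 0)
    (h : isoDiv n a = 0) : a = 0 := by
  rw [← isoEmb_div ha, h, map_zero]

/-- dividing a continuous homomorphism -/
theorem CHom.isoDiv {G : Type u} [Group G] {U : Subgroup G} {n : ℕ} (hn : n ≠ 0)
    {φ : G → ZMod (3 * n)} (h : CHom U φ) (h0 : ∀ r ∈ U, lpRed n (φ r) = 0) :
    CHom U (fun g => isoDiv n (φ g)) := by
  obtain ⟨h1, N, hN, h2⟩ := h
  refine ⟨?_, N, hN, ?_⟩
  · intro r hr s hs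
    show K611.isoDiv n (φ (r * s)) = _
    rw [h1 r hr s hs, isoDiv_add hn (h0 r hr) (h0 s hs)]
  · intro r hr hrN
    show K611.isoDiv n (φ r) = 0
    rw [h2 r hr hrN, isoDiv_zero hn]

/-- isolation, one step -/
theorem iso_step {V A K : Subgroup F} (hV : N3 V) (hx : Fx ∉ V) (hy : Fy ∉ V)
    (hAK : A ≤ K) (hK : K ≤ V) (hA : cl A = A)
    (hext : ∀ φ : F → ZMod 3, CHom A φ → ∃ ψ : F → ZMod 3, CHom K ψ ∧ ∀ r ∈ A, ψ r = φ r)
    {u : F} (hu : u ∈ K) (hu3 : u ^ 3 ∈ A) : u ∈ A := by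
  classical
  by_contra hcon
  have h1 : u ∉ cl A := by rwa [hA]
  rw [mem_cl] at h1
  push Not at h1
  obtain ⟨N, hN, hN2⟩ := h1
  have hNn := hN.1
  have hNf := hN.finite
  -- the finite group `B`
  let q : F →* F ⧸ N := QuotientGroup.mk' N
  let V' : Subgroup F := A ⊔ zpowers u
  have hV'K : V' ≤ K := sup_le hAK (by rwa [zpowers_le])
  let B : Subgroup (F ⧸ N) := V'.map q
  have hBP : IsPGroup 3 B := hN.isPGroup.to_subgroup B
  let A' : Subgroup B := (A.map q).subgroupOf B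
  have hA' : A' ≠ ⊤ := by
    intro h
    have h2 : (⟨q u, mem_map_of_mem q (mem_sup_right (mem_zpowers u))⟩ : B) ∈ A' := by
      rw [h]
      exact mem_top _
    obtain ⟨r, hr, hru⟩ := (Subgroup.mem_subgroupOf.1 h2)
    apply hN2 r hr
    rw [← QuotientGroup.eq]
    exact hru
  obtain ⟨φ, hφ1, hφ2⟩ := exists_hom_of_lt_top hBP hA' (C := Multiplicative (ZMod 3))
    (by rw [Nat.card_eq_fintype_card, Fintype.card_multiplicative, ZMod.card])
  let φ₀ : F → ZMod 3 := fun g =>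
    if h : q g ∈ B then Multiplicative.toAdd (φ ⟨q g, h⟩) else 0
  have hφ₀ : ∀ g (h : g ∈ V'), φ₀ g = Multiplicative.toAdd (φ ⟨q g, mem_map_of_mem q h⟩) := by
    intro g h
    exact dif_pos (mem_map_of_mem q h)
  have hc : CHom V' φ₀ := by
    refine ⟨?_, N, hN, ?_⟩
    · intro r hr s hs
      rw [hφ₀ _ (mul_mem hr hs), hφ₀ _ hr, hφ₀ _ hs, ← toAdd_mul, ← map_mul]
      rfl
    · intro r hr hrN
      rw [hφ₀ _ hr]
      have h3 : (⟨q r, mem_map_of_mem q hr⟩ : B) = 1 :=
        Subtype.ext ((QuotientGroup.eq_one_iff r).2 hrN)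
      rw [h3, map_one]
      rfl
  have hA0 : ∀ a ∈ A, φ₀ a = 0 := by
    intro a ha
    rw [hφ₀ a (mem_sup_left ha)]
    have h3 : (⟨q a, mem_map_of_mem q (mem_sup_left ha)⟩ : B) ∈ A' :=
      Subgroup.mem_subgroupOf.2 (mem_map_of_mem q ha)
    have h4 := hφ1 h3
    rw [MonoidHom.mem_ker] at h4
    rw [h4]
    rfl
  have hu0 : φ₀ u ≠ 0 := by
    intro h
    apply hφ2
    have h5 : ∀ g (h : g ∈ V'), φ ⟨q g, mem_map_of_mem q h⟩ = 1 := by
      intro g hg
      have h6 : V' ≤ { carrier := {g | g ∈ V' ∧ φ₀ g = 0}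
                       one_mem' := ⟨one_mem _, hc.one⟩
                       mul_mem' := by
                        rintro a b ⟨ha, ha'⟩ ⟨hb, hb'⟩
                        exact ⟨mul_mem ha hb, by rw [hc.1 a ha b hb, ha', hb', add_zero]⟩
                       inv_mem' := by
                        rintro a ⟨ha, ha'⟩
                        exact ⟨inv_mem ha, by rw [hc.inv ha, ha', neg_zero]⟩ : Subgroup F } := by
        refine sup_le ?_ ?_
        · intro a ha
          exact ⟨mem_sup_left ha, hA0 a ha⟩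
        · rw [zpowers_le]
          exact ⟨mem_sup_right (mem_zpowers u), h⟩
      have h7 := (h6 hg).2
      rw [hφ₀ g hg] at h7
      exact Multiplicative.toAdd.injective h7
    ext ⟨b, hb⟩
    obtain ⟨g, hg, rfl⟩ := hb
    rw [h5 g hg]
    rfl
  -- lift to `ℤ/9`
  obtain ⟨ψ, hψ, hψr⟩ := lp hV hx hy (hV'K.trans hK) (n := 3) (m := 1) (by norm_num) φ₀ hc
  have hψA : CHom A ψ := hψ.mono le_sup_left
  have hr0 : ∀ r ∈ A, lpRed 3 (ψ r) = 0 := by
    intro r hr
    have h := hψr r (mem_sup_left hr)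
    rw [hA0 r hr] at h
    exact h
  have hθ := CHom.isoDiv (by norm_num) hψA hr0
  obtain ⟨θ', hθ', hθA⟩ := hext _ hθ
  have h8 : θ' (u ^ 3) = 0 := by
    rw [hθ'.pow hu]
    have : ((3 : ℕ) : ZMod 3) = 0 := ZMod.natCast_self 3
    rw [this, zero_mul]
  rw [hθA _ hu3] at h8
  have h9 : ψ (u ^ 3) = 0 := eq_zero_of_isoDiv (hr0 _ hu3) h8
  have huV' : u ∈ V' := mem_sup_right (mem_zpowers u)
  rw [hψ.pow huV'] at h9
  apply hu0
  rw [← hψr u huV']
  exact lpRed_eq_zero_of_three_mul (by exact_mod_cast h9)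

/-- MODULE Iso (blueprint ISO). -/
theorem iso {V A K : Subgroup F} (hV : N3 V) (hx : Fx ∉ V) (hy : Fy ∉ V) (hAK : A ≤ K)
    (hK : K ≤ V) (hA : cl A = A)
    (hext : ∀ φ : F → ZMod 3, CHom A φ → ∃ ψ : F → ZMod 3, CHom K ψ ∧ ∀ r ∈ A, ψ r = φ r)
    {g : F} (hg : g ∈ K) {t : ℕ} (h3 : g ^ 3 ^ t ∈ A) : g ∈ A := by
  induction t with
  | zero => simpa using h3
  | succ t ih =>
    apply ih
    apply iso_step hV hx hy hAK hK hA hext (pow_mem hg _)
    rwa [← pow_mul, ← pow_succ]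

end K611
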