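import Pool.Agent.Work.MP_611b97_al.K.JumpTools

set_option autoImplicit false

namespace K611

open Subgroup

/-- MODULE Mono, M1. -/
theorem mono {V : Subgroup F} (hV : N3 V) (hx : Fx ∉ V) (hy : Fy ∉ V) {r : ℕ}
    (c : ZMod (3 ^ r) → F) (hc : ∀ k, T c k ∈ V) :
    Module.finrank (ZMod 3) (DD (T c)) ≤ Module.finrank (ZMod 3) (DD (T (T c))) := by
  have : NeZero (3 ^ r) := ⟨by positivity⟩
  obtain ⟨s, θ, η, hθ, hθ1, hη, hηθ, hmax⟩ := exists_max_theta hV hx hy c hc
  obtain ⟨em, hem, hec, hsurj, -⟩ := jump_em (3 ^ s) (by positivity)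
  choose! dv hdv using hsurj
  have hle : cl (gen (T (T c))) ≤ cl (gen (T c)) := cl_mono (gen_T_le _)
  refine (jump_finrank hθ hθ1 hη hηθ hmax hem hec hdv).trans (Submodule.finrank_mono ?_)
  apply sup_le (jump_map_le _)
  rw [Submodule.span_singleton_le_iff_mem]
  refine ⟨_, (jump_eps hη hle (fun a ha => ?_) hem hdv).mono (le_cl _), fun k => rfl⟩
  rw [hηθ a (hle ha), jump_theta_zero hθ hθ1 a ha]

end K611
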