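import Pool.Agent.Work.MP_611b97_al.K.JumpTools
import Pool.Agent.Work.MP_611b97_al.K.Mono

/-!
# The jump lemma (M2 + M3)
-/

set_option autoImplicit false

namespace K611

open Subgroup

/-- MODULE Jump (M2 + M3). -/
theorem jump {V : Subgroup F} (hV : N3 V) (hx : Fx ∉ V) (hy : Fy ∉ V) {r : ℕ}
    (c : ZMod (3 ^ r) → F) (hc : ∀ k, T c k ∈ V)
    (heq : Module.finrank (ZMod 3) (DD (T c)) = Module.finrank (ZMod 3) (DD (T (T c))))
    {g : F} (hg : g ∈ cl (gen (T c))) (hg' : g ∉ cl (gen (T (T c))))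
    (hg3 : g ^ 3 ∈ cl (gen (T (T c)))) :
    ∃ ψ : F → ZMod 3, CHom (cl (gen (T (T c)))) ψ ∧ ψ (g ^ 3) ≠ 0 := by
  have : NeZero (3 ^ r) := ⟨by positivity⟩
  obtain ⟨s, θ, η, hθ, hθ1, hη, hηθ, hmax⟩ := exists_max_theta hV hx hy c hc
  obtain ⟨em, hem, hec, hsurj, h3⟩ := jump_em (3 ^ s) (by positivity)
  choose! dv hdv using hsurj
  have hTm : ∀ k, T c k ∈ gen (T c) := fun k => subset_closure ⟨k, rfl⟩
  have hTTm : ∀ k, T (T c) k ∈ gen (T (T c)) := fun k => subset_closure ⟨k, rfl⟩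
  have hle : cl (gen (T (T c))) ≤ cl (gen (T c)) := cl_mono (gen_T_le _)
  -- `θ` vanishes on `A`
  have hθA : ∀ a ∈ cl (gen (T (T c))), θ a = 0 := jump_theta_zero hθ hθ1
  obtain ⟨K, hK⟩ : ∃ K : Subgroup F, ∀ a, a ∈ K ↔ a ∈ cl (gen (T c)) ∧ θ a = 0 := by
    refine ⟨{ carrier := {a | a ∈ cl (gen (T c)) ∧ θ a = 0}, mul_mem' := ?_, one_mem' := ?_,
              inv_mem' := ?_ }, fun a => Iff.rfl⟩
    · rintro a b ⟨ha, ha0⟩ ⟨hb, hb0⟩
      exact ⟨mul_mem ha hb, by rw [hθ.mul ha hb, ha0, hb0, add_zero]⟩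
    · exact ⟨one_mem _, hθ.one⟩
    · rintro a ⟨ha, ha0⟩
      exact ⟨inv_mem ha, by rw [hθ.inv ha, ha0, neg_zero]⟩
  have hKcl : K ≤ cl (gen (T c)) := fun a ha => ((hK a).1 ha).1
  have hAK : cl (gen (T (T c))) ≤ K := fun a ha => (hK a).2 ⟨hle ha, hθA a ha⟩
  have hKV : K ≤ V := by
    refine hKcl.trans (cl_le_of_le hV ?_)
    rw [gen, closure_le]
    rintro _ ⟨k, rfl⟩
    exact hc k
  have hcastK : ∀ a ∈ K,
      ZMod.castHom (Dvd.intro_left 3 rfl : 3 ^ s ∣ 3 * 3 ^ s) (ZMod (3 ^ s)) (η a) = 0 := by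
    intro a ha
    rw [hηθ a (hKcl ha), ((hK a).1 ha).2]
  have hε : CHom K (fun a => dv (η a)) := jump_eps hη hKcl hcastK hem hdv
  -- M2: homomorphisms extend from `A` to `K`
  have hW : (DD (T c)).map (jumpL (3 ^ r)) ⊔
      Submodule.span (ZMod 3) {fun k => dv (η (T (T c) k))} = DD (T (T c)) := by
    apply Submodule.eq_of_le_of_finrank_le
    · apply sup_le (jump_map_le _)
      rw [Submodule.span_singleton_le_iff_mem]
      exact ⟨_, (hε.mono hAK).mono (le_cl _), fun k => rfl⟩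
    · rw [← heq]
      exact jump_finrank hθ hθ1 hη hηθ hmax hem hec hdv
  have hext : ∀ φ : F → ZMod 3, CHom (cl (gen (T (T c)))) φ →
      ∃ ψ : F → ZMod 3, CHom K ψ ∧ ∀ a ∈ cl (gen (T (T c))), ψ a = φ a := by
    intro φ hφ
    have hmem : (fun k => φ (T (T c) k)) ∈ DD (T (T c)) := ⟨φ, hφ.mono (le_cl _), fun k => rfl⟩
    rw [← hW, Submodule.mem_sup] at hmem
    obtain ⟨_, ⟨v, ⟨κ, hκ, hκv⟩, rfl⟩, w, hw, hsum⟩ := hmem
    obtain ⟨a, rfl⟩ := Submodule.mem_span_singleton.1 hw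
    obtain ⟨κ', hκ', hκκ'⟩ := hκ.extend_cl
    have hψ : CHom K (fun b => κ' b + AddMonoidHom.mulLeft a (dv (η b))) :=
      (hκ'.mono hKcl).add (hε.map (AddMonoidHom.mulLeft a))
    refine ⟨_, hψ, ?_⟩
    refine CHom.eq_on_cl (hψ.mono hAK) hφ ?_
    refine CHom.eq_of_gen ((hψ.mono hAK).mono (le_cl _)) (hφ.mono (le_cl _)) ?_
    intro k
    have h1 := congrFun hsum k
    rw [Pi.add_apply, jumpL_apply, Pi.smul_apply, smul_eq_mul] at h1
    rw [← h1]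
    show κ' (T (T c) k) + a * dv (η (T (T c) k)) = _
    rw [hκκ' _ (gen_T_le _ (hTTm k)), jump_val hκ hTm, hκv, hκv]
  -- M3
  have hgK : g ∉ K := fun h => hg' (iso hV hx hy hAK hKV (cl_cl _) hext h (t := 1) (by
    rwa [pow_one]))
  have hθg : θ g ≠ 0 := fun h => hgK ((hK g).2 ⟨hg, h⟩)
  refine ⟨_, hε.mono hAK, ?_⟩
  intro h0
  have h0' : dv (η (g ^ 3)) = 0 := h0
  apply hθg
  rw [← hηθ g hg]
  apply h3
  have h4 := hη.pow hg 3
  rw [← hdv _ (hcastK _ (hAK hg3)), h0', map_zero] at h4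
  rw [h4]
  norm_num

end K611
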