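import Pool.Agent.Work.MP_611b97_al.K.MaxTh

/-!
# Tools for M1, M2, M3
-/

set_option autoImplicit false

namespace K611

open Subgroup

/-- the embedding `ℤ/3 → ℤ/3n` as the kernel of the reduction -/
theorem jump_em (n : ℕ) (hn : 0 < n) : ∃ em : ZMod 3 →+ ZMod (3 * n), Function.Injective em ∧
    (∀ t, ZMod.castHom (Dvd.intro_left 3 rfl : n ∣ 3 * n) (ZMod n) (em t) = 0) ∧
    (∀ a, ZMod.castHom (Dvd.intro_left 3 rfl : n ∣ 3 * n) (ZMod n) a = 0 → ∃ t, em t = a) ∧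
    ∀ a : ZMod (3 * n), 3 * a = 0 →
      ZMod.castHom (Dvd.intro_left 3 rfl : n ∣ 3 * n) (ZMod n) a = 0 := by
  have h0 : (zmultiplesHom (ZMod (3 * n)) ((n : ℕ) : ZMod (3 * n))) ((3 : ℕ) : ℤ) = 0 := by
    rw [zmultiplesHom_apply, natCast_zsmul, nsmul_eq_mul, ← Nat.cast_mul, ZMod.natCast_self]
  have hem : ∀ k : ℤ, ZMod.lift 3 ⟨zmultiplesHom (ZMod (3 * n)) ((n : ℕ) : ZMod (3 * n)), h0⟩
      (k : ZMod 3) = ((k * n : ℤ) : ZMod (3 * n)) := by
    intro k
    rw [ZMod.lift_coe]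
    simp
  have hn' : (n : ℤ) ≠ 0 := by exact_mod_cast hn.ne'
  refine ⟨ZMod.lift 3 ⟨zmultiplesHom (ZMod (3 * n)) ((n : ℕ) : ZMod (3 * n)), h0⟩, ?_, ?_, ?_, ?_⟩
  · rw [injective_iff_map_eq_zero]
    intro t ht
    obtain ⟨k, rfl⟩ := ZMod.intCast_surjective t
    rw [hem, ZMod.intCast_zmod_eq_zero_iff_dvd, Nat.cast_mul] at ht
    rw [ZMod.intCast_zmod_eq_zero_iff_dvd]
    exact (mul_dvd_mul_iff_right hn').1 ht
  · intro t
    obtain ⟨k, rfl⟩ := ZMod.intCast_surjective t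
    rw [hem, map_intCast, ZMod.intCast_zmod_eq_zero_iff_dvd]
    exact dvd_mul_left _ _
  · intro a ha
    obtain ⟨m, rfl⟩ := ZMod.intCast_surjective a
    rw [map_intCast, ZMod.intCast_zmod_eq_zero_iff_dvd] at ha
    obtain ⟨k, rfl⟩ := ha
    exact ⟨(k : ZMod 3), by rw [hem, mul_comm k]⟩
  · intro a ha
    obtain ⟨m, rfl⟩ := ZMod.intCast_surjective a
    have h3 : ((3 * m : ℤ) : ZMod (3 * n)) = 0 := by
      rw [Int.cast_mul]
      exact_mod_cast ha
    rw [ZMod.intCast_zmod_eq_zero_iff_dvd, Nat.cast_mul] at h3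
    rw [map_intCast, ZMod.intCast_zmod_eq_zero_iff_dvd]
    exact (mul_dvd_mul_iff_left (by norm_num)).1 h3

theorem jump_unit {s : ℕ} (hs : s ≠ 0) (u : ZMod (3 * 3 ^ s))
    (hu : ZMod.castHom (Dvd.intro_left 3 rfl : 3 ^ s ∣ 3 * 3 ^ s) (ZMod (3 ^ s)) u = 1) :
    ∃ u' : ZMod (3 * 3 ^ s), u' * u = 1 := by
  have : NeZero (3 * 3 ^ s) := ⟨by positivity⟩
  have h1 : ((u.val : ℕ) : ZMod (3 ^ s)) = ((1 : ℕ) : ZMod (3 ^ s)) := by
    rw [Nat.cast_one, ← hu, ← map_natCast (ZMod.castHom (Dvd.intro_left 3 rfl : 3 ^ s ∣ 3 * 3 ^ s)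
      (ZMod (3 ^ s))), ZMod.natCast_zmod_val]
  rw [ZMod.natCast_eq_natCast_iff] at h1
  have h2 : u.val ≡ 1 [MOD 3] := h1.of_dvd (dvd_pow_self 3 hs)
  have h3 : Nat.Coprime u.val 3 := by
    have : Nat.gcd u.val 3 = Nat.gcd 1 3 := h2.gcd_eq
    exact this.trans (by norm_num)
  have h4 : Nat.Coprime u.val (3 * 3 ^ s) := Nat.Coprime.mul_right h3 (Nat.Coprime.pow_right s h3)
  have h5 : IsUnit ((u.val : ℕ) : ZMod (3 * 3 ^ s)) := (ZMod.isUnit_iff_coprime _ _).2 h4
  rw [ZMod.natCast_zmod_val] at h5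
  exact h5.exists_left_inv

/-- the difference operator on vectors -/
def jumpL (n : ℕ) : (ZMod n → ZMod 3) →ₗ[ZMod 3] (ZMod n → ZMod 3) where
  toFun v := fun k => v (k + 1) - v k
  map_add' := by
    intro v w
    funext k
    simp only [Pi.add_apply]
    ring
  map_smul' := by
    intro a v
    funext k
    simp only [Pi.smul_apply, smul_eq_mul, RingHom.id_apply]
    ring

theorem jumpL_apply {n : ℕ} (v : ZMod n → ZMod 3) (k : ZMod n) :
    jumpL n v k = v (k + 1) - v k := rfl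

theorem jump_const {n : ℕ} [NeZero n] {α : Type*} {v : ZMod n → α} (h : ∀ k, v (k + 1) = v k)
    (k : ZMod n) : v k = v 0 := by
  have h2 : ∀ m : ℕ, v (m : ZMod n) = v 0 := by
    intro m
    induction m with
    | zero => rw [Nat.cast_zero]
    | succ m ih => rw [Nat.cast_succ, h, ih]
  rw [← ZMod.natCast_zmod_val k]
  exact h2 _

/-- values of a continuous homomorphism on the differences -/
theorem jump_val {G : Type*} [Group G] {n m : ℕ} {c : ZMod n → G} {U : Subgroup G}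
    {φ : G → ZMod m} (h : CHom U φ) (hc : ∀ k, c k ∈ U) (k : ZMod n) :
    φ (T c k) = φ (c (k + 1)) - φ (c k) := by
  rw [T, h.mul (inv_mem (hc k)) (hc (k + 1)), h.inv (hc k)]
  ring

theorem jump_map_le {G : Type*} [Group G] {n : ℕ} (c : ZMod n → G) :
    (DD c).map (jumpL n) ≤ DD (T c) := by
  rintro _ ⟨v, ⟨φ, h, hv⟩, rfl⟩
  refine ⟨φ, h.mono (gen_T_le c), fun k => ?_⟩
  rw [jump_val h (fun k => subset_closure ⟨k, rfl⟩), hv, hv]
  rfl

/-- the data of `exists_max_theta` give `dim DD (T c) ≤ dim (image ⊔ ⟨e⟩)` -/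
theorem jump_finrank {r s : ℕ} {c : ZMod (3 ^ r) → F} {θ : F → ZMod (3 ^ s)}
    {η : F → ZMod (3 * 3 ^ s)} (hθ : CHom (cl (gen (T c))) θ) (hθ1 : ∀ k, θ (T c k) = 1)
    (hη : CHom (cl (gen (T c))) η)
    (hηθ : ∀ g ∈ cl (gen (T c)),
        ZMod.castHom (Dvd.intro_left 3 rfl : 3 ^ s ∣ 3 * 3 ^ s) (ZMod (3 ^ s)) (η g) = θ g)
    (hmax : ¬ ∃ χ : F → ZMod (3 * 3 ^ s), CHom (cl (gen (T c))) χ ∧ ∀ k, χ (T c k) = 1)
    {em : ZMod 3 →+ ZMod (3 * 3 ^ s)} (hem : Function.Injective em)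
    (hec : ∀ t, ZMod.castHom (Dvd.intro_left 3 rfl : 3 ^ s ∣ 3 * 3 ^ s) (ZMod (3 ^ s)) (em t) = 0)
    {dv : ZMod (3 * 3 ^ s) → ZMod 3}
    (hdv : ∀ a, ZMod.castHom (Dvd.intro_left 3 rfl : 3 ^ s ∣ 3 * 3 ^ s) (ZMod (3 ^ s)) a = 0 →
      em (dv a) = a) :
    Module.finrank (ZMod 3) (DD (T c)) ≤ Module.finrank (ZMod 3)
      ((DD (T c)).map (jumpL (3 ^ r)) ⊔ Submodule.span (ZMod 3) {fun k => dv (η (T (T c) k))} :
        Submodule (ZMod 3) (ZMod (3 ^ r) → ZMod 3)) := by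
  have : NeZero (3 ^ r) := ⟨by positivity⟩
  have : Fact (Nat.Prime 3) := ⟨by norm_num⟩
  set L := (jumpL (3 ^ r)).domRestrict (DD (T c)) with hL
  have hrange : LinearMap.range L = (DD (T c)).map (jumpL (3 ^ r)) := by
    rw [hL, LinearMap.range_domRestrict]
  have hsum := LinearMap.finrank_range_add_finrank_ker L
  have hTm : ∀ k, T c k ∈ gen (T c) := fun k => subset_closure ⟨k, rfl⟩
  have hker : ∀ v : DD (T c), v ∈ LinearMap.ker L → ∀ k, v.1 k = v.1 0 := by
    intro v hv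
    apply jump_const
    intro k
    have := congrFun (LinearMap.mem_ker.1 hv) k
    exact sub_eq_zero.1 this
  rcases Nat.eq_zero_or_pos s with hs | hs
  · -- the kernel is trivial
    have hk0 : LinearMap.ker L = ⊥ := by
      rw [eq_bot_iff]
      intro v hv
      rw [Submodule.mem_bot]
      by_contra hne
      apply hmax
      have hc := hker v hv
      have ha : v.1 0 ≠ 0 := by
        intro h0
        apply hne
        apply Subtype.ext
        funext k
        rw [hc k, h0]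
        rfl
      obtain ⟨φ, hφ, hφv⟩ := v.2
      have h1 : ZMod.castHom (Dvd.intro_left 3 rfl : 3 ^ s ∣ 3 * 3 ^ s) (ZMod (3 ^ s)) 1 = 0 := by
        subst hs
        exact Subsingleton.elim (α := ZMod 1) _ _
      obtain ⟨χ, hχ, hχ2⟩ := ((hφ.map (AddMonoidHom.mulLeft (dv 1 * (v.1 0)⁻¹))).map
        em).extend_cl
      refine ⟨χ, hχ, fun k => ?_⟩
      rw [hχ2 _ (hTm k)]
      show em (dv 1 * (v.1 0)⁻¹ * φ (T c k)) = 1
      rw [hφv, hc k, mul_assoc, inv_mul_cancel₀ ha, mul_one]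
      exact hdv 1 h1
    rw [hk0, finrank_bot, add_zero, hrange] at hsum
    rw [← hsum]
    exact Submodule.finrank_mono le_sup_left
  · have hk1 : Module.finrank (ZMod 3) (LinearMap.ker L) ≤ 1 := by
      have h1 : Module.finrank (ZMod 3) (LinearMap.ker L) ≤ Module.finrank (ZMod 3) (ZMod 3) := by
        apply LinearMap.finrank_le_finrank_of_injective
          (f := ((LinearMap.proj (0 : ZMod (3 ^ r))).comp (DD (T c)).subtype).comp
            (LinearMap.ker L).subtype)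
        rw [injective_iff_map_eq_zero]
        rintro ⟨v, hv⟩ h0
        apply Subtype.ext
        apply Subtype.ext
        funext k
        exact (hker v hv k).trans h0
      rwa [Module.finrank_self] at h1
    have hnot : (fun k => dv (η (T (T c) k))) ∉ (DD (T c)).map (jumpL (3 ^ r)) := by
      rintro ⟨v, ⟨κ, hκ, hκv⟩, he⟩
      apply hmax
      have hη' := hη.mono (le_cl (gen (T c)))
      have hχ0 := hη'.sub (hκ.map em)
      have hcast : ∀ k, ZMod.castHom (Dvd.intro_left 3 rfl : 3 ^ s ∣ 3 * 3 ^ s) (ZMod (3 ^ s))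
          (η (T (T c) k)) = 0 := by
        intro k
        rw [hηθ _ (cl_mono (gen_T_le _) (le_cl _ (subset_closure ⟨k, rfl⟩))),
          jump_val hθ (fun k => le_cl _ (hTm k)), hθ1, hθ1, sub_self]
      have hstep : ∀ k, η (T c (k + 1)) - em (κ (T c (k + 1))) = η (T c k) - em (κ (T c k)) := by
        intro k
        have h1 : η (T (T c) k) = em (κ (T (T c) k)) := by
          rw [← hdv _ (hcast k), jump_val hκ hTm]
          congr 1
          have := congrFun he k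
          rw [jumpL_apply] at this
          rw [← this, hκv, hκv]
        rw [jump_val hη' hTm, jump_val hκ hTm, map_sub] at h1
        linear_combination h1
      have hconst := jump_const (v := fun k => η (T c k) - em (κ (T c k))) hstep
      obtain ⟨u', hu'⟩ := jump_unit hs.ne' (η (T c 0) - em (κ (T c 0))) (by
        rw [map_sub, hec, hηθ _ (le_cl _ (hTm 0)), hθ1, sub_zero])
      obtain ⟨χ, hχ, hχ2⟩ := (hχ0.map (AddMonoidHom.mulLeft u')).extend_cl
      refine ⟨χ, hχ, fun k => ?_⟩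
      rw [hχ2 _ (hTm k)]
      show u' * (η (T c k) - em (κ (T c k))) = 1
      rw [hconst k, hu']
    have hlt : Module.finrank (ZMod 3) ((DD (T c)).map (jumpL (3 ^ r))) < Module.finrank (ZMod 3)
      ((DD (T c)).map (jumpL (3 ^ r)) ⊔ Submodule.span (ZMod 3) {fun k => dv (η (T (T c) k))} :
        Submodule (ZMod 3) (ZMod (3 ^ r) → ZMod 3)) := by
      apply Submodule.finrank_lt_finrank_of_lt
      refine lt_of_le_of_ne le_sup_left ?_
      intro heq
      apply hnot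
      rw [heq]
      exact Submodule.mem_sup_right (Submodule.mem_span_singleton_self _)
    rw [hrange] at hsum
    omega

/-- `θ` vanishes on the closure of the group of the differences -/
theorem jump_theta_zero {r m : ℕ} {c : ZMod (3 ^ r) → F} {θ : F → ZMod m}
    (hθ : CHom (cl (gen (T c))) θ) (hθ1 : ∀ k, θ (T c k) = 1) :
    ∀ a ∈ cl (gen (T (T c))), θ a = 0 := by
  have hle : cl (gen (T (T c))) ≤ cl (gen (T c)) := cl_mono (gen_T_le _)
  have hz : CHom (cl (gen (T (T c)))) (fun _ : F => (0 : ZMod m)) :=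
    ⟨fun _ _ _ _ => by simp, ⊤, N3.top, fun _ _ _ => rfl⟩
  refine CHom.eq_on_cl (hθ.mono hle) hz ?_
  refine CHom.eq_of_gen ((hθ.mono hle).mono (le_cl _)) (hz.mono (le_cl _)) ?_
  intro k
  rw [jump_val hθ (fun k => le_cl _ (subset_closure ⟨k, rfl⟩)), hθ1, hθ1, sub_self]

/-- `η / 3^s` is a continuous homomorphism on every group where `θ` vanishes -/
theorem jump_eps {n : ℕ} {C K : Subgroup F} {η : F → ZMod (3 * n)} (hη : CHom C η) (hK : K ≤ C)
    (hcast : ∀ a ∈ K, ZMod.castHom (Dvd.intro_left 3 rfl : n ∣ 3 * n) (ZMod n) (η a) = 0)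
    {em : ZMod 3 →+ ZMod (3 * n)} (hem : Function.Injective em)
    {dv : ZMod (3 * n) → ZMod 3}
    (hdv : ∀ a, ZMod.castHom (Dvd.intro_left 3 rfl : n ∣ 3 * n) (ZMod n) a = 0 →
      em (dv a) = a) : CHom K (fun a => dv (η a)) := by
  obtain ⟨h1, N, hN, h2⟩ := id hη
  refine ⟨fun a ha b hb => ?_, N, hN, fun a ha haN => ?_⟩
  · apply hem
    show em (dv (η (a * b))) = em (dv (η a) + dv (η b))
    rw [hdv _ (hcast _ (mul_mem ha hb)), map_add, hdv _ (hcast _ ha), hdv _ (hcast _ hb)]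
    exact h1 a (hK ha) b (hK hb)
  · apply hem
    show em (dv (η a)) = em 0
    rw [hdv _ (hcast _ ha), h2 a (hK ha) haN, map_zero]

end K611
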