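import Pool.Agent.Work.MP_611b97_al.K.Tuples

/-!
# Composition of recursions
-/

set_option autoImplicit false

namespace K611

open Subgroup

/-! MODULE RecComp -/

/-- the identity recursion -/
theorem Rec.exists_one : ∃ R : Rec, Function.Injective R.Ψ := by
  let Ψ : D →* Wr D Unit := (Wr.base (G := D) (Λ := Unit)).comp
    ({ toFun := fun d _ => d, map_one' := rfl, map_mul' := fun _ _ => rfl } : D →* (Unit → D))
  have hlab : ∀ d : D, (Ψ d).lab () = d := fun d => rfl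
  have hperm : ∀ d : D, (Ψ d).perm = 1 := fun d => rfl
  refine ⟨{ Λ := Unit, Ψ := Ψ, pgrp := ?_, deg := ?_ }, ?_⟩
  · rintro ⟨_, d, rfl⟩
    refine ⟨0, ?_⟩
    apply Subtype.ext
    show (Wr.permHom (Ψ d)) ^ 3 ^ 0 = 1
    rw [Wr.permHom_apply, hperm, one_pow]
  · intro M
    refine ⟨M, le_rfl, fun d hd => ?_⟩
    have h := ((Wr.map_eq_one _ _).1 hd).2 ()
    rwa [hlab] at h
  · intro d d' h
    have h1 : Ψ d = Ψ d' := h
    rw [← hlab d, ← hlab d', h1]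

/-- the exponent of the permutation part -/
theorem RecComp.exists_pow (R : Rec) : ∃ b : ℕ, ∀ d : D, (R.Ψ d).perm ^ 3 ^ b = 1 := by
  obtain ⟨b, hb⟩ := IsPGroup.iff_card.1 R.pgrp
  refine ⟨b, fun d => ?_⟩
  have h := pow_card_eq_one' (x := (⟨_, d, rfl⟩ : (Wr.permHom.comp R.Ψ).range))
  rw [hb] at h
  exact congrArg Subtype.val h

/-- composition of recursions -/
theorem Rec.comp_deg (R R' : Rec) :
    IsPGroup 3 (Wr.permHom.comp (Wr.assoc.comp ((Wr.map R'.Ψ).comp R.Ψ))).range ∧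
    ∀ M : Marked, ∃ M' : Marked, orderOf M.z ≤ orderOf M'.z ∧
      ∀ d : D, Wr.map M.rho (Wr.assoc.comp ((Wr.map R'.Ψ).comp R.Ψ) d) = 1 → M'.rho d = 1 := by
  constructor
  · obtain ⟨a, ha⟩ := RecComp.exists_pow R
    obtain ⟨b, hb⟩ := RecComp.exists_pow R'
    rintro ⟨_, d, rfl⟩
    refine ⟨a + b, ?_⟩
    apply Subtype.ext
    show ((Wr.permHom.comp (Wr.assoc.comp ((Wr.map R'.Ψ).comp R.Ψ))) d) ^ 3 ^ (a + b) = 1
    rw [← map_pow, pow_add, pow_mul]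
    have h1 : (R.Ψ (d ^ 3 ^ a)).perm = 1 := by
      rw [map_pow, Wr.pow_perm, ha]
    have h2 : (R.Ψ ((d ^ 3 ^ a) ^ 3 ^ b)).perm = 1 := by
      rw [map_pow, Wr.pow_perm, h1, one_pow]
    have h3 : ∀ l, (R'.Ψ ((R.Ψ ((d ^ 3 ^ a) ^ 3 ^ b)).lab l)).perm = 1 := by
      intro l
      rw [map_pow (R.Ψ), Wr.pow_lab_of_perm h1, map_pow, Wr.pow_perm, hb]
    ext1 ⟨l, l'⟩
    show (Wr.assoc (Wr.map R'.Ψ (R.Ψ ((d ^ 3 ^ a) ^ 3 ^ b)))).perm (l, l') = (l, l')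
    rw [Wr.assoc_perm_apply]
    show ((R.Ψ ((d ^ 3 ^ a) ^ 3 ^ b)).perm l,
      (R'.Ψ ((R.Ψ ((d ^ 3 ^ a) ^ 3 ^ b)).lab ((R.Ψ ((d ^ 3 ^ a) ^ 3 ^ b)).perm l))).perm l') = _
    rw [h3, h2]
    rfl
  · intro M
    obtain ⟨M₁, hM₁, h₁⟩ := R'.deg M
    rcases isEmpty_or_nonempty R'.Λ with he | hne
    · refine ⟨M₁, hM₁, fun d _ => h₁ d ?_⟩
      rw [Wr.map_eq_one]
      exact ⟨Subsingleton.elim _ _, fun l => (he.false l).elim⟩
    · obtain ⟨M₂, hM₂, h₂⟩ := R.deg M₁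
      refine ⟨M₂, hM₁.trans hM₂, fun d hd => h₂ d ?_⟩
      obtain ⟨hp, hl⟩ := (Wr.map_eq_one _ _).1 hd
      have hp' : ∀ l l', ((R.Ψ d).perm l,
          (R'.Ψ ((R.Ψ d).lab ((R.Ψ d).perm l))).perm l') = (l, l') := by
        intro l l'
        exact Equiv.Perm.congr_fun hp (l, l')
      obtain ⟨m⟩ := hne
      have hp1 : (R.Ψ d).perm = 1 := by
        ext l
        exact congrArg Prod.fst (hp' l m)
      rw [Wr.map_eq_one]
      refine ⟨hp1, fun l => h₁ _ ?_⟩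
      rw [Wr.map_eq_one]
      constructor
      · ext l'
        have h := congrArg Prod.snd (hp' l l')
        rw [hp1] at h
        exact h
      · intro l'
        exact hl (l, l')

/-- composition -/
def Rec.comp (R R' : Rec) : Rec where
  Λ := R.Λ × R'.Λ
  Ψ := Wr.assoc.comp ((Wr.map R'.Ψ).comp R.Ψ)
  pgrp := (Rec.comp_deg R R').1
  deg := (Rec.comp_deg R R').2

theorem Rec.comp_apply (R R' : Rec) (d : D) :
    (R.comp R').Ψ d = Wr.assoc (Wr.map R'.Ψ (R.Ψ d)) := rfl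

theorem Rec.ker_le_comp (R R' : Rec) : R.Ψ.ker ≤ (R.comp R').Ψ.ker := by
  intro d hd
  rw [MonoidHom.mem_ker] at hd ⊢
  rw [Rec.comp_apply, hd]
  exact (congrArg Wr.assoc (map_one (Wr.map R'.Ψ))).trans (map_one Wr.assoc)

theorem Rec.exists_perm (R : Rec) {r : ℕ} (c : ZMod (3 ^ r) → D) :
    ∃ n₀, ∀ n, n₀ ≤ n → ∀ k, (R.Ψ (T^[n] c k)).perm = 1 := by
  have hN : N3 (Wr.permHom.comp R.Ψ).ker := N3.ker' _ inferInstance R.pgrp
  obtain ⟨n₀, h⟩ := T_eventually_mem c hN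
  exact ⟨n₀, fun n hn k => (MonoidHom.mem_ker).1 (h n hn k)⟩

/-- the perms of the iterates of a tuple with trivial perms -/
theorem RecComp.perm_iter (R : Rec) {n : ℕ} (c : ZMod n → D) (hc : ∀ k, (R.Ψ (c k)).perm = 1)
    (m : ℕ) : ∀ k, (R.Ψ (T^[m] c k)).perm = 1 := by
  induction m with
  | zero => exact hc
  | succ m ih =>
    intro k
    rw [Function.iterate_succ_apply']
    show (R.Ψ ((T^[m] c k)⁻¹ * T^[m] c (k + 1))).perm = 1
    rw [map_mul, map_inv, Wr.mul_perm, Wr.inv_perm, ih, ih, inv_one, one_mul]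

theorem RecComp.leaf_T (R : Rec) {n : ℕ} (c : ZMod n → D) (hc : ∀ k, (R.Ψ (c k)).perm = 1)
    (l : R.Λ) : R.leaf (T c) l = T (R.leaf c l) := by
  funext k
  show (R.Ψ ((c k)⁻¹ * c (k + 1))).lab l = ((R.Ψ (c k)).lab l)⁻¹ * (R.Ψ (c (k + 1))).lab l
  rw [map_mul, map_inv, Wr.mul_lab, Wr.inv_perm, Wr.inv_lab, hc, inv_one, inv_one,
    Equiv.Perm.one_apply]

theorem Rec.leaf_iter (R : Rec) {n : ℕ} (c : ZMod n → D) (hc : ∀ k, (R.Ψ (c k)).perm = 1)
    (l : R.Λ) (m : ℕ) : R.leaf (T^[m] c) l = T^[m] (R.leaf c l) := by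
  induction m with
  | zero => rfl
  | succ m ih =>
    rw [Function.iterate_succ_apply', Function.iterate_succ_apply',
      RecComp.leaf_T R _ (RecComp.perm_iter R c hc m), ih]

theorem Rec.DD_leaf_le (R : Rec) {n : ℕ} (c : ZMod n → D) (hc : ∀ k, (R.Ψ (c k)).perm = 1)
    (l : R.Λ) : DD (R.leaf c l) ≤ DD c := by
  rintro v ⟨φ, ⟨hφ, N, hN, hφN⟩, hv⟩
  have hker : gen c ≤ (Wr.permHom.comp R.Ψ).ker := by
    rw [gen, closure_le]
    rintro _ ⟨k, rfl⟩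
    exact hc k
  have hperm : ∀ d ∈ gen c, (R.Ψ d).perm = 1 := fun d hd => (MonoidHom.mem_ker).1 (hker hd)
  have hmul : ∀ r ∈ gen c, ∀ s, (R.Ψ (r * s)).lab l = (R.Ψ r).lab l * (R.Ψ s).lab l := by
    intro r hr s
    rw [map_mul]
    exact Wr.mul_lab_of_stab (by rw [hperm r hr, Equiv.Perm.one_apply]) _
  have hmem : ∀ d ∈ gen c, (R.Ψ d).lab l ∈ gen (R.leaf c l) := by
    intro d hd
    induction hd using closure_induction with
    | mem x hx =>
      obtain ⟨k, rfl⟩ := hx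
      exact subset_closure ⟨k, rfl⟩
    | one =>
      rw [map_one]
      exact one_mem _
    | mul x y hx _ ihx ihy =>
      rw [hmul x hx y]
      exact mul_mem ihx ihy
    | inv x hx ihx =>
      rw [map_inv, Wr.inv_lab, hperm x hx, Equiv.Perm.one_apply]
      exact inv_mem ihx
  refine ⟨fun d => φ ((R.Ψ d).lab l), ⟨fun r hr s hs => ?_, ?_⟩, fun k => hv k⟩
  · show φ ((R.Ψ (r * s)).lab l) = _
    rw [hmul r hr s]
    exact hφ _ (hmem r hr) _ (hmem s hs)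
  · letI := hN.1
    haveI := hN.finite
    have hP : IsPGroup 3 ((Wr.map (QuotientGroup.mk' N)).comp R.Ψ).range := by
      refine (Wr.isPGroup_over (G := D ⧸ N) hN.isPGroup R.pgrp).to_le ?_
      rintro _ ⟨d, rfl⟩
      rw [Wr.mem_over]
      exact ⟨d, rfl⟩
    refine ⟨_, N3.ker' ((Wr.map (QuotientGroup.mk' N)).comp R.Ψ) inferInstance hP, ?_⟩
    intro r hr hrN
    refine hφN _ (hmem r hr) ?_
    rw [← QuotientGroup.eq_one_iff]
    exact ((Wr.map_eq_one _ _).1 ((MonoidHom.mem_ker).1 hrN)).2 l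

theorem Rec.low_leaf (R : Rec) {r : ℕ} (c : ZMod (3 ^ r) → D) (m : ℕ)
    (hc : ∀ k, (R.Ψ (T^[m] c k)).perm = 1) (l : R.Λ) {d : ℕ} (h : Low d c) :
    Low d (R.leaf (T^[m] c) l) := by
  intro n₀
  obtain ⟨m', hm', hd⟩ := h (n₀ + m)
  obtain ⟨j, rfl⟩ := Nat.exists_eq_add_of_le' (show m ≤ m' by omega)
  refine ⟨j, by omega, le_trans ?_ hd⟩
  haveI : NeZero (3 ^ r) := ⟨by positivity⟩
  rw [← R.leaf_iter _ hc, ← Function.iterate_add_apply]
  apply Submodule.finrank_mono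
  apply R.DD_leaf_le
  rw [Function.iterate_add_apply]
  exact RecComp.perm_iter R _ hc j

/-- the group generated by the image of a tuple -/
theorem RecComp.gen_map {G H : Type*} [Group G] [Group H] (f : G →* H) {n : ℕ}
    (c : ZMod n → G) : gen (fun k => f (c k)) = (gen c).map f := by
  rw [gen, gen, MonoidHom.map_closure, ← Set.range_comp]
  rfl

theorem Rec.Kills.comp {R : Rec} (R' : Rec) {n : ℕ} {c : ZMod n → D} (h : R.Kills c) :
    (R.comp R').Kills c := by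
  obtain ⟨m, hm⟩ := h
  refine ⟨m, ?_⟩
  have h1 : gen (fun k => (R.comp R').Ψ (T^[m] c k)) =
      (gen (fun k => R.Ψ (T^[m] c k))).map (Wr.assoc.comp (Wr.map R'.Ψ)) :=
    RecComp.gen_map (Wr.assoc.comp (Wr.map R'.Ψ)) (fun k => R.Ψ (T^[m] c k))
  rw [h1]
  exact hm.image _

theorem Rec.kills_comp_of_leaf (R R' : Rec) {r : ℕ} (c : ZMod (3 ^ r) → D) (m : ℕ)
    (hc : ∀ k, (R.Ψ (T^[m] c k)).perm = 1)
    (h : ∀ l : R.Λ, R'.Kills (R.leaf (T^[m] c) l)) : (R.comp R').Kills c := by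
  classical
  haveI := Fintype.ofFinite R.Λ
  choose f hf using h
  refine ⟨(∑ l, f l) + m, ?_⟩
  have hle : ∀ l, f l ≤ ∑ l, f l := fun l =>
    Finset.single_le_sum (f := f) (fun _ _ => Nat.zero_le _) (Finset.mem_univ l)
  have hfin : ∀ l, (gen (fun k => R'.Ψ (T^[∑ l, f l] (R.leaf (T^[m] c) l) k)) :
      Set (Wr D R'.Λ)).Finite := by
    intro l
    refine (hf l).subset ?_
    rw [← T_iter_comp, ← T_iter_comp]
    exact gen_iter_anti _ (hle l)
  have hsub : gen (fun k => (R.comp R').Ψ (T^[(∑ l, f l) + m] c k)) ≤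
      (Subgroup.pi Set.univ (fun l : R.Λ =>
        gen (fun k => R'.Ψ (T^[∑ l, f l] (R.leaf (T^[m] c) l) k)))).map
        (Wr.assoc.comp Wr.base) := by
    rw [gen, closure_le]
    rintro _ ⟨k, rfl⟩
    refine ⟨fun l => R'.Ψ (T^[∑ l, f l] (R.leaf (T^[m] c) l) k), ?_, ?_⟩
    · intro l _
      exact subset_closure ⟨k, rfl⟩
    · show Wr.assoc (Wr.base _) = Wr.assoc (Wr.map R'.Ψ (R.Ψ (T^[(∑ l, f l) + m] c k)))
      congr 1
      rw [Function.iterate_add_apply]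
      apply Wr.ext
      · funext l
        show R'.Ψ (T^[∑ l, f l] (R.leaf (T^[m] c) l) k) =
          R'.Ψ ((R.leaf (T^[∑ l, f l] (T^[m] c)) l) k)
        rw [R.leaf_iter _ hc]
      · exact (RecComp.perm_iter R _ hc _ k).symm
  refine Set.Finite.subset ?_ hsub
  refine Set.Finite.image _ ?_
  have hpi : ((Subgroup.pi Set.univ (fun l : R.Λ =>
      gen (fun k => R'.Ψ (T^[∑ l, f l] (R.leaf (T^[m] c) l) k))) :
      Subgroup (R.Λ → Wr D R'.Λ)) : Set (R.Λ → Wr D R'.Λ)) =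
      Set.pi Set.univ (fun l => (gen (fun k => R'.Ψ (T^[∑ l, f l] (R.leaf (T^[m] c) l) k)) :
        Set (Wr D R'.Λ))) := rfl
  rw [hpi]
  exact Set.Finite.pi' (fun l => hfin l) |>.subset (fun x hx l => hx l (Set.mem_univ l))

theorem Rec.kills_of_eq_one (R : Rec) {n : ℕ} (c : ZMod n → D) (m : ℕ)
    (h : ∀ k, T^[m] c k = 1) : R.Kills c := by
  refine ⟨m, ?_⟩
  have h1 : gen (fun k => R.Ψ (T^[m] c k)) ≤ ⊥ := by
    rw [gen, closure_le]
    rintro _ ⟨k, rfl⟩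
    show R.Ψ (T^[m] c k) ∈ (⊥ : Subgroup (Wr D R.Λ))
    rw [h, map_one]
    exact one_mem _
  exact (Set.finite_singleton (1 : Wr D R.Λ)).subset h1

end K611
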