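import Pool.Agent.Work.MP_611b97_al.K.TypeB
import Pool.Agent.Work.MP_611b97_al.K.RecComp

/-!
# Type B tuples: the leaves have smaller dimension
-/

set_option autoImplicit false

namespace K611

open Subgroup

/-- an element of finite order in the range of a recursion has order a power of 3 -/
private theorem lowB_pow (R : Rec) (d : D) (hfin : IsOfFinOrder (R.Ψ d)) :
    ∃ k : ℕ, R.Ψ d ^ 3 ^ k = 1 := by
  have h1 : Res3 R.Ψ.range := by
    apply Wr.res3_of_le D_res3 R.pgrp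
    rintro _ ⟨d, rfl⟩
    exact ⟨d, rfl⟩
  obtain ⟨m, hm, hm1⟩ := isOfFinOrder_iff_pow_eq_one.1 hfin
  have h2 : IsOfFinOrder (⟨R.Ψ d, d, rfl⟩ : R.Ψ.range) := by
    rw [isOfFinOrder_iff_pow_eq_one]
    refine ⟨m, hm, Subtype.ext ?_⟩
    exact hm1
  obtain ⟨k, hk⟩ := h1.pow_eq_one h2
  exact ⟨k, congrArg Subtype.val hk⟩

/-- The key point: a continuous homomorphism on the closure of `gen b` which comes from the leaf
at `l` vanishes on the elements of the closure which are killed by the recursion. -/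
private theorem lowB_key (R : Rec) {n : ℕ} (b : ZMod n → F)
    (hb : ∀ k, (R.Ψ (iotaF (b k))).perm = 1) (l : R.Λ) (φ : D → ZMod 3)
    (hφ : CHom (gen (R.leaf (fun k => iotaF (b k)) l)) φ) (ψ : F → ZMod 3)
    (hψ : CHom (cl (gen b)) ψ) (he : ∀ k, φ (R.leaf (fun k => iotaF (b k)) l k) = ψ (b k))
    (u : F) (hu : u ∈ cl (gen b)) (hu1 : R.Ψ (iotaF u) = 1) : ψ u = 0 := by
  have hle : gen b ≤ cl (gen b) := le_cl _
  -- labels at `l` of the elements of `gen b`
  have key : ∀ r ∈ gen b, (R.Ψ (iotaF r)).perm = 1 ∧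
      (R.Ψ (iotaF r)).lab l ∈ gen (R.leaf (fun k => iotaF (b k)) l) ∧
      φ ((R.Ψ (iotaF r)).lab l) = ψ r := by
    intro r hr
    induction hr using closure_induction with
    | mem x hx =>
      obtain ⟨k, rfl⟩ := hx
      exact ⟨hb k, subset_closure ⟨k, rfl⟩, he k⟩
    | one =>
      rw [map_one, map_one]
      exact ⟨rfl, one_mem _, by rw [Wr.one_lab, hφ.one, hψ.one]⟩
    | mul x y hx hy ihx ihy =>
      obtain ⟨px, mx, ex⟩ := ihx
      obtain ⟨py, my, ey⟩ := ihy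
      have hl : (R.Ψ (iotaF (x * y))).lab l =
          (R.Ψ (iotaF x)).lab l * (R.Ψ (iotaF y)).lab l := by
        rw [map_mul, map_mul, Wr.mul_lab, px, inv_one, Equiv.Perm.one_apply]
      refine ⟨?_, ?_, ?_⟩
      · rw [map_mul, map_mul, Wr.mul_perm, px, py, one_mul]
      · rw [hl]
        exact mul_mem mx my
      · rw [hl, hφ.mul mx my, ex, ey, hψ.mul (hle hx) (hle hy)]
    | inv x hx ihx =>
      obtain ⟨px, mx, ex⟩ := ihx
      have hl : (R.Ψ (iotaF x⁻¹)).lab l = ((R.Ψ (iotaF x)).lab l)⁻¹ := by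
        rw [map_inv, map_inv, Wr.inv_lab, px, Equiv.Perm.one_apply]
      refine ⟨?_, ?_, ?_⟩
      · rw [map_inv, map_inv, Wr.inv_perm, px, inv_one]
      · rw [hl]
        exact inv_mem mx
      · rw [hl, hφ.inv mx, ex, hψ.inv (hle hx)]
  obtain ⟨N, hN, hφN⟩ := hφ.2
  obtain ⟨M, hM, hψM⟩ := hψ.2
  letI := hN.1
  haveI := hN.finite
  -- the kernel of the reduction modulo `N`
  have hP : IsPGroup 3 ((Wr.map (QuotientGroup.mk' N)).comp R.Ψ).range := by
    refine (Wr.isPGroup_over (G := D ⧸ N) hN.isPGroup R.pgrp).to_le ?_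
    rintro _ ⟨d, rfl⟩
    rw [Wr.mem_over]
    exact ⟨d, rfl⟩
  have hK := (N3.ker' ((Wr.map (QuotientGroup.mk' N)).comp R.Ψ) inferInstance hP).comap iotaF
  obtain ⟨r, hr, hru⟩ := hu _ (hM.inf hK)
  obtain ⟨p1, m1, e1⟩ := key r hr
  -- `r` and `u` have the same value under `ψ`
  have h1 : ψ u = ψ r := by
    have h2 : u = r * (r⁻¹ * u) := by group
    have h3 : r⁻¹ * u ∈ cl (gen b) := mul_mem (inv_mem (hle hr)) hu
    exact (congrArg ψ h2).trans (by rw [hψ.mul (hle hr) h3, hψM _ h3 hru.1, add_zero])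
  -- the label of `r` at `l` is in `N`
  have h4 : (Wr.map (QuotientGroup.mk' N)) (R.Ψ (iotaF r)) = 1 := by
    have h5 : (Wr.map (QuotientGroup.mk' N)) (R.Ψ (iotaF (r⁻¹ * u))) = 1 := hru.2
    rw [map_mul, map_mul, hu1, mul_one, map_inv, map_inv, map_inv, inv_eq_one] at h5
    exact h5
  have h6 : (R.Ψ (iotaF r)).lab l ∈ N := by
    rw [← QuotientGroup.eq_one_iff]
    exact ((Wr.map_eq_one _ _).1 h4).2 l
  rw [h1, ← e1]
  exact hφN _ m1 h6

/-- MODULE LowB. -/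
theorem low_typeB (R : Rec) (hfin : IsOfFinOrder (R.Ψ Da)) {r d : ℕ} (c : ZMod (3 ^ r) → F)
    (hlow : Low (d + 1) (fun k => iotaF (c k)))
    (hB : ∀ n, ∃ (g : F) (k : ℕ), g * Fa ^ 3 ^ k * g⁻¹ ∈ cl (gen (T^[n] c))) (n : ℕ)
    (hn : ∀ k, (R.Ψ (T^[n] (fun k => iotaF (c k)) k)).perm = 1) (l : R.Λ) :
    Low d (R.leaf (T^[n] (fun k => iotaF (c k))) l) := by
  have : NeZero (3 ^ r) := ⟨by positivity⟩
  obtain ⟨k₁, hk₁⟩ := lowB_pow R Da hfin
  obtain ⟨n₁, hmono⟩ := eventually_mono c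
  intro n₀
  obtain ⟨N, hN, g, k, hk, hu, ψ, hψ, hψu⟩ := typeB c hB (max (n + n₀) n₁) k₁
  have hN1 : n + n₀ ≤ N := (le_max_left _ _).trans hN
  have hN2 : n₁ ≤ N := (le_max_right _ _).trans hN
  obtain ⟨m, rfl⟩ : ∃ m, N = m + n := ⟨N - n, by omega⟩
  refine ⟨m, by omega, ?_⟩
  have hiter : ∀ j, T^[j] (fun k => iotaF (c k)) = fun k => iotaF (T^[j] c k) :=
    fun j => T_iter_comp iotaF c j
  have hDD : ∀ j, DD (T^[j] (fun k => iotaF (c k))) = DD (T^[j] c) := by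
    intro j
    rw [hiter j]
    exact DD_iotaF _
  rw [← R.leaf_iter _ hn l m, ← Function.iterate_add_apply]
  have hperm : ∀ k, (R.Ψ (T^[m + n] (fun k => iotaF (c k)) k)).perm = 1 := by
    rw [Function.iterate_add_apply]
    exact RecComp.perm_iter R _ hn m
  -- the dimension of `DD (T^[m + n] c)` is at most `d + 1`
  have hd : Module.finrank (ZMod 3) (DD (T^[m + n] c)) ≤ d + 1 := by
    obtain ⟨M, hM, hMd⟩ := hlow (m + n)
    rw [hDD] at hMd
    exact (hmono _ _ hN2 hM).trans hMd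
  have hle : DD (R.leaf (T^[m + n] (fun k => iotaF (c k))) l) ≤ DD (T^[m + n] c) := by
    rw [← hDD]
    exact R.DD_leaf_le _ hperm l
  have hlt : DD (R.leaf (T^[m + n] (fun k => iotaF (c k))) l) < DD (T^[m + n] c) := by
    refine lt_of_le_of_ne hle ?_
    intro heq
    have hv : (fun k => ψ (T^[m + n] c k)) ∈ DD (T^[m + n] c) :=
      ⟨ψ, hψ.mono (le_cl _), fun k => rfl⟩
    rw [← heq] at hv
    obtain ⟨φ, hφ, hφ2⟩ := hv
    rw [hiter] at hφ hφ2 hperm
    apply hψu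
    refine lowB_key R (T^[m + n] c) hperm l φ hφ ψ hψ hφ2 _ hu ?_
    obtain ⟨j, rfl⟩ := Nat.exists_eq_add_of_le hk
    rw [map_mul, map_mul, map_mul, map_mul, map_pow, map_pow, iotaF_a, pow_add, pow_mul, hk₁,
      one_pow, mul_one, ← map_mul, ← map_mul, mul_inv_cancel, map_one, map_one]
  have hfr := Submodule.finrank_lt_finrank_of_lt hlt
  omega

end K611
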