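import Pool.Agent.Work.MP_611b97_al.K.Defs

set_option autoImplicit false

namespace K611

open Subgroup

universe u v

/-- `g` is the value of a word in the generators of `F` all of whose prefixes have values
in `Q` -/
def Reach (Q : Finset F) (g : F) : Prop :=
  ∃ w : List F, (∀ x ∈ w, x = Fx ∨ x = Fx⁻¹ ∨ x = Fy ∨ x = Fy⁻¹) ∧ w.prod = g ∧
    ∀ t : List F, t <+: w → t.prod ∈ Q

private theorem reach_word (g : F) : ∃ w : List F,
    (∀ x ∈ w, x = Fx ∨ x = Fx⁻¹ ∨ x = Fy ∨ x = Fy⁻¹) ∧ w.prod = g := by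
  have hd : g ∈ closure ({Fx, Fy} : Set F) := by
    rw [F_closure]
    exact mem_top g
  rw [← mem_toSubmonoid, closure_toSubmonoid] at hd
  obtain ⟨w, hw, hwp⟩ := Submonoid.exists_list_of_mem_closure hd
  refine ⟨w, fun y hy => ?_, hwp⟩
  rcases hw y hy with (rfl | rfl) | h
  · exact Or.inl rfl
  · exact Or.inr (Or.inr (Or.inl rfl))
  · rcases Set.mem_inv.1 h with h | h
    · right; left
      rw [← h, inv_inv]
    · right; right; right
      have h' : y⁻¹ = Fy := h
      rw [← h', inv_inv]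

/-- every finite set of elements is contained in the set `Q` of prefix values -/
theorem exists_Reach (A : Finset F) : ∃ Q : Finset F, (1 : F) ∈ Q ∧ A ⊆ Q ∧
    ∀ q ∈ Q, Reach Q q := by
  classical
  choose w hw hwp using reach_word
  refine ⟨insert 1 (A.biUnion fun a => ((w a).inits.map List.prod).toFinset),
    Finset.mem_insert_self _ _, ?_, ?_⟩
  · intro a ha
    apply Finset.mem_insert_of_mem
    rw [Finset.mem_biUnion]
    refine ⟨a, ha, ?_⟩
    rw [List.mem_toFinset, List.mem_map]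
    exact ⟨w a, (List.mem_inits _ _).2 (List.prefix_refl _), hwp a⟩
  · intro q hq
    rcases Finset.mem_insert.1 hq with rfl | hq
    · refine ⟨[], by simp, by simp, ?_⟩
      intro t ht
      rw [List.prefix_nil] at ht
      rw [ht]
      exact Finset.mem_insert_self _ _
    · rw [Finset.mem_biUnion] at hq
      obtain ⟨a, ha, hq⟩ := hq
      rw [List.mem_toFinset, List.mem_map] at hq
      obtain ⟨t, ht, rfl⟩ := hq
      rw [List.mem_inits] at ht
      refine ⟨t, fun x hx => hw a x (ht.subset hx), rfl, fun t' ht' => ?_⟩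
      apply Finset.mem_insert_of_mem
      rw [Finset.mem_biUnion]
      refine ⟨a, ha, ?_⟩
      rw [List.mem_toFinset, List.mem_map]
      exact ⟨t', (List.mem_inits _ _).2 (ht'.trans ht), rfl⟩

/-- reading words through points without labels -/
theorem lab_eq_one_of_reach {Λ : Type v} [MulAction F Λ] {A : Type u} [Group A]
    (ρ : F →* Wr A Λ) (hρ : ∀ g, (ρ g).perm = MulAction.toPerm g) (U : Set Λ)
    (hU : ∀ l ∈ U, (ρ Fx).lab l = 1 ∧ (ρ Fx⁻¹).lab l = 1 ∧ (ρ Fy).lab l = 1 ∧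
      (ρ Fy⁻¹).lab l = 1) {Q : Finset F} {q : F} (hq : Reach Q q) {l : Λ}
    (hl : ∀ t ∈ Q, t⁻¹ • l ∈ U) : (ρ q).lab l = 1 := by
  obtain ⟨w, hw, rfl, hpre⟩ := hq
  have hl' : ∀ t : List F, t <+: w → t.prod⁻¹ • l ∈ U := fun t ht => hl _ (hpre t ht)
  clear hpre hl
  induction w generalizing l with
  | nil => rw [List.prod_nil, map_one, Wr.one_lab]
  | cons x w ih =>
    rw [List.prod_cons, map_mul, Wr.mul_lab, hρ]
    have h0 : (MulAction.toPerm x : Equiv.Perm Λ)⁻¹ l = x⁻¹ • l := rfl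
    rw [h0, ih (fun y hy => hw y (List.mem_cons_of_mem x hy)) (fun t ht => ?_), mul_one]
    · have h1 := hl' [] (List.nil_prefix)
      rw [List.prod_nil, inv_one, one_smul] at h1
      obtain ⟨a1, a2, a3, a4⟩ := hU l h1
      rcases hw x List.mem_cons_self with rfl | rfl | rfl | rfl
      · exact a1
      · exact a2
      · exact a3
      · exact a4
    · have h1 := hl' (x :: t) ((List.prefix_cons_inj x).2 ht)
      rw [List.prod_cons, mul_inv_rev, mul_smul] at h1
      exact h1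

/-- labels of `t⁻¹ h q` vanish when read through the set `U` of visited points -/
theorem lab_visit_eq_one {Λ : Type v} [MulAction F Λ] {A : Type u} [Group A]
    (ρ : F →* Wr A Λ) (hρ : ∀ g, (ρ g).perm = MulAction.toPerm g) {κ : Type} (g : κ → F)
    (Q : Finset F) (h1 : (1 : F) ∈ Q) (hg : ∀ k, g k ∈ Q) (hQ : ∀ q ∈ Q, Reach Q q) (o : Λ)
    (hU : ∀ h ∈ closure (Set.range g), ∀ t ∈ Q, ∀ q ∈ Q,
      (ρ Fx).lab (t⁻¹ • h • q • o) = 1 ∧ (ρ Fx⁻¹).lab (t⁻¹ • h • q • o) = 1 ∧
      (ρ Fy).lab (t⁻¹ • h • q • o) = 1 ∧ (ρ Fy⁻¹).lab (t⁻¹ • h • q • o) = 1)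
    {h : F} (hh : h ∈ closure (Set.range g)) {t q : F} (ht : t ∈ Q) (hq : q ∈ Q) :
    (ρ (t⁻¹ * h * q)).lab (t⁻¹ • h • q • o) = 1 := by
  have key : ∀ p ∈ Q, ∀ e ∈ closure (Set.range g), (ρ p).lab (e • q • o) = 1 := by
    intro p hp e he
    refine lab_eq_one_of_reach ρ hρ {x | ∃ t ∈ Q, x = t⁻¹ • e • q • o} ?_ (hQ p hp)
      (fun t ht => ⟨t, ht, rfl⟩)
    rintro _ ⟨t, ht, rfl⟩
    exact hU e he t ht q hq
  have key2 : ∀ f ∈ closure (Set.range g), ∀ e ∈ closure (Set.range g),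
      (ρ f).lab (e • q • o) = 1 := by
    intro f hf
    induction hf using closure_induction with
    | mem x hx =>
      obtain ⟨k, rfl⟩ := hx
      intro e he
      exact key _ (hg k) e he
    | one =>
      intro e _
      rw [map_one, Wr.one_lab]
    | mul x y hx' _ hx hy =>
      intro e he
      rw [map_mul, Wr.mul_lab, hx e he, one_mul, hρ]
      have h0 : (MulAction.toPerm x : Equiv.Perm Λ)⁻¹ (e • q • o) = (x⁻¹ * e) • q • o := by
        rw [mul_smul]
        rfl
      rw [h0]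
      exact hy _ (mul_mem (inv_mem hx') he)
    | inv x hx' hx =>
      intro e he
      rw [map_inv, Wr.inv_lab, hρ]
      have h0 : (MulAction.toPerm x : Equiv.Perm Λ) (e • q • o) = (x * e) • q • o := by
        rw [mul_smul]
        rfl
      rw [h0, hx _ (mul_mem hx' he), inv_one]
  rw [map_mul, map_mul, Wr.mul_lab, Wr.mul_lab, map_inv, Wr.inv_lab, hρ]
  have e1 : (MulAction.toPerm t : Equiv.Perm Λ) (t⁻¹ • h • q • o) = h • q • o :=
    smul_inv_smul t _
  have e2 : ((ρ t)⁻¹).perm⁻¹ (t⁻¹ • h • q • o) = h • q • o := by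
    rw [Wr.inv_perm, inv_inv, hρ]
    exact e1
  have e3 : ((ρ t)⁻¹ * ρ h).perm⁻¹ (t⁻¹ • h • q • o) = (1 : F) • q • o := by
    rw [Wr.mul_perm, Wr.inv_perm, mul_inv_rev, inv_inv, Equiv.Perm.mul_apply, hρ, hρ, e1]
    show h⁻¹ • h • q • o = _
    rw [inv_smul_smul, one_smul]
  rw [e1, e2, e3, key t ht h hh, key2 h hh h hh, key q hq 1 (one_mem _)]
  simp

end K611
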