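import Pool.Agent.Work.MP_611b97_al.K.LabelHom
import Pool.Agent.Work.MP_611b97_al.K.Cont
import Pool.Agent.Work.MP_611b97_al.K.Expo
import Pool.Agent.Work.MP_611b97_al.K.Reach

set_option autoImplicit false

namespace K611

open Subgroup

/-- the points of the `a`-cycle of the base point -/
private theorem sepTheta_exists_period {S₁ : Subgroup F} (h : ∃ n : ℕ, 0 < n ∧ Fa ^ n ∈ S₁) :
    ∃ L : ℕ, 0 < L ∧ ∀ m : ℤ, Fa ^ m ∈ S₁ ↔ (L : ℤ) ∣ m := by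
  classical
  refine ⟨Nat.find h, (Nat.find_spec h).1, fun m => ⟨fun hm => ?_, ?_⟩⟩
  · have hL0 : (0 : ℤ) < (Nat.find h : ℤ) := by exact_mod_cast (Nat.find_spec h).1
    have h1 : Fa ^ (m % (Nat.find h : ℤ)) ∈ S₁ := by
      have h2 : m % (Nat.find h : ℤ) = m - (Nat.find h : ℤ) * (m / (Nat.find h : ℤ)) := by
        have := Int.emod_add_mul_ediv m (Nat.find h : ℤ)
        linarith
      rw [h2, zpow_sub, zpow_mul, zpow_natCast]
      exact mul_mem hm (inv_mem (zpow_mem (Nat.find_spec h).2 _))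
    obtain ⟨r, hr⟩ := Int.eq_ofNat_of_zero_le (Int.emod_nonneg m hL0.ne')
    have hrlt : r < Nat.find h := by
      have := Int.emod_lt_of_pos m hL0
      rw [hr] at this
      exact_mod_cast this
    rw [hr, zpow_natCast] at h1
    have hr0 : r = 0 := by
      by_contra hr0
      exact Nat.find_min h hrlt ⟨Nat.pos_of_ne_zero hr0, h1⟩
    rw [hr0] at hr
    exact Int.dvd_of_emod_eq_zero hr
  · rintro ⟨k, rfl⟩
    rw [zpow_mul, zpow_natCast]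
    exact zpow_mem (Nat.find_spec h).2 _

/-- exactly one of `L` consecutive numbers is divisible by `L` -/
private theorem sepTheta_count {L : ℕ} (hL : 0 < L) (j : ℕ) :
    ∑ i ∈ Finset.range L, (if (L : ℤ) ∣ ((j + i + 1 : ℕ) : ℤ) then (1 : ZMod 9) else 0) = 1 := by
  set i₀ := L - 1 - j % L with hi₀
  have hlt : j % L < L := Nat.mod_lt _ hL
  have hi₀lt : i₀ < L := by omega
  have hdiv : (L : ℤ) ∣ ((j + i₀ + 1 : ℕ) : ℤ) := by
    rw [Int.natCast_dvd_natCast]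
    have h1 : j + i₀ + 1 = L * (j / L) + L := by
      have := Nat.mod_add_div j L
      omega
    rw [h1]
    exact ⟨j / L + 1, by ring⟩
  rw [Finset.sum_eq_single i₀]
  · rw [if_pos hdiv]
  · intro i hi hne
    rw [if_neg]
    intro h
    apply hne
    have h1 := dvd_sub h hdiv
    have h2 : ((j + i + 1 : ℕ) : ℤ) - ((j + i₀ + 1 : ℕ) : ℤ) = (i : ℤ) - (i₀ : ℤ) := by
      push_cast
      ring
    rw [h2] at h1
    have h3 : i < L := Finset.mem_range.1 hi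
    have h4 : |(i : ℤ) - (i₀ : ℤ)| < L := by
      rw [abs_lt]
      constructor <;> omega
    have h5 := Int.eq_zero_of_abs_lt_dvd h1 h4
    omega
  · intro h
    exact absurd (Finset.mem_range.2 hi₀lt) h

/-- MODULE SepTheta. -/
theorem sep_Theta {ι κ : Type} [Finite ι] (g : ι → κ → F)
    (hA : ∀ i (u : F) (k : ℕ), u * Fa ^ 3 ^ k * u⁻¹ ∉ cl (closure (Set.range (g i))))
    (Q : Finset F) (h1 : (1 : F) ∈ Q) (hgQ : ∀ i k, g i k ∈ Q) (hQ : ∀ q ∈ Q, Reach Q q) :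
    ∃ (S : Subgroup F) (L : ℕ), (∃ N, N3 N ∧ N ≤ S) ∧ 0 < L ∧
      (∀ m : ℤ, Fa ^ m ∈ S ↔ ((9 * L : ℕ) : ℤ) ∣ m) ∧
      (∀ m : ℤ, Fa ^ (-((L : ℤ) * m)) * Fy * Fa ^ ((L : ℤ) * m) ∈ S) ∧
      ∀ i, ∀ h ∈ closure (Set.range (g i)), ∀ t ∈ Q, ∀ q ∈ Q, ∀ m n : ℤ,
        Fa ^ (-((L : ℤ) * m)) * (t⁻¹ * h * q) * Fa ^ ((L : ℤ) * n) ∈ S → (9 : ℤ) ∣ m - n := by
  classical
  obtain ⟨j, V, hj, hV, hyV, hcyc, hvis⟩ :=
    exists_exponent (fun i => closure (Set.range (g i))) hA Q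
  have := hV.1
  -- the group `⟨y⟩ V`
  set S₁ : Subgroup F := zpowers Fy ⊔ V with hS₁
  have hmemS₁ : ∀ s : F, s ∈ S₁ ↔ ∃ e : ℤ, (Fy ^ e)⁻¹ * s ∈ V := by
    intro s
    rw [hS₁, Subgroup.mem_sup_of_normal_right]
    constructor
    · rintro ⟨y, ⟨e, rfl⟩, z, hz, rfl⟩
      exact ⟨e, by simpa using hz⟩
    · rintro ⟨e, he⟩
      exact ⟨Fy ^ e, ⟨e, rfl⟩, _, he, by group⟩
  have hyS₁ : Fy ∈ S₁ := (le_sup_left : zpowers Fy ≤ S₁) (mem_zpowers Fy)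
  have hVS₁ : V ≤ S₁ := le_sup_right
  have hopen : ∃ N, N3 N ∧ N ≤ S₁ := ⟨V, hV, hVS₁⟩
  have hfin : Finite (F ⧸ S₁) := finite_quot hopen
  set o : F ⧸ S₁ := ((1 : F) : F ⧸ S₁) with ho
  have hcoe : ∀ u : F, u • o = (u : F ⧸ S₁) := by
    intro u
    show ((u * 1 : F) : F ⧸ S₁) = _
    rw [mul_one]
  have heq : ∀ u v : F, (u • o = v • o) ↔ u⁻¹ * v ∈ S₁ := by
    intro u v
    rw [hcoe, hcoe, QuotientGroup.eq]
  set w : F ⧸ S₁ := (Fa ^ j) • o with hw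
  -- the labels
  set gy : F ⧸ S₁ → ZMod 9 := fun l =>
    (if l = w then 1 else 0) - (if l = Fy • w then 1 else 0) with hgy
  have hy3 : Fy * Fy * Fy = 1 := by
    have := Fy_pow
    rwa [pow_succ, pow_two] at this
  have hyinv : ∀ l : F ⧸ S₁, Fy⁻¹ • l = Fy • Fy • l := by
    intro l
    rw [inv_smul_eq_iff, ← mul_smul, ← mul_smul, hy3, one_smul]
  obtain ⟨ρ, hρ, hρx, hρy⟩ := exists_label_hom (isPGroup_toPermHom hopen)
    (A := Multiplicative (ZMod 9)) (Res3.of_finite (IsPGroup.of_card (n := 2) (by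
      rw [Nat.card_eq_fintype_card, Fintype.card_multiplicative, ZMod.card]; norm_num)))
    (fun _ => 1) (fun l => Multiplicative.ofAdd (gy l)) (fun l => by simp) (fun l => by
      rw [← ofAdd_add, ← ofAdd_add, ← ofAdd_zero]
      congr 1
      have e1 : ∀ l m : F ⧸ S₁, (Fy⁻¹ • l = m) ↔ (l = Fy • m) := fun l m => inv_smul_eq_iff
      have e2 : (l = Fy • Fy • Fy • w) ↔ (l = w) := by
        rw [← mul_smul, ← mul_smul, hy3, one_smul]
      simp only [hgy, e1, e2]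
      ring)
  -- membership conditions
  have hwo : ∀ (i : ι) (h : F), h ∈ closure (Set.range (g i)) → ∀ t ∈ Q, ∀ q ∈ Q, ∀ f : ℤ,
      t⁻¹ • h • q • o ≠ (Fy ^ f) • w := by
    intro i h hh t ht q hq f hcon
    rw [hw, ← mul_smul, ← mul_smul, ← mul_smul, heq, hmemS₁] at hcon
    obtain ⟨e, he⟩ := hcon
    have h2 := this.conj_mem _ he (Fy ^ e)
    refine hvis i h hh t ht q hq (-e) f ?_
    have h3 : Fy ^ e * ((Fy ^ e)⁻¹ * ((t⁻¹ * h * q)⁻¹ * (Fy ^ f * Fa ^ j))) * (Fy ^ e)⁻¹ =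
        (t⁻¹ * h * q)⁻¹ * (Fy ^ f * Fa ^ j * Fy ^ (-e)) := by
      rw [zpow_neg]
      group
    rwa [h3] at h2
  have hacyc : ∀ i : ℤ, Fa ^ i • o ≠ Fy⁻¹ • w := by
    intro i hcon
    rw [hw, ← mul_smul, heq, hmemS₁] at hcon
    obtain ⟨e, he⟩ := hcon
    refine hcyc i e ?_
    have h3 : (Fy ^ e)⁻¹ * ((Fa ^ i)⁻¹ * (Fy⁻¹ * Fa ^ j)) =
        (Fa ^ i * Fy ^ e)⁻¹ * (Fy⁻¹ * Fa ^ j) := by
      rw [mul_inv_rev, mul_assoc]
    rwa [h3] at he
  have hyo : Fy⁻¹ • o = o := by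
    have h2 := (heq Fy⁻¹ 1).2 (by simpa using hyS₁)
    rwa [one_smul] at h2
  have how : o ≠ w := by
    intro hcon
    refine hacyc 0 ?_
    rw [zpow_zero, one_smul, ← hcon, hyo]
  have how' : o ≠ Fy • w := by
    intro hcon
    apply how
    rw [← inv_smul_eq_iff, hyo] at hcon
    exact hcon
  -- the labels of products and inverses
  have hlabinv : ∀ (u : F) (l : F ⧸ S₁), (ρ u⁻¹).lab l = ((ρ u).lab (u • l))⁻¹ := by
    intro u l
    rw [map_inv, Wr.inv_lab, hρ]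
    rfl
  have hlabmul : ∀ (u v : F) (l : F ⧸ S₁),
      (ρ (u * v)).lab l = (ρ u).lab l * (ρ v).lab (u⁻¹ • l) := by
    intro u v l
    rw [map_mul, Wr.mul_lab, hρ]
    rfl
  have hvisit : ∀ i, ∀ h ∈ closure (Set.range (g i)), ∀ t ∈ Q, ∀ q ∈ Q,
      (ρ Fx).lab (t⁻¹ • h • q • o) = 1 ∧ (ρ Fx⁻¹).lab (t⁻¹ • h • q • o) = 1 ∧
      (ρ Fy).lab (t⁻¹ • h • q • o) = 1 ∧ (ρ Fy⁻¹).lab (t⁻¹ • h • q • o) = 1 := by
    intro i h hh t ht q hq
    have n0 := hwo i h hh t ht q hq 0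
    have n1 := hwo i h hh t ht q hq 1
    have n2 := hwo i h hh t ht q hq (-1)
    rw [zpow_zero, one_smul] at n0
    rw [zpow_one] at n1
    rw [zpow_neg_one] at n2
    set p : F ⧸ S₁ := t⁻¹ • h • q • o with hp
    refine ⟨hρx _, by rw [hlabinv, hρx, inv_one], ?_, ?_⟩
    · rw [hρy, hgy]
      dsimp only
      rw [if_neg n0, if_neg n1, sub_zero, ofAdd_zero]
    · rw [hlabinv, hρy, hgy]
      dsimp only
      rw [if_neg, if_neg, sub_zero, ofAdd_zero, inv_one]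
      · intro hcon
        exact n0 (smul_left_cancel _ hcon)
      · intro hcon
        exact n2 (by rw [← hcon, inv_smul_smul])
  have hχy : (ρ Fy).lab o = 1 := by
    rw [hρy, hgy]
    dsimp only
    rw [if_neg how, if_neg how', sub_zero, ofAdd_zero]
  -- the cycle
  obtain ⟨kV, hkV⟩ := hV.exists_pow_mem
  obtain ⟨L, hL, hLS₁⟩ := sepTheta_exists_period (S₁ := S₁)
    ⟨3 ^ kV, by positivity, hVS₁ (hkV Fa)⟩
  have hpow : ∀ n : ℕ, (ρ (Fa ^ n)).lab o =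
      Multiplicative.ofAdd (∑ i ∈ Finset.range n, gy (Fy • (Fa ^ (i + 1))⁻¹ • o)) := by
    intro n
    induction n with
    | zero => rw [pow_zero, map_one, Wr.one_lab, Finset.range_zero, Finset.sum_empty, ofAdd_zero]
    | succ n ih =>
      rw [pow_succ, hlabmul, ih, Finset.sum_range_succ, ofAdd_add]
      congr 1
      rw [Fa, hlabmul, hρx, one_mul, hρy, ← Fa]
      congr 2
      rw [← mul_smul, ← mul_smul]
      congr 1
      rw [pow_succ, mul_inv_rev]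
      simp only [Fa]
      group
  have hval : ∀ i : ℕ, gy (Fy • (Fa ^ (i + 1))⁻¹ • o) =
      -(if (L : ℤ) ∣ ((j + i + 1 : ℕ) : ℤ) then (1 : ZMod 9) else 0) := by
    intro i
    rw [hgy]
    dsimp only
    rw [if_neg, zero_sub]
    · congr 1
      refine if_congr ?_ rfl rfl
      rw [← hLS₁, smul_left_cancel_iff, hw, heq, inv_inv, ← pow_add, zpow_natCast]
      rw [show i + 1 + j = j + i + 1 by ring]
    · intro hcon
      refine hacyc (-((i + 1 : ℕ) : ℤ)) ?_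
      rw [zpow_neg, zpow_natCast, ← hcon, inv_smul_smul]
  have hχL : (ρ (Fa ^ L)).lab o = Multiplicative.ofAdd (-1) := by
    rw [hpow, Finset.sum_congr rfl fun i _ => hval i, Finset.sum_neg_distrib, sepTheta_count hL]
  -- the character
  let χ : S₁ →* Multiplicative (ZMod 9) :=
    { toFun := fun s => (ρ (s : F)).lab o
      map_one' := by
        show (ρ ((1 : S₁) : F)).lab o = 1
        rw [OneMemClass.coe_one, map_one, Wr.one_lab]
      map_mul' := fun s t => by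
        show (ρ ((s * t : S₁) : F)).lab o = _
        rw [Subgroup.coe_mul]
        exact lab_base_mul ρ hρ s.2 }
  have hχ : ∀ s : S₁, χ s = (ρ (s : F)).lab o := fun _ => rfl
  let S : Subgroup F := χ.ker.map S₁.subtype
  have hmemS : ∀ s : F, s ∈ S ↔ ∃ h : s ∈ S₁, χ ⟨s, h⟩ = 1 := by
    intro s
    constructor
    · rintro ⟨s, hs, rfl⟩
      exact ⟨s.2, hs⟩
    · rintro ⟨h, hs⟩
      exact ⟨⟨s, h⟩, hs, rfl⟩
  have hLmem : ∀ k : ℤ, Fa ^ ((L : ℤ) * k) ∈ S₁ := fun k => (hLS₁ _).2 (dvd_mul_right _ _)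
  have hχk : ∀ k : ℤ, χ ⟨Fa ^ ((L : ℤ) * k), hLmem k⟩ = Multiplicative.ofAdd (-(k : ZMod 9)) := by
    intro k
    have h2 : (⟨Fa ^ ((L : ℤ) * k), hLmem k⟩ : S₁) =
        (⟨Fa ^ L, by simpa using hLmem 1⟩ : S₁) ^ k := by
      apply Subtype.ext
      rw [Subgroup.coe_zpow]
      show Fa ^ ((L : ℤ) * k) = (Fa ^ L) ^ k
      rw [zpow_mul, zpow_natCast]
    rw [h2, map_zpow, hχ, hχL, ← ofAdd_zsmul]
    congr 1
    rw [smul_neg, zsmul_eq_mul, mul_one]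
  refine ⟨S, L, ⟨ρ.ker, N3_ker_label (isPGroup_toPermHom hopen) (IsPGroup.of_card (n := 2) (by
      rw [Nat.card_eq_fintype_card, Fintype.card_multiplicative, ZMod.card]; norm_num)) ρ hρ,
      fun s hs => ?_⟩, hL, fun m => ?_, fun m => ?_, fun i h hh t ht q hq m n hmem => ?_⟩
  · rw [MonoidHom.mem_ker] at hs
    have h2 : s • o = o := by
      have h3 := hρ s
      rw [hs, Wr.one_perm] at h3
      exact (DFunLike.congr_fun h3 o).symm
    have h3 : s ∈ S₁ := by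
      have h4 := (heq 1 s).1 (by rw [one_smul, h2])
      simpa using h4
    rw [hmemS]
    exact ⟨h3, by rw [hχ, hs, Wr.one_lab]⟩
  · rw [hmemS]
    constructor
    · rintro ⟨h2, h3⟩
      obtain ⟨k, rfl⟩ := (hLS₁ m).1 h2
      rw [hχk, ofAdd_eq_one, neg_eq_zero, ZMod.intCast_zmod_eq_zero_iff_dvd] at h3
      obtain ⟨r, hr⟩ := h3
      refine ⟨r, ?_⟩
      rw [hr]
      push_cast
      ring
    · rintro ⟨r, rfl⟩
      have h2 : ((9 * L : ℕ) : ℤ) * r = (L : ℤ) * (9 * r) := by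
        push_cast
        ring
      rw [h2]
      refine ⟨hLmem _, ?_⟩
      rw [hχk, ofAdd_eq_one, neg_eq_zero, ZMod.intCast_zmod_eq_zero_iff_dvd]
      exact ⟨r, rfl⟩
  · rw [hmemS]
    have h2 : Fa ^ (-((L : ℤ) * m)) * Fy * Fa ^ ((L : ℤ) * m) =
        (((⟨Fa ^ ((L : ℤ) * m), hLmem m⟩ : S₁)⁻¹ * ⟨Fy, hyS₁⟩ * ⟨Fa ^ ((L : ℤ) * m), hLmem m⟩ : S₁) : F)
        := by
      rw [Subgroup.coe_mul, Subgroup.coe_mul, Subgroup.coe_inv, zpow_neg]
    refine ⟨?_, ?_⟩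
    · rw [h2]
      exact Subtype.property _
    · have h3 : (⟨Fa ^ (-((L : ℤ) * m)) * Fy * Fa ^ ((L : ℤ) * m), by
          rw [h2]; exact Subtype.property _⟩ : S₁) =
          (⟨Fa ^ ((L : ℤ) * m), hLmem m⟩ : S₁)⁻¹ * ⟨Fy, hyS₁⟩ * ⟨Fa ^ ((L : ℤ) * m), hLmem m⟩ :=
        Subtype.ext h2
      rw [h3, map_mul, map_mul, map_inv, hχ ⟨Fy, hyS₁⟩, hχy, mul_one, inv_mul_cancel]
  · obtain ⟨h2, h3⟩ := (hmemS _).1 hmem
    have h4 : t⁻¹ * h * q ∈ S₁ := by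
      have h5 := mul_mem (mul_mem (hLmem m) h2) (inv_mem (hLmem n))
      have h6 : Fa ^ ((L : ℤ) * m) * (Fa ^ (-((L : ℤ) * m)) * (t⁻¹ * h * q) * Fa ^ ((L : ℤ) * n)) *
          (Fa ^ ((L : ℤ) * n))⁻¹ = t⁻¹ * h * q := by
        rw [zpow_neg]
        group
      rwa [h6] at h5
    have h7 : (⟨Fa ^ (-((L : ℤ) * m)) * (t⁻¹ * h * q) * Fa ^ ((L : ℤ) * n), h2⟩ : S₁) =
        (⟨Fa ^ ((L : ℤ) * m), hLmem m⟩ : S₁)⁻¹ * ⟨t⁻¹ * h * q, h4⟩ *
          ⟨Fa ^ ((L : ℤ) * n), hLmem n⟩ := by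
      apply Subtype.ext
      show Fa ^ (-((L : ℤ) * m)) * (t⁻¹ * h * q) * Fa ^ ((L : ℤ) * n) =
        (Fa ^ ((L : ℤ) * m))⁻¹ * (t⁻¹ * h * q) * Fa ^ ((L : ℤ) * n)
      rw [zpow_neg]
    have h8 : χ ⟨t⁻¹ * h * q, h4⟩ = 1 := by
      rw [hχ]
      have h9 : o = t⁻¹ • h • q • o := by
        rw [← mul_smul, ← mul_smul]
        have h10 := (heq 1 (t⁻¹ * h * q)).2 (by simpa using h4)
        rwa [one_smul] at h10
      show (ρ (t⁻¹ * h * q)).lab o = 1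
      rw [h9]
      exact lab_visit_eq_one ρ hρ (g i) Q h1 (hgQ i) hQ o (hvisit i) hh ht hq
    rw [h7, map_mul, map_mul, map_inv, h8, mul_one, hχk, hχk, ← ofAdd_neg, ← ofAdd_add,
      ofAdd_eq_one, neg_neg, ← sub_eq_add_neg] at h3
    have h9 : (((m - n : ℤ)) : ZMod 9) = 0 := by
      rw [Int.cast_sub, h3]
    exact (ZMod.intCast_zmod_eq_zero_iff_dvd _ _).1 h9

end K611
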