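import Pool.Agent.Work.MP_611b97_al.K.ThetaScheme
import Pool.Agent.Work.MP_611b97_al.K.SepTheta
import Pool.Agent.Work.MP_611b97_al.K.RecComp

set_option autoImplicit false

namespace K611

open Subgroup

/-- labels of a word read through a set of points with labels in `P` -/
private theorem thetaRec_reach {Λ A : Type} [MulAction F Λ] [Group A]
    (ρ : F →* Wr A Λ) (hρ : ∀ g, (ρ g).perm = MulAction.toPerm g) (P : Subgroup A) (U : Set Λ)
    (hU : ∀ l ∈ U, (ρ Fx).lab l ∈ P ∧ (ρ Fx⁻¹).lab l ∈ P ∧ (ρ Fy).lab l ∈ P ∧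
      (ρ Fy⁻¹).lab l ∈ P) (w : List F)
    (hw : ∀ x ∈ w, x = Fx ∨ x = Fx⁻¹ ∨ x = Fy ∨ x = Fy⁻¹) :
    ∀ l : Λ, (∀ t : List F, t <+: w → (t.prod)⁻¹ • l ∈ U) → (ρ w.prod).lab l ∈ P := by
  induction w with
  | nil =>
    intro l _
    rw [List.prod_nil, map_one, Wr.one_lab]
    exact one_mem _
  | cons x w ih =>
    intro l hl
    rw [List.prod_cons, map_mul, Wr.mul_lab, hρ]
    have h0 : (MulAction.toPerm x : Equiv.Perm Λ)⁻¹ l = x⁻¹ • l := rfl
    rw [h0]
    refine mul_mem ?_ (ih (fun y hy => hw y (List.mem_cons_of_mem x hy)) _ ?_)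
    · have h1 := hl [] (List.nil_prefix)
      rw [List.prod_nil, inv_one, one_smul] at h1
      obtain ⟨a1, a2, a3, a4⟩ := hU l h1
      rcases hw x List.mem_cons_self with rfl | rfl | rfl | rfl
      · exact a1
      · exact a2
      · exact a3
      · exact a4
    · intro t ht
      have h1 := hl (x :: t) ((List.prefix_cons_inj x).2 ht)
      rw [List.prod_cons, mul_inv_rev, mul_smul] at h1
      exact h1

/-- labels of the elements of a subgroup along an orbit -/
private theorem thetaRec_gen {Λ A : Type} [MulAction F Λ] [Group A]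
    (ρ : F →* Wr A Λ) (hρ : ∀ g, (ρ g).perm = MulAction.toPerm g) (P : Subgroup A) {κ : Type}
    (c : κ → F) (l : Λ)
    (h : ∀ u ∈ closure (Set.range c), ∀ k, (ρ (c k)).lab (u • l) ∈ P) {e : F}
    (he : e ∈ closure (Set.range c)) :
    ∀ u ∈ closure (Set.range c), (ρ e).lab (u • l) ∈ P := by
  induction he using closure_induction with
  | mem x hx =>
    obtain ⟨k, rfl⟩ := hx
    exact fun u hu => h u hu k
  | one =>
    intro u _
    rw [map_one, Wr.one_lab]
    exact one_mem _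
  | mul x y hxm _ hx hy =>
    intro u hu
    rw [map_mul, Wr.mul_lab, hρ]
    have h0 : (MulAction.toPerm x : Equiv.Perm Λ)⁻¹ (u • l) = (x⁻¹ * u) • l := by
      rw [mul_smul]
      rfl
    rw [h0]
    exact mul_mem (hx u hu) (hy _ (mul_mem (inv_mem hxm) hu))
  | inv x hxm hx =>
    intro u hu
    rw [map_inv, Wr.inv_lab, hρ]
    have h0 : (MulAction.toPerm x : Equiv.Perm Λ) (u • l) = (x * u) • l := by
      rw [mul_smul]
      rfl
    rw [h0]
    exact inv_mem (hx _ (mul_mem hxm hu))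

/-- the elements whose labels lie in a finite set -/
private theorem thetaRec_finite {Λ A : Type} [Finite Λ] [Group A] {s : Set A} (hs : s.Finite) :
    {a : Wr A Λ | ∀ l, a.lab l ∈ s}.Finite := by
  have h1 : {f : Λ → A | ∀ l, f l ∈ s}.Finite := by
    have h2 := Set.Finite.pi (t := fun _ : Λ => s) (fun _ => hs)
    refine h2.subset ?_
    intro f hf
    rw [Set.mem_univ_pi]
    exact hf
  have h3 : Set.InjOn (fun a : Wr A Λ => (a.lab, a.perm)) {a : Wr A Λ | ∀ l, a.lab l ∈ s} := by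
    intro a _ b _ hab
    exact Wr.ext (congrArg Prod.fst hab) (congrArg Prod.snd hab)
  refine Set.Finite.of_finite_image ((h1.prod (Set.finite_univ (α := Equiv.Perm Λ))).subset ?_) h3
  rintro _ ⟨a, ha, rfl⟩
  exact ⟨ha, Set.mem_univ _⟩

/-- MODULE ThetaRec. -/
theorem exists_Theta {r : ℕ} (S : Finset (ZMod (3 ^ r) → F))
    (hS : ∀ c ∈ S, ∃ n, ∀ (g : F) (k : ℕ), g * Fa ^ 3 ^ k * g⁻¹ ∉ cl (gen (T^[n] c))) :
    ∃ R : Rec, (∀ c : ZMod (3 ^ r) → D, (∀ k, c k ∈ Fminus) → R.Kills c) ∧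
      IsOfFinOrder (R.Ψ Da) ∧ ∀ c ∈ S, R.Kills (fun k => iotaF (c k)) := by
  classical
  haveI : NeZero (3 ^ r) := ⟨by positivity⟩
  choose! nn hnn using hS
  obtain ⟨Q, h1, hAQ, hQ⟩ := exists_Reach
    (S.biUnion fun c => (Finset.univ : Finset (ZMod (3 ^ r))).image fun k => T^[nn c] c k)
  have hgQ : ∀ c ∈ S, ∀ k, T^[nn c] c k ∈ Q := by
    intro c hc k
    apply hAQ
    rw [Finset.mem_biUnion]
    exact ⟨c, hc, Finset.mem_image.2 ⟨k, Finset.mem_univ k, rfl⟩⟩
  obtain ⟨U, L, hU, hL, hper, hfix, hsep⟩ := sep_Theta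
    (fun (c : S) k => T^[nn c.1] c.1 k) (fun c u k => hnn c.1 c.2 u k) Q h1
    (fun c k => hgQ c.1 c.2 k) hQ
  obtain ⟨Ψ, hp, hx0, hx1, ⟨h, h3, h2, hmark⟩, hdeg⟩ := exists_Theta_rec U hU L hL hper hfix
  obtain ⟨N, hN, hNU⟩ := id hU
  haveI : Finite (F ⧸ U) := finite_quot hU
  have hpg : IsPGroup 3 (Wr.permHom.comp Ψ).range := by
    obtain ⟨k, hk⟩ := hN.exists_pow_mem
    rintro ⟨_, d, rfl⟩
    refine ⟨k, Subtype.ext ?_⟩
    show ((Wr.permHom.comp Ψ) d) ^ 3 ^ k = 1
    rw [← map_pow]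
    show (Ψ (d ^ 3 ^ k)).perm = 1
    rw [hp, map_pow]
    ext l
    exact lhom_smul_eq_of_mem hN hNU (hk (piF d)) l
  let R : Rec := ⟨F ⧸ U, Ψ, hpg, hdeg⟩
  -- the elements of `F-` have trivial labels
  have hminus : ∀ d ∈ Fminus, ∀ l, (Ψ d).lab l = 1 := by
    intro d hd
    unfold Fminus at hd
    induction hd using closure_induction with
    | mem x hx =>
      rcases hx with rfl | rfl
      · exact hx0
      · exact hx1
    | one =>
      intro l
      rw [map_one, Wr.one_lab]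
    | mul x y _ _ hx hy =>
      intro l
      rw [map_mul, Wr.mul_lab, hx, hy, mul_one]
    | inv x _ hx =>
      intro l
      rw [map_inv, Wr.inv_lab, hx, inv_one]
  have hfin1 : {a : Wr D (F ⧸ U) | ∀ l, a.lab l ∈ ({1} : Set D)}.Finite :=
    thetaRec_finite (Set.finite_singleton 1)
  refine ⟨R, ?_, ?_, ?_⟩
  · -- `F-` is killed
    intro c hc
    refine ⟨0, hfin1.subset ?_⟩
    intro a ha l
    have h4 : gen (fun k => R.Ψ (T^[0] c k)) ≤ Fminus.map Ψ := by
      unfold gen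
      rw [closure_le]
      rintro _ ⟨k, rfl⟩
      exact ⟨c k, hc k, rfl⟩
    obtain ⟨d, hd, rfl⟩ := h4 ha
    exact hminus d hd l
  · -- `Da` has finite order
    have h4 : ∀ n : ℕ, (Ψ Da) ^ n ∈ {a : Wr D (F ⧸ U) | ∀ l, a.lab l ∈ ({1} : Set D)} := by
      intro n l
      rw [← map_pow]
      exact hminus _ (pow_mem Da_mem_minus n) l
    have h5 : (Set.range fun n : ℕ => (Ψ Da) ^ n).Finite := by
      refine hfin1.subset ?_
      rintro _ ⟨n, rfl⟩
      exact h4 n
    rw [isOfFinOrder_iff_pow_eq_one]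
    have h6 : ¬ Function.Injective fun n : ℕ => (Ψ Da) ^ n := by
      intro h6
      exact Set.infinite_range_of_injective h6 h5
    rw [Function.Injective] at h6
    push Not at h6
    obtain ⟨a, b, hab, hne⟩ := h6
    rcases lt_or_gt_of_ne hne with h7 | h7
    · refine ⟨b - a, by omega, ?_⟩
      have h8 : (Ψ Da) ^ a * (Ψ Da) ^ (b - a) = (Ψ Da) ^ a * 1 := by
        rw [← pow_add, Nat.add_sub_cancel' h7.le, mul_one]
        exact hab.symm
      exact mul_left_cancel h8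
    · refine ⟨a - b, by omega, ?_⟩
      have h8 : (Ψ Da) ^ b * (Ψ Da) ^ (a - b) = (Ψ Da) ^ b * 1 := by
        rw [← pow_add, Nat.add_sub_cancel' h7.le, mul_one]
        exact hab
      exact mul_left_cancel h8
  · -- the tuples of type A
    intro c hc
    refine ⟨nn c, ?_⟩
    -- the conjugate of `Ψ ∘ iotaF`
    set b : Wr D (F ⧸ U) := Wr.base h with hb
    let ρ : F →* Wr D (F ⧸ U) := ((MulAut.conj b).toMonoidHom.comp Ψ).comp iotaF
    have hρ' : ∀ g, ρ g = b * Ψ (iotaF g) * b⁻¹ := fun g => rfl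
    have hρ : ∀ g, (ρ g).perm = MulAction.toPerm g := by
      intro g
      rw [hρ', Wr.mul_perm, Wr.mul_perm, Wr.inv_perm, hb, Wr.base_perm, hp, piF_iotaF, one_mul,
        inv_one, mul_one]
    let mk : Fin 4 → F ⧸ U := fun j => ((Fa ^ (L * (j : ℕ)) : F) : F ⧸ U)
    -- the marks are fixed by `y`
    have hmkfix : ∀ j, Fy • mk j = mk j := by
      intro j
      show ((Fy * Fa ^ (L * (j : ℕ)) : F) : F ⧸ U) = ((Fa ^ (L * (j : ℕ)) : F) : F ⧸ U)
      symm
      rw [QuotientGroup.eq]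
      have h4 := hfix (j : ℤ)
      have h5 : (Fa : F) ^ (-((L : ℤ) * ((j : ℕ) : ℤ))) * Fy * Fa ^ ((L : ℤ) * ((j : ℕ) : ℤ)) =
          (Fa ^ (L * (j : ℕ)))⁻¹ * (Fy * Fa ^ (L * (j : ℕ))) := by
        rw [zpow_neg, mul_assoc]
        have h6 : (Fa : F) ^ ((L : ℤ) * ((j : ℕ) : ℤ)) = Fa ^ (L * (j : ℕ)) := by
          rw [← zpow_natCast]
          push_cast
          rfl
        rw [h6]
      rwa [h5] at h4
    -- labels of the generators
    have hlx : ∀ l, (ρ Fx⁻¹).lab l = 1 := by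
      intro l
      rw [hρ', map_inv, iotaF_x, inv_inv]
      exact h3 l
    have hlx' : ∀ l, (ρ Fx).lab l = 1 := by
      intro l
      have h4 : ρ Fx = (ρ Fx⁻¹)⁻¹ := by rw [map_inv, inv_inv]
      rw [h4, Wr.inv_lab, hlx, inv_one]
    have hly : ∀ l, (ρ Fy⁻¹).lab l = (b * Ψ (Dx 2) * b⁻¹).lab l := by
      intro l
      rw [hρ', map_inv, iotaF_y, inv_inv]
    have hly' : ∀ l, (ρ Fy).lab l = ((b * Ψ (Dx 2) * b⁻¹).lab (Fy⁻¹ • l))⁻¹ := by
      intro l
      have h4 : ρ Fy = (ρ Fy⁻¹)⁻¹ := by rw [map_inv, inv_inv]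
      rw [h4, Wr.inv_lab, hly, hρ]
      rfl
    -- labels of the generators at the points seeing only the mark `j`
    have hlab : ∀ (P : Subgroup D) (l : F ⧸ U), (∀ j, l = mk j → Dx j ∈ P) →
        (ρ Fx).lab l ∈ P ∧ (ρ Fx⁻¹).lab l ∈ P ∧ (ρ Fy).lab l ∈ P ∧ (ρ Fy⁻¹).lab l ∈ P := by
      intro P l hl
      have h4 : ∀ l' : F ⧸ U, (∀ j, l' = mk j → Dx j ∈ P) → (b * Ψ (Dx 2) * b⁻¹).lab l' ∈ P := by
        intro l' hl'
        by_cases hm : ∃ j, l' = mk j
        · obtain ⟨j, rfl⟩ := hm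
          have h5 : (b * Ψ (Dx 2) * b⁻¹).lab (mk j) = Dx j := hmark j
          rw [h5]
          exact hl' j rfl
        · push Not at hm
          rw [h2 l' hm]
          exact one_mem _
      refine ⟨?_, ?_, ?_, ?_⟩
      · rw [hlx']
        exact one_mem _
      · rw [hlx]
        exact one_mem _
      · rw [hly']
        refine inv_mem (h4 _ fun j hj => hl j ?_)
        have h5 : l = Fy • (Fy⁻¹ • l) := by rw [smul_inv_smul]
        rw [h5, hj, hmkfix]
      · rw [hly]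
        exact h4 l hl
    set H : Subgroup F := closure (Set.range (T^[nn c] c)) with hH
    -- every orbit sees at most one mark
    have hone : ∀ l : F ⧸ U, ∃ P : Subgroup D, (P : Set D).Finite ∧
        (P = ⊥ ∨ ∃ j, P = zpowers (Dx j)) ∧
        ∀ u ∈ H, ∀ t ∈ Q, ∀ j, t⁻¹ • u • l = mk j → Dx j ∈ P := by
      intro l
      by_cases hsee : ∃ u ∈ H, ∃ t ∈ Q, ∃ j, t⁻¹ • u • l = mk j
      · obtain ⟨u, hu, t, ht, j, hut⟩ := hsee
        refine ⟨zpowers (Dx j), ?_, Or.inr ⟨j, rfl⟩, ?_⟩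
        · have h4 : IsOfFinOrder (Dx j) :=
            isOfFinOrder_iff_pow_eq_one.2 ⟨3, by norm_num, Dx_pow j⟩
          exact finite_zpowers.2 h4
        · intro u' hu' t' ht' j' hut'
          have h4 := hsep ⟨c, hc⟩ (u * u'⁻¹) (mul_mem hu (inv_mem hu')) t ht t' ht'
            (j : ℤ) (j' : ℤ) (by
              have h5 : ((Fa ^ (L * (j : ℕ)) : F) : F ⧸ U) =
                  ((t⁻¹ * (u * u'⁻¹) * t' * Fa ^ (L * (j' : ℕ)) : F) : F ⧸ U) := by
                have h6 : l = u'⁻¹ • t' • mk j' := by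
                  rw [← hut', smul_inv_smul, inv_smul_smul]
                have h7 : mk j = t⁻¹ • u • u'⁻¹ • t' • mk j' := by rw [← h6, hut]
                have h8 : t⁻¹ • u • u'⁻¹ • t' • mk j' =
                    ((t⁻¹ * (u * (u'⁻¹ * (t' * Fa ^ (L * (j' : ℕ))))) : F) : F ⧸ U) := rfl
                rw [h8] at h7
                rw [show ((Fa ^ (L * (j : ℕ)) : F) : F ⧸ U) = mk j from rfl, h7]
                congr 1
                group
              rw [QuotientGroup.eq] at h5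
              have h6 : ∀ i : ℕ, (Fa : F) ^ ((L : ℤ) * (i : ℤ)) = Fa ^ (L * i) := by
                intro i
                rw [← zpow_natCast]
                push_cast
                rfl
              have h7 : (Fa : F) ^ (-((L : ℤ) * ((j : ℕ) : ℤ))) * (t⁻¹ * (u * u'⁻¹) * t') *
                  Fa ^ ((L : ℤ) * ((j' : ℕ) : ℤ)) =
                  (Fa ^ (L * (j : ℕ)))⁻¹ * (t⁻¹ * (u * u'⁻¹) * t' * Fa ^ (L * (j' : ℕ))) := by
                rw [zpow_neg, h6, h6]
                group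
              rw [h7]
              exact h5)
          have hjj : j = j' := by
            have h5 := j.isLt
            have h6 := j'.isLt
            apply Fin.ext
            omega
          rw [hjj]
          exact mem_zpowers _
      · push Not at hsee
        refine ⟨⊥, by simp, Or.inl rfl, ?_⟩
        intro u hu t ht j hut
        exact absurd hut (hsee u hu t ht j)
    -- the labels lie in a finite set
    have hlabH : ∀ g ∈ H, ∀ l, (ρ g).lab l ∈ ⋃ j : Fin 4, (zpowers (Dx j) : Set D) := by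
      intro g hg l
      obtain ⟨P, -, hP, hP2⟩ := hone l
      have h4 : (ρ g).lab l ∈ P := by
        have h5 := thetaRec_gen ρ hρ P (T^[nn c] c) l (by
          intro u hu k
          obtain ⟨w, hw, hwp, hwt⟩ := hQ _ (hgQ c hc k)
          have h6 := thetaRec_reach ρ hρ P {l' | ∀ j, l' = mk j → Dx j ∈ P}
            (fun l' hl' => hlab P l' hl') w hw (u • l)
            (fun t ht j hj => hP2 u hu t.prod (hwt t ht) j hj)
          rwa [hwp] at h6) hg 1 (one_mem _)
        rwa [one_smul] at h5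
      rw [Set.mem_iUnion]
      rcases hP with rfl | ⟨j, rfl⟩
      · rw [mem_bot] at h4
        rw [h4]
        exact ⟨0, one_mem _⟩
      · exact ⟨j, h4⟩
    have hfin2 : {a : Wr D (F ⧸ U) | ∀ l, a.lab l ∈ ⋃ j : Fin 4, (zpowers (Dx j) : Set D)}.Finite :=
      thetaRec_finite (Set.finite_iUnion fun j => finite_zpowers.2
        (isOfFinOrder_iff_pow_eq_one.2 ⟨3, by norm_num, Dx_pow j⟩))
    have hfin3 : ((fun a : Wr D (F ⧸ U) => b⁻¹ * a * b) ''
        {a : Wr D (F ⧸ U) | ∀ l, a.lab l ∈ ⋃ j : Fin 4, (zpowers (Dx j) : Set D)}).Finite :=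
      hfin2.image _
    refine hfin3.subset ?_
    intro a ha
    have h4 : gen (fun k => R.Ψ (T^[nn c] (fun k => iotaF (c k)) k)) ≤ H.map (Ψ.comp iotaF) := by
      unfold gen
      rw [closure_le]
      rintro _ ⟨k, rfl⟩
      refine ⟨T^[nn c] c k, subset_closure ⟨k, rfl⟩, ?_⟩
      rw [T_iter_comp]
      rfl
    obtain ⟨g, hg, rfl⟩ := h4 ha
    refine ⟨ρ g, hlabH g hg, ?_⟩
    show b⁻¹ * ρ g * b = Ψ (iotaF g)
    rw [hρ']
    group

end K611
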