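import Pool.Agent.Work.MP_611b97_al.K.XiRec
import Pool.Agent.Work.MP_611b97_al.K.ThetaRec
import Pool.Agent.Work.MP_611b97_al.K.LowB

/-!
# The kill theorem: every finite set of tuples is killed by one recursion
-/

set_option autoImplicit false

namespace K611

open Subgroup

/-- MODULE Kill. -/
theorem kill_low {r : ℕ} (d : ℕ) : ∀ S : Finset (ZMod (3 ^ r) → D), (∀ c ∈ S, Low d c) →
    ∃ R : Rec, ∀ c ∈ S, R.Kills c := by
  classical
  induction d with
  | zero =>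
    intro S hS
    obtain ⟨R, -⟩ := Rec.exists_one
    refine ⟨R, fun c hc => ?_⟩
    obtain ⟨n, hn⟩ := low_zero D_res3 c (hS c hc)
    exact R.kills_of_eq_one c n hn
  | succ d ih =>
    intro S hS
    -- the first recursion: all leaves are in `F-` or in `F+`
    obtain ⟨R₁, hR₁⟩ := exists_Xi S
    choose! n₁ hperm₁ hleaf₁ using hR₁
    haveI := Fintype.ofFinite R₁.Λ
    -- the leaves, moved to `F`
    set S₂ : Finset (ZMod (3 ^ r) → F) := (S ×ˢ (Finset.univ : Finset R₁.Λ)).image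
      (fun p => fun k => piF (R₁.leaf (T^[n₁ p.1] p.1) p.2 k)) with hS₂
    set SA : Finset (ZMod (3 ^ r) → F) := S₂.filter
      (fun c => ∃ n, ∀ (g : F) (k : ℕ), g * Fa ^ 3 ^ k * g⁻¹ ∉ cl (gen (T^[n] c))) with hSA
    -- the second recursion
    obtain ⟨R₂, hminus, hfin, hA⟩ := exists_Theta SA
      (fun c hc => (Finset.mem_filter.1 hc).2)
    have hperm₂ : ∀ c : ZMod (3 ^ r) → F, ∃ n, ∀ k,
        (R₂.Ψ (T^[n] (fun k => iotaF (c k)) k)).perm = 1 := by
      intro c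
      obtain ⟨n, hn⟩ := R₂.exists_perm (fun k => iotaF (c k))
      exact ⟨n, hn n le_rfl⟩
    choose n₂ hn₂ using hperm₂
    haveI := Fintype.ofFinite R₂.Λ
    -- the tuples of type B with their leaves
    set SB : Finset (ZMod (3 ^ r) → F) := S₂.filter
      (fun c => Low (d + 1) (fun k => iotaF (c k)) ∧
        ∀ n, ∃ (g : F) (k : ℕ), g * Fa ^ 3 ^ k * g⁻¹ ∈ cl (gen (T^[n] c))) with hSB
    set S₃ : Finset (ZMod (3 ^ r) → D) := (SB ×ˢ (Finset.univ : Finset R₂.Λ)).image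
      (fun p => R₂.leaf (T^[n₂ p.1] (fun k => iotaF (p.1 k))) p.2) with hS₃
    obtain ⟨R₃, hR₃⟩ := ih S₃ (by
      intro c hc
      obtain ⟨⟨c', l⟩, hp, rfl⟩ := Finset.mem_image.1 hc
      obtain ⟨h1, -⟩ := Finset.mem_product.1 hp
      obtain ⟨-, h2, h3⟩ := Finset.mem_filter.1 h1
      exact low_typeB R₂ hfin c' h2 h3 (n₂ c') (hn₂ c') l)
    refine ⟨R₁.comp (R₂.comp R₃), fun c hc => ?_⟩
    refine Rec.kills_comp_of_leaf R₁ (R₂.comp R₃) c (n₁ c) (hperm₁ c hc) ?_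
    intro l
    rcases hleaf₁ c hc l with h | h
    · exact (hminus _ h).comp R₃
    · -- the leaf is `iotaF` of a tuple in `F`
      set c' : ZMod (3 ^ r) → F := fun k => piF (R₁.leaf (T^[n₁ c] c) l k) with hc'
      have hc'mem : c' ∈ S₂ :=
        Finset.mem_image.2 ⟨(c, l), Finset.mem_product.2 ⟨hc, Finset.mem_univ _⟩, rfl⟩
      have hleaf : R₁.leaf (T^[n₁ c] c) l = fun k => iotaF (c' k) := by
        funext k
        exact ((mem_Fplus_iff _).1 (h k)).symm
      rw [hleaf]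
      by_cases hAB : ∃ n, ∀ (g : F) (k : ℕ), g * Fa ^ 3 ^ k * g⁻¹ ∉ cl (gen (T^[n] c'))
      · exact (hA c' (Finset.mem_filter.2 ⟨hc'mem, hAB⟩)).comp R₃
      · push Not at hAB
        have hlow : Low (d + 1) (fun k => iotaF (c' k)) := by
          rw [← hleaf]
          exact R₁.low_leaf c (n₁ c) (hperm₁ c hc) l (hS c hc)
        have hmemB : c' ∈ SB := Finset.mem_filter.2 ⟨hc'mem, hlow, hAB⟩
        refine Rec.kills_comp_of_leaf R₂ R₃ (fun k => iotaF (c' k)) (n₂ c') (hn₂ c') ?_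
        intro l'
        refine hR₃ _ (Finset.mem_image.2 ⟨(c', l'), ?_, rfl⟩)
        exact Finset.mem_product.2 ⟨hmemB, Finset.mem_univ _⟩

theorem kill {r : ℕ} (S : Finset (ZMod (3 ^ r) → D)) : ∃ R : Rec, ∀ c ∈ S, R.Kills c :=
  kill_low (3 ^ r) S (fun c _ => low_top c)

end K611
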