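import Pool.Agent.Work.MP_611b97_al.K.Defs

/-!
# Homomorphisms from `F` to wreath products
-/

set_option autoImplicit false

namespace K611

open Subgroup

universe u v

theorem lhom_smul_eq_of_mem {N S : Subgroup F} (hN : N3 N) (h : N ≤ S) {g : F} (hg : g ∈ N)
    (l : F ⧸ S) : g • l = l := by
  induction l using QuotientGroup.induction_on with
  | H k =>
    have h0 : g • (QuotientGroup.mk k : F ⧸ S) = QuotientGroup.mk (g * k) := rfl
    rw [h0, QuotientGroup.eq]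
    have h1 := hN.1.conj_mem _ (inv_mem hg) k⁻¹
    apply h
    have h2 : (g * k)⁻¹ * k = k⁻¹ * g⁻¹ * k⁻¹⁻¹ := by group
    rw [h2]
    exact h1

/-- open subgroups give 3-group actions -/
theorem isPGroup_toPermHom {S : Subgroup F} (hS : ∃ N, N3 N ∧ N ≤ S) :
    IsPGroup 3 (MulAction.toPermHom F (F ⧸ S)).range := by
  obtain ⟨N, hN, hNS⟩ := hS
  obtain ⟨k, hk⟩ := hN.exists_pow_mem
  rintro ⟨p, g, rfl⟩
  refine ⟨k, Subtype.ext ?_⟩
  show (MulAction.toPermHom F (F ⧸ S) g) ^ 3 ^ k = 1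
  rw [← map_pow]
  ext l
  exact lhom_smul_eq_of_mem hN hNS (hk g) l

theorem finite_quot {S : Subgroup F} (hS : ∃ N, N3 N ∧ N ≤ S) : Finite (F ⧸ S) := by
  obtain ⟨N, hN, hNS⟩ := hS
  have := hN.finiteIndex
  have : S.FiniteIndex := finiteIndex_of_le hNS
  exact Subgroup.finite_quotient_of_finiteIndex

/-- homomorphism with prescribed labels of the generators -/
theorem exists_label_hom {Λ : Type v} [Finite Λ] [MulAction F Λ]
    (hΛ : IsPGroup 3 (MulAction.toPermHom F Λ).range) {A : Type u} [Group A] (hA : Res3 A)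
    (fx fy : Λ → A)
    (hx : ∀ l, fx l * fx (Fx⁻¹ • l) * fx (Fx⁻¹ • Fx⁻¹ • l) = 1)
    (hy : ∀ l, fy l * fy (Fy⁻¹ • l) * fy (Fy⁻¹ • Fy⁻¹ • l) = 1) :
    ∃ ρ : F →* Wr A Λ, (∀ g, (ρ g).perm = MulAction.toPerm g) ∧
      (∀ l, (ρ Fx).lab l = fx l) ∧ ∀ l, (ρ Fy).lab l = fy l := by
  have hpow : ∀ g : F, g ^ 3 = 1 → (MulAction.toPermHom F Λ g) ^ 3 = 1 := by
    intro g hg
    rw [← map_pow, hg, map_one]
  have hinv : ∀ (g : F) (l : Λ), (MulAction.toPermHom F Λ g)⁻¹ l = g⁻¹ • l := by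
    intro g l
    rw [← map_inv]
    rfl
  have hx3 : (⟨fx, MulAction.toPermHom F Λ Fx⟩ : Wr A Λ) ^ 3 = 1 := by
    refine Wr.ext ?_ ?_
    · funext l
      rw [Wr.pow_three_lab, Wr.one_lab]
      show fx l * fx ((MulAction.toPermHom F Λ Fx)⁻¹ l) *
        fx ((MulAction.toPermHom F Λ Fx)⁻¹ ((MulAction.toPermHom F Λ Fx)⁻¹ l)) = 1
      rw [hinv, hinv]
      exact hx l
    · rw [Wr.pow_perm, Wr.one_perm]
      exact hpow _ Fx_pow
  have hy3 : (⟨fy, MulAction.toPermHom F Λ Fy⟩ : Wr A Λ) ^ 3 = 1 := by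
    refine Wr.ext ?_ ?_
    · funext l
      rw [Wr.pow_three_lab, Wr.one_lab]
      show fy l * fy ((MulAction.toPermHom F Λ Fy)⁻¹ l) *
        fy ((MulAction.toPermHom F Λ Fy)⁻¹ ((MulAction.toPermHom F Λ Fy)⁻¹ l)) = 1
      rw [hinv, hinv]
      exact hy l
    · rw [Wr.pow_perm, Wr.one_perm]
      exact hpow _ Fy_pow
  have hres : Res3 (closure ({(⟨fx, MulAction.toPermHom F Λ Fx⟩ : Wr A Λ),
      ⟨fy, MulAction.toPermHom F Λ Fy⟩} : Set (Wr A Λ))) := by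
    refine Wr.res3_of_le hA hΛ ?_
    intro a ha
    have h1 : closure ({(⟨fx, MulAction.toPermHom F Λ Fx⟩ : Wr A Λ),
        ⟨fy, MulAction.toPermHom F Λ Fy⟩} : Set (Wr A Λ)) ≤
        Wr.overP (MulAction.toPermHom F Λ).range := by
      rw [closure_le]
      rintro z (rfl | rfl)
      · exact ⟨Fx, rfl⟩
      · exact ⟨Fy, rfl⟩
    exact h1 ha
  refine ⟨Flift _ _ hx3 hy3 hres, ?_, ?_, ?_⟩
  · intro g
    have h : Wr.permHom.comp (Flift _ _ hx3 hy3 hres) = MulAction.toPermHom F Λ := by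
      apply F_hom_ext
      · rw [MonoidHom.comp_apply, Flift_x]
        rfl
      · rw [MonoidHom.comp_apply, Flift_y]
        rfl
    exact DFunLike.congr_fun h g
  · intro l
    rw [Flift_x]
  · intro l
    rw [Flift_y]

/-- the kernel of such a homomorphism is in `N3` when `A` is a finite 3-group -/
theorem N3_ker_label {Λ : Type v} [Finite Λ] [MulAction F Λ]
    (hΛ : IsPGroup 3 (MulAction.toPermHom F Λ).range) {A : Type u} [Group A] [Finite A]
    (hA : IsPGroup 3 A) (ρ : F →* Wr A Λ) (hρ : ∀ g, (ρ g).perm = MulAction.toPerm g) :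
    N3 ρ.ker := by
  have hP : IsPGroup 3 ρ.range := by
    have h1 : ρ.range ≤ Wr.overP (MulAction.toPermHom F Λ).range := by
      rintro a ⟨g, rfl⟩
      exact ⟨g, (hρ g).symm⟩
    exact (Wr.isPGroup_over hA hΛ).of_injective (Subgroup.inclusion h1)
      (Subgroup.inclusion_injective _)
  have hf : Finite ρ.range := inferInstance
  exact N3.ker' ρ hf hP

open Classical in
/-- a section of `F → F ⧸ S` with value `1` at the base point -/
noncomputable def lhomTr (S : Subgroup F) (l : F ⧸ S) : F :=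
  if l = ((1 : F) : F ⧸ S) then 1 else Quotient.out l

theorem mk_lhomTr (S : Subgroup F) (l : F ⧸ S) : ((lhomTr S l : F) : F ⧸ S) = l := by
  unfold lhomTr
  split_ifs with h
  · exact h.symm
  · exact QuotientGroup.out_eq' l

theorem lhomTr_base (S : Subgroup F) : lhomTr S ((1 : F) : F ⧸ S) = 1 := if_pos rfl

theorem lhomTr_mem (S : Subgroup F) (g : F) (l : F ⧸ S) :
    (lhomTr S l)⁻¹ * g * lhomTr S (g⁻¹ • l) ∈ S := by
  have h1 : ((lhomTr S (g⁻¹ • l) : F) : F ⧸ S) = g⁻¹ • l := mk_lhomTr S _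
  have h2 : ((g * lhomTr S (g⁻¹ • l) : F) : F ⧸ S) = l := by
    have h3 : ((g * lhomTr S (g⁻¹ • l) : F) : F ⧸ S) =
      g • ((lhomTr S (g⁻¹ • l) : F) : F ⧸ S) := rfl
    rw [h3, h1, smul_inv_smul]
  have h4 : ((lhomTr S l : F) : F ⧸ S) = ((g * lhomTr S (g⁻¹ • l) : F) : F ⧸ S) := by
    rw [mk_lhomTr, h2]
  rw [QuotientGroup.eq, ← mul_assoc] at h4
  exact h4

theorem lhom_smul_base {S : Subgroup F} {s : F} (hs : s ∈ S) :
    s⁻¹ • ((1 : F) : F ⧸ S) = ((1 : F) : F ⧸ S) := by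
  have h1 : s⁻¹ • ((1 : F) : F ⧸ S) = ((s⁻¹ * 1 : F) : F ⧸ S) := rfl
  rw [h1, mul_one, QuotientGroup.eq, inv_inv, mul_one]
  exact hs

/-- induced homomorphism -/
theorem exists_ind {S : Subgroup F} {A : Type u} [Group A] (ψ : S →* A) :
    ∃ ρ : F →* Wr A (F ⧸ S), (∀ g, (ρ g).perm = MulAction.toPerm g) ∧
      ∀ s : S, (ρ (s : F)).lab ((1 : F) : F ⧸ S) = ψ s := by
  refine ⟨⟨⟨fun g => ⟨fun l => ψ ⟨_, lhomTr_mem S g l⟩, MulAction.toPermHom F (F ⧸ S) g⟩, ?_⟩,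
    ?_⟩, fun _ => rfl, ?_⟩
  · refine Wr.ext ?_ ?_
    · funext l
      show ψ ⟨_, lhomTr_mem S 1 l⟩ = 1
      rw [← map_one ψ]
      congr 1
      apply Subtype.ext
      show (lhomTr S l)⁻¹ * 1 * lhomTr S ((1 : F)⁻¹ • l) = 1
      rw [inv_one, one_smul, mul_one, inv_mul_cancel]
    · exact map_one (MulAction.toPermHom F (F ⧸ S))
  · intro g h
    refine Wr.ext ?_ ?_
    · funext l
      show ψ ⟨_, lhomTr_mem S (g * h) l⟩ = ψ ⟨_, lhomTr_mem S g l⟩ *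
        ψ ⟨_, lhomTr_mem S h ((MulAction.toPermHom F (F ⧸ S) g)⁻¹ l)⟩
      rw [← map_mul]
      congr 1
      apply Subtype.ext
      have h1 : (MulAction.toPermHom F (F ⧸ S) g)⁻¹ l = g⁻¹ • l := by
        rw [← map_inv]
        rfl
      show (lhomTr S l)⁻¹ * (g * h) * lhomTr S ((g * h)⁻¹ • l) =
        (lhomTr S l)⁻¹ * g * lhomTr S (g⁻¹ • l) *
        ((lhomTr S ((MulAction.toPermHom F (F ⧸ S) g)⁻¹ l))⁻¹ * h *
          lhomTr S (h⁻¹ • (MulAction.toPermHom F (F ⧸ S) g)⁻¹ l))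
      rw [h1, mul_inv_rev, mul_smul]
      group
    · exact map_mul (MulAction.toPermHom F (F ⧸ S)) g h
  · intro s
    show ψ ⟨_, lhomTr_mem S (s : F) ((1 : F) : F ⧸ S)⟩ = ψ s
    congr 1
    apply Subtype.ext
    show (lhomTr S ((1 : F) : F ⧸ S))⁻¹ * (s : F) *
      lhomTr S ((s : F)⁻¹ • ((1 : F) : F ⧸ S)) = s
    rw [lhom_smul_base s.2, lhomTr_base, inv_one, one_mul, mul_one]

/-- label at the base point as a homomorphism on `S` -/
theorem lab_base_mul {S : Subgroup F} {A : Type u} [Group A] (ρ : F →* Wr A (F ⧸ S))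
    (hρ : ∀ g, (ρ g).perm = MulAction.toPerm g) {s t : F} (hs : s ∈ S) :
    (ρ (s * t)).lab ((1 : F) : F ⧸ S) =
      (ρ s).lab ((1 : F) : F ⧸ S) * (ρ t).lab ((1 : F) : F ⧸ S) := by
  rw [map_mul, Wr.mul_lab_of_stab]
  rw [hρ]
  show s • ((1 : F) : F ⧸ S) = ((1 : F) : F ⧸ S)
  have h := lhom_smul_base (inv_mem hs)
  rwa [inv_inv] at h

end K611
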