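import Pool.Agent.Work.MP_611b97_al.K.Cont
import Pool.Agent.Work.MP_611b97_al.K.LabelHom

/-!
# The lifting property of continuous homomorphisms
-/

set_option autoImplicit false

namespace K611

open Subgroup

universe u v w

/-- Lifting labels along a surjection, for a permutation of order three without fixed points. -/
theorem lp_lift_labels {Λ : Type u} [Finite Λ] (x : Λ → Λ) (hx3 : ∀ l, x (x (x l)) = l)
    (hf : ∀ l, x l ≠ l) {A B : Type*} [AddCommGroup A] [AddCommGroup B] (r : A →+ B)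
    (hr : Function.Surjective r) (g : Λ → B)
    (hg : ∀ l, g l + g (x l) + g (x (x l)) = 0) :
    ∃ g' : Λ → A, (∀ l, r (g' l) = g l) ∧
      ∀ l, g' l + g' (x l) + g' (x (x l)) = 0 := by
  classical
  have := Fintype.ofFinite Λ
  obtain ⟨e⟩ : Nonempty (Λ ≃ Fin (Fintype.card Λ)) := ⟨Fintype.equivFin Λ⟩
  choose s hs using hr
  let P : Λ → Prop := fun l => e l < e (x l) ∧ e l < e (x (x l))
  let g' : Λ → A := fun l => if P l then -(s (g (x l)) + s (g (x (x l)))) else s (g l)
  have gp : ∀ l, P l → g' l = -(s (g (x l)) + s (g (x (x l)))) := fun l hl => if_pos hl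
  have gn : ∀ l, ¬ P l → g' l = s (g l) := fun l hl => if_neg hl
  have key : ∀ l, P l → g' l + g' (x l) + g' (x (x l)) = 0 := by
    intro l hl
    have h1 : ¬ P (x l) := by
      rintro ⟨_, h⟩
      rw [hx3] at h
      exact absurd (h.trans hl.1) (lt_irrefl _)
    have h2 : ¬ P (x (x l)) := by
      rintro ⟨h, _⟩
      rw [hx3] at h
      exact absurd (h.trans hl.2) (lt_irrefl _)
    rw [gp l hl, gn _ h1, gn _ h2]
    abel
  refine ⟨g', ?_, ?_⟩
  · intro l
    by_cases hl : P l
    · rw [gp l hl, map_neg, map_add, hs, hs]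
      have := hg l
      rw [neg_eq_iff_add_eq_zero, ← this]
      abel
    · rw [gn l hl, hs]
  · intro l
    have hinj : ∀ a b, x a = x b → a = b := by
      intro a b h
      rw [← hx3 a, ← hx3 b, h]
    have n1 : e (x l) ≠ e l := fun h => hf l (e.injective h)
    have n3 : e (x (x l)) ≠ e (x l) := fun h => hf (x l) (e.injective h)
    have n2 : e (x (x l)) ≠ e l := by
      intro h
      have h1 := e.injective h
      have h2 := hx3 l
      rw [h1] at h2
      exact hf l h2
    rcases lt_or_gt_of_ne n1 with c1 | c1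
    · rcases lt_or_gt_of_ne n3 with c3 | c3
      · have hm : P (x (x l)) := by
          refine ⟨?_, ?_⟩
          · rw [hx3]
            exact c3.trans c1
          · rw [hx3]
            exact c3
        have := key _ hm
        rw [hx3] at this
        rw [← this]
        abel
      · have hm : P (x l) := by
          refine ⟨c3, ?_⟩
          rw [hx3]
          exact c1
        have := key _ hm
        rw [hx3] at this
        rw [← this]
        abel
    · rcases lt_or_gt_of_ne n2 with c2 | c2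
      · have hm : P (x (x l)) := by
          refine ⟨?_, ?_⟩
          · rw [hx3]
            exact c2
          · rw [hx3]
            exact c2.trans c1
        have := key _ hm
        rw [hx3] at this
        rw [← this]
        abel
      · exact key l ⟨c1, c2⟩

theorem lp_no_fixed {V W : Subgroup F} (hV : V.Normal) (h : W ≤ V) {g : F} (hg : g ∉ V)
    (l : F ⧸ W) : g⁻¹ • l ≠ l := by
  induction l using QuotientGroup.induction_on with
  | H k =>
    have h0 : g⁻¹ • (QuotientGroup.mk k : F ⧸ W) = QuotientGroup.mk (g⁻¹ * k) := rfl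
    rw [h0, Ne, QuotientGroup.eq]
    intro h1
    apply hg
    have h2 := hV.conj_mem _ (h h1) k
    have h3 : k * ((g⁻¹ * k)⁻¹ * k) * k⁻¹ = g := by group
    rwa [h3] at h2

/-- the reduction map -/
def lpRed (n : ℕ) : ZMod (3 * n) →+* ZMod n :=
  ZMod.castHom (Dvd.intro_left 3 rfl : n ∣ 3 * n) (ZMod n)

theorem lpRed_surjective (n : ℕ) : Function.Surjective (lpRed n) :=
  ZMod.castHom_surjective _

theorem lp_isPGroup (k : ℕ) : IsPGroup 3 (Multiplicative (ZMod (3 ^ k))) := by
  have : NeZero (3 ^ k) := ⟨pow_ne_zero _ (by norm_num)⟩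
  apply IsPGroup.of_card (n := k)
  rw [Nat.card_eq_fintype_card, Fintype.card_multiplicative, ZMod.card]

theorem lp_finite (k : ℕ) : Finite (Multiplicative (ZMod (3 ^ k))) := by
  have : NeZero (3 ^ k) := ⟨pow_ne_zero _ (by norm_num)⟩
  infer_instance

/-- the subtype homomorphism of a continuous homomorphism -/
def lpHom {G : Type u} [Group G] {n : ℕ} {U : Subgroup G} {φ : G → ZMod n} (h : CHom U φ) :
    U →* Multiplicative (ZMod n) where
  toFun r := Multiplicative.ofAdd (φ r)
  map_one' := by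
    show Multiplicative.ofAdd (φ 1) = 1
    rw [h.one]
    rfl
  map_mul' r s := by
    show Multiplicative.ofAdd (φ (r * s)) = _
    rw [h.mul r.2 s.2]
    rfl

/-- MODULE LP (lifting property). -/
theorem lp {V U : Subgroup F} (hV : N3 V) (hx : Fx ∉ V) (hy : Fy ∉ V) (hU : U ≤ V) {n m : ℕ}
    (hn : n = 3 ^ m) (φ : F → ZMod n) (hφ : CHom U φ) :
    ∃ ψ : F → ZMod (3 * n), CHom U ψ ∧
      ∀ r ∈ U, ZMod.castHom (Dvd.intro_left 3 rfl : n ∣ 3 * n) (ZMod n) (ψ r) = φ r := by
  classical
  obtain ⟨N, hN, hNV, φ₁, hφ₁, hφU, hφN⟩ := hφ.extend_open hV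
  set W := U ⊔ N with hW
  have hNW : N ≤ W := le_sup_right
  have hWV : W ≤ V := sup_le hU hNV
  have hWo : ∃ N, N3 N ∧ N ≤ W := ⟨N, hN, hNW⟩
  have hfin : Finite (F ⧸ W) := finite_quot hWo
  have hpg := isPGroup_toPermHom hWo
  obtain ⟨Θ, hΘp, hΘl⟩ := exists_ind (lpHom hφ₁)
  have hinv : ∀ (g : F) (l : F ⧸ W), (Θ g).perm⁻¹ l = g⁻¹ • l := by
    intro g l
    rw [hΘp]
    rfl
  have hc : ∀ g : F, g ^ 3 = 1 → ∀ l, (Θ g).lab l * (Θ g).lab (g⁻¹ • l) *
      (Θ g).lab (g⁻¹ • g⁻¹ • l) = 1 := by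
    intro g hg l
    have h1 := Wr.pow_three_lab (Θ g) l
    rw [← map_pow, hg, map_one, Wr.one_lab, hinv, hinv] at h1
    exact h1.symm
  have hs3 : ∀ g : F, g ^ 3 = 1 → ∀ l : F ⧸ W, g⁻¹ • g⁻¹ • g⁻¹ • l = l := by
    intro g hg l
    rw [← mul_smul, ← mul_smul, show g⁻¹ * g⁻¹ * g⁻¹ = (g ^ 3)⁻¹ by group, hg, inv_one,
      one_smul]
  obtain ⟨gx, hgx1, hgx2⟩ := lp_lift_labels (fun l : F ⧸ W => Fx⁻¹ • l) (hs3 Fx Fx_pow)
    (lp_no_fixed hV.1 hWV hx) (lpRed n).toAddMonoidHom (lpRed_surjective n)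
    (fun l => Multiplicative.toAdd ((Θ Fx).lab l))
    (fun l => congrArg Multiplicative.toAdd (hc Fx Fx_pow l))
  obtain ⟨gy, hgy1, hgy2⟩ := lp_lift_labels (fun l : F ⧸ W => Fy⁻¹ • l) (hs3 Fy Fy_pow)
    (lp_no_fixed hV.1 hWV hy) (lpRed n).toAddMonoidHom (lpRed_surjective n)
    (fun l => Multiplicative.toAdd ((Θ Fy).lab l))
    (fun l => congrArg Multiplicative.toAdd (hc Fy Fy_pow l))
  have hn' : 3 * n = 3 ^ (m + 1) := by rw [hn, pow_succ, mul_comm]
  have hfm : Finite (Multiplicative (ZMod (3 * n))) := by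
    rw [hn']
    exact lp_finite (m + 1)
  have hpm : IsPGroup 3 (Multiplicative (ZMod (3 * n))) := by
    rw [hn']
    exact lp_isPGroup (m + 1)
  obtain ⟨Θ', hp', hx', hy'⟩ := exists_label_hom hpg
    (Res3.of_finite hpm) (fun l => Multiplicative.ofAdd (gx l))
    (fun l => Multiplicative.ofAdd (gy l))
    (fun l => congrArg Multiplicative.ofAdd (hgx2 l))
    (fun l => congrArg Multiplicative.ofAdd (hgy2 l))
  have hker := N3_ker_label hpg hpm Θ' hp'
  -- reduction
  have hred : (Wr.map (AddMonoidHom.toMultiplicative (lpRed n).toAddMonoidHom)).comp Θ' = Θ := by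
    apply F_hom_ext
    · rw [MonoidHom.comp_apply]
      refine Wr.ext ?_ ?_
      · funext l
        rw [Wr.map_lab, hx']
        exact congrArg Multiplicative.ofAdd (hgx1 l)
      · rw [Wr.map_perm, hp', hΘp]
    · rw [MonoidHom.comp_apply]
      refine Wr.ext ?_ ?_
      · funext l
        rw [Wr.map_lab, hy']
        exact congrArg Multiplicative.ofAdd (hgy1 l)
      · rw [Wr.map_perm, hp', hΘp]
  refine ⟨fun u => Multiplicative.toAdd ((Θ' u).lab ((1 : F) : F ⧸ W)), ⟨?_, Θ'.ker, hker, ?_⟩,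
    ?_⟩
  · intro r hr s hs
    show Multiplicative.toAdd ((Θ' (r * s)).lab _) = _
    rw [lab_base_mul Θ' hp' (mem_sup_left hr : r ∈ W)]
    rfl
  · intro r hr hrk
    show Multiplicative.toAdd ((Θ' r).lab _) = 0
    rw [show Θ' r = 1 from hrk]
    rfl
  · intro u hu
    have h1 := DFunLike.congr_fun hred u
    have h2 := congrFun (congrArg Wr.lab h1) ((1 : F) : F ⧸ W)
    have h3 := hΘl ⟨u, mem_sup_left hu⟩
    rw [MonoidHom.comp_apply, Wr.map_lab] at h2
    have h4 : Multiplicative.ofAdd (φ₁ u) = Multiplicative.ofAdd (φ u) := by rw [hφU u hu]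
    exact congrArg Multiplicative.toAdd (h2.trans (h3.trans h4))

end K611
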