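import Pool.Agent.Work.MP_611b97_al.K.Iso
import Pool.Agent.Work.MP_611b97_al.K.Tuples

/-!
# The largest homomorphism with value one on a telescoping tuple
-/

set_option autoImplicit false

namespace K611

open Subgroup

/-- a homomorphism with value one on all `T c k` bounds the exponent -/
private theorem maxTh_bound {r s : ℕ} (c : ZMod (3 ^ r) → F) {θ : F → ZMod (3 ^ s)}
    (hθ : CHom (cl (gen (T c))) θ) (h1 : ∀ k, θ (T c k) = 1) : s ≤ r := by
  have hmem : ∀ j : ℕ, (c 0)⁻¹ * c (j : ZMod (3 ^ r)) ∈ cl (gen (T c)) := fun j =>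
    le_cl _ (telescope c j)
  have hT : ∀ k, T c k ∈ cl (gen (T c)) := fun k => le_cl _ (subset_closure ⟨k, rfl⟩)
  have hval : ∀ j : ℕ, θ ((c 0)⁻¹ * c (j : ZMod (3 ^ r))) = (j : ZMod (3 ^ s)) := by
    intro j
    induction j with
    | zero => rw [Nat.cast_zero, inv_mul_cancel, hθ.one, Nat.cast_zero]
    | succ j ih =>
      have h2 : (c 0)⁻¹ * c ((j + 1 : ℕ) : ZMod (3 ^ r)) =
          (c 0)⁻¹ * c (j : ZMod (3 ^ r)) * T c (j : ZMod (3 ^ r)) := by
        rw [Nat.cast_succ]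
        simp only [T]
        group
      rw [h2, hθ.mul (hmem j) (hT _), ih, h1, Nat.cast_succ]
  have h3 := hval (3 ^ r)
  rw [ZMod.natCast_self, inv_mul_cancel, hθ.one] at h3
  have h4 : 3 ^ s ∣ 3 ^ r := (ZMod.natCast_eq_zero_iff _ _).1 h3.symm
  exact (Nat.pow_dvd_pow_iff_le_right (by norm_num)).1 h4

/-- MODULE MaxTh: the largest `s` such that some continuous homomorphism `cl R → ℤ/3^s` sends all
the generators `T c k` to `1` (it exists because the `T c k` telescope), with its lift. -/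
theorem exists_max_theta {V : Subgroup F} (hV : N3 V) (hx : Fx ∉ V) (hy : Fy ∉ V) {r : ℕ}
    (c : ZMod (3 ^ r) → F) (hc : ∀ k, T c k ∈ V) :
    ∃ (s : ℕ) (θ : F → ZMod (3 ^ s)) (η : F → ZMod (3 * 3 ^ s)),
      CHom (cl (gen (T c))) θ ∧ (∀ k, θ (T c k) = 1) ∧ CHom (cl (gen (T c))) η ∧
      (∀ g ∈ cl (gen (T c)),
        ZMod.castHom (Dvd.intro_left 3 rfl : 3 ^ s ∣ 3 * 3 ^ s) (ZMod (3 ^ s)) (η g) = θ g) ∧
      ¬ ∃ χ : F → ZMod (3 * 3 ^ s), CHom (cl (gen (T c))) χ ∧ ∀ k, χ (T c k) = 1 := by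
  classical
  let P : ℕ → Prop := fun s => ∃ θ : F → ZMod (3 ^ s),
    CHom (cl (gen (T c))) θ ∧ ∀ k, θ (T c k) = 1
  have hP0 : P 0 := ⟨fun _ => 0, ⟨fun _ _ _ _ => by simp, ⊤, N3.top, fun _ _ _ => rfl⟩, fun k => by
    have : Subsingleton (ZMod (3 ^ 0)) := by rw [pow_zero]; infer_instance
    exact Subsingleton.elim _ _⟩
  have hb : ∀ s, P s → s ≤ r := fun s ⟨θ, hθ, h1⟩ => maxTh_bound c hθ h1
  obtain ⟨s, hs, hs2⟩ : ∃ s, P s ∧ ¬ P (s + 1) := by
    by_contra hcon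
    push Not at hcon
    have hall : ∀ s, P s := fun s => by
      induction s with
      | zero => exact hP0
      | succ s ih => exact hcon s ih
    have := hb _ (hall (r + 1))
    omega
  obtain ⟨θ, hθ, h1⟩ := hs
  have hle : cl (gen (T c)) ≤ V := by
    apply cl_le_of_le hV
    unfold gen
    rw [closure_le]
    rintro _ ⟨k, rfl⟩
    exact hc k
  obtain ⟨η, hη, hηθ⟩ := lp hV hx hy hle (n := 3 ^ s) (m := s) rfl θ hθ
  refine ⟨s, θ, η, hθ, h1, hη, hηθ, ?_⟩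
  rintro ⟨χ, hχ, hχ1⟩
  apply hs2
  show ∃ θ : F → ZMod (3 ^ (s + 1)), CHom (cl (gen (T c))) θ ∧ ∀ k, θ (T c k) = 1
  rw [pow_succ']
  exact ⟨χ, hχ, hχ1⟩

end K611
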