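import Pool.Agent.Work.MP_611b97_al.K.Defs

/-!
# Schemes give recursions
-/

set_option autoImplicit false

namespace K611

open Subgroup

namespace SchemeRec

/-- products of powers of `z` with total exponent zero -/
def Z0 {H : Type} [Group H] {Λ : Type} [Fintype Λ] (z : H) : Subgroup (Wr H Λ) where
  carrier := {a | ∃ n : Λ → ℤ, a = Wr.base (fun l => z ^ n l) ∧ z ^ (∑ l, n l) = 1}
  one_mem' := ⟨fun _ => 0, by ext <;> simp, by simp⟩
  mul_mem' := by
    rintro a b ⟨n, rfl, hn⟩ ⟨m, rfl, hm⟩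
    refine ⟨fun l => n l + m l, ?_, ?_⟩
    · rw [← map_mul]
      congr 1
      funext l
      simp [zpow_add]
    · rw [Finset.sum_add_distrib, zpow_add, hn, hm, one_mul]
  inv_mem' := by
    rintro a ⟨n, rfl, hn⟩
    refine ⟨fun l => - n l, ?_, ?_⟩
    · rw [← map_inv]
      congr 1
      funext l
      simp
    · rw [Finset.sum_neg_distrib, zpow_neg, hn, inv_one]

theorem mem_Z0 {H : Type} [Group H] {Λ : Type} [Fintype Λ] {z : H} {a : Wr H Λ} :
    a ∈ Z0 z ↔ ∃ n : Λ → ℤ, a = Wr.base (fun l => z ^ n l) ∧ z ^ (∑ l, n l) = 1 := Iff.rfl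

theorem conj_base {H : Type} [Group H] {Λ : Type} {z : H} (hz : ∀ g, Commute z g)
    (g : Wr H Λ) (n : Λ → ℤ) :
    g * Wr.base (fun l => z ^ n l) * g⁻¹ = Wr.base (fun l => z ^ n (g.perm⁻¹ l)) := by
  ext l
  · have h := ((hz (g.lab l)).zpow_left (n (g.perm⁻¹ l))).eq
    have h2 : g.perm (g.perm⁻¹ l) = l := g.perm.apply_symm_apply l
    simp only [Wr.mul_lab, Wr.mul_perm, Wr.base_lab, Wr.base_perm, Wr.inv_lab, mul_one]
    rw [h2, ← h, mul_inv_cancel_right]
  · simp

theorem Z0_conj {H : Type} [Group H] {Λ : Type} [Fintype Λ] {z : H} (hz : ∀ g, Commute z g)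
    {a : Wr H Λ} (ha : a ∈ Z0 z) (g : Wr H Λ) : g * a * g⁻¹ ∈ Z0 z := by
  obtain ⟨n, rfl, hn⟩ := ha
  refine ⟨fun l => n (g.perm⁻¹ l), conj_base hz g n, ?_⟩
  rw [Equiv.sum_comp g.perm⁻¹ n, hn]

/-- the element with the single label `z ^ k` at `p` -/
theorem single_pow {H : Type} [Group H] {Λ : Type} [DecidableEq Λ] (z : H) (p : Λ) (k : ℤ) :
    (Wr.base (Pi.mulSingle p z) : Wr H Λ) ^ k = Wr.base (Pi.mulSingle p (z ^ k)) := by
  rw [← map_zpow]
  congr 1
  funext l
  rw [Pi.pow_apply]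
  by_cases h : l = p
  · subst h
    rw [Pi.mulSingle_eq_same, Pi.mulSingle_eq_same]
  · rw [Pi.mulSingle_eq_of_ne h, Pi.mulSingle_eq_of_ne h, one_zpow]

theorem single_eq {H : Type} [Group H] {Λ : Type} [DecidableEq Λ] (z : H) (p : Λ) (k : ℤ) :
    (Wr.base (Pi.mulSingle p (z ^ k)) : Wr H Λ) =
      Wr.base (fun l => z ^ (if l = p then k else 0)) := by
  congr 1
  funext l
  by_cases h : l = p
  · subst h
    rw [Pi.mulSingle_eq_same, if_pos rfl]
  · rw [Pi.mulSingle_eq_of_ne h, if_neg h, zpow_zero]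

/-- every product of powers of `z` is congruent to a power of the single element -/
theorem base_mem {H : Type} [Group H] {Λ : Type} [Fintype Λ] [DecidableEq Λ] (z : H) (p : Λ)
    (n : Λ → ℤ) :
    ((Wr.base (Pi.mulSingle p z) : Wr H Λ) ^ (∑ l, n l))⁻¹ * Wr.base (fun l => z ^ n l) ∈
      Z0 (Λ := Λ) z := by
  refine ⟨fun l => - (if l = p then ∑ l, n l else 0) + n l, ?_, ?_⟩
  · rw [single_pow, single_eq, ← map_inv, ← map_mul]
    congr 1
    funext l
    rw [Pi.mul_apply, Pi.inv_apply, zpow_add, zpow_neg]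
  · rw [Finset.sum_add_distrib, Finset.sum_neg_distrib, Finset.sum_ite_eq' Finset.univ p,
      if_pos (Finset.mem_univ p), neg_add_cancel, zpow_zero]

theorem single_mem_Z0 {H : Type} [Group H] {Λ : Type} [Fintype Λ] [DecidableEq Λ] {z : H}
    {p : Λ} {k : ℤ} (h : (Wr.base (Pi.mulSingle p z) : Wr H Λ) ^ k ∈ Z0 (Λ := Λ) z) :
    z ^ k = 1 := by
  obtain ⟨n, h1, h2⟩ := h
  rw [single_pow] at h1
  have h3 : ∀ l, (Pi.mulSingle p (z ^ k) : Λ → H) l = z ^ n l := fun l =>
    congrFun (congrArg Wr.lab h1) l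
  have hp : z ^ k = z ^ n p := by
    rw [← h3 p, Pi.mulSingle_eq_same]
  rw [hp, ← orderOf_dvd_iff_zpow_eq_one]
  rw [← orderOf_dvd_iff_zpow_eq_one] at h2
  have h4 : (orderOf z : ℤ) ∣ ∑ l ∈ Finset.univ.erase p, n l := by
    apply Finset.dvd_sum
    intro l hl
    rw [orderOf_dvd_iff_zpow_eq_one, ← h3 l, Pi.mulSingle_eq_of_ne (Finset.ne_of_mem_erase hl)]
  rw [← Finset.add_sum_erase Finset.univ n (Finset.mem_univ p)] at h2
  exact (Int.dvd_add_left h4).1 h2

theorem single_comm {H : Type} [Group H] {Λ : Type} [Fintype Λ] [DecidableEq Λ] {z : H}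
    (hz : ∀ g, Commute z g) (p : Λ) (g : Wr H Λ) :
    (g * Wr.base (Pi.mulSingle p z))⁻¹ * (Wr.base (Pi.mulSingle p z) * g) ∈ Z0 (Λ := Λ) z := by
  have h1 : (Wr.base (Pi.mulSingle p z) : Wr H Λ) =
      Wr.base (fun l => z ^ (if l = p then (1 : ℤ) else 0)) := by
    rw [← single_eq, zpow_one]
  have h2 := conj_base hz g⁻¹ (fun l => if l = p then (1 : ℤ) else 0)
  have h3 : (g * Wr.base (Pi.mulSingle p z))⁻¹ * (Wr.base (Pi.mulSingle p z) * g) =
      (Wr.base (Pi.mulSingle p z))⁻¹ * (g⁻¹ * Wr.base (Pi.mulSingle p z) * g⁻¹⁻¹) := by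
    group
  rw [h3, h1, h2, ← map_inv, ← map_mul]
  refine ⟨fun l => - (if l = p then (1 : ℤ) else 0) +
    (if (g⁻¹).perm⁻¹ l = p then (1 : ℤ) else 0), ?_, ?_⟩
  · congr 1
    funext l
    rw [Pi.mul_apply, Pi.inv_apply, zpow_add, zpow_neg]
  · rw [Finset.sum_add_distrib, Finset.sum_neg_distrib, Finset.sum_ite_eq' Finset.univ p,
      if_pos (Finset.mem_univ p), Equiv.sum_comp (g⁻¹).perm⁻¹ (fun l => if l = p then (1 : ℤ) else 0),
      Finset.sum_ite_eq' Finset.univ p, if_pos (Finset.mem_univ p), neg_add_cancel, zpow_zero]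

/-- the permutation part of a word in the elements of a scheme -/
theorem lift_perm_mem (S : Scheme) (w : FreeGroup (Fin 4)) :
    (FreeGroup.lift S.X w).perm ∈ closure (Set.range fun i => (S.X i).perm) := by
  have h : (Wr.permHom.comp (FreeGroup.lift S.X)) = FreeGroup.lift (fun i => (S.X i).perm) := by
    apply FreeGroup.ext_hom
    intro i
    simp
  have h2 : (FreeGroup.lift S.X w).perm = FreeGroup.lift (fun i => (S.X i).perm) w :=
    DFunLike.congr_fun h w
  rw [h2, ← FreeGroup.range_lift_eq_closure]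
  exact ⟨w, rfl⟩

end SchemeRec

open SchemeRec in
/-- MODULE SchemeRec (blueprint 1, Scheme => Rec).
`Psi (Dx i) = Wr.map (FreeGroup.lift Dx) (S.X i)`. `H' = (Wr.overP Q) / Z0` or a subquotient. -/
theorem Scheme.exists_hom (S : Scheme) : ∃ Ψ : D →* Wr D S.Λ,
    (∀ i, Ψ (Dx i) = Wr.map (FreeGroup.lift Dx) (S.X i)) ∧
    IsPGroup 3 (Wr.permHom.comp Ψ).range ∧
    ∀ M : Marked, ∃ M' : Marked, orderOf M.z ≤ orderOf M'.z ∧
      ∀ d : D, Wr.map M.rho (Ψ d) = 1 → M'.rho d = 1 := by
  classical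
  have := Fintype.ofFinite S.Λ
  have hD : ∀ g : D, Commute (Dx 0 * Dx 1 * Dx 2 * Dx 3) g := fun g => by
    rw [Dx_prod]
    exact Commute.one_left g
  have hrange : (Wr.permHom '' Set.range fun i => Wr.map (FreeGroup.lift Dx) (S.X i)) =
      Set.range fun i => (S.X i).perm := by
    rw [← Set.range_comp]
    rfl
  have hres : Res3 (closure (Set.range fun i => Wr.map (FreeGroup.lift Dx) (S.X i))) := by
    apply Wr.res3_closure D_res3
    rw [hrange]
    exact S.pgrp
  let Ψ : D →* Wr D S.Λ := Dlift (fun i => Wr.map (FreeGroup.lift Dx) (S.X i))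
    (fun i => S.cube D Dx Dx_pow hD i)
    (by
      rw [← map_mul, ← map_mul, ← map_mul, S.prod D Dx Dx_pow hD, Dx_prod, Pi.mulSingle_one,
        map_one])
    hres
  have hΨ : ∀ i, Ψ (Dx i) = Wr.map (FreeGroup.lift Dx) (S.X i) := fun i => Dlift_x _ _ _ _ i
  have hΨw : ∀ w : FreeGroup (Fin 4), Ψ (Pres3.mk relD w) =
      Wr.map (FreeGroup.lift Dx) (FreeGroup.lift S.X w) := by
    intro w
    have h : Ψ.comp (Pres3.mk relD) = (Wr.map (FreeGroup.lift Dx)).comp (FreeGroup.lift S.X) := by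
      apply FreeGroup.ext_hom
      intro i
      rw [MonoidHom.comp_apply, MonoidHom.comp_apply, FreeGroup.lift_apply_of]
      exact hΨ i
    exact DFunLike.congr_fun h w
  refine ⟨Ψ, hΨ, ?_, ?_⟩
  · have hle : (Wr.permHom.comp Ψ).range ≤ closure (Set.range fun i => (S.X i).perm) := by
      rintro σ ⟨d, rfl⟩
      obtain ⟨w, rfl⟩ := Pres3.mk_surjective relD d
      rw [MonoidHom.comp_apply, hΨw]
      exact lift_perm_mem S w
    exact S.pgrp.to_le hle
  · intro M
    set Q : Subgroup (Equiv.Perm S.Λ) := closure (Set.range fun i => (S.X i).perm) with hQ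
    have hW : IsPGroup 3 (Wr.overP (G := M.H) Q) := Wr.isPGroup_over M.p3 S.pgrp
    have hYw : ∀ w : FreeGroup (Fin 4),
        Wr.map (FreeGroup.lift M.h) (FreeGroup.lift S.X w) ∈ Wr.overP (G := M.H) Q := fun w =>
      lift_perm_mem S w
    have hYi : ∀ i, Wr.map (FreeGroup.lift M.h) (S.X i) ∈ Wr.overP (G := M.H) Q := fun i => by
      have := hYw (FreeGroup.of i)
      rwa [FreeGroup.lift_apply_of] at this
    let N : Subgroup (Wr.overP (G := M.H) Q) := (Z0 (Λ := S.Λ) M.z).subgroupOf _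
    have hN : N.Normal := by
      constructor
      intro a ha g
      rw [Subgroup.mem_subgroupOf] at ha ⊢
      exact Z0_conj M.commute ha g.1
    let Y : Fin 4 → Wr.overP (G := M.H) Q := fun i => ⟨Wr.map (FreeGroup.lift M.h) (S.X i), hYi i⟩
    have hprod : (Y 0 * Y 1 * Y 2 * Y 3).1 = Wr.base (Pi.mulSingle S.pt M.z) := by
      show Wr.map (FreeGroup.lift M.h) (S.X 0) * Wr.map (FreeGroup.lift M.h) (S.X 1) *
        Wr.map (FreeGroup.lift M.h) (S.X 2) * Wr.map (FreeGroup.lift M.h) (S.X 3) = _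
      rw [← map_mul, ← map_mul, ← map_mul, S.prod M.H M.h M.h3 M.cen]
      rfl
    obtain ⟨M', f, hf, hf2⟩ : ∃ (M' : Marked) (f : Wr.overP (G := M.H) Q →* M'.H),
        (∀ i, M'.h i = f (Y i)) ∧ ∀ a, f a = 1 ↔ a.1 ∈ Z0 (Λ := S.Λ) M.z := by
      refine ⟨{ H := Wr.overP (G := M.H) Q ⧸ N
                p3 := hW.to_quotient N
                h := fun i => QuotientGroup.mk' N (Y i)
                h3 := fun i => ?_
                cen := fun g => ?_ }, QuotientGroup.mk' N, fun _ => rfl, fun a => ?_⟩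
      · rw [← map_pow]
        have : Y i ^ 3 = 1 := Subtype.ext (S.cube M.H M.h M.h3 M.cen i)
        rw [this, map_one]
      · obtain ⟨g, rfl⟩ := QuotientGroup.mk'_surjective N g
        rw [← map_mul, ← map_mul, ← map_mul]
        show QuotientGroup.mk' N (Y 0 * Y 1 * Y 2 * Y 3) * QuotientGroup.mk' N g =
          QuotientGroup.mk' N g * QuotientGroup.mk' N (Y 0 * Y 1 * Y 2 * Y 3)
        rw [← map_mul, ← map_mul]
        symm
        apply QuotientGroup.eq.2
        rw [Subgroup.mem_subgroupOf]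
        show (g.1 * (Y 0 * Y 1 * Y 2 * Y 3).1)⁻¹ * ((Y 0 * Y 1 * Y 2 * Y 3).1 * g.1) ∈ _
        rw [hprod]
        exact single_comm M.commute S.pt g.1
      · exact QuotientGroup.eq_one_iff a
    have hz' : M'.z = f (Y 0 * Y 1 * Y 2 * Y 3) := by
      rw [map_mul, map_mul, map_mul, ← hf, ← hf, ← hf, ← hf]
      rfl
    refine ⟨M', ?_, ?_⟩
    · apply Nat.le_of_dvd (orderOf_pos _)
      apply orderOf_dvd_of_pow_eq_one
      have h1 : f ((Y 0 * Y 1 * Y 2 * Y 3) ^ orderOf M'.z) = 1 := by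
        rw [map_pow, ← hz', pow_orderOf_eq_one]
      have h2 := (hf2 _).1 h1
      have h3 : (Wr.base (Pi.mulSingle S.pt M.z) : Wr M.H S.Λ) ^ ((orderOf M'.z : ℕ) : ℤ) ∈
          Z0 (Λ := S.Λ) M.z := by
        rw [zpow_natCast, ← hprod]
        exact h2
      have h4 := single_mem_Z0 h3
      rwa [zpow_natCast] at h4
    · intro d hd
      obtain ⟨w, rfl⟩ := Pres3.mk_surjective relD d
      have h1 : Wr.map M.rho (Ψ (Pres3.mk relD w)) =
          Wr.map (QuotientGroup.mk' M.Z) (Wr.map (FreeGroup.lift M.h) (FreeGroup.lift S.X w)) := by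
        rw [hΨw]
        have h : M.rho.comp (FreeGroup.lift Dx) =
            (QuotientGroup.mk' M.Z).comp (FreeGroup.lift M.h) := by
          apply FreeGroup.ext_hom
          intro i
          rw [MonoidHom.comp_apply, MonoidHom.comp_apply, FreeGroup.lift_apply_of,
            FreeGroup.lift_apply_of, Marked.rho_x]
        ext l
        · exact DFunLike.congr_fun h ((FreeGroup.lift S.X w).lab l)
        · rfl
      rw [h1, Wr.map_eq_one] at hd
      obtain ⟨hd1, hd2⟩ := hd
      have h2 : ∀ l, ∃ k : ℤ, M.z ^ k =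
          (Wr.map (FreeGroup.lift M.h) (FreeGroup.lift S.X w)).lab l := by
        intro l
        have h := hd2 l
        rw [QuotientGroup.mk'_apply, QuotientGroup.eq_one_iff] at h
        exact mem_zpowers_iff.1 h
      choose n hn using h2
      have h3 : Wr.map (FreeGroup.lift M.h) (FreeGroup.lift S.X w) =
          Wr.base (fun l => M.z ^ n l) := by
        ext l
        · exact (hn l).symm
        · rw [Wr.base_perm, hd1]
      have h4 : M'.rho (Pres3.mk relD w) = QuotientGroup.mk' M'.Z (FreeGroup.lift M'.h w) := by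
        have h : M'.rho.comp (Pres3.mk relD) =
            (QuotientGroup.mk' M'.Z).comp (FreeGroup.lift M'.h) := by
          apply FreeGroup.ext_hom
          intro i
          rw [MonoidHom.comp_apply, MonoidHom.comp_apply, FreeGroup.lift_apply_of]
          exact M'.rho_x i
        exact DFunLike.congr_fun h w
      have h5 : FreeGroup.lift M'.h w =
          f ⟨Wr.map (FreeGroup.lift M.h) (FreeGroup.lift S.X w), hYw w⟩ := by
        have h6 : FreeGroup.lift M'.h = f.comp (FreeGroup.lift Y) := by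
          apply FreeGroup.ext_hom
          intro i
          rw [MonoidHom.comp_apply, FreeGroup.lift_apply_of, FreeGroup.lift_apply_of, hf]
        have h7 : (Wr.overP (G := M.H) Q).subtype.comp (FreeGroup.lift Y) =
            (Wr.map (FreeGroup.lift M.h)).comp (FreeGroup.lift S.X) := by
          apply FreeGroup.ext_hom
          intro i
          rw [MonoidHom.comp_apply, MonoidHom.comp_apply, FreeGroup.lift_apply_of,
            FreeGroup.lift_apply_of]
          rfl
        rw [h6, MonoidHom.comp_apply]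
        congr 1
        exact Subtype.ext (DFunLike.congr_fun h7 w)
      rw [h4, h5, QuotientGroup.mk'_apply, QuotientGroup.eq_one_iff]
      refine mem_zpowers_iff.2 ⟨∑ l, n l, ?_⟩
      rw [hz', ← map_zpow]
      have h8 : f (((Y 0 * Y 1 * Y 2 * Y 3) ^ (∑ l, n l))⁻¹ *
          ⟨Wr.map (FreeGroup.lift M.h) (FreeGroup.lift S.X w), hYw w⟩) = 1 := by
        rw [hf2]
        show ((Y 0 * Y 1 * Y 2 * Y 3).1 ^ (∑ l, n l))⁻¹ *
          Wr.map (FreeGroup.lift M.h) (FreeGroup.lift S.X w) ∈ _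
        rw [hprod, h3]
        exact base_mem M.z S.pt n
      rw [map_mul, map_inv] at h8
      exact inv_mul_eq_one.1 h8

end K611
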