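import Pool.Agent.Work.MP_611b97_al.K.Idx
import Pool.Agent.Work.MP_611b97_al.K.Reach

set_option autoImplicit false

namespace K611

open Subgroup

/-- The number of points of `F ⧸ S` visited by the elements of `H`. -/
private theorem sepXi_card_visit {V S : Subgroup F} (hV : N3 V) (hVS : V ≤ S) (H : Subgroup F)
    (t q : F) :
    {l : F ⧸ S | ∃ h ∈ H, l = t⁻¹ • h • q • ((1 : F) : F ⧸ S)}.ncard ≤ V.relIndex H := by
  have := hV.1
  have := hV.finiteIndex
  let ψ : H ⧸ (V.subgroupOf H) → F ⧸ S := Quotient.lift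
    (fun h : H => t⁻¹ • (h : F) • q • ((1 : F) : F ⧸ S)) (by
      intro a b hab
      have hab' : a⁻¹ * b ∈ V.subgroupOf H := QuotientGroup.leftRel_apply.1 hab
      have hab2 : (a : F)⁻¹ * b ∈ V := by simpa [mem_subgroupOf] using hab'
      show t⁻¹ • (a : F) • q • ((1 : F) : F ⧸ S) = t⁻¹ • (b : F) • q • ((1 : F) : F ⧸ S)
      congr 1
      show ((((a : F) * (q * 1) : F)) : F ⧸ S) = ((((b : F) * (q * 1) : F)) : F ⧸ S)
      rw [QuotientGroup.eq]
      have h2 := hV.1.conj_mem _ hab2 q⁻¹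
      have h3 : ((a : F) * (q * 1))⁻¹ * ((b : F) * (q * 1)) = q⁻¹ * ((a : F)⁻¹ * b) * q⁻¹⁻¹ := by
        group
      rw [h3]
      exact hVS h2)
  have hr : {l : F ⧸ S | ∃ h ∈ H, l = t⁻¹ • h • q • ((1 : F) : F ⧸ S)} = Set.range ψ := by
    ext l
    constructor
    · rintro ⟨h, hh, rfl⟩
      exact ⟨QuotientGroup.mk (⟨h, hh⟩ : H), rfl⟩
    · rintro ⟨x, rfl⟩
      induction x using QuotientGroup.induction_on with
      | H h => exact ⟨h, h.2, rfl⟩
  have : Finite (H ⧸ (V.subgroupOf H)) := Subgroup.finite_quotient_of_finiteIndex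
  rw [hr, ← Nat.card_coe_set_eq]
  exact Finite.card_range_le ψ

private theorem sepXi_main {V₁ : Subgroup F} (hV : N3 V₁) {ι κ : Type} [Finite ι] [Nonempty ι]
    [Fintype κ] (g : ι → κ → F) (hg : ∀ i k, g i k ∈ V₁) (hcard : 3 * Fintype.card κ < V₁.index)
    (Q : Finset F) (h1 : (1 : F) ∈ Q) (hgQ : ∀ i k, g i k ∈ Q) (hQ : ∀ q ∈ Q, Reach Q q) :
    ∃ (S : Subgroup F) (s : F), (∃ N, N3 N ∧ N ≤ S) ∧ Fy ∈ S ∧ s ∉ S ∧ s⁻¹ * Fy * s ∈ S ∧
      ∀ i, ∀ h ∈ closure (Set.range (g i)), ∀ t ∈ Q, ∀ q ∈ Q, s⁻¹ * (t⁻¹ * h * q) ∉ S := by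
  classical
  have := Fintype.ofFinite ι
  -- the bound
  let B : ℕ := 36 * (Fintype.card ι * Q.card * Q.card) + 1
  have hex := fun i => idx hV (g i) (hg i) hcard B
  choose W hW hWB using hex
  obtain ⟨V, hVN, hVW⟩ := N3.fintype_inf W hW
  have := hVN.1
  have hfi := hVN.finiteIndex
  have hVB : ∀ i, B ≤ (closure (Set.range (g i)) ⊔ V).index := by
    intro i
    have h2 : closure (Set.range (g i)) ⊔ V ≤ closure (Set.range (g i)) ⊔ W i :=
      sup_le_sup_left (hVW i) _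
    have : (closure (Set.range (g i)) ⊔ V).FiniteIndex := finiteIndex_of_le le_sup_right
    exact (hWB i).trans (Nat.le_of_dvd (Nat.pos_of_ne_zero this.index_ne_zero)
      (index_dvd_of_le h2))
  -- the subgroup `S₁`
  let S₁ : Subgroup F := zpowers Fy ⊔ V
  have hVS : V ≤ S₁ := le_sup_right
  have hS₁ : ∃ N, N3 N ∧ N ≤ S₁ := ⟨V, hVN, hVS⟩
  have hfin : Finite (F ⧸ S₁) := finite_quot hS₁
  have hS₁i : S₁.FiniteIndex := finiteIndex_of_le hVS
  have hidx : V.index ≤ 3 * S₁.index := by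
    rw [← relIndex_mul_index hVS]
    refine Nat.mul_le_mul_right _ ?_
    have h2 : V.relIndex S₁ = V.relIndex (zpowers Fy) := relIndex_sup_right _ _
    rw [h2]
    have h3 : Nat.card (zpowers Fy) ∣ 3 := by
      rw [Nat.card_zpowers]
      exact orderOf_dvd_of_pow_eq_one Fy_pow
    exact Nat.le_of_dvd (by norm_num) ((index_dvd_card (V.subgroupOf (zpowers Fy))).trans h3)
  let o : F ⧸ S₁ := ((1 : F) : F ⧸ S₁)
  let A : ι × F × F → Set (F ⧸ S₁) := fun p =>
    {l | ∃ h ∈ closure (Set.range (g p.1)), l = p.2.1⁻¹ • h • p.2.2 • ((1 : F) : F ⧸ S₁)}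
  let U : Finset (F ⧸ S₁) := (Finset.univ ×ˢ (Q ×ˢ Q)).biUnion fun p => (A p).toFinite.toFinset
  have hU : ∀ i, ∀ h ∈ closure (Set.range (g i)), ∀ t ∈ Q, ∀ q ∈ Q, t⁻¹ • h • q • o ∈ U := by
    intro i h hh t ht q hq
    refine Finset.mem_biUnion.2 ⟨(i, t, q), ?_, ?_⟩
    · simp [ht, hq]
    · exact (Set.Finite.mem_toFinset _).2 ⟨h, hh, rfl⟩
  have hB : 0 < B := Nat.succ_pos _
  have hAcard : ∀ p, ((A p).toFinite.toFinset).card ≤ V.index / B := by
    intro p
    rw [← Set.ncard_eq_toFinset_card]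
    refine (sepXi_card_visit hVN hVS (closure (Set.range (g p.1))) p.2.1 p.2.2).trans ?_
    rw [Nat.le_div_iff_mul_le hB]
    have h2 : V.relIndex (closure (Set.range (g p.1)) ⊔ V) * (closure (Set.range (g p.1)) ⊔ V).index
        = V.index := relIndex_mul_index le_sup_right
    rw [relIndex_sup_right] at h2
    rw [← h2]
    exact Nat.mul_le_mul_left _ (hVB p.1)
  have hUcard : U.card ≤ Fintype.card ι * Q.card * Q.card * (V.index / B) := by
    refine (Finset.card_biUnion_le_card_mul _ _ _ fun p _ => hAcard p).trans (le_of_eq ?_)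
    rw [Finset.card_product, Finset.card_product, Finset.card_univ]
    ring
  have hUlt : 3 * Fintype.card Empty + 12 * U.card < S₁.index := by
    have h2 : V.index / B * B ≤ V.index := Nat.div_mul_le_self _ _
    have h3 : 0 < S₁.index := Nat.pos_of_ne_zero hS₁i.index_ne_zero
    have h4 : B = 36 * (Fintype.card ι * Q.card * Q.card) + 1 := rfl
    rw [Fintype.card_empty, mul_zero, zero_add]
    by_contra hcon
    push Not at hcon
    generalize Fintype.card ι * Q.card * Q.card = n at *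
    have h5 : S₁.index * B ≤ 12 * (n * (V.index / B)) * B :=
      Nat.mul_le_mul_right _ (hcon.trans (Nat.mul_le_mul_left _ hUcard))
    have h6 : 12 * (n * (V.index / B)) * B ≤ 12 * n * V.index := by
      calc 12 * (n * (V.index / B)) * B = 12 * n * (V.index / B * B) := by ring
        _ ≤ 12 * n * V.index := Nat.mul_le_mul_left _ h2
    have h7 : 12 * n * V.index ≤ 12 * n * (3 * S₁.index) := Nat.mul_le_mul_left _ hidx
    have h8 : S₁.index * B ≤ 12 * n * (3 * S₁.index) := (h5.trans h6).trans h7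
    rw [h4] at h8
    nlinarith
  obtain ⟨ρ, hρ, hρU, -, s, hs, hsρ⟩ := exists_char hS₁ U (Empty.elim : Empty → F)
    (fun k => k.elim) hUlt
  have hmul : ∀ a ∈ S₁, ∀ b, (ρ (a * b)).lab o = (ρ a).lab o * (ρ b).lab o := fun a ha b =>
    lab_base_mul ρ hρ ha
  have hone : (ρ 1).lab o = 1 := by rw [map_one]; rfl
  let S : Subgroup F :=
    { carrier := {a | a ∈ S₁ ∧ (ρ a).lab o = 1}
      one_mem' := ⟨one_mem _, hone⟩
      mul_mem' := fun {a b} ha hb => ⟨mul_mem ha.1 hb.1, by rw [hmul a ha.1, ha.2, hb.2, one_mul]⟩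
      inv_mem' := fun {a} ha => ⟨inv_mem ha.1, by
        have h2 := hmul a ha.1 a⁻¹
        rw [mul_inv_cancel, hone, ha.2, one_mul] at h2
        exact h2.symm⟩ }
  have hyo : (ρ Fy).lab o = 1 := by
    obtain ⟨i⟩ := ‹Nonempty ι›
    have h2 := hU i 1 (one_mem _) 1 h1 1 h1
    rw [inv_one, one_smul, one_smul, one_smul] at h2
    exact (hρU o h2).2.2.1
  have hyS₁ : Fy ∈ S₁ := (le_sup_left : zpowers Fy ≤ S₁) (mem_zpowers Fy)
  have hinv : ∀ a ∈ S₁, (ρ a⁻¹).lab o * (ρ a).lab o = 1 := fun a ha => by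
    rw [← hmul _ (inv_mem ha), inv_mul_cancel, hone]
  refine ⟨S, s, ?_, ⟨hyS₁, hyo⟩, fun h => hsρ h.2, ⟨mul_mem (mul_mem (inv_mem hs) hyS₁) hs, ?_⟩, ?_⟩
  · have hP : IsPGroup 3 (Multiplicative (ZMod 3)) := by
      apply IsPGroup.of_card (n := 1)
      rw [Nat.card_eq_fintype_card, Fintype.card_multiplicative, ZMod.card, pow_one]
    refine ⟨ρ.ker, N3_ker_label (isPGroup_toPermHom hS₁) hP ρ hρ, fun a ha => ?_⟩
    rw [MonoidHom.mem_ker] at ha
    refine ⟨?_, by rw [ha]; rfl⟩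
    have h2 : a • o = o := by
      have h3 := hρ a
      rw [ha] at h3
      have h4 := congrArg (fun e : Equiv.Perm (F ⧸ S₁) => e o) h3
      exact h4.symm
    have h5 : (((a * 1 : F)) : F ⧸ S₁) = ((1 : F) : F ⧸ S₁) := h2
    rw [mul_one, eq_comm, QuotientGroup.eq] at h5
    simpa using h5
  · rw [mul_assoc, hmul _ (inv_mem hs), hmul _ hyS₁, hyo, one_mul, hinv s hs]
  · rintro i h hh t ht q hq ⟨h2, h3⟩
    have h4 : t⁻¹ * h * q ∈ S₁ := by
      have h5 := mul_mem hs h2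
      rwa [mul_inv_cancel_left] at h5
    rw [hmul _ (inv_mem hs)] at h3
    have h6 : t⁻¹ • h • q • o = o := by
      show (((t⁻¹ * (h * (q * 1)) : F)) : F ⧸ S₁) = ((1 : F) : F ⧸ S₁)
      rw [eq_comm, QuotientGroup.eq, inv_one, one_mul, mul_one, ← mul_assoc]
      exact h4
    have h7 := lab_visit_eq_one ρ hρ (g i) Q h1 (hgQ i) hQ o
      (fun h hh t ht q hq => hρU _ (hU i h hh t ht q hq)) hh ht hq
    rw [h6] at h7
    rw [h7, mul_one] at h3
    have h8 := hinv s hs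
    rw [h3, one_mul] at h8
    exact hsρ h8

/-- MODULE SepXi (blueprint SEP_XI). -/
theorem sep_Xi {V₁ : Subgroup F} (hV : N3 V₁) {ι κ : Type} [Finite ι] [Fintype κ]
    (g : ι → κ → F) (hg : ∀ i k, g i k ∈ V₁) (hcard : 3 * Fintype.card κ < V₁.index)
    (hy : Fy ∉ V₁)
    (Q : Finset F) (h1 : (1 : F) ∈ Q) (hgQ : ∀ i k, g i k ∈ Q) (hQ : ∀ q ∈ Q, Reach Q q) :
    ∃ (S : Subgroup F) (s : F), (∃ N, N3 N ∧ N ≤ S) ∧ Fy ∈ S ∧ s ∉ S ∧ s⁻¹ * Fy * s ∈ S ∧
      ∀ i, ∀ h ∈ closure (Set.range (g i)), ∀ t ∈ Q, ∀ q ∈ Q, s⁻¹ * (t⁻¹ * h * q) ∉ S := by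
  clear hy
  obtain ⟨S, s, hS, hy', hs, hys, h⟩ := sepXi_main hV (ι := Option ι)
    (fun i k => i.elim 1 fun i => g i k)
    (fun i k => by
      cases i with
      | none => exact one_mem _
      | some i => exact hg i k) hcard Q h1
    (fun i k => by
      cases i with
      | none => exact h1
      | some i => exact hgQ i k) hQ
  exact ⟨S, s, hS, hy', hs, hys, fun i => h (some i)⟩

end K611
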