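import Pool.Agent.Work.MP_611b97_al.K.RecComp

/-!
# The torsion step

For the tuple `(g, 1, 1)` all iterated differences are powers of `g`, with exponents not all
zero; so killing this tuple makes `g` an element of finite order.
-/

set_option autoImplicit false

namespace K611

open Subgroup

universe u

/-- the difference operator on integral cyclic tuples of length three is injective modulo
constants -/
private theorem stepT_const {n : ℕ} (hn : n = 3) (a : ZMod n → ℤ)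
    (h : ∀ k, a (k + 1 + 1) - a (k + 1) = a (k + 1) - a k) : ∀ k, a (k + 1) = a k := by
  subst hn
  have e1 : (0 : ZMod 3) + 1 = 1 := rfl
  have e2 : (1 : ZMod 3) + 1 = 2 := rfl
  have e3 : (2 : ZMod 3) + 1 = 0 := rfl
  have h0 := h 0
  have h1 := h 1
  rw [e1, e2] at h0
  rw [e2, e3] at h1
  have hk : ∀ k : ZMod 3, k = 0 ∨ k = 1 ∨ k = 2 := by decide
  intro k
  rcases hk k with rfl | rfl | rfl
  · rw [e1]; omega
  · rw [e2]; omega
  · rw [e3]; omega

private theorem stepT_T {G : Type u} [Group G] {n : ℕ} (g : G) (a : ZMod n → ℤ) :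
    T (fun k => g ^ a k) = fun k => g ^ (a (k + 1) - a k) := by
  funext k
  show (g ^ a k)⁻¹ * g ^ a (k + 1) = g ^ (a (k + 1) - a k)
  rw [← zpow_neg, ← zpow_add]
  congr 1
  ring

private theorem stepT_iter {G : Type u} [Group G] {n : ℕ} (hn : n = 3) (g : G) (a : ZMod n → ℤ)
    (ha : ¬ ∀ k, a (k + 1) = a k) (m : ℕ) : ∃ b : ZMod n → ℤ, (¬ ∀ k, b (k + 1) = b k) ∧
      T^[m] (fun k => g ^ a k) = fun k => g ^ b k := by
  induction m with
  | zero => exact ⟨a, ha, rfl⟩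
  | succ m ih =>
    obtain ⟨b, hb, hT⟩ := ih
    refine ⟨fun k => b (k + 1) - b k, fun h => hb (stepT_const hn b h), ?_⟩
    rw [Function.iterate_succ_apply', hT, stepT_T]

/-- if `R` kills `(g, 1, 1)` then the image of `g` has finite order -/
private theorem stepT_fin {R : Rec} {n : ℕ} (hn : n = 3) (g : D) (a : ZMod n → ℤ)
    (ha : ¬ ∀ k, a (k + 1) = a k) (h : R.Kills (fun k => g ^ a k)) : IsOfFinOrder (R.Ψ g) := by
  obtain ⟨m, hm⟩ := h
  obtain ⟨b, hb, hT⟩ := stepT_iter hn g a ha m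
  obtain ⟨k, hk⟩ : ∃ k, b k ≠ 0 := by
    by_contra hcon
    push Not at hcon
    exact hb fun k => by rw [hcon, hcon]
  have hmem : R.Ψ g ^ b k ∈ gen (fun k => R.Ψ (T^[m] (fun k => g ^ a k) k)) := by
    refine subset_closure ⟨k, ?_⟩
    show R.Ψ (T^[m] (fun k => g ^ a k) k) = _
    rw [hT, map_zpow]
  haveI : Finite (gen (fun k => R.Ψ (T^[m] (fun k => g ^ a k) k))) := hm.to_subtype
  have h1 : IsOfFinOrder (R.Ψ g ^ b k) :=
    MonoidHom.isOfFinOrder (gen (fun k => R.Ψ (T^[m] (fun k => g ^ a k) k))).subtype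
      (isOfFinOrder_of_finite (⟨_, hmem⟩ : gen (fun k => R.Ψ (T^[m] (fun k => g ^ a k) k))))
  have h2 : IsOfFinOrder (R.Ψ g ^ (b k).natAbs) := by
    rcases Int.natAbs_eq (b k) with h3 | h3
    · rw [← zpow_natCast, ← h3]
      exact h1
    · rw [← zpow_natCast, ← isOfFinOrder_inv_iff, ← zpow_neg, ← h3]
      exact h1
  exact h2.of_pow (Int.natAbs_ne_zero.2 hk)

/-- MODULE StepT: torsion. -/
theorem step_torsion (hkill : ∀ (r : ℕ) (S : Finset (ZMod (3 ^ r) → D)), ∃ R : Rec, ∀ c ∈ S, R.Kills c)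
    (R : Rec) (d : D) : ∃ R' : Rec, IsOfFinOrder ((R.comp R').Ψ d) := by
  classical
  haveI := Fintype.ofFinite R.Λ
  obtain ⟨m, hm, hperm⟩ : ∃ m, 0 < m ∧ (R.Ψ d).perm ^ m = 1 :=
    isOfFinOrder_iff_pow_eq_one.1 (isOfFinOrder_of_finite _)
  let a : ZMod (3 ^ 1) → ℤ := fun k => if k = 0 then 1 else 0
  have ha : ¬ ∀ k, a (k + 1) = a k := by
    intro h
    have := h 0
    revert this
    decide
  obtain ⟨R', hR'⟩ := hkill 1 (Finset.univ.image fun l : R.Λ =>
    fun k => ((R.Ψ (d ^ m)).lab l) ^ a k)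
  refine ⟨R', ?_⟩
  have hlab : ∀ l : R.Λ, IsOfFinOrder (R'.Ψ ((R.Ψ (d ^ m)).lab l)) := by
    intro l
    refine stepT_fin (by norm_num) _ a ha (hR' _ ?_)
    exact Finset.mem_image.2 ⟨l, Finset.mem_univ _, rfl⟩
  choose N hN hN2 using fun l => isOfFinOrder_iff_pow_eq_one.1 (hlab l)
  rw [Rec.comp_apply]
  apply MonoidHom.isOfFinOrder
  have hpow : (Wr.map R'.Ψ (R.Ψ d)) ^ m = Wr.map R'.Ψ (R.Ψ (d ^ m)) := by
    rw [map_pow, map_pow]
  have hp1 : (Wr.map R'.Ψ (R.Ψ (d ^ m))).perm = 1 := by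
    rw [Wr.map_perm, map_pow, Wr.pow_perm, hperm]
  have h1 : IsOfFinOrder ((Wr.map R'.Ψ (R.Ψ d)) ^ m) := by
    rw [hpow, isOfFinOrder_iff_pow_eq_one]
    refine ⟨∏ l, N l, Finset.prod_pos fun l _ => hN l, ?_⟩
    apply Wr.ext
    · funext l
      rw [Wr.pow_lab_of_perm hp1, Wr.map_lab, Wr.one_lab]
      obtain ⟨q, hq⟩ := Finset.dvd_prod_of_mem N (Finset.mem_univ l)
      rw [hq, pow_mul, hN2, one_pow]
    · rw [Wr.pow_perm, hp1, one_pow, Wr.one_perm]
  exact h1.of_pow hm.ne'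

end K611
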