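import Pool.Agent.Work.MP_611b97_al.K.SchemeRec

set_option autoImplicit false

namespace K611

open Subgroup

private theorem th_toPerm_inv {Λ : Type} [MulAction F Λ] (g : F) (l : Λ) :
    (MulAction.toPerm g : Equiv.Perm Λ)⁻¹ l = g⁻¹ • l := by
  have h := map_inv (MulAction.toPermHom F Λ) g
  exact (DFunLike.congr_fun h l).symm

private theorem th_action_pgroup (S : Subgroup F) (hS : ∃ N, N3 N ∧ N ≤ S) :
    IsPGroup 3 (MulAction.toPermHom F (F ⧸ S)).range := by
  obtain ⟨N, hN, hNS⟩ := hS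
  letI := hN.1
  have hle : N ≤ (MulAction.toPermHom F (F ⧸ S)).ker := by
    intro g hg
    rw [MonoidHom.mem_ker]
    ext l
    obtain ⟨w, rfl⟩ := QuotientGroup.mk_surjective l
    show g • (w : F ⧸ S) = (w : F ⧸ S)
    rw [MulAction.Quotient.smul_coe, smul_eq_mul, eq_comm, QuotientGroup.eq]
    apply hNS
    have := hN.1.conj_mem g hg w⁻¹
    rw [inv_inv] at this
    rwa [← mul_assoc]
  have hP := hN.isPGroup
  rintro ⟨p, g, rfl⟩
  obtain ⟨k, hk⟩ := hP (QuotientGroup.mk' N g)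
  refine ⟨k, ?_⟩
  apply Subtype.ext
  show (MulAction.toPermHom F (F ⧸ S) g) ^ 3 ^ k = 1
  rw [← map_pow]
  rw [← map_pow] at hk
  have hmem : g ^ 3 ^ k ∈ N := (QuotientGroup.eq_one_iff _).1 hk
  exact MonoidHom.mem_ker.1 (hle hmem)

private theorem th_fix {Λ : Type} [MulAction F Λ] {E : Λ} {g : F} (h : g • E = E) {l : Λ}
    (hl : l ≠ E) : g • l ≠ E := by
  intro h2
  apply hl
  have h3 : g • l = g • E := by rw [h2, h]
  exact (MulAction.injective g) h3

section theta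

variable (S : Subgroup F) (L : ℕ)

/-- the mark number `j` -/
private def thm (j : ℕ) : F ⧸ S := ((Fa ^ (L * j) : F) : F ⧸ S)

open Classical in
/-- labels at the marks -/
private noncomputable def thf (l : F ⧸ S) : FreeGroup (Fin 4) :=
  if l = thm S L 0 then FreeGroup.of 0 else if l = thm S L 1 then FreeGroup.of 1 else
    if l = thm S L 2 then FreeGroup.of 2 else if l = thm S L 3 then FreeGroup.of 3 else 1

/-- labels at the marks, by the index on the cycle -/
private def thg (i : ℕ) : FreeGroup (Fin 4) :=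
  if i = 0 then FreeGroup.of 0 else if i = L then FreeGroup.of 1 else
    if i = L * 2 then FreeGroup.of 2 else if i = L * 3 then FreeGroup.of 3 else 1

/-- partial products -/
private def thK (i : ℕ) : FreeGroup (Fin 4) :=
  if i = 0 then 1 else if i ≤ L then (FreeGroup.of 0)⁻¹ else
    if i ≤ L * 2 then (FreeGroup.of 0 * FreeGroup.of 1)⁻¹ else
      if i ≤ L * 3 then (FreeGroup.of 0 * FreeGroup.of 1 * FreeGroup.of 2)⁻¹ else
        (FreeGroup.of 0 * FreeGroup.of 1 * FreeGroup.of 2 * FreeGroup.of 3)⁻¹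

open Classical in
/-- the conjugating labels -/
private noncomputable def thh (l : F ⧸ S) : FreeGroup (Fin 4) :=
  if h : ∃ i : ℕ, i < 9 * L ∧ ((Fa ^ i : F) : F ⧸ S) = l then thK L (Nat.find h) else 1

private theorem thK_succ (hL : 0 < L) (i : ℕ) : thK L (i + 1) = (thg L i)⁻¹ * thK L i := by
  unfold thK thg
  by_cases h0 : i = 0
  · subst h0
    rw [if_neg (by omega), if_pos (by omega), if_pos rfl, if_pos rfl, mul_one]
  · rw [if_neg (by omega : i + 1 ≠ 0), if_neg h0, if_neg h0]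
    by_cases h1 : i < L
    · rw [if_pos (by omega), if_neg (by omega), if_neg (by omega), if_neg (by omega),
        if_pos (by omega)]
      group
    · by_cases h2 : i = L
      · rw [if_neg (by omega), if_pos (by omega), if_pos h2, if_pos (by omega), mul_inv_rev]
      · rw [if_neg (by omega : ¬ i + 1 ≤ L), if_neg h2, if_neg (by omega : ¬ i ≤ L)]
        by_cases h3 : i < L * 2
        · rw [if_pos (by omega), if_neg (by omega), if_neg (by omega), if_pos (by omega)]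
          group
        · by_cases h4 : i = L * 2
          · rw [if_neg (by omega), if_pos (by omega), if_pos h4, if_pos (by omega), mul_inv_rev]
          · rw [if_neg (by omega : ¬ i + 1 ≤ L * 2), if_neg h4, if_neg (by omega : ¬ i ≤ L * 2)]
            by_cases h5 : i < L * 3
            · rw [if_pos (by omega), if_neg (by omega), if_pos (by omega)]
              group
            · by_cases h6 : i = L * 3
              · rw [if_neg (by omega), if_pos h6, if_pos (by omega), mul_inv_rev]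
              · rw [if_neg (by omega), if_neg h6, if_neg (by omega)]
                group

variable {S L}

private theorem th_eq (hper : ∀ m : ℤ, Fa ^ m ∈ S ↔ ((9 * L : ℕ) : ℤ) ∣ m) {i j : ℕ}
    (hi : i < 9 * L) (hj : j < 9 * L) (h : ((Fa ^ i : F) : F ⧸ S) = ((Fa ^ j : F) : F ⧸ S)) :
    i = j := by
  rw [QuotientGroup.eq, ← zpow_natCast, ← zpow_natCast, ← zpow_neg, ← zpow_add, hper] at h
  obtain ⟨k, hk⟩ := h
  have h1 : k < 1 := by
    by_contra hcon
    push Not at hcon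
    have : ((9 * L : ℕ) : ℤ) * 1 ≤ ((9 * L : ℕ) : ℤ) * k :=
      mul_le_mul_of_nonneg_left hcon (by positivity)
    omega
  have h2 : -1 < k := by
    by_contra hcon
    push Not at hcon
    have : ((9 * L : ℕ) : ℤ) * k ≤ ((9 * L : ℕ) : ℤ) * (-1) :=
      mul_le_mul_of_nonneg_left hcon (by positivity)
    omega
  have h3 : k = 0 := by omega
  rw [h3, mul_zero] at hk
  omega

private theorem thh_cyc (hper : ∀ m : ℤ, Fa ^ m ∈ S ↔ ((9 * L : ℕ) : ℤ) ∣ m) {i : ℕ}
    (hi : i < 9 * L) : thh S L ((Fa ^ i : F) : F ⧸ S) = thK L i := by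
  classical
  have h : ∃ k : ℕ, k < 9 * L ∧ ((Fa ^ k : F) : F ⧸ S) = ((Fa ^ i : F) : F ⧸ S) := ⟨i, hi, rfl⟩
  unfold thh
  rw [dif_pos h]
  congr 1
  have h2 := Nat.find_spec h
  exact th_eq hper h2.1 hi h2.2

private theorem thh_off {l : F ⧸ S} (h : ¬ ∃ i : ℕ, i < 9 * L ∧ ((Fa ^ i : F) : F ⧸ S) = l) :
    thh S L l = 1 := by
  unfold thh
  rw [dif_neg h]

private theorem thf_cyc (hL : 0 < L) (hper : ∀ m : ℤ, Fa ^ m ∈ S ↔ ((9 * L : ℕ) : ℤ) ∣ m)
    {i : ℕ} (hi : i < 9 * L) : thf S L ((Fa ^ i : F) : F ⧸ S) = thg L i := by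
  classical
  have key : ∀ j : ℕ, j < 4 → (((Fa ^ i : F) : F ⧸ S) = thm S L j ↔ i = L * j) := by
    intro j hj
    unfold thm
    constructor
    · intro h
      refine th_eq hper hi ?_ h
      nlinarith
    · rintro rfl
      rfl
  unfold thf thg
  have k0 := key 0 (by norm_num)
  have k1 := key 1 (by norm_num)
  have k2 := key 2 (by norm_num)
  have k3 := key 3 (by norm_num)
  rw [mul_zero] at k0
  rw [mul_one] at k1
  simp only [k0, k1, k2, k3]

private theorem thf_off (hL : 0 < L) {l : F ⧸ S}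
    (h : ¬ ∃ i : ℕ, i < 9 * L ∧ ((Fa ^ i : F) : F ⧸ S) = l) : thf S L l = 1 := by
  classical
  have key : ∀ j : ℕ, j < 4 → l ≠ thm S L j := by
    rintro j hj rfl
    exact h ⟨L * j, by nlinarith, rfl⟩
  unfold thf
  rw [if_neg (key 0 (by norm_num)), if_neg (key 1 (by norm_num)), if_neg (key 2 (by norm_num)),
    if_neg (key 3 (by norm_num))]

/-- the label of `X 2 * X 3` -/
private theorem th_label [DecidableEq (F ⧸ S)] (hL : 0 < L) (hper : ∀ m : ℤ, Fa ^ m ∈ S ↔ ((9 * L : ℕ) : ℤ) ∣ m)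
    (l : F ⧸ S) : (thh S L l)⁻¹ * thf S L l * thh S L (Fa • l) =
      if Fa • l = ((1 : F) : F ⧸ S) then
        FreeGroup.of 0 * FreeGroup.of 1 * FreeGroup.of 2 * FreeGroup.of 3 else 1 := by
  by_cases h : ∃ i : ℕ, i < 9 * L ∧ ((Fa ^ i : F) : F ⧸ S) = l
  · obtain ⟨i, hi, rfl⟩ := h
    have hs : Fa • ((Fa ^ i : F) : F ⧸ S) = ((Fa ^ (i + 1) : F) : F ⧸ S) := by
      rw [MulAction.Quotient.smul_coe, smul_eq_mul, ← pow_succ']
    rw [hs, thh_cyc hper hi, thf_cyc hL hper hi]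
    by_cases hi2 : i + 1 < 9 * L
    · have hne : ((Fa ^ (i + 1) : F) : F ⧸ S) ≠ ((1 : F) : F ⧸ S) := by
        intro h
        have h2 := th_eq hper hi2 (by omega : 0 < 9 * L) (by rw [h, pow_zero])
        omega
      rw [if_neg hne, thh_cyc hper hi2, thK_succ L hL]
      group
    · have hi3 : i + 1 = 9 * L := by omega
      have h1 : ((Fa ^ (i + 1) : F) : F ⧸ S) = ((1 : F) : F ⧸ S) := by
        rw [eq_comm, QuotientGroup.eq, inv_one, one_mul, ← zpow_natCast, hper, hi3]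
      have h2 : thh S L ((1 : F) : F ⧸ S) = thK L 0 := by
        have := thh_cyc (S := S) (L := L) hper (i := 0) (by omega)
        rwa [pow_zero] at this
      rw [h1, if_pos rfl, h2]
      unfold thK thg
      rw [if_neg (by omega), if_neg (by omega), if_neg (by omega), if_neg (by omega), if_pos rfl,
        if_neg (by omega), if_neg (by omega), if_neg (by omega), if_neg (by omega), inv_inv,
        mul_one, mul_one]
  · have h' : ¬ ∃ i : ℕ, i < 9 * L ∧ ((Fa ^ i : F) : F ⧸ S) = Fa • l := by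
      rintro ⟨i, hi, hi2⟩
      apply h
      rcases Nat.eq_zero_or_pos i with h0 | h0
      · refine ⟨9 * L - 1, by omega, ?_⟩
        have h3 : l = Fa⁻¹ • ((Fa ^ i : F) : F ⧸ S) := by rw [hi2, inv_smul_smul]
        rw [h3, MulAction.Quotient.smul_coe, smul_eq_mul, h0, pow_zero, mul_one, QuotientGroup.eq,
          ← zpow_natCast, ← zpow_neg, ← zpow_neg_one, ← zpow_add, hper]
        refine ⟨-1, ?_⟩
        have : ((9 * L - 1 : ℕ) : ℤ) = ((9 * L : ℕ) : ℤ) - 1 := by
          rw [Nat.cast_sub (by omega)]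
          norm_num
        rw [this]
        ring
      · refine ⟨i - 1, by omega, ?_⟩
        have h3 : l = Fa⁻¹ • ((Fa ^ i : F) : F ⧸ S) := by rw [hi2, inv_smul_smul]
        obtain ⟨k, rfl⟩ : ∃ k, i = k + 1 := ⟨i - 1, by omega⟩
        rw [h3, MulAction.Quotient.smul_coe, smul_eq_mul, Nat.add_sub_cancel, pow_succ',
          inv_mul_cancel_left]
    have hne : Fa • l ≠ ((1 : F) : F ⧸ S) := by
      intro h2
      exact h' ⟨0, by omega, by rw [pow_zero, h2]⟩
    rw [thh_off h, thh_off h', thf_off hL h, if_neg hne, inv_one, one_mul, one_mul]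

/-- the four elements -/
private noncomputable def thX (S : Subgroup F) (L : ℕ) :
    Fin 4 → Wr (FreeGroup (Fin 4)) (F ⧸ S) :=
  ![⟨fun _ => 1, MulAction.toPerm Fx⟩, ⟨fun _ => 1, MulAction.toPerm Fy⟩,
    (Wr.base (thh S L))⁻¹ * ⟨thf S L, MulAction.toPerm Fy⁻¹⟩ * Wr.base (thh S L),
    (Wr.base (thh S L))⁻¹ * ⟨fun _ => 1, MulAction.toPerm Fx⁻¹⟩ * Wr.base (thh S L)]

/-- the images of the generators -/
private def thG : Fin 4 → F := ![Fx, Fy, Fy⁻¹, Fx⁻¹]

private theorem thX_perm (i : Fin 4) : (thX S L i).perm = MulAction.toPerm (thG i) := by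
  fin_cases i
  · rfl
  · rfl
  · show ((Wr.base (thh S L))⁻¹ * (⟨thf S L, MulAction.toPerm Fy⁻¹⟩ : Wr _ _) *
      Wr.base (thh S L)).perm = MulAction.toPerm Fy⁻¹
    rw [Wr.mul_perm, Wr.mul_perm, Wr.inv_perm, Wr.base_perm, inv_one, one_mul, mul_one]
  · show ((Wr.base (thh S L))⁻¹ * (⟨fun _ => 1, MulAction.toPerm Fx⁻¹⟩ : Wr _ _) *
      Wr.base (thh S L)).perm = MulAction.toPerm Fx⁻¹
    rw [Wr.mul_perm, Wr.mul_perm, Wr.inv_perm, Wr.base_perm, inv_one, one_mul, mul_one]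

private theorem thG_eq (i : Fin 4) : piF (Dx i) = thG i := by
  fin_cases i
  · exact piF_x0
  · exact piF_x1
  · exact piF_x2
  · exact piF_x3

private theorem th_cube_mk {Λ : Type} [MulAction F Λ] (a : Wr (FreeGroup (Fin 4)) Λ) (g : F)
    (hg : g ^ 3 = 1) (ha : a.perm = MulAction.toPerm g) {H : Type} [Group H] (h : Fin 4 → H)
    (hl : ∀ l, FreeGroup.lift h (a.lab l) * FreeGroup.lift h (a.lab (g⁻¹ • l)) *
      FreeGroup.lift h (a.lab (g⁻¹ • g⁻¹ • l)) = 1) :
    Wr.map (FreeGroup.lift h) a ^ 3 = 1 := by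
  ext l
  · rw [Wr.pow_three_lab, Wr.map_perm, Wr.map_lab, Wr.map_lab, Wr.map_lab, ha,
      th_toPerm_inv, th_toPerm_inv, hl l, Wr.one_lab]
  · rw [Wr.pow_perm, Wr.map_perm, ha, Wr.one_perm, Equiv.Perm.one_apply]
    have h1 : (MulAction.toPerm g : Equiv.Perm Λ) ^ 3 = 1 := by
      have h2 := map_pow (MulAction.toPermHom F Λ) g 3
      rw [hg, map_one] at h2
      exact h2.symm
    rw [h1, Equiv.Perm.one_apply]

private theorem th_cube_conj {Λ : Type} {A : Type} [Group A] {H : Type} [Group H] (f : A →* H)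
    (b a : Wr A Λ) (h : Wr.map f a ^ 3 = 1) : Wr.map f (b⁻¹ * a * b) ^ 3 = 1 := by
  rw [map_mul, map_mul, map_inv]
  have : ((Wr.map f b)⁻¹ * Wr.map f a * Wr.map f b) ^ 3 =
      (Wr.map f b)⁻¹ * Wr.map f a ^ 3 * Wr.map f b := by
    rw [pow_succ, pow_two, pow_succ, pow_two]
    group
  rw [this, h, mul_one, inv_mul_cancel]

private theorem thm_fix (hfix : ∀ m : ℤ, Fa ^ (-((L : ℤ) * m)) * Fy * Fa ^ ((L : ℤ) * m) ∈ S)
    (j : ℕ) : Fy • thm S L j = thm S L j := by
  unfold thm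
  rw [MulAction.Quotient.smul_coe, smul_eq_mul, eq_comm, QuotientGroup.eq]
  have h := hfix j
  rw [zpow_neg, show ((L : ℤ) * (j : ℤ)) = ((L * j : ℕ) : ℤ) by push_cast; ring, zpow_natCast]
    at h
  rwa [← mul_assoc]

private theorem th_cube (hfix : ∀ m : ℤ, Fa ^ (-((L : ℤ) * m)) * Fy * Fa ^ ((L : ℤ) * m) ∈ S)
    {H : Type} [Group H] (h : Fin 4 → H) (h3 : ∀ i, h i ^ 3 = 1) (i : Fin 4) :
    Wr.map (FreeGroup.lift h) (thX S L i) ^ 3 = 1 := by
  have hFx : Fx⁻¹ ^ 3 = 1 := by rw [inv_pow, Fx_pow, inv_one]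
  have hFy : Fy⁻¹ ^ 3 = 1 := by rw [inv_pow, Fy_pow, inv_one]
  have h3' : ∀ i, h i * h i * h i = 1 := by
    intro i
    have := h3 i
    rwa [pow_succ, pow_two] at this
  fin_cases i
  · apply th_cube_mk _ Fx Fx_pow rfl
    intro l
    show FreeGroup.lift h 1 * FreeGroup.lift h 1 * FreeGroup.lift h 1 = 1
    rw [map_one, mul_one, mul_one]
  · apply th_cube_mk _ Fy Fy_pow rfl
    intro l
    show FreeGroup.lift h 1 * FreeGroup.lift h 1 * FreeGroup.lift h 1 = 1
    rw [map_one, mul_one, mul_one]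
  · apply th_cube_conj
    apply th_cube_mk _ Fy⁻¹ hFy rfl
    intro l
    rw [inv_inv]
    show FreeGroup.lift h (thf S L l) * FreeGroup.lift h (thf S L (Fy • l)) *
      FreeGroup.lift h (thf S L (Fy • Fy • l)) = 1
    have f0 := thm_fix hfix 0
    have f1 := thm_fix hfix 1
    have f2 := thm_fix hfix 2
    have f3 := thm_fix hfix 3
    by_cases e0 : l = thm S L 0
    · rw [e0, f0, f0]
      unfold thf
      rw [if_pos rfl, FreeGroup.lift_apply_of, h3']
    · by_cases e1 : l = thm S L 1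
      · rw [e1] at e0
        rw [e1, f1, f1]
        unfold thf
        rw [if_neg e0, if_pos rfl, FreeGroup.lift_apply_of, h3']
      · by_cases e2 : l = thm S L 2
        · rw [e2] at e0 e1
          rw [e2, f2, f2]
          unfold thf
          rw [if_neg e0, if_neg e1, if_pos rfl, FreeGroup.lift_apply_of, h3']
        · by_cases e3 : l = thm S L 3
          · rw [e3] at e0 e1 e2
            rw [e3, f3, f3]
            unfold thf
            rw [if_neg e0, if_neg e1, if_neg e2, if_pos rfl, FreeGroup.lift_apply_of, h3']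
          · unfold thf
            rw [if_neg e0, if_neg e1, if_neg e2, if_neg e3, if_neg (th_fix f0 e0),
              if_neg (th_fix f1 e1), if_neg (th_fix f2 e2), if_neg (th_fix f3 e3),
              if_neg (th_fix f0 (th_fix f0 e0)), if_neg (th_fix f1 (th_fix f1 e1)),
              if_neg (th_fix f2 (th_fix f2 e2)), if_neg (th_fix f3 (th_fix f3 e3)), map_one,
              mul_one, mul_one]
  · apply th_cube_conj
    apply th_cube_mk _ Fx⁻¹ hFx rfl
    intro l
    show FreeGroup.lift h 1 * FreeGroup.lift h 1 * FreeGroup.lift h 1 = 1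
    rw [map_one, mul_one, mul_one]

private theorem th_prod0 [DecidableEq (F ⧸ S)] (hL : 0 < L)
    (hper : ∀ m : ℤ, Fa ^ m ∈ S ↔ ((9 * L : ℕ) : ℤ) ∣ m) :
    thX S L 0 * thX S L 1 * thX S L 2 * thX S L 3 =
      Wr.base (Pi.mulSingle ((1 : F) : F ⧸ S)
        (FreeGroup.of 0 * FreeGroup.of 1 * FreeGroup.of 2 * FreeGroup.of 3)) := by
  have h23 : thX S L 2 * thX S L 3 =
      (Wr.base (thh S L))⁻¹ * (⟨thf S L, MulAction.toPerm Fa⁻¹⟩ : Wr _ _) *
        Wr.base (thh S L) := by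
    have e : (⟨thf S L, MulAction.toPerm Fa⁻¹⟩ : Wr (FreeGroup (Fin 4)) (F ⧸ S)) =
        ⟨thf S L, MulAction.toPerm Fy⁻¹⟩ * ⟨fun _ => 1, MulAction.toPerm Fx⁻¹⟩ := by
      ext l
      · rw [Wr.mul_lab, mul_one]
      · show Fa⁻¹ • l = Fy⁻¹ • Fx⁻¹ • l
        rw [smul_smul, Fa, mul_inv_rev]
    rw [e]
    show (Wr.base (thh S L))⁻¹ * (⟨thf S L, MulAction.toPerm Fy⁻¹⟩ : Wr _ _) *
        Wr.base (thh S L) * ((Wr.base (thh S L))⁻¹ *
        (⟨fun _ => 1, MulAction.toPerm Fx⁻¹⟩ : Wr _ _) * Wr.base (thh S L)) = _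
    group
  rw [mul_assoc _ (thX S L 2), h23]
  ext l
  · have e1 : (thX S L 0 * thX S L 1 * ((Wr.base (thh S L))⁻¹ *
        (⟨thf S L, MulAction.toPerm Fa⁻¹⟩ : Wr _ _) * Wr.base (thh S L))).lab l =
        (thh S L (Fa⁻¹ • l))⁻¹ * thf S L (Fa⁻¹ • l) * thh S L (Fa • Fa⁻¹ • l) := by
      rw [Wr.mul_lab, Wr.mul_lab]
      have p1 : (thX S L 0 * thX S L 1).perm⁻¹ l = Fa⁻¹ • l := by
        rw [Wr.mul_perm, mul_inv_rev, thX_perm, thX_perm, Equiv.Perm.mul_apply, th_toPerm_inv,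
          th_toPerm_inv]
        show Fy⁻¹ • Fx⁻¹ • l = Fa⁻¹ • l
        rw [smul_smul Fy⁻¹ Fx⁻¹ l, Fa, mul_inv_rev]
      rw [p1]
      show 1 * 1 * _ = _
      rw [one_mul, one_mul, Wr.mul_lab, Wr.mul_lab, Wr.inv_lab, Wr.base_perm,
        Equiv.Perm.one_apply, Wr.base_lab, Wr.base_lab, Wr.mul_perm, Wr.inv_perm, Wr.base_perm,
        inv_one, one_mul, inv_one, Equiv.Perm.one_apply, th_toPerm_inv, inv_inv]
    rw [e1, th_label hL hper, smul_inv_smul, Wr.base_lab]
    by_cases h1 : l = ((1 : F) : F ⧸ S)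
    · rw [h1, if_pos rfl, Pi.mulSingle_eq_same]
    · rw [if_neg h1, Pi.mulSingle_eq_of_ne h1]
  · rw [Wr.base_perm, Equiv.Perm.one_apply]
    simp only [Wr.mul_perm, Wr.inv_perm, Wr.base_perm, inv_one, one_mul, mul_one, thX_perm,
      Equiv.Perm.mul_apply]
    show Fx • Fy • Fa⁻¹ • l = l
    rw [smul_smul, smul_smul, Fa, mul_inv_cancel, one_smul]

end theta

/-- MODULE ThetaScheme: the recursion `Θ` on `Λ = F ⧸ S`; the marks are `Fa ^ (L * j)`,
`j = 0, 1, 2, 3`. -/
theorem exists_Theta_rec (S : Subgroup F) (hS : ∃ N, N3 N ∧ N ≤ S) (L : ℕ) (hL : 0 < L)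
    (hper : ∀ m : ℤ, Fa ^ m ∈ S ↔ ((9 * L : ℕ) : ℤ) ∣ m)
    (hfix : ∀ m : ℤ, Fa ^ (-((L : ℤ) * m)) * Fy * Fa ^ ((L : ℤ) * m) ∈ S) :
    ∃ Ψ : D →* Wr D (F ⧸ S),
      (∀ d, (Ψ d).perm = MulAction.toPerm (piF d)) ∧
      (∀ l, (Ψ (Dx 0)).lab l = 1) ∧ (∀ l, (Ψ (Dx 1)).lab l = 1) ∧
      (∃ h : F ⧸ S → D,
        (∀ l, (Wr.base h * Ψ (Dx 3) * (Wr.base h)⁻¹).lab l = 1) ∧
        (∀ l, (∀ j : Fin 4, l ≠ ((Fa ^ (L * (j : ℕ)) : F) : F ⧸ S)) →
          (Wr.base h * Ψ (Dx 2) * (Wr.base h)⁻¹).lab l = 1) ∧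
        ∀ j : Fin 4, (Wr.base h * Ψ (Dx 2) * (Wr.base h)⁻¹).lab
          ((Fa ^ (L * (j : ℕ)) : F) : F ⧸ S) = Dx j) ∧
      ∀ M : Marked, ∃ M' : Marked, orderOf M.z ≤ orderOf M'.z ∧
        ∀ d : D, Wr.map M.rho (Ψ d) = 1 → M'.rho d = 1 := by
  classical
  haveI hfin : Finite (F ⧸ S) := by
    obtain ⟨N, hN, hNS⟩ := hS
    haveI := hN.finiteIndex
    haveI := Subgroup.finiteIndex_of_le hNS
    exact Subgroup.finite_quotient_of_finiteIndex
  let SC : Scheme :=
    { Λ := F ⧸ S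
      pt := ((1 : F) : F ⧸ S)
      X := thX S L
      pgrp := by
        refine (th_action_pgroup S hS).to_le ?_
        rw [closure_le]
        rintro p ⟨i, rfl⟩
        refine ⟨thG i, ?_⟩
        show MulAction.toPermHom F (F ⧸ S) (thG i) = (thX S L i).perm
        rw [thX_perm]
        rfl
      cube := fun H _ h h3 _ i => th_cube hfix h h3 i
      prod := fun H _ h _ _ => by
        rw [th_prod0 hL hper]
        ext l
        · rw [Wr.map_lab, Wr.base_lab, Wr.base_lab]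
          by_cases hl : l = ((1 : F) : F ⧸ S)
          · rw [hl, Pi.mulSingle_eq_same, Pi.mulSingle_eq_same, map_mul, map_mul, map_mul,
              FreeGroup.lift_apply_of, FreeGroup.lift_apply_of, FreeGroup.lift_apply_of,
              FreeGroup.lift_apply_of]
          · rw [Pi.mulSingle_eq_of_ne hl, Pi.mulSingle_eq_of_ne hl, map_one]
        · rfl }
  obtain ⟨Ψ, hΨ, -, hdeg⟩ := SC.exists_hom
  have hmapbase : ∀ f : F ⧸ S → FreeGroup (Fin 4), Wr.map (FreeGroup.lift Dx) (Wr.base f) =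
      Wr.base (fun l => FreeGroup.lift Dx (f l)) := fun f => rfl
  have h3 : Wr.base (fun l => FreeGroup.lift Dx (thh S L l)) * Ψ (Dx 3) *
      (Wr.base (fun l => FreeGroup.lift Dx (thh S L l)))⁻¹ =
      ⟨fun _ => 1, MulAction.toPerm Fx⁻¹⟩ := by
    rw [hΨ]
    show _ * Wr.map (FreeGroup.lift Dx) ((Wr.base (thh S L))⁻¹ *
      (⟨fun _ => 1, MulAction.toPerm Fx⁻¹⟩ : Wr _ _) * Wr.base (thh S L)) * _ = _
    rw [map_mul, map_mul, map_inv, hmapbase]
    have e : Wr.map (FreeGroup.lift Dx)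
        (⟨fun _ => 1, MulAction.toPerm Fx⁻¹⟩ : Wr (FreeGroup (Fin 4)) (F ⧸ S)) =
        ⟨fun _ => 1, MulAction.toPerm Fx⁻¹⟩ := by
      ext l
      · rw [Wr.map_lab, map_one]
      · rfl
    rw [e]
    group
  have h2 : Wr.base (fun l => FreeGroup.lift Dx (thh S L l)) * Ψ (Dx 2) *
      (Wr.base (fun l => FreeGroup.lift Dx (thh S L l)))⁻¹ =
      ⟨fun l => FreeGroup.lift Dx (thf S L l), MulAction.toPerm Fy⁻¹⟩ := by
    rw [hΨ]
    show _ * Wr.map (FreeGroup.lift Dx) ((Wr.base (thh S L))⁻¹ *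
      (⟨thf S L, MulAction.toPerm Fy⁻¹⟩ : Wr _ _) * Wr.base (thh S L)) * _ = _
    rw [map_mul, map_mul, map_inv, hmapbase]
    have e : Wr.map (FreeGroup.lift Dx)
        (⟨thf S L, MulAction.toPerm Fy⁻¹⟩ : Wr (FreeGroup (Fin 4)) (F ⧸ S)) =
        ⟨fun l => FreeGroup.lift Dx (thf S L l), MulAction.toPerm Fy⁻¹⟩ := rfl
    rw [e]
    group
  refine ⟨Ψ, ?_, ?_, ?_, ⟨fun l => FreeGroup.lift Dx (thh S L l), ?_, ?_, ?_⟩, hdeg⟩
  · have hcomp : Wr.permHom.comp Ψ = (MulAction.toPermHom F (F ⧸ S)).comp piF := by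
      apply D_hom_ext
      intro i
      rw [MonoidHom.comp_apply, MonoidHom.comp_apply, hΨ, thG_eq, Wr.permHom_apply, Wr.map_perm]
      exact thX_perm i
    intro d
    exact DFunLike.congr_fun hcomp d
  · intro l
    rw [hΨ, Wr.map_lab]
    show FreeGroup.lift Dx 1 = 1
    rw [map_one]
  · intro l
    rw [hΨ, Wr.map_lab]
    show FreeGroup.lift Dx 1 = 1
    rw [map_one]
  · intro l
    rw [h3]
  · intro l hl
    rw [h2]
    show FreeGroup.lift Dx (thf S L l) = 1
    unfold thf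
    rw [if_neg (show l ≠ thm S L 0 from hl 0), if_neg (show l ≠ thm S L 1 from hl 1),
      if_neg (show l ≠ thm S L 2 from hl 2), if_neg (show l ≠ thm S L 3 from hl 3), map_one]
  · intro j
    rw [h2]
    show FreeGroup.lift Dx (thf S L ((Fa ^ (L * (j : ℕ)) : F) : F ⧸ S)) = Dx j
    rw [thf_cyc hL hper (by
      have : (j : ℕ) < 4 := j.2
      nlinarith)]
    unfold thg
    fin_cases j
    · show FreeGroup.lift Dx (if L * 0 = 0 then _ else _) = _
      rw [if_pos (by omega), FreeGroup.lift_apply_of]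
      rfl
    · show FreeGroup.lift Dx (if L * 1 = 0 then _ else if L * 1 = L then _ else _) = _
      rw [if_neg (by omega), if_pos (by omega), FreeGroup.lift_apply_of]
      rfl
    · show FreeGroup.lift Dx (if L * 2 = 0 then _ else if L * 2 = L then _ else
        if L * 2 = L * 2 then _ else _) = _
      rw [if_neg (by omega), if_neg (by omega), if_pos (by omega), FreeGroup.lift_apply_of]
      rfl
    · show FreeGroup.lift Dx (if L * 3 = 0 then _ else if L * 3 = L then _ else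
        if L * 3 = L * 2 then _ else if L * 3 = L * 3 then _ else _) = _
      rw [if_neg (by omega), if_neg (by omega), if_neg (by omega), if_pos (by omega),
        FreeGroup.lift_apply_of]
      rfl

end K611
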