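import Pool.Agent.Work.MP_611b97_al.K.Jump
import Pool.Agent.Work.MP_611b97_al.K.FinBound
import Pool.Agent.Work.MP_611b97_al.K.AffK

set_option autoImplicit false

namespace K611

open Subgroup

private theorem typeB_iter_eq {r : ℕ} (c : ZMod (3 ^ r) → F) {n : ℕ} (hn : 1 ≤ n) :
    T (T^[n - 1] c) = T^[n] c ∧ T (T (T^[n - 1] c)) = T^[n + 1] c := by
  obtain ⟨n, rfl⟩ : ∃ m, n = m + 1 := ⟨n - 1, by omega⟩
  rw [Nat.add_sub_cancel, ← Function.iterate_succ_apply' T n c,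
    ← Function.iterate_succ_apply' T (n + 1) c]
  exact ⟨rfl, rfl⟩

private theorem typeB_step {r : ℕ} (c : ZMod (3 ^ r) → F) : ∃ n₁, ∀ n, n₁ ≤ n →
    Module.finrank (ZMod 3) (DD (T^[n] c)) ≤ Module.finrank (ZMod 3) (DD (T^[n + 1] c)) := by
  obtain ⟨V, hV, hx, hy, -⟩ := exists_aff 0
  obtain ⟨n₀, hn₀⟩ := T_eventually_mem c hV
  refine ⟨n₀ + 1, fun n hn => ?_⟩
  obtain ⟨h1, h2⟩ := typeB_iter_eq c (n := n) (by omega)
  have h := mono hV hx hy (T^[n - 1] c) (by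
    rw [h1]
    exact hn₀ n (by omega))
  rwa [h2, h1] at h

/-- MODULE TypeB, monotonicity for large `n`. -/
theorem eventually_mono {r : ℕ} (c : ZMod (3 ^ r) → F) : ∃ n₁, ∀ n m, n₁ ≤ n → n ≤ m →
    Module.finrank (ZMod 3) (DD (T^[n] c)) ≤ Module.finrank (ZMod 3) (DD (T^[m] c)) := by
  obtain ⟨n₁, h⟩ := typeB_step c
  refine ⟨n₁, fun n m hn hm => ?_⟩
  induction m, hm using Nat.le_induction with
  | base => exact le_rfl
  | succ m hnm ih => exact ih.trans (h m (hn.trans hnm))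

private theorem typeB_stable {r : ℕ} (c : ZMod (3 ^ r) → F) : ∃ n₁, ∀ n, n₁ ≤ n →
    Module.finrank (ZMod 3) (DD (T^[n] c)) = Module.finrank (ZMod 3) (DD (T^[n + 1] c)) := by
  obtain ⟨n₁, h⟩ := eventually_mono c
  by_contra hcon
  push Not at hcon
  have key : ∀ j : ℕ, ∃ n, n₁ ≤ n ∧ j ≤ Module.finrank (ZMod 3) (DD (T^[n] c)) := by
    intro j
    induction j with
    | zero => exact ⟨n₁, le_rfl, Nat.zero_le _⟩
    | succ j ih =>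
      obtain ⟨n, hn, hj⟩ := ih
      obtain ⟨m, hm, hne⟩ := hcon n
      refine ⟨m + 1, by omega, ?_⟩
      have h1 := h n m hn hm
      have h2 := h m (m + 1) (by omega) (by omega)
      omega
  obtain ⟨n, -, hn⟩ := key (3 ^ r + 1)
  have := finrank_DD_le (T^[n] c)
  omega

private theorem typeB_conj_pow (g a : F) (n : ℕ) : (g * a * g⁻¹) ^ n = g * a ^ n * g⁻¹ :=
  conj_pow

private theorem typeB_pow_mem {U : Subgroup F} {g : F} {i j : ℕ} (hij : i ≤ j)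
    (h : g * Fa ^ 3 ^ i * g⁻¹ ∈ U) : g * Fa ^ 3 ^ j * g⁻¹ ∈ U := by
  obtain ⟨d, rfl⟩ := Nat.exists_eq_add_of_le hij
  rw [pow_add, pow_mul, ← typeB_conj_pow]
  exact pow_mem h _

/-- MODULE TypeB, M4. -/
theorem typeB {r : ℕ} (c : ZMod (3 ^ r) → F)
    (hB : ∀ n, ∃ (g : F) (k : ℕ), g * Fa ^ 3 ^ k * g⁻¹ ∈ cl (gen (T^[n] c))) (n₀ k₁ : ℕ) :
    ∃ n, n₀ ≤ n ∧ ∃ (g : F) (k : ℕ), k₁ ≤ k ∧ g * Fa ^ 3 ^ k * g⁻¹ ∈ cl (gen (T^[n] c)) ∧
      ∃ ψ : F → ZMod 3, CHom (cl (gen (T^[n] c))) ψ ∧ ψ (g * Fa ^ 3 ^ k * g⁻¹) ≠ 0 := by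
  classical
  obtain ⟨V, hV, hx, hy, -⟩ := exists_aff 0
  obtain ⟨m₁, hm₁⟩ := T_eventually_mem c hV
  obtain ⟨m₂, hm₂⟩ := typeB_stable c
  set N := n₀ + m₁ + m₂ + 1 with hN
  obtain ⟨k₀, hk₀⟩ := fin_bound hV hx hy (T^[N] c) (hm₁ N (by omega))
  set K := k₀ + k₁ with hK
  have hbound : ∀ (g : F) (k : ℕ), g * Fa ^ 3 ^ k * g⁻¹ ∈ cl (gen (T^[N] c)) →
      g * Fa ^ 3 ^ K * g⁻¹ ∈ cl (gen (T^[N] c)) := by
    intro g k h
    rw [← typeB_conj_pow] at h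
    have h1 := hk₀ _ _ h
    rw [typeB_conj_pow] at h1
    exact typeB_pow_mem (by omega) h1
  obtain ⟨V', hV', -, -, hV'a, -⟩ := exists_aff K
  have hnot : ∀ g : F, g * Fa ^ 3 ^ K * g⁻¹ ∉ V' := by
    intro g h
    have h1 : Fa ^ 3 ^ K ∈ V' := by
      have h2 := hV'.1.conj_mem _ h g⁻¹
      have h3 : g⁻¹ * (g * Fa ^ 3 ^ K * g⁻¹) * g⁻¹⁻¹ = Fa ^ 3 ^ K := by group
      rwa [h3] at h2
    have h2 := hV'a ((3 ^ K : ℕ) : ℤ) (by rw [zpow_natCast]; exact h1)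
    have h3 : 3 ^ (K + 1) ∣ 3 ^ K := Int.natCast_dvd_natCast.1 h2
    have h4 := Nat.le_of_dvd (by positivity) h3
    have h5 : 3 ^ K < 3 ^ (K + 1) := Nat.pow_lt_pow_right (by norm_num) (by omega)
    omega
  obtain ⟨m₃, hm₃⟩ := T_eventually_mem c hV'
  set M := N + m₃ with hM
  have hclM : cl (gen (T^[M] c)) ≤ V' := by
    apply cl_le_of_le hV'
    unfold gen
    rw [closure_le]
    rintro _ ⟨k, rfl⟩
    exact hm₃ M (by omega) k
  obtain ⟨g, k, hgk⟩ := hB M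
  have hanti : ∀ {n m : ℕ}, n ≤ m → cl (gen (T^[m] c)) ≤ cl (gen (T^[n] c)) := fun h =>
    cl_mono (gen_iter_anti c h)
  -- the last `n` with `g a^(3^K) g⁻¹` in the closure
  have hNmem : g * Fa ^ 3 ^ K * g⁻¹ ∈ cl (gen (T^[N] c)) :=
    hbound g k (hanti (by omega) hgk)
  have hMnot : g * Fa ^ 3 ^ K * g⁻¹ ∉ cl (gen (T^[M] c)) := fun h => hnot g (hclM h)
  obtain ⟨n, hn1, hn2, hnin, hnout⟩ : ∃ n, N ≤ n ∧ n < M ∧
      g * Fa ^ 3 ^ K * g⁻¹ ∈ cl (gen (T^[n] c)) ∧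
      g * Fa ^ 3 ^ K * g⁻¹ ∉ cl (gen (T^[n + 1] c)) := by
    by_contra hcon
    push Not at hcon
    have : ∀ n, N ≤ n → n ≤ M → g * Fa ^ 3 ^ K * g⁻¹ ∈ cl (gen (T^[n] c)) := by
      intro n hn
      induction n, hn using Nat.le_induction with
      | base => exact fun _ => hNmem
      | succ n hn ih =>
        intro h
        exact hcon n hn (by omega) (ih (by omega))
    exact hMnot (this M (by omega) le_rfl)
  have hex : ∃ e, g * Fa ^ 3 ^ e * g⁻¹ ∈ cl (gen (T^[n + 1] c)) := ⟨k, hanti (by omega) hgk⟩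
  set e := Nat.find hex with he
  have he1 : g * Fa ^ 3 ^ e * g⁻¹ ∈ cl (gen (T^[n + 1] c)) := Nat.find_spec hex
  have heK : K < e := by
    by_contra h
    exact hnout (typeB_pow_mem (by omega) he1)
  have he2 : g * Fa ^ 3 ^ (e - 1) * g⁻¹ ∉ cl (gen (T^[n + 1] c)) :=
    Nat.find_min hex (by omega)
  have he3 : g * Fa ^ 3 ^ (e - 1) * g⁻¹ ∈ cl (gen (T^[n] c)) := typeB_pow_mem (by omega) hnin
  have hcube : (g * Fa ^ 3 ^ (e - 1) * g⁻¹) ^ 3 = g * Fa ^ 3 ^ e * g⁻¹ := by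
    rw [typeB_conj_pow, ← pow_mul, ← pow_succ]
    congr 4
    omega
  obtain ⟨h1, h2⟩ := typeB_iter_eq c (n := n) (by omega)
  obtain ⟨ψ, hψ, hψ'⟩ := jump hV hx hy (T^[n - 1] c) (by
      rw [h1]
      exact hm₁ n (by omega))
    (by
      rw [h2, h1]
      exact hm₂ n (by omega))
    (g := g * Fa ^ 3 ^ (e - 1) * g⁻¹) (by rw [h1]; exact he3) (by rw [h2]; exact he2)
    (by rw [h2, hcube]; exact he1)
  rw [h2] at hψ
  rw [hcube] at hψ'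
  exact ⟨n + 1, by omega, g, e, by omega, he1, ψ, hψ, hψ'⟩

end K611
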