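import Pool.Agent.Work.MP_611b97_al.K.Basic

/-!
# Permutational wreath products
-/

set_option autoImplicit false

namespace K611

open Subgroup

universe u v w

/-- The permutational wreath product: pairs `(f, σ)` with
`(f, σ) (g, τ) = (l ↦ f l * g (σ⁻¹ l), σ τ)`. -/
@[ext] structure Wr (G : Type u) (Λ : Type v) where
  /-- labels -/
  lab : Λ → G
  /-- permutation -/
  perm : Equiv.Perm Λ

namespace Wr

variable {G : Type u} {Λ : Type v} [Group G]

instance : Mul (Wr G Λ) := ⟨fun a b => ⟨fun l => a.lab l * b.lab (a.perm⁻¹ l), a.perm * b.perm⟩⟩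
instance : One (Wr G Λ) := ⟨⟨fun _ => 1, 1⟩⟩
instance : Inv (Wr G Λ) := ⟨fun a => ⟨fun l => (a.lab (a.perm l))⁻¹, a.perm⁻¹⟩⟩

@[simp] theorem mul_lab (a b : Wr G Λ) (l : Λ) :
    (a * b).lab l = a.lab l * b.lab (a.perm⁻¹ l) := rfl
@[simp] theorem mul_perm (a b : Wr G Λ) : (a * b).perm = a.perm * b.perm := rfl
@[simp] theorem one_lab (l : Λ) : (1 : Wr G Λ).lab l = 1 := rfl
@[simp] theorem one_perm : (1 : Wr G Λ).perm = 1 := rfl
@[simp] theorem inv_lab (a : Wr G Λ) (l : Λ) : (a⁻¹).lab l = (a.lab (a.perm l))⁻¹ := rfl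
@[simp] theorem inv_perm (a : Wr G Λ) : (a⁻¹).perm = a.perm⁻¹ := rfl

instance : Group (Wr G Λ) :=
  Group.ofLeftAxioms
    (by
      intro a b c
      ext l
      · simp [mul_assoc]
      · simp [mul_assoc])
    (by
      intro a
      ext l
      · simp
      · simp)
    (by
      intro a
      ext l
      · simp
      · simp)

/-- the permutation part -/
def permHom : Wr G Λ →* Equiv.Perm Λ where
  toFun := Wr.perm
  map_one' := rfl
  map_mul' _ _ := rfl

@[simp] theorem permHom_apply (a : Wr G Λ) : permHom a = a.perm := rfl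

/-- functoriality in the label group -/
def map {H : Type w} [Group H] (f : G →* H) : Wr G Λ →* Wr H Λ where
  toFun a := ⟨fun l => f (a.lab l), a.perm⟩
  map_one' := by ext l <;> simp
  map_mul' a b := by ext l <;> simp

@[simp] theorem map_lab {H : Type w} [Group H] (f : G →* H) (a : Wr G Λ) (l : Λ) :
    (map f a).lab l = f (a.lab l) := rfl
@[simp] theorem map_perm {H : Type w} [Group H] (f : G →* H) (a : Wr G Λ) :
    (map f a).perm = a.perm := rfl

theorem map_eq_one {H : Type w} [Group H] (f : G →* H) (a : Wr G Λ) :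
    map f a = 1 ↔ a.perm = 1 ∧ ∀ l, f (a.lab l) = 1 := by
  constructor
  · intro h
    exact ⟨by simpa using congrArg Wr.perm h, fun l => by simpa using congrFun (congrArg Wr.lab h) l⟩
  · rintro ⟨h1, h2⟩
    ext l
    · simpa using h2 l
    · simp [h1]

/-- the base group -/
def base : (Λ → G) →* Wr G Λ where
  toFun f := ⟨f, 1⟩
  map_one' := rfl
  map_mul' f g := by ext l <;> simp

@[simp] theorem base_lab (f : Λ → G) (l : Λ) : (base f : Wr G Λ).lab l = f l := rfl
@[simp] theorem base_perm (f : Λ → G) : (base f : Wr G Λ).perm = 1 := rfl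

/-- elements without labels -/
def ofPerm : Equiv.Perm Λ →* Wr G Λ where
  toFun σ := ⟨fun _ => 1, σ⟩
  map_one' := rfl
  map_mul' f g := by ext l <;> simp

@[simp] theorem ofPerm_lab (σ : Equiv.Perm Λ) (l : Λ) : (ofPerm σ : Wr G Λ).lab l = 1 := rfl
@[simp] theorem ofPerm_perm (σ : Equiv.Perm Λ) : (ofPerm σ : Wr G Λ).perm = σ := rfl

/-- the cube of an element; used to check that elements have order three -/
theorem pow_three_lab (a : Wr G Λ) (l : Λ) :
    (a ^ 3).lab l = a.lab l * a.lab (a.perm⁻¹ l) * a.lab (a.perm⁻¹ (a.perm⁻¹ l)) := by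
  rw [pow_succ, pow_two]
  simp [mul_assoc]

@[simp] theorem pow_perm (a : Wr G Λ) (n : ℕ) : (a ^ n).perm = a.perm ^ n :=
  map_pow permHom a n

@[simp] theorem zpow_perm (a : Wr G Λ) (n : ℤ) : (a ^ n).perm = a.perm ^ n :=
  map_zpow permHom a n

/-- elements of the base group: labels multiply pointwise -/
theorem pow_lab_of_perm {a : Wr G Λ} (h : a.perm = 1) (n : ℕ) (l : Λ) :
    (a ^ n).lab l = a.lab l ^ n := by
  induction n with
  | zero => simp
  | succ n ih => rw [pow_succ, mul_lab, ih, pow_perm, h, one_pow, inv_one, Equiv.Perm.one_apply,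
      pow_succ]

/-- the stabilizer of a point of `Λ` -/
def stab (l : Λ) : Subgroup (Wr G Λ) where
  carrier := {a | a.perm l = l}
  one_mem' := rfl
  mul_mem' := by
    intro a b ha hb
    show a.perm (b.perm l) = l
    rw [show b.perm l = l from hb, show a.perm l = l from ha]
  inv_mem' := by
    intro a ha
    show a.perm⁻¹ l = l
    rw [Equiv.Perm.inv_eq_iff_eq]
    exact (show a.perm l = l from ha).symm

theorem mem_stab {l : Λ} {a : Wr G Λ} : a ∈ stab l ↔ a.perm l = l := Iff.rfl

theorem mem_stab_inv {l : Λ} {a : Wr G Λ} (h : a ∈ stab l) : a.perm⁻¹ l = l := by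
  rw [Equiv.Perm.inv_eq_iff_eq]
  exact (mem_stab.1 h).symm

/-- the label at a point, a homomorphism on the stabilizer -/
def labHom (l : Λ) : stab (G := G) l →* G where
  toFun a := a.1.lab l
  map_one' := rfl
  map_mul' a b := by
    show a.1.lab l * b.1.lab (a.1.perm⁻¹ l) = _
    rw [mem_stab_inv a.2]

@[simp] theorem labHom_apply (l : Λ) (a : stab (G := G) l) : labHom l a = a.1.lab l := rfl

theorem mul_lab_of_stab {l : Λ} {a : Wr G Λ} (h : a.perm l = l) (b : Wr G Λ) :
    (a * b).lab l = a.lab l * b.lab l := by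
  rw [mul_lab, mem_stab_inv (mem_stab.2 h)]

/-- the group with permutation part in `Q` -/
def overP (Q : Subgroup (Equiv.Perm Λ)) : Subgroup (Wr G Λ) := Q.comap permHom

theorem mem_over {Q : Subgroup (Equiv.Perm Λ)} {a : Wr G Λ} : a ∈ overP Q ↔ a.perm ∈ Q := Iff.rfl

theorem isPGroup_over [Finite Λ] [Finite G] (hG : IsPGroup 3 G) {Q : Subgroup (Equiv.Perm Λ)}
    (hQ : IsPGroup 3 Q) : IsPGroup 3 (overP (G := G) Q) := by
  apply hQ.comap_of_ker_isPGroup
  rintro ⟨a, ha⟩
  have ha' : a.perm = 1 := ha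
  obtain ⟨k, hk⟩ := IsPGroup.iff_card.1 hG
  refine ⟨k, ?_⟩
  apply Subtype.ext
  show a ^ 3 ^ k = 1
  ext l
  · rw [pow_lab_of_perm ha', ← hk, pow_card_eq_one']
    rfl
  · rw [pow_perm, ha', one_pow]
    rfl

instance [Finite Λ] [Finite G] : Finite (Wr G Λ) :=
  Finite.of_injective (fun a : Wr G Λ => (a.lab, a.perm)) (by
    intro a b h
    exact Wr.ext (congrArg Prod.fst h) (congrArg Prod.snd h))

/-- subgroups of the wreath product whose permutations form a 3-group are residually finite-3 -/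
theorem res3_over [Finite Λ] (hG : Res3 G) {Q : Subgroup (Equiv.Perm Λ)}
    (hQ : IsPGroup 3 Q) : Res3 (overP (G := G) Q) := by
  rintro ⟨a, ha⟩ hne
  by_cases hp : a.perm = 1
  · obtain ⟨l, hl⟩ : ∃ l, a.lab l ≠ 1 := by
      by_contra hcon
      push Not at hcon
      apply hne
      apply Subtype.ext
      ext l
      · exact hcon l
      · rw [hp]
        rfl
    obtain ⟨N, hN, hlN⟩ := hG _ hl
    letI := hN.1
    haveI := hN.finite
    let f : overP (G := G) Q →* overP (G := G ⧸ N) Q :=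
      ((map (QuotientGroup.mk' N)).comp (overP (G := G) Q).subtype).codRestrict _ (fun b => b.2)
    refine ⟨f.ker, N3.ker (isPGroup_over hN.isPGroup hQ) f, ?_⟩
    intro h
    rw [MonoidHom.mem_ker] at h
    have h2 := congrFun (congrArg Wr.lab (congrArg Subtype.val h)) l
    exact hlN ((QuotientGroup.eq_one_iff _).1 h2)
  · let f : overP (G := G) Q →* Q :=
      (permHom.comp (overP (G := G) Q).subtype).codRestrict _ (fun b => b.2)
    refine ⟨f.ker, N3.ker hQ f, ?_⟩
    intro h
    rw [MonoidHom.mem_ker] at h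
    exact hp (congrArg Subtype.val h)

theorem res3_of_le [Finite Λ] (hG : Res3 G) {Q : Subgroup (Equiv.Perm Λ)}
    (hQ : IsPGroup 3 Q) {S : Subgroup (Wr G Λ)} (hS : ∀ a ∈ S, a.perm ∈ Q) : Res3 S :=
  (res3_over hG hQ).of_injective (Subgroup.inclusion (show S ≤ overP Q from hS))
    (Subgroup.inclusion_injective _)

/-- Criterion used for the universal properties of `F` and `D`: the subgroup generated by `s` is
residually finite-3 if the permutations generate a 3-group. -/
theorem res3_closure [Finite Λ] (hG : Res3 G) (s : Set (Wr G Λ))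
    (hs : IsPGroup 3 (closure (permHom '' s))) : Res3 (closure s) := by
  refine res3_of_le hG hs ?_
  intro a ha
  rw [← MonoidHom.map_closure]
  exact ⟨a, ha, rfl⟩

/-- iterated wreath products -/
def assoc {Λ₁ : Type v} {Λ₂ : Type w} : Wr (Wr G Λ₂) Λ₁ →* Wr G (Λ₁ × Λ₂) where
  toFun a := ⟨fun l => (a.lab l.1).lab l.2,
    { toFun := fun l => (a.perm l.1, (a.lab (a.perm l.1)).perm l.2)
      invFun := fun l => (a.perm⁻¹ l.1, (a.lab l.1).perm⁻¹ l.2)
      left_inv := by
        rintro ⟨l, m⟩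
        simp
      right_inv := by
        rintro ⟨l, m⟩
        simp }⟩
  map_one' := by
    ext l
    · rfl
    · rfl
    · rfl
  map_mul' a b := by
    ext l
    · rfl
    · rfl
    · simp [Equiv.Perm.mul_apply]

@[simp] theorem assoc_lab {Λ₁ : Type v} {Λ₂ : Type w} (a : Wr (Wr G Λ₂) Λ₁) (l : Λ₁ × Λ₂) :
    (assoc a).lab l = (a.lab l.1).lab l.2 := rfl

theorem assoc_perm_apply {Λ₁ : Type v} {Λ₂ : Type w} (a : Wr (Wr G Λ₂) Λ₁) (l : Λ₁ × Λ₂) :
    (assoc a).perm l = (a.perm l.1, (a.lab (a.perm l.1)).perm l.2) := rfl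

theorem assoc_injective {Λ₁ : Type v} {Λ₂ : Type w} [Nonempty Λ₂] :
    Function.Injective (assoc : Wr (Wr G Λ₂) Λ₁ →* Wr G (Λ₁ × Λ₂)) := by
  rw [injective_iff_map_eq_one]
  intro a ha
  have hlab : ∀ l m, (a.lab l).lab m = 1 := fun l m => congrFun (congrArg Wr.lab ha) (l, m)
  have hperm : ∀ l m, (a.perm l, (a.lab (a.perm l)).perm m) = (l, m) := fun l m =>
    DFunLike.congr_fun (congrArg Wr.perm ha) (l, m)
  have hp : a.perm = 1 := by
    ext l
    obtain ⟨m⟩ := ‹Nonempty Λ₂›
    exact congrArg Prod.fst (hperm l m)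
  ext l
  · exact hlab l _
  · rename_i m
    have h := congrArg Prod.snd (hperm l m)
    rw [hp] at h
    simpa using h
  · rw [hp]
    rfl

end Wr

end K611
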