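import Pool.Agent.Work.MP_611b97_al.K.XiScheme
import Pool.Agent.Work.MP_611b97_al.K.SepXi
import Pool.Agent.Work.MP_611b97_al.K.RecComp
import Pool.Agent.Work.MP_611b97_al.K.AffK

set_option autoImplicit false

namespace K611

open Subgroup

/-- every element of `D` is the value of a word -/
private theorem xiRec_word (d : D) : ∃ w : List D,
    (∀ y ∈ w, y ∈ Set.range Dx ∨ y⁻¹ ∈ Set.range Dx) ∧ w.prod = d := by
  have hd : d ∈ closure (Set.range Dx) := by
    rw [D_closure]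
    exact mem_top d
  rw [← mem_toSubmonoid, closure_toSubmonoid] at hd
  obtain ⟨w, hw, hwp⟩ := Submonoid.exists_list_of_mem_closure hd
  exact ⟨w, fun y hy => (hw y hy).imp id fun h => Set.mem_inv.1 h, hwp⟩

/-- labels of a word read through a set of points with labels in `P` -/
private theorem xiRec_lab_mem {S : Subgroup F} (Ψ : D →* Wr D (F ⧸ S))
    (hp : ∀ d, (Ψ d).perm = MulAction.toPerm (piF d)) (P : Subgroup D) (A : Set (F ⧸ S))
    (hA : ∀ (i : Fin 4), ∀ l ∈ A, (Ψ (Dx i)).lab l ∈ P) (w : List D)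
    (hw : ∀ y ∈ w, y ∈ Set.range Dx ∨ y⁻¹ ∈ Set.range Dx) :
    ∀ l : F ⧸ S, (∀ t : List D, t <+: w → (piF t.prod)⁻¹ • l ∈ A) → (Ψ w.prod).lab l ∈ P := by
  induction w with
  | nil =>
    intro l _
    rw [List.prod_nil, map_one, Wr.one_lab]
    exact one_mem _
  | cons x w ih =>
    intro l hl
    rw [List.prod_cons, map_mul, Wr.mul_lab, hp]
    have h0 : (MulAction.toPerm (piF x) : Equiv.Perm (F ⧸ S))⁻¹ l = (piF x)⁻¹ • l := rfl
    rw [h0]
    refine mul_mem ?_ (ih (fun y hy => hw y (List.mem_cons_of_mem x hy)) _ ?_)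
    · rcases hw x List.mem_cons_self with ⟨i, rfl⟩ | ⟨i, hi⟩
      · have h1 := hl [] (List.nil_prefix)
        rw [List.prod_nil, map_one, inv_one, one_smul] at h1
        exact hA i l h1
      · have h1 := hl [x] (by simp)
        rw [List.prod_singleton] at h1
        have h2 : x = (Dx i)⁻¹ := by rw [hi, inv_inv]
        rw [h2, map_inv, Wr.inv_lab, hp]
        refine inv_mem (hA i _ ?_)
        rw [h2, map_inv, inv_inv] at h1
        exact h1
    · intro t ht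
      have h1 := hl (x :: t) ((List.prefix_cons_inj x).2 ht)
      rw [List.prod_cons, map_mul, mul_inv_rev, mul_smul] at h1
      exact h1

/-- labels of the elements of a subgroup along an orbit -/
private theorem xiRec_gen {S : Subgroup F} (Ψ : D →* Wr D (F ⧸ S))
    (hp : ∀ d, (Ψ d).perm = MulAction.toPerm (piF d)) (P : Subgroup D) {κ : Type} (c : κ → D)
    (H : Subgroup F) (hH : ∀ k, piF (c k) ∈ H) (l : F ⧸ S)
    (h : ∀ u ∈ H, ∀ k, (Ψ (c k)).lab (u • l) ∈ P) {e : D} (he : e ∈ closure (Set.range c)) :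
    piF e ∈ H ∧ ∀ u ∈ H, (Ψ e).lab (u • l) ∈ P := by
  induction he using closure_induction with
  | mem x hx =>
    obtain ⟨k, rfl⟩ := hx
    exact ⟨hH k, fun u hu => h u hu k⟩
  | one =>
    refine ⟨by rw [map_one]; exact one_mem _, fun u _ => ?_⟩
    rw [map_one, Wr.one_lab]
    exact one_mem _
  | mul x y _ _ hx hy =>
    refine ⟨by rw [map_mul]; exact mul_mem hx.1 hy.1, fun u hu => ?_⟩
    rw [map_mul, Wr.mul_lab, hp]
    have h0 : (MulAction.toPerm (piF x) : Equiv.Perm (F ⧸ S))⁻¹ (u • l) =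
        ((piF x)⁻¹ * u) • l := by
      rw [mul_smul]
      rfl
    rw [h0]
    exact mul_mem (hx.2 u hu) (hy.2 _ (mul_mem (inv_mem hx.1) hu))
  | inv x _ hx =>
    refine ⟨by rw [map_inv]; exact inv_mem hx.1, fun u hu => ?_⟩
    rw [map_inv, Wr.inv_lab, hp]
    have h0 : (MulAction.toPerm (piF x) : Equiv.Perm (F ⧸ S)) (u • l) =
        (piF x * u) • l := by
      rw [mul_smul]
      rfl
    rw [h0]
    exact inv_mem (hx.2 _ (mul_mem hx.1 hu))

/-- deep subgroups avoiding the generators -/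
private theorem xiRec_deep (B : ℕ) : ∃ N : Subgroup F, N3 N ∧ Fy ∉ N ∧ B < N.index := by
  obtain ⟨N, hN, _, hy, hm, _⟩ := exists_aff B
  refine ⟨N, hN, hy, ?_⟩
  letI := hN.1
  haveI := hN.finite
  have h1 : (Fa : F) ^ N.index ∈ N := by
    rw [← QuotientGroup.eq_one_iff, QuotientGroup.mk_pow, Subgroup.index]
    exact pow_card_eq_one'
  have h2 := hm (N.index : ℤ) (by rw [zpow_natCast]; exact h1)
  have h3 : 3 ^ (B + 1) ∣ N.index := by exact_mod_cast h2
  have h4 : 0 < N.index := by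
    have := hN.finiteIndex
    exact Nat.pos_of_ne_zero this.index_ne_zero
  have h5 := Nat.le_of_dvd h4 h3
  have h6 : B < 3 ^ B := Nat.lt_pow_self (by norm_num)
  have h7 : 3 ^ B ≤ 3 ^ (B + 1) := Nat.pow_le_pow_right (by norm_num) (by omega)
  omega

/-- MODULE XiRec. -/
theorem exists_Xi {r : ℕ} (S : Finset (ZMod (3 ^ r) → D)) : ∃ R : Rec, ∀ c ∈ S, ∃ n,
    (∀ k, (R.Ψ (T^[n] c k)).perm = 1) ∧
    ∀ l, (∀ k, R.leaf (T^[n] c) l k ∈ Fminus) ∨ (∀ k, R.leaf (T^[n] c) l k ∈ Fplus) := by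
  classical
  haveI : NeZero (3 ^ r) := ⟨by positivity⟩
  obtain ⟨V, hV, hyV, hcard⟩ := xiRec_deep (3 * Fintype.card (ZMod (3 ^ r)))
  -- times at which the tuples are in `V`
  have hn : ∀ c : ZMod (3 ^ r) → D, ∃ n, ∀ k, piF (T^[n] c k) ∈ V := by
    intro c
    obtain ⟨n, hn⟩ := T_eventually_mem (fun k => piF (c k)) hV
    refine ⟨n, fun k => ?_⟩
    have := hn n le_rfl k
    rwa [T_iter_comp] at this
  choose nn hnn using hn
  -- words
  choose w hw hwp using xiRec_word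
  let pre : D → Finset F := fun d => ((w d).inits.map fun t => piF t.prod).toFinset
  have hpre : ∀ (d : D) (t : List D), t <+: w d → piF t.prod ∈ pre d := by
    intro d t ht
    simp only [pre, List.mem_toFinset, List.mem_map, List.mem_inits]
    exact ⟨t, ht, rfl⟩
  obtain ⟨Q, h1, hAQ, hQ⟩ := exists_Reach
    (S.biUnion fun c => (Finset.univ : Finset (ZMod (3 ^ r))).biUnion fun k =>
      pre (T^[nn c] c k))
  have hprQ : ∀ c ∈ S, ∀ k, ∀ t : List D, t <+: w (T^[nn c] c k) → piF t.prod ∈ Q := by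
    intro c hc k t ht
    apply hAQ
    rw [Finset.mem_biUnion]
    refine ⟨c, hc, ?_⟩
    rw [Finset.mem_biUnion]
    exact ⟨k, Finset.mem_univ k, hpre _ t ht⟩
  obtain ⟨U, s, hU, hyU, hs, hys, hsep⟩ := sep_Xi hV
    (fun (c : S) k => piF (T^[nn c.1] c.1 k)) (fun c k => hnn c.1 k) hcard hyV Q h1
    (fun c k => by
      have := hprQ c.1 c.2 k _ (List.prefix_refl _)
      rwa [hwp] at this) hQ
  obtain ⟨Ψ, hp, hm, hpl, hdeg⟩ := exists_Xi_rec U hU s hyU hs hys
  obtain ⟨N, hN, hNU⟩ := hU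
  haveI : Finite (F ⧸ U) := by
    have := hN.finiteIndex
    have := Subgroup.finiteIndex_of_le hNU
    exact Subgroup.finite_quotient_of_finiteIndex
  have hpg : IsPGroup 3 (Wr.permHom.comp Ψ).range := by
    obtain ⟨k, hk⟩ := hN.exists_pow_mem
    rintro ⟨_, d, rfl⟩
    refine ⟨k, Subtype.ext ?_⟩
    show ((Wr.permHom.comp Ψ) d) ^ 3 ^ k = 1
    rw [← map_pow]
    show (Ψ (d ^ 3 ^ k)).perm = 1
    rw [hp, map_pow]
    ext l
    show (piF d) ^ 3 ^ k • l = l
    induction l using QuotientGroup.induction_on with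
    | H f =>
      show (((piF d) ^ 3 ^ k * f : F) : F ⧸ U) = (f : F ⧸ U)
      rw [QuotientGroup.eq]
      apply hNU
      have h2 := hN.1.conj_mem _ (inv_mem (hk (piF d))) f⁻¹
      have h3 : ((piF d) ^ 3 ^ k * f)⁻¹ * f = f⁻¹ * ((piF d) ^ 3 ^ k)⁻¹ * f⁻¹⁻¹ := by group
      rwa [h3]
  let R : Rec := ⟨F ⧸ U, Ψ, hpg, hdeg⟩
  refine ⟨R, fun c hc => ?_⟩
  obtain ⟨n₀, hn₀⟩ := R.exists_perm c
  refine ⟨max (nn c) n₀, hn₀ _ (le_max_right _ _), fun l => ?_⟩
  have hgen : ∀ k, T^[max (nn c) n₀] c k ∈ closure (Set.range (T^[nn c] c)) := fun k =>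
    gen_iter_anti c (le_max_left (nn c) n₀) (subset_closure ⟨k, rfl⟩)
  set H : Subgroup F := closure (Set.range fun k => piF (T^[nn c] c k)) with hHdef
  have hH : ∀ k, piF (T^[nn c] c k) ∈ H := fun k => subset_closure ⟨k, rfl⟩
  have key : ∀ (P : Subgroup D) (E : F ⧸ U), (∀ (i : Fin 4) (l : F ⧸ U), l ≠ E →
      (Ψ (Dx i)).lab l ∈ P) → (∀ u ∈ H, ∀ t ∈ Q, t⁻¹ • u • l ≠ E) →
      ∀ k, R.leaf (T^[max (nn c) n₀] c) l k ∈ P := by
    intro P E hE hne k
    have h2 := (xiRec_gen Ψ hp P (T^[nn c] c) H hH l (by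
      intro u hu k
      have h3 := xiRec_lab_mem Ψ hp P {x | x ≠ E} (fun i l hl => hE i l hl)
        (w (T^[nn c] c k)) (hw _) (u • l) (fun t ht => hne u hu _ (hprQ c hc k t ht))
      rwa [hwp] at h3) (hgen k)).2 1 (one_mem _)
    rwa [one_smul] at h2
  by_cases hsee : ∃ u ∈ H, ∃ t ∈ Q, t⁻¹ • u • l = (s : F ⧸ U)
  · right
    obtain ⟨u, hu, t, ht, hut⟩ := hsee
    refine key Fplus ((1 : F) : F ⧸ U) hpl ?_
    intro u' hu' t' ht' h3
    apply hsep ⟨c, hc⟩ (u * u'⁻¹) (mul_mem hu (inv_mem hu')) t ht t' ht'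
    rw [← QuotientGroup.eq, ← hut]
    have h4 : l = u'⁻¹ • t' • ((1 : F) : F ⧸ U) := by
      rw [← h3, smul_inv_smul, inv_smul_smul]
    rw [h4, ← mul_smul, ← mul_smul, ← mul_smul]
    show ((t⁻¹ * u * u'⁻¹ * t' * 1 : F) : F ⧸ U) = _
    congr 1
    group
  · left
    push Not at hsee
    exact key Fminus (s : F ⧸ U) hm (fun u hu t ht => hsee u hu t ht)

end K611
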