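import Pool.Agent.Work.MP_611b97_al.K.SchemeRec

set_option autoImplicit false

namespace K611

open Subgroup

/-- cyclic sums along the orbits of an element of order three -/
private def xiSum {Λ : Type} [MulAction F Λ] (g : F) (φ : Λ → ℤ) (l : Λ) : ℤ :=
  φ l + φ (g⁻¹ • l) + φ (g⁻¹ • g⁻¹ • l)

private theorem xiSum_add {Λ : Type} [MulAction F Λ] (g : F) (φ ψ : Λ → ℤ) (l : Λ) :
    xiSum g (fun m => φ m + ψ m) l = xiSum g φ l + xiSum g ψ l := by
  unfold xiSum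
  ring

private theorem xiSum_neg {Λ : Type} [MulAction F Λ] (g : F) (φ : Λ → ℤ) (l : Λ) :
    xiSum g (fun m => - φ m) l = - xiSum g φ l := by
  unfold xiSum
  ring

/-- the point mass -/
private def xiDel {Λ : Type} [DecidableEq Λ] (E : Λ) : Λ → ℤ := fun l => if l = E then 1 else 0

private theorem xiDel_smul {Λ : Type} [DecidableEq Λ] [MulAction F Λ] (g : F) (E l : Λ) :
    xiDel (g • E) l = xiDel E (g⁻¹ • l) := by
  unfold xiDel
  by_cases h : l = g • E
  · rw [if_pos h, if_pos (by rw [h, inv_smul_smul])]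
  · rw [if_neg h, if_neg (by
      intro h2
      apply h
      rw [← h2, smul_inv_smul])]

private theorem xiSum_del {Λ : Type} [DecidableEq Λ] [MulAction F Λ] (g : F) (hg : g ^ 3 = 1)
    (E l : Λ) : xiSum g (xiDel (g • E)) l = xiSum g (xiDel E) l := by
  unfold xiSum
  rw [xiDel_smul, xiDel_smul, xiDel_smul]
  have h : g⁻¹ • g⁻¹ • g⁻¹ • l = l := by
    rw [smul_smul, smul_smul]
    have : g⁻¹ * g⁻¹ * g⁻¹ = 1 := by
      have h2 : (g ^ 3)⁻¹ = 1 := by rw [hg, inv_one]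
      rw [← h2]
      group
    rw [this, one_smul]
  rw [h]
  ring

private theorem xiFlow_aux {Λ : Type} [DecidableEq Λ] [MulAction F Λ] (s : F) :
    ∀ E : Λ, ∃ φ : Λ → ℤ, (∀ l, xiSum Fx φ l = 0) ∧
      ∀ l, xiSum Fy φ l = xiSum Fy (xiDel E) l - xiSum Fy (xiDel (s • E)) l := by
  induction s using F_induction with
  | h1 =>
    intro E
    refine ⟨fun _ => 0, fun l => by simp [xiSum], fun l => ?_⟩
    rw [one_smul, sub_self]
    simp [xiSum]
  | hx =>
    intro E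
    refine ⟨fun m => xiDel E m + - xiDel (Fx • E) m, fun l => ?_, fun l => ?_⟩
    · rw [xiSum_add, xiSum_neg, xiSum_del Fx Fx_pow, add_neg_cancel]
    · rw [xiSum_add, xiSum_neg, sub_eq_add_neg]
  | hy =>
    intro E
    refine ⟨fun _ => 0, fun l => by simp [xiSum], fun l => ?_⟩
    rw [xiSum_del Fy Fy_pow, sub_self]
    simp [xiSum]
  | hm g h hg hh =>
    intro E
    obtain ⟨φ, h1, h2⟩ := hh E
    obtain ⟨ψ, h3, h4⟩ := hg (h • E)
    refine ⟨fun m => φ m + ψ m, fun l => ?_, fun l => ?_⟩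
    · rw [xiSum_add, h1, h3, add_zero]
    · rw [xiSum_add, h2, h4, mul_smul]
      ring
  | hi g hg =>
    intro E
    obtain ⟨φ, h1, h2⟩ := hg (g⁻¹ • E)
    refine ⟨fun m => - φ m, fun l => ?_, fun l => ?_⟩
    · rw [xiSum_neg, h1, neg_zero]
    · rw [xiSum_neg, h2, smul_inv_smul]
      ring

/-- MODULE XiScheme, part 1: the flow. -/
theorem exists_flow {Λ : Type} [Finite Λ] [DecidableEq Λ] [MulAction F Λ] (E : Λ) (s : F) :
    ∃ φ : Λ → ℤ,
      (∀ l, (φ l + φ (Fx⁻¹ • l) + φ (Fx⁻¹ • Fx⁻¹ • l) = 0) ∧ (Fx • l = l → φ l = 0)) ∧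
      ∀ l, (Fy • l = l → φ l = (if l = E then 1 else 0) - (if l = s • E then 1 else 0)) ∧
        (Fy • l ≠ l → Fy • E = E → Fy • s • E = s • E →
          φ l + φ (Fy⁻¹ • l) + φ (Fy⁻¹ • Fy⁻¹ • l) = 0) := by
  obtain ⟨φ, h1, h2⟩ := xiFlow_aux s E
  refine ⟨φ, fun l => ⟨h1 l, fun hl => ?_⟩, fun l => ⟨fun hl => ?_, fun hl hE hsE => ?_⟩⟩
  · have h3 : Fx⁻¹ • l = l := by rw [inv_smul_eq_iff, hl]
    have h4 := h1 l
    unfold xiSum at h4
    rw [h3, h3] at h4
    omega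
  · have h3 : Fy⁻¹ • l = l := by rw [inv_smul_eq_iff, hl]
    have h4 := h2 l
    unfold xiSum at h4
    rw [h3, h3] at h4
    show φ l = xiDel E l - xiDel (s • E) l
    omega
  · have key : ∀ E' : Λ, Fy • E' = E' → xiSum Fy (xiDel E') l = 0 := by
      intro E' hE'
      have h3 : Fy⁻¹ • E' = E' := by rw [inv_smul_eq_iff, hE']
      have n1 : l ≠ E' := by
        rintro rfl
        exact hl hE'
      have n2 : Fy⁻¹ • l ≠ E' := by
        intro h
        apply n1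
        rw [inv_smul_eq_iff, hE'] at h
        exact h
      have n3 : Fy⁻¹ • Fy⁻¹ • l ≠ E' := by
        intro h
        apply n2
        rw [inv_smul_eq_iff, hE'] at h
        exact h
      unfold xiSum xiDel
      rw [if_neg n1, if_neg n2, if_neg n3]
      ring
    have h4 := h2 l
    rw [key E hE, key (s • E) hsE, sub_zero] at h4
    exact h4

/-- the label of `X 1` -/
private def xiLab1 {Λ : Type} [DecidableEq Λ] (E₁ E₂ : Λ) (l : Λ) : FreeGroup (Fin 4) :=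
  if l = E₁ then FreeGroup.of 0 else if l = E₂ then FreeGroup.of 2 else 1

/-- the label of `X 2` -/
private def xiLab2 {Λ : Type} [DecidableEq Λ] [MulAction F Λ] (E₁ E₂ : Λ) (φ : Λ → ℤ) (l : Λ) :
    FreeGroup (Fin 4) :=
  if l = E₁ then FreeGroup.of 1 else if l = E₂ then FreeGroup.of 3 else
    (FreeGroup.of 0 * FreeGroup.of 1) ^ φ (Fy • l)

/-- the label of `X 3` -/
private def xiLab3 {Λ : Type} (φ : Λ → ℤ) (l : Λ) : FreeGroup (Fin 4) :=
  (FreeGroup.of 0 * FreeGroup.of 1) ^ (- φ l)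

/-- the four elements -/
private def xiX {Λ : Type} [DecidableEq Λ] [MulAction F Λ] (E₁ E₂ : Λ) (φ : Λ → ℤ) :
    Fin 4 → Wr (FreeGroup (Fin 4)) Λ :=
  ![⟨fun _ => 1, MulAction.toPerm Fx⟩, ⟨xiLab1 E₁ E₂, MulAction.toPerm Fy⟩,
    ⟨xiLab2 E₁ E₂ φ, MulAction.toPerm Fy⁻¹⟩, ⟨xiLab3 φ, MulAction.toPerm Fx⁻¹⟩]

/-- the images of the generators -/
private def xiG : Fin 4 → F := ![Fx, Fy, Fy⁻¹, Fx⁻¹]

private theorem xiX_perm {Λ : Type} [DecidableEq Λ] [MulAction F Λ] (E₁ E₂ : Λ) (φ : Λ → ℤ)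
    (i : Fin 4) : (xiX E₁ E₂ φ i).perm = MulAction.toPerm (xiG i) := by
  fin_cases i <;> rfl

private theorem xiG_eq (i : Fin 4) : piF (Dx i) = xiG i := by
  fin_cases i
  · exact piF_x0
  · exact piF_x1
  · exact piF_x2
  · exact piF_x3

private theorem xi_toPerm_inv {Λ : Type} [MulAction F Λ] (g : F) (l : Λ) :
    (MulAction.toPerm g : Equiv.Perm Λ)⁻¹ l = g⁻¹ • l := by
  have h := map_inv (MulAction.toPermHom F Λ) g
  exact (DFunLike.congr_fun h l).symm


section cubes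

variable {Λ : Type} [DecidableEq Λ] [MulAction F Λ] {E₁ E₂ : Λ} {φ : Λ → ℤ}

private theorem xi_fix {E : Λ} {g : F} (h : g • E = E) {l : Λ} (hl : l ≠ E) : g • l ≠ E := by
  intro h2
  apply hl
  have h3 : g • l = g • E := by rw [h2, h]
  exact (MulAction.injective g) h3

private theorem xi_cube_mk (a : Wr (FreeGroup (Fin 4)) Λ) (g : F) (hg : g ^ 3 = 1)
    (ha : a.perm = MulAction.toPerm g) {H : Type} [Group H] (h : Fin 4 → H)
    (hl : ∀ l, FreeGroup.lift h (a.lab l) * FreeGroup.lift h (a.lab (g⁻¹ • l)) *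
      FreeGroup.lift h (a.lab (g⁻¹ • g⁻¹ • l)) = 1) :
    Wr.map (FreeGroup.lift h) a ^ 3 = 1 := by
  ext l
  · rw [Wr.pow_three_lab, Wr.map_perm, Wr.map_lab, Wr.map_lab, Wr.map_lab, ha,
      xi_toPerm_inv, xi_toPerm_inv, hl l, Wr.one_lab]
  · rw [Wr.pow_perm, Wr.map_perm, ha, Wr.one_perm, Equiv.Perm.one_apply]
    have h1 : (MulAction.toPerm g : Equiv.Perm Λ) ^ 3 = 1 := by
      have h2 := map_pow (MulAction.toPermHom F Λ) g 3
      rw [hg, map_one] at h2
      exact h2.symm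
    rw [h1, Equiv.Perm.one_apply]

private theorem xi_cube (hne : E₂ ≠ E₁) (h1 : Fy • E₁ = E₁) (h2 : Fy • E₂ = E₂)
    (hx : ∀ l, φ l + φ (Fx⁻¹ • l) + φ (Fx⁻¹ • Fx⁻¹ • l) = 0)
    (hy1 : ∀ l, Fy • l = l → φ l = (if l = E₁ then 1 else 0) - (if l = E₂ then 1 else 0))
    (hy2 : ∀ l, Fy • l ≠ l → φ l + φ (Fy⁻¹ • l) + φ (Fy⁻¹ • Fy⁻¹ • l) = 0)
    {H : Type} [Group H] (h : Fin 4 → H) (h3 : ∀ i, h i ^ 3 = 1) (i : Fin 4) :
    Wr.map (FreeGroup.lift h) (xiX E₁ E₂ φ i) ^ 3 = 1 := by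
  have i1 : Fy⁻¹ • E₁ = E₁ := by rw [inv_smul_eq_iff, h1]
  have i2 : Fy⁻¹ • E₂ = E₂ := by rw [inv_smul_eq_iff, h2]
  have h3' : ∀ i, h i * h i * h i = 1 := by
    intro i
    have := h3 i
    rwa [pow_succ, pow_two] at this
  have hFx : Fx⁻¹ ^ 3 = 1 := by rw [inv_pow, Fx_pow, inv_one]
  have hFy : Fy⁻¹ ^ 3 = 1 := by rw [inv_pow, Fy_pow, inv_one]
  fin_cases i
  · apply xi_cube_mk _ Fx Fx_pow rfl
    intro l
    show FreeGroup.lift h 1 * FreeGroup.lift h 1 * FreeGroup.lift h 1 = 1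
    rw [map_one, mul_one, mul_one]
  · apply xi_cube_mk _ Fy Fy_pow rfl
    intro l
    show FreeGroup.lift h (xiLab1 E₁ E₂ l) * FreeGroup.lift h (xiLab1 E₁ E₂ (Fy⁻¹ • l)) *
      FreeGroup.lift h (xiLab1 E₁ E₂ (Fy⁻¹ • Fy⁻¹ • l)) = 1
    by_cases hl1 : l = E₁
    · subst hl1
      rw [i1, i1]
      unfold xiLab1
      rw [if_pos rfl, FreeGroup.lift_apply_of, h3']
    · by_cases hl2 : l = E₂
      · subst hl2
        rw [i2, i2]
        unfold xiLab1
        rw [if_neg hne, if_pos rfl, FreeGroup.lift_apply_of, h3']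
      · have n1 := xi_fix i1 hl1
        have n2 := xi_fix i2 hl2
        have n3 := xi_fix i1 n1
        have n4 := xi_fix i2 n2
        unfold xiLab1
        rw [if_neg hl1, if_neg hl2, if_neg n1, if_neg n2, if_neg n3, if_neg n4, map_one, mul_one,
          mul_one]
  · apply xi_cube_mk _ Fy⁻¹ hFy rfl
    intro l
    rw [inv_inv]
    show FreeGroup.lift h (xiLab2 E₁ E₂ φ l) * FreeGroup.lift h (xiLab2 E₁ E₂ φ (Fy • l)) *
      FreeGroup.lift h (xiLab2 E₁ E₂ φ (Fy • Fy • l)) = 1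
    by_cases hl1 : l = E₁
    · subst hl1
      rw [h1, h1]
      unfold xiLab2
      rw [if_pos rfl, FreeGroup.lift_apply_of, h3']
    · by_cases hl2 : l = E₂
      · subst hl2
        rw [h2, h2]
        unfold xiLab2
        rw [if_neg hne, if_pos rfl, FreeGroup.lift_apply_of, h3']
      · have n1 := xi_fix h1 hl1
        have n2 := xi_fix h2 hl2
        have n3 := xi_fix h1 n1
        have n4 := xi_fix h2 n2
        unfold xiLab2
        rw [if_neg hl1, if_neg hl2, if_neg n1, if_neg n2, if_neg n3, if_neg n4, ← map_mul,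
          ← map_mul, ← zpow_add, ← zpow_add]
        have hsum : φ (Fy • l) + φ (Fy • Fy • l) + φ (Fy • Fy • Fy • l) = 0 := by
          by_cases hf : Fy • l = l
          · rw [hf, hf, hf]
            have := hy1 l hf
            rw [if_neg hl1, if_neg hl2] at this
            omega
          · have hz : Fy • Fy • Fy • l = l := by
              rw [smul_smul, smul_smul]
              have : Fy * Fy * Fy = 1 := by
                rw [← Fy_pow, pow_succ, pow_two]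
              rw [this, one_smul]
            have hw : Fy • (Fy • Fy • Fy • l) ≠ Fy • Fy • Fy • l := by rw [hz]; exact hf
            have := hy2 _ hw
            rw [inv_smul_smul, inv_smul_smul] at this
            omega
        rw [hsum, zpow_zero, map_one]
  · apply xi_cube_mk _ Fx⁻¹ hFx rfl
    intro l
    rw [inv_inv]
    show FreeGroup.lift h (xiLab3 φ l) * FreeGroup.lift h (xiLab3 φ (Fx • l)) *
      FreeGroup.lift h (xiLab3 φ (Fx • Fx • l)) = 1
    unfold xiLab3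
    rw [← map_mul, ← map_mul, ← zpow_add, ← zpow_add]
    have := hx (Fx • Fx • l)
    rw [inv_smul_smul, inv_smul_smul] at this
    have hs : -φ l + -φ (Fx • l) + -φ (Fx • Fx • l) = 0 := by omega
    rw [hs, zpow_zero, map_one]

private theorem xi_prod (hne : E₂ ≠ E₁) (h1 : Fy • E₁ = E₁) (h2 : Fy • E₂ = E₂)
    (hy1 : ∀ l, Fy • l = l → φ l = (if l = E₁ then 1 else 0) - (if l = E₂ then 1 else 0))
    {H : Type} [Group H] (h : Fin 4 → H)
    (hc : ∀ g, Commute (h 0 * h 1 * h 2 * h 3) g) :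
    Wr.map (FreeGroup.lift h) (xiX E₁ E₂ φ 0 * xiX E₁ E₂ φ 1 * xiX E₁ E₂ φ 2 * xiX E₁ E₂ φ 3) =
      Wr.base (Pi.mulSingle (Fx • E₂) (h 0 * h 1 * h 2 * h 3)) := by
  have p1 : φ E₁ = 1 := by
    have := hy1 E₁ h1
    rw [if_pos rfl, if_neg (Ne.symm hne)] at this
    simpa using this
  have p2 : φ E₂ = -1 := by
    have := hy1 E₂ h2
    rw [if_pos rfl, if_neg hne] at this
    simpa using this
  have i1 : Fy⁻¹ • E₁ = E₁ := by rw [inv_smul_eq_iff, h1]
  have i2 : Fy⁻¹ • E₂ = E₂ := by rw [inv_smul_eq_iff, h2]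
  ext l
  · obtain ⟨m, rfl⟩ : ∃ m, l = Fx • m := ⟨Fx⁻¹ • l, (smul_inv_smul _ _).symm⟩
    have hL : (Wr.map (FreeGroup.lift h)
        (xiX E₁ E₂ φ 0 * xiX E₁ E₂ φ 1 * xiX E₁ E₂ φ 2 * xiX E₁ E₂ φ 3)).lab (Fx • m) =
        FreeGroup.lift h (xiLab1 E₁ E₂ m * xiLab2 E₁ E₂ φ (Fy⁻¹ • m) * xiLab3 φ m) := by
      rw [Wr.map_lab]
      congr 1
      simp only [Wr.mul_lab, Wr.mul_perm, mul_inv_rev, Equiv.Perm.mul_apply, xiX_perm,
        xi_toPerm_inv]
      show 1 * xiLab1 E₁ E₂ (Fx⁻¹ • Fx • m) * xiLab2 E₁ E₂ φ (Fy⁻¹ • Fx⁻¹ • Fx • m) *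
        xiLab3 φ ((Fy⁻¹)⁻¹ • Fy⁻¹ • Fx⁻¹ • Fx • m) = _
      rw [inv_smul_smul, inv_smul_smul, one_mul]
    rw [hL, Wr.base_lab]
    by_cases hm1 : m = E₁
    · subst hm1
      rw [i1, Pi.mulSingle_eq_of_ne (fun hh => hne ((MulAction.injective Fx) hh).symm)]
      unfold xiLab1 xiLab2 xiLab3
      rw [if_pos rfl, if_pos rfl, p1, zpow_neg, zpow_one, mul_inv_cancel, map_one]
    · by_cases hm2 : m = E₂
      · subst hm2
        rw [i2, Pi.mulSingle_eq_same]
        unfold xiLab1 xiLab2 xiLab3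
        rw [if_neg hne, if_pos rfl, if_neg hne, if_pos rfl, p2, neg_neg, zpow_one]
        simp only [map_mul, FreeGroup.lift_apply_of]
        have hz := (hc (h 0 * h 1)).eq
        have hz2 : h 0 * h 1 * (h 2 * h 3 * (h 0 * h 1)) = h 0 * h 1 * (h 0 * h 1 * h 2 * h 3) := by
          rw [← hz]
          simp only [mul_assoc]
        exact mul_left_cancel hz2
      · have n1 : Fy⁻¹ • m ≠ E₁ := xi_fix i1 hm1
        have n2 : Fy⁻¹ • m ≠ E₂ := xi_fix i2 hm2
        rw [Pi.mulSingle_eq_of_ne (fun hh => hm2 ((MulAction.injective Fx) hh))]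
        unfold xiLab1 xiLab2 xiLab3
        rw [if_neg hm1, if_neg hm2, if_neg n1, if_neg n2, smul_inv_smul, one_mul, ← zpow_add,
          add_neg_cancel, zpow_zero, map_one]
  · show (xiX E₁ E₂ φ 0 * xiX E₁ E₂ φ 1 * xiX E₁ E₂ φ 2 * xiX E₁ E₂ φ 3).perm l = l
    simp only [Wr.mul_perm, Equiv.Perm.mul_apply, xiX_perm]
    show Fx • Fy • Fy⁻¹ • Fx⁻¹ • l = l
    rw [smul_inv_smul, smul_inv_smul]

end cubes

private theorem xi_action_pgroup (S : Subgroup F) (hS : ∃ N, N3 N ∧ N ≤ S) :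
    IsPGroup 3 (MulAction.toPermHom F (F ⧸ S)).range := by
  obtain ⟨N, hN, hNS⟩ := hS
  letI := hN.1
  have hle : N ≤ (MulAction.toPermHom F (F ⧸ S)).ker := by
    intro g hg
    rw [MonoidHom.mem_ker]
    ext l
    obtain ⟨w, rfl⟩ := QuotientGroup.mk_surjective l
    show g • (w : F ⧸ S) = (w : F ⧸ S)
    rw [MulAction.Quotient.smul_coe, smul_eq_mul, eq_comm, QuotientGroup.eq]
    apply hNS
    have := hN.1.conj_mem g hg w⁻¹
    rw [inv_inv] at this
    rwa [← mul_assoc]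
  have hP := hN.isPGroup
  rintro ⟨p, g, rfl⟩
  obtain ⟨k, hk⟩ := hP (QuotientGroup.mk' N g)
  refine ⟨k, ?_⟩
  apply Subtype.ext
  show (MulAction.toPermHom F (F ⧸ S) g) ^ 3 ^ k = 1
  rw [← map_pow]
  rw [← map_pow] at hk
  have hmem : g ^ 3 ^ k ∈ N := (QuotientGroup.eq_one_iff _).1 hk
  exact MonoidHom.mem_ker.1 (hle hmem)

/-- MODULE XiScheme, part 2: the recursion `Ξ` on `Λ = F ⧸ S`, `E1 = 1`, `E2 = s`. -/
theorem exists_Xi_rec (S : Subgroup F) (hS : ∃ N, N3 N ∧ N ≤ S) (s : F) (hy : Fy ∈ S)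
    (hs : s ∉ S) (hys : s⁻¹ * Fy * s ∈ S) :
    ∃ Ψ : D →* Wr D (F ⧸ S),
      (∀ d, (Ψ d).perm = MulAction.toPerm (piF d)) ∧
      (∀ (i : Fin 4) (l : F ⧸ S), l ≠ (s : F ⧸ S) → (Ψ (Dx i)).lab l ∈ Fminus) ∧
      (∀ (i : Fin 4) (l : F ⧸ S), l ≠ ((1 : F) : F ⧸ S) → (Ψ (Dx i)).lab l ∈ Fplus) ∧
      ∀ M : Marked, ∃ M' : Marked, orderOf M.z ≤ orderOf M'.z ∧
        ∀ d : D, Wr.map M.rho (Ψ d) = 1 → M'.rho d = 1 := by
  classical
  haveI hfin : Finite (F ⧸ S) := by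
    obtain ⟨N, hN, hNS⟩ := hS
    haveI := hN.finiteIndex
    haveI := Subgroup.finiteIndex_of_le hNS
    exact Subgroup.finite_quotient_of_finiteIndex
  have hE1 : Fy • ((1 : F) : F ⧸ S) = ((1 : F) : F ⧸ S) := by
    rw [MulAction.Quotient.smul_coe, smul_eq_mul, mul_one, eq_comm, QuotientGroup.eq, inv_one,
      one_mul]
    exact hy
  have hE2 : Fy • (s : F ⧸ S) = (s : F ⧸ S) := by
    rw [MulAction.Quotient.smul_coe, smul_eq_mul, eq_comm, QuotientGroup.eq, ← mul_assoc]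
    exact hys
  have hsE : s • ((1 : F) : F ⧸ S) = (s : F ⧸ S) := by
    rw [MulAction.Quotient.smul_coe, smul_eq_mul, mul_one]
  have hne : (s : F ⧸ S) ≠ ((1 : F) : F ⧸ S) := by
    intro h
    apply hs
    rw [eq_comm, QuotientGroup.eq, inv_one, one_mul] at h
    exact h
  obtain ⟨φ, hx, hyy⟩ := exists_flow (Λ := F ⧸ S) ((1 : F) : F ⧸ S) s
  rw [hsE] at hyy
  have hx' := fun l => (hx l).1
  have hy1 := fun l => (hyy l).1
  have hy2 := fun l hl => (hyy l).2 hl hE1 hE2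
  let SC : Scheme :=
    { Λ := F ⧸ S
      pt := Fx • (s : F ⧸ S)
      X := xiX ((1 : F) : F ⧸ S) (s : F ⧸ S) φ
      pgrp := by
        refine (xi_action_pgroup S hS).to_le ?_
        rw [closure_le]
        rintro p ⟨i, rfl⟩
        refine ⟨xiG i, ?_⟩
        show MulAction.toPermHom F (F ⧸ S) (xiG i) = (xiX _ _ φ i).perm
        rw [xiX_perm]
        rfl
      cube := fun H _ h h3 _ i => xi_cube hne hE1 hE2 hx' hy1 hy2 h h3 i
      prod := fun H _ h _ hc => xi_prod hne hE1 hE2 hy1 h hc }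
  obtain ⟨Ψ, hΨ, -, hdeg⟩ := SC.exists_hom
  refine ⟨Ψ, ?_, ?_, ?_, hdeg⟩
  · have hcomp : Wr.permHom.comp Ψ = (MulAction.toPermHom F (F ⧸ S)).comp piF := by
      apply D_hom_ext
      intro i
      rw [MonoidHom.comp_apply, MonoidHom.comp_apply, hΨ, xiG_eq, Wr.permHom_apply, Wr.map_perm]
      exact xiX_perm _ _ φ i
    intro d
    exact DFunLike.congr_fun hcomp d
  · intro i l hl
    rw [hΨ, Wr.map_lab]
    have ha : ∀ n : ℤ, FreeGroup.lift Dx ((FreeGroup.of 0 * FreeGroup.of 1) ^ n) ∈ Fminus := by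
      intro n
      rw [map_zpow, map_mul, FreeGroup.lift_apply_of, FreeGroup.lift_apply_of]
      exact zpow_mem Da_mem_minus n
    have h0 : FreeGroup.lift Dx (FreeGroup.of 0) ∈ Fminus := by
      rw [FreeGroup.lift_apply_of]
      exact subset_closure (by simp)
    have h1 : FreeGroup.lift Dx (FreeGroup.of 1) ∈ Fminus := by
      rw [FreeGroup.lift_apply_of]
      exact subset_closure (by simp)
    fin_cases i
    · show FreeGroup.lift Dx 1 ∈ Fminus
      rw [map_one]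
      exact one_mem _
    · show FreeGroup.lift Dx (xiLab1 ((1 : F) : F ⧸ S) (s : F ⧸ S) l) ∈ Fminus
      unfold xiLab1
      rw [if_neg hl]
      split_ifs
      · exact h0
      · rw [map_one]
        exact one_mem _
    · show FreeGroup.lift Dx (xiLab2 ((1 : F) : F ⧸ S) (s : F ⧸ S) φ l) ∈ Fminus
      unfold xiLab2
      rw [if_neg hl]
      split_ifs
      · exact h1
      · exact ha _
    · show FreeGroup.lift Dx (xiLab3 φ l) ∈ Fminus
      exact ha _
  · intro i l hl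
    rw [hΨ, Wr.map_lab]
    have ha : ∀ n : ℤ, FreeGroup.lift Dx ((FreeGroup.of 0 * FreeGroup.of 1) ^ n) ∈ Fplus := by
      intro n
      rw [map_zpow, map_mul, FreeGroup.lift_apply_of, FreeGroup.lift_apply_of]
      exact zpow_mem Da_mem_plus n
    have h2 : FreeGroup.lift Dx (FreeGroup.of 2) ∈ Fplus := by
      rw [FreeGroup.lift_apply_of]
      exact subset_closure (by simp)
    have h3 : FreeGroup.lift Dx (FreeGroup.of 3) ∈ Fplus := by
      rw [FreeGroup.lift_apply_of]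
      exact subset_closure (by simp)
    fin_cases i
    · show FreeGroup.lift Dx 1 ∈ Fplus
      rw [map_one]
      exact one_mem _
    · show FreeGroup.lift Dx (xiLab1 ((1 : F) : F ⧸ S) (s : F ⧸ S) l) ∈ Fplus
      unfold xiLab1
      rw [if_neg hl]
      split_ifs
      · exact h2
      · rw [map_one]
        exact one_mem _
    · show FreeGroup.lift Dx (xiLab2 ((1 : F) : F ⧸ S) (s : F ⧸ S) φ l) ∈ Fplus
      unfold xiLab2
      rw [if_neg hl]
      split_ifs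
      · exact h3
      · exact ha _
    · show FreeGroup.lift Dx (xiLab3 φ l) ∈ Fplus
      exact ha _

end K611
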